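import Pool.Agent.PLY.G.Rv5

/-!
Project PLY (polynomial bound), Lemma G, part (a): THE REVERSAL. `rev`: `Tube κ` (`κ < 1`) gives `Slope κ₁` for every
`κ₁ < (3 + κ) / (1 - κ)`.
-/

namespace Pool.Agent.PLY.G

open Pool.Agent.Hhelper14.SAW Pool.Agent.HHP Pool.Agent.HEP Pool.Agent.BEX Pool.Agent.BEX.C
open scoped ENNReal

/-- All the vertices of the composed word are in a box. -/
theorem aw_box {r t B : ℕ} {P : List Bool} {T : List Blk} {Q : List Bool} (hP : PW r t B P)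
    (hQ : PW r t B (Q.map (! ·))) (hT : T ≠ []) :
    ∀ z ∈ V (aw P T Q), -3 * (B : ℤ) ≤ F1 z ∧ F1 z ≤ 12 * r + 2 + 3 * hj T + 3 * B := by
  obtain ⟨a, ha1, ha2, ha3, ha4, ha5, ha6⟩ := hP
  have htu := tn_up_of ha3 ha4
  obtain ⟨b, hb1, hb2, hb3, hb4, hb5, hb6⟩ := mir hQ
  obtain ⟨e1, e2⟩ := aw_V (Q := Q) htu hT
  have hF0 := F0_pt hT
  have hhj := hj_pos hT
  have hbr := jn_Br hT
  have f11 : F1 (0, 1) = 2 := by simp [F1]
  intro z hz
  rw [e1, List.mem_append, List.mem_append] at hz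
  rcases hz with hz | hz | hz
  · have g1 := ha3.1.2 z hz
    have g2 := ha3.2 z hz
    have g3 := ha6 z hz
    have g4 := F015 z
    constructor <;> omega
  · obtain ⟨u, hu, rfl⟩ := List.mem_map.1 hz
    have g2 := hbr.1.2 u hu
    rw [F1_add, F1_add, F1_L, f11, ha4]
    constructor <;> omega
  · obtain ⟨u, hu, rfl⟩ := List.mem_map.1 hz
    have g1 := hb4 u hu
    have g2 := F015 u
    rw [F1_add, F1_add, F1_L, f11, ha4, F0_add, hF0]
    constructor <;> omega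

/-- Width of a block of a word in a box. -/
lemma tub_of_box {l : List Blk} (hl : l ≠ []) {D : ℕ} (h : ∀ z ∈ V (jn l), |z.2| ≤ (D : ℤ)) {E0 : ℝ}
    (hE : (3 * D + 2 : ℝ) ≤ E0) : hsI.toAlph.tub wdb 0 E0 l := by
  intro l1 c l2 e
  have h1 : |xj l1| ≤ (D : ℤ) := by
    have h2 := h (ptz l1 + (0, 0)) ((mem_jn hl _).2 ⟨l1, c, l2, (0, 0), e, head_mem _ _ _, rfl⟩)
    rw [Prod.snd_add, snd_ptz] at h2
    simpa using h2
  have h2 : wdb c ≤ 2 * D + 2 := by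
    unfold wdb
    refine Nat.add_le_add_right (Finset.sup_le fun p hp => ?_) 2
    rw [Finset.mem_product, List.mem_toFinset, List.mem_toFinset] at hp
    have g1 := h (ptz l1 + p.1) ((mem_jn hl _).2 ⟨l1, c, l2, p.1, e, hp.1, rfl⟩)
    have g2 := h (ptz l1 + p.2) ((mem_jn hl _).2 ⟨l1, c, l2, p.2, e, hp.2, rfl⟩)
    rw [Prod.snd_add] at g1 g2
    rw [abs_le] at g1 g2
    omega
  have h3 : |(hsI.toAlph.x l1 : ℝ)| ≤ D := by
    have : (|xj l1| : ℤ) ≤ (D : ℤ) := h1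
    exact_mod_cast this
  have h4 : (wdb c : ℝ) ≤ 2 * D + 2 := by exact_mod_cast h2
  have e2 : |(hsI.toAlph.x l1 : ℝ) - 0 * hsI.toAlph.h l1| + wdb c + |(0 : ℝ)| * hsI.toAlph.ht c =
      |(hsI.toAlph.x l1 : ℝ)| + wdb c := by
    rw [zero_mul, sub_zero, abs_zero, zero_mul, add_zero]
  rw [e2]
  linarith

/-- The reversal. -/
theorem rev (hQ : hsI.Quarter) {κ κ₁ : ℝ} (hκ : κ < 1) (hκ₁ : κ₁ < (3 + κ) / (1 - κ)) (hT : hsI.toAlph.Tube wdb κ) :
    hsI.toAlph.Slope wdb κ₁ := by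
  obtain ⟨q, A, K, hq, hA, hm⟩ := PW_mass hQ
  have hκ' : 0 < 1 - κ := by linarith
  set η : ℝ := 2 - (κ₁ + 1) * (1 - κ) / 2 with hη
  have hη0 : 0 < η := by
    rw [lt_div_iff₀ hκ'] at hκ₁
    rw [hη]
    nlinarith
  obtain ⟨Λ0, hΛ0⟩ := exists_nat_ge ((15 + 6 * A) / (3 * (1 - κ)))
  obtain ⟨Λ1, hΛ1⟩ := exists_nat_ge (|κ₁ + 1| * (6 + A) / η)
  set Λ : ℕ := Λ0 + Λ1 + 1 with hΛ
  have hΛa : (15 + 6 * A : ℝ) ≤ 3 * (1 - κ) * Λ := by
    rw [div_le_iff₀ (by positivity)] at hΛ0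
    rw [hΛ]
    push_cast
    have : 0 ≤ (Λ1 : ℝ) * (1 - κ) := by positivity
    nlinarith
  have hΛb : |κ₁ + 1| * (6 + A : ℝ) ≤ η * Λ := by
    rw [div_le_iff₀ hη0] at hΛ1
    rw [hΛ]
    push_cast
    have : 0 ≤ (Λ0 : ℝ) * η := by positivity
    nlinarith
  have hΛ1' : (1 : ℝ) ≤ Λ := by
    rw [hΛ]
    push_cast
    have h1 : (0 : ℝ) ≤ Λ0 := by positivity
    have h2 : (0 : ℝ) ≤ Λ1 := by positivity
    linarith
  have hΛn : 1 ≤ Λ := by omega
  have hq' : (1 : ℝ) ≤ q := by exact_mod_cast hq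
  obtain ⟨c, n0, hc, hX⟩ := hT (1 / (2 * q * Λ)) (by positivity)
  obtain ⟨C2, hC2⟩ := exists_nat_ge (6 + A + (1 - κ) * Λ)
  set C : ℕ := 3 * (10 + 4 * Λ + 2 * A + C2) + 2 with hCdef
  refine ⟨c * ((K : ℝ≥0∞)⁻¹ * (K : ℝ≥0∞)⁻¹), C, n0 + 2 * q, ?_, fun n hn => ?_⟩
  · refine ENNReal.mul_pos hc.ne' ?_
    have : (K : ℝ≥0∞)⁻¹ ≠ 0 := ENNReal.inv_ne_zero.2 (ENNReal.natCast_ne_top K)
    exact mul_ne_zero this this
  have hn1 : 1 ≤ n := by omega
  have hn1' : (1 : ℝ) ≤ n := by exact_mod_cast hn1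
  obtain ⟨X, hPF, hXl, hXm⟩ := hX (Λ * n) (by nlinarith)
  obtain ⟨hm1, hm2⟩ := hm n hn1
  set t := n / q with ht
  set B := A * n with hB
  -- the width of the tube
  set E0 : ℝ := (n : ℝ) / (2 * q) with hE0
  have hE0' : 1 / (2 * q * Λ) * ((Λ * n : ℕ) : ℝ) = E0 := by
    rw [hE0]
    push_cast
    field_simp
  have hE0n : 0 ≤ E0 := by positivity
  have htq : E0 ≤ t := by
    have h1 : n < q * (t + 1) := by
      rw [ht]
      exact Nat.lt_mul_div_succ n hq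
    have h2 : (n : ℝ) < q * (t + 1) := by exact_mod_cast h1
    have h3 : (2 * q : ℝ) ≤ n := by
      have : 2 * q ≤ n := by omega
      exact_mod_cast this
    rw [hE0, div_le_iff₀ (by positivity)]
    nlinarith
  have htn : t ≤ n := Nat.div_le_self n q
  have htn' : (t : ℝ) ≤ n := by exact_mod_cast htn
  have hE0r : E0 ≤ n := htq.trans htn'
  have hX0 : ∀ l ∈ X, l ≠ [] := by
    rintro l hl rfl
    have := (hXl _ hl).1
    have h0 : hsI.toAlph.h [] = 0 := rfl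
    rw [h0] at this
    have : 0 < Λ * n := by positivity
    omega
  -- geometry of one tube word
  have geo : ∀ T ∈ X, (∀ z ∈ V (jn T), -(3 * (t : ℤ)) ≤ F5 z ∧ F5 z ≤ F5 (pt T) + 3 * t) ∧
      6 * (n : ℤ) + 3 * (B : ℕ) ≤ F5 (pt T) ∧ 2 * (F5 (pt T) : ℝ) ≤ 3 * (1 - κ) * hj T + 3 * E0 ∧
      ((Λ : ℝ) * n ≤ hj T) ∧ ((hj T : ℝ) ≤ 2 * Λ * n) := by
    intro T hTX
    have hT0 := hX0 T hTX
    obtain ⟨g1, g2, g3⟩ := hXl T hTX
    rw [hE0'] at g3
    have g1' : (Λ : ℝ) * n ≤ hj T := by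
      have : Λ * n ≤ hj T := g1
      exact_mod_cast this
    have g2' : (hj T : ℝ) ≤ 2 * Λ * n := by
      have h1 : (hj T : ℝ) ≤ (1 + 1 / (2 * q * Λ)) * ((Λ * n : ℕ) : ℝ) := g2
      have h2 : 1 / (2 * (q : ℝ) * Λ) ≤ 1 := by
        rw [div_le_one (by positivity)]
        nlinarith
      refine h1.trans ?_
      push_cast
      have h3 : 0 ≤ (Λ : ℝ) * n := by positivity
      nlinarith
    have hend := tube_E hE0n g3
    rw [abs_le] at hend
    have hpt5 : 2 * (F5 (pt T) : ℝ) = 3 * hj T - 3 * xj T := by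
      have h1 := F5_mod (pt T)
      rw [F0_pt hT0, snd_pt hT0] at h1
      exact_mod_cast h1
    have hκh : 0 ≤ (1 - κ) * hj T := by positivity
    refine ⟨fun z hz => ?_, ?_, ?_, g1', g2'⟩
    · have h1 := tube_V hT0 g3 hz
      rw [abs_le] at h1
      have h2 : 2 * (F5 z : ℝ) = F0 z - 3 * z.2 := by exact_mod_cast F5_mod z
      have h3 := (jn_Br hT0).1.2 z hz
      have h4 : (0 : ℝ) ≤ F0 z := by exact_mod_cast h3.1
      have h5 : (F0 z : ℝ) ≤ 3 * hj T := by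
        have h6 := hj_pos hT0
        have : F0 z ≤ 3 * (hj T : ℤ) := by
          have := h3.2
          omega
        exact_mod_cast this
      have h6 : 0 ≤ (1 - κ) * F0 z := by positivity
      have h7 : (1 - κ) * F0 z ≤ (1 - κ) * (3 * hj T) := mul_le_mul_of_nonneg_left h5 hκ'.le
      constructor
      · have : (-(3 * (t : ℝ))) ≤ F5 z := by nlinarith
        exact_mod_cast this
      · have : (F5 z : ℝ) ≤ F5 (pt T) + 3 * t := by nlinarith
        exact_mod_cast this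
    · have h7 : (1 - κ) * (Λ * n) ≤ (1 - κ) * hj T := mul_le_mul_of_nonneg_left g1' hκ'.le
      have h8 : (15 + 6 * A : ℝ) * n ≤ 3 * (1 - κ) * Λ * n := mul_le_mul_of_nonneg_right hΛa (by positivity)
      have : (6 * (n : ℝ) + 3 * (A * n)) ≤ F5 (pt T) := by nlinarith
      rw [hB]
      exact_mod_cast this
    · nlinarith
  -- the class of the composed words
  set R : List Bool → Prop := fun W => ∃ P T Q, PWm n t B P ∧ T ∈ X ∧ PW n t B (Q.map (! ·)) ∧ W = aw P T Q with hR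
  have hRB : ∀ W, R W → ∃ N, Br N W := by
    rintro W ⟨P, T, Q, hP, hTX, hQ', rfl⟩
    obtain ⟨g1, g2, -⟩ := geo T hTX
    obtain ⟨N, a, s, b, σ, h1, -⟩ := aw_Br hP.1 hQ' (hX0 T hTX) (w := 3 * t) (by omega) (by omega) (by omega) g1 g2
    exact ⟨N, h1⟩
  have hcl : ∀ l : List Blk, l ≠ [] ∧ R (jn l) → (n ≤ hsI.toAlph.h l ∧ hsI.toAlph.h l ≤ C * n ∧
      κ₁ * hsI.toAlph.h l ≤ hsI.toAlph.x l ∧ hsI.toAlph.tub wdb 0 (C * n) l) := by
    rintro l ⟨hl, P, T, Q, hP, hTX, hQ', hW⟩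
    have hT0 := hX0 T hTX
    obtain ⟨g1, g2, g3, g4, g5⟩ := geo T hTX
    obtain ⟨N, a, s, b, σ, h1, a1, a2, b1, b2, s1, s2, hN, σ1, σ2, hE1⟩ :=
      aw_Br hP.1 hQ' hT0 (w := 3 * t) (by omega) (by omega) (by omega) g1 g2
    have hbox := aw_box hP.1 hQ' hT0
    rw [← hW] at h1 hE1 hbox
    have hNl : hj l = N + 1 := by
      have h2 := (jn_Br hl).2
      have h3 := h1.2
      have h4 := hj_pos hl
      omega
    have hx : 3 * xj l = 2 * F1 (E (jn l)) - F0 (E (jn l)) := by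
      have h2 := F1_mod (E (jn l))
      rw [jn_E hl] at h2
      omega
    rw [h1.2, hE1] at hx
    have hBz : (B : ℤ) = A * n := by rw [hB]; push_cast; ring
    have hxl : (2 * (hj T : ℤ)) - N ≤ xj l := by omega
    have hNr : 3 * (N : ℝ) = 3 * s + F5 (pt T) + 3 * b := by exact_mod_cast hN
    have hsr : (s : ℝ) ≤ 2 * n + A * n := by
      have : (s : ℤ) ≤ 2 * n + A * n := by rw [← hBz]; exact_mod_cast s2
      exact_mod_cast this
    have hbr : (b : ℝ) ≤ 2 * n := by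
      have : b ≤ 2 * n := by omega
      exact_mod_cast this
    have hNub : (N : ℝ) + 1 ≤ (6 + A) * n + (1 - κ) * hj T / 2 := by nlinarith
    have hNub2 : (N : ℝ) + 1 ≤ C2 * n := by
      have h2 : (1 - κ) * hj T ≤ (1 - κ) * (2 * Λ * n) := mul_le_mul_of_nonneg_left g5 hκ'.le
      have h3 : (6 + A + (1 - κ) * Λ) * n ≤ C2 * n := mul_le_mul_of_nonneg_right hC2 (by positivity)
      nlinarith
    have hNn : N + 1 ≤ C2 * n := by exact_mod_cast hNub2
    have e1 : hsI.toAlph.h l = N + 1 := hNl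
    have e2 : hsI.toAlph.x l = xj l := rfl
    rw [e1, e2]
    refine ⟨?_, ?_, ?_, ?_⟩
    · have : (2 : ℤ) * n ≤ N := by
        have h2 : (0 : ℤ) ≤ B := by positivity
        omega
      omega
    · calc N + 1 ≤ C2 * n := hNn
        _ ≤ C * n := Nat.mul_le_mul_right n (by omega)
    · have h2 : ((2 * (hj T : ℝ)) - N) ≤ xj l := by exact_mod_cast hxl
      have h3 : 0 ≤ |κ₁ + 1| - (κ₁ + 1) := by linarith [le_abs_self (κ₁ + 1)]
      push_cast
      by_cases h4 : κ₁ + 1 ≤ 0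
      · have h5 : (0 : ℝ) ≤ (N : ℝ) + 1 := by positivity
        have h6 : (0 : ℝ) ≤ hj T := by positivity
        nlinarith [mul_nonneg (neg_nonneg.2 h4) h5]
      · rw [abs_of_pos (not_le.1 h4)] at hΛb
        have h5 : (κ₁ + 1) * ((N : ℝ) + 1) ≤ (κ₁ + 1) * ((6 + A) * n + (1 - κ) * hj T / 2) :=
          mul_le_mul_of_nonneg_left hNub (not_le.1 h4).le
        have h6 : (κ₁ + 1) * (6 + A) * n ≤ η * Λ * n := mul_le_mul_of_nonneg_right hΛb (by positivity)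
        have h7 : η * (Λ * n) ≤ η * hj T := mul_le_mul_of_nonneg_left g4 hη0.le
        have h8 : η * hj T = 2 * hj T - (κ₁ + 1) * (1 - κ) / 2 * hj T := by rw [hη]; ring
        nlinarith
    · refine tub_of_box hl (D := (10 + 4 * Λ + 2 * A + C2) * n) (fun z hz => ?_) ?_
      · have k1 := hbox z hz
        have k2 := h1.1.2 z hz
        have k3 := F1_mod z
        have hjn : hj T ≤ 2 * Λ * n := by exact_mod_cast g5
        have k4 : (hj T : ℤ) ≤ 2 * (Λ * n) := by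
          have : (hj T : ℤ) ≤ ((2 * Λ * n : ℕ) : ℤ) := by exact_mod_cast hjn
          push_cast at this
          linarith
        have k5 : (N : ℤ) + 1 ≤ C2 * n := by exact_mod_cast hNn
        rw [hBz] at k1
        rw [abs_le]
        push_cast
        have k6 : (0 : ℤ) ≤ A * n := by positivity
        have k7 : (0 : ℤ) ≤ Λ * n := by positivity
        have k8 : (1 : ℤ) ≤ n := by exact_mod_cast hn1
        constructor <;> nlinarith
      · rw [hCdef]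
        push_cast
        nlinarith
  have hfin := ms_lists R hRB
  have hmass := aw_mass (r := n) (t := t) (B := B) hPF hX0
  have hle : ms xE R ≤ ∑' l, ind (n ≤ hsI.toAlph.h l ∧ hsI.toAlph.h l ≤ C * n ∧
      κ₁ * hsI.toAlph.h l ≤ hsI.toAlph.x l ∧ hsI.toAlph.tub wdb 0 (C * n) l) * hsI.toAlph.w l := by
    rw [hfin]
    exact ENNReal.tsum_le_tsum fun l => mul_le_mul_left (ind_mono (hcl l)) _
  refine le_trans ?_ hle
  refine le_trans ?_ hmass
  by_cases hK : K = 0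
  · exfalso
    rw [hK] at hm2
    simp at hm2
  have hK0 : (K : ℝ≥0∞) ≠ 0 := by exact_mod_cast hK
  have hKt : (K : ℝ≥0∞) ≠ ∞ := ENNReal.natCast_ne_top K
  have m1 : (K : ℝ≥0∞)⁻¹ * hsI.U n ≤ ms xE (PW n t B) := by
    rw [ENNReal.inv_mul_le_iff hK0 hKt]
    exact hm1
  have m2 : (K : ℝ≥0∞)⁻¹ ≤ ms xE (PWm n t B) := by
    rw [← mul_one (K : ℝ≥0∞)⁻¹, ENNReal.inv_mul_le_iff hK0 hKt]
    exact hm2
  calc c * ((K : ℝ≥0∞)⁻¹ * (K : ℝ≥0∞)⁻¹) * hsI.U n = (K : ℝ≥0∞)⁻¹ * c * ((K : ℝ≥0∞)⁻¹ * hsI.U n) := by ring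
    _ ≤ ms xE (PWm n t B) * (∑' l, ind (l ∈ X) * wj l) * ms xE (PW n t B) := by
        gcongr
        exact hXm

end Pool.Agent.PLY.G
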