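import Pool.Agent.PLY.G.StAll
import Pool.Agent.PLY.G.Rv6
import Pool.Agent.GAP.IAc

/-!
Project PLY (MP_8c6f77_pr, honeycomb lattice, polynomial bound), LEMMA G, part (a) + (b): flat slabs of every slope (`FlatP K` for every
`K`) for the fresh chain of `hsI`, from the regularity of `b` only. Reversal (files Rv*) and steering (files St*).
-/

namespace Pool.Agent.HEP

/-- The fresh chain follows every line with positive probability. -/
theorem tube_all (hQ : hsI.Quarter) (κ : ℝ) : hsI.toAlph.Tube wdb κ :=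
  hsI_tube hQ hsI_anti (fun _ _ _ h1 h2 h3 => Pool.Agent.PLY.G.rev hQ h1 h2 h3) κ

/-- The flat slabs. -/
theorem flat (hQ : hsI.Quarter) (K : ℕ) : hsI.toAlph.FlatP wdb K :=
  hsI_flatP hQ hsI_anti (fun _ _ _ h1 h2 h3 => Pool.Agent.PLY.G.rev hQ h1 h2 h3) K

end Pool.Agent.HEP
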