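import Pool.Agent.PLY.G.Hit
import Pool.Agent.PLF.Defs

/-!
Project PLY, Lemma G: the crossings of a level by the last block of the long leg (fields `hi`, `lo` of `Sys.Hit`, PLY/V/Defs) for `hsI`, `wdb`.
The vertices of the long leg in the row of the level `q` all belong to the last block (first passage), so they are within its width of its
end; the row is not empty.
-/

namespace Pool.Agent.HEP

open Pool.Agent.Hhelper14.SAW Pool.Agent.HHP
open scoped ENNReal

private lemma HiLo_cross {c m : ℕ} {Y : List Bool} (hY : Br c Y) (h1 : 1 ≤ m) (h2 : m ≤ c) :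
    (∃ z ∈ V Y, F0 z = 3 * (m : ℤ) - 2) ∧ ∃ z ∈ V Y, F0 z = 3 * (m : ℤ) := by
  rcases split_last (fun z => F0 z < 3 * (m : ℤ)) (W := Y) ⟨(0, 0), o_mem Y, by
      simp only [F0]; omega⟩ with h3 | ⟨P, b, Q, rfl, h3, h4⟩
  · have := hY.2
    omega
  · have h5 := cross_right (gd_std P) h3 (not_lt.1 (h4 _ (head_mem _ _ _)))
    refine ⟨⟨E P, ?_, h5.2.1⟩, ⟨E P + tn b (Dr P), ?_, h5.2.2⟩⟩
    · rw [V_append]
      exact List.mem_append_left _ (E_mem P)
    · rw [V_append]
      exact List.mem_append_right _ (head_mem _ _ _)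

private lemma HiLo_finT (l : List Blk) (j : ℕ) : (rowT l j).Finite := by
  have h : rowT l j ⊆ (fun z => (fe (jn l.reverse) + (-1, 0) - z).2) '' ({z | z = o' ∨ z ∈ V (jn l.reverse)}) := by
    rintro y ⟨z, h1, -, rfl⟩
    exact ⟨z, h1, rfl⟩
  refine Set.Finite.subset (Set.Finite.image _ ?_) h
  refine Set.Finite.subset (((V (jn l.reverse)).toFinset ∪ {o'}).finite_toSet) ?_
  rintro z (h1 | h1)
  · simp [h1]
  · simp [h1]

private lemma HiLo_finF (l : List Blk) (j : ℕ) : (rowF l j).Finite := by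
  refine Set.Finite.subset (((V (jn l)).toFinset.image Prod.snd).finite_toSet) ?_
  rintro y ⟨z, h1, -, rfl⟩
  simp only [Finset.coe_image, Set.mem_image, Finset.mem_coe, List.mem_toFinset]
  exact ⟨z, h1, rfl⟩

/-- Leg 1. -/
private lemma HiLo_T {l : List Blk} {c : Blk} {q : ℕ} (h1 : q + 1 ≤ hj (l ++ [c])) (h2 : hj l < q + 1) :
    (rowT (l ++ [c]) q).Nonempty ∧ ∀ y ∈ rowT (l ++ [c]) q, |y - (fe (jn (l ++ [c]).reverse)).2| + 2 ≤ wdb c := by
  have hne : (l ++ [c]).reverse ≠ [] := by simp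
  have hlr : (l ++ [c]).reverse = c :: l.reverse := by simp
  have hX := jn_Br hne
  have ehr : hj (l ++ [c]).reverse = hj (l ++ [c]) := by
    unfold hj
    rw [List.map_reverse, List.sum_reverse]
  rw [ehr] at hX
  have hlc : hj (l ++ [c]) = hj l + htw c.1 := by
    rw [hj_append, hj_cons, hj_nil, add_zero]
  set X := jn (l ++ [c]).reverse with hXdef
  have hFq : F0 (fe X + (-1, 0)) = 3 * ((hj (l ++ [c]) - 1 : ℕ) : ℤ) - 2 := by
    rw [F0_add, fe_F0 hX]; simp [F0]; ring
  have hq2 : (fe X + (-1, 0)).2 = (fe X).2 := by simp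
  have ho2 : (o').2 = 0 := rfl
  have hoF : F0 o' = -2 := by simp [F0, o']
  constructor
  · by_cases h0 : hj (l ++ [c]) - 1 = q
    · refine ⟨_, o', Or.inl rfl, ?_, rfl⟩
      rw [← hXdef, F0_sub', hFq, hoF, h0]
      ring
    · obtain ⟨⟨z, hz, hz'⟩, -⟩ := HiLo_cross hX (m := hj (l ++ [c]) - 1 - q) (by omega) (by omega)
      refine ⟨_, z, Or.inr hz, ?_, rfl⟩
      rw [← hXdef, F0_sub', hFq, hz']
      omega
  · rintro y ⟨z, hz, hF, rfl⟩
    rw [← hXdef, F0_sub', hFq] at hF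
    rw [← hXdef, Prod.snd_sub, hq2]
    rcases hz with rfl | hz
    · rw [ho2]
      have := wdb_le c (o_mem c.1) (o_mem c.1)
      simp only [sub_self, abs_zero] at this ⊢
      simpa using this
    · -- `z` is a vertex of `c`
      rw [← hXdef] at hz
      have hzc : z ∈ V c.1 := by
        rw [hXdef, hlr] at hz
        by_cases hl : l.reverse = []
        · rw [hl] at hz; exact hz
        · rw [jn_cons hl, (app_right c.2.br.tn_rt).1, List.mem_append, List.mem_map] at hz
          rcases hz with hz | ⟨w, hw, rfl⟩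
          · exact hz
          · exfalso
            have h3 := (jn_Br hl).1.2 w hw
            have h4 := c.2.br.2
            have h5 := htw_pos c.1
            rw [F0_add, F0_add] at hF
            simp only [F0] at hF h3 h4
            omega
      have h3 := wdb_le c hzc (o_mem c.1)
      have e : (fe X).2 - z.2 - (fe X).2 = -(z.2 - 0) := by ring
      rw [e, abs_neg]
      exact h3

/-- Leg 2. -/
private lemma HiLo_F {l : List Blk} {c : Blk} {q : ℕ} (h1 : q ≤ hj (l ++ [c])) (h2 : hj l < q) :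
    (rowF (l ++ [c]) q).Nonempty ∧ ∀ y ∈ rowF (l ++ [c]) q, |y - xj (l ++ [c])| + 2 ≤ wdb c := by
  have hne : l ++ [c] ≠ [] := by simp
  have hY := jn_Br hne
  have hlc : hj (l ++ [c]) = hj l + htw c.1 := by
    rw [hj_append, hj_cons, hj_nil, add_zero]
  constructor
  · by_cases h0 : q = 1
    · exact ⟨_, (0, 0), o_mem _, by rw [h0]; simp [F0], rfl⟩
    · obtain ⟨-, ⟨z, hz, hz'⟩⟩ := HiLo_cross hY (m := q - 1) (by omega) (by omega)
      exact ⟨_, z, hz, by rw [hz']; omega, rfl⟩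
  · rintro y ⟨w, hw, hF, rfl⟩
    obtain ⟨s', c', s'', w', e1, e2, e3, e4⟩ := V_jn_mem hne hw
    have hb := c'.2.br.1.2 w' e2
    have hp := htw_pos c'.1
    have hsplit : s' = l ∧ c' = c := by
      rcases List.append_eq_append_iff.1 e1 with ⟨u, f1, f2⟩ | ⟨u, f1, f2⟩
      · -- `s' = l ++ u`, `[c] = u ++ c' :: s''`
        cases u with
        | nil =>
          rw [List.nil_append, List.cons.injEq] at f2
          exact ⟨by rw [f1]; simp, f2.1.symm⟩
        | cons a u => simp at f2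
      · -- `l = s' ++ u`, `c' :: s'' = u ++ [c]`
        cases u with
        | nil =>
          rw [List.nil_append, List.cons.injEq] at f2
          exact ⟨by rw [f1]; simp, f2.1⟩
        | cons a u =>
          rw [List.cons_append, List.cons.injEq] at f2
          obtain ⟨rfl, -⟩ := f2
          exfalso
          rw [f1, hj_append, hj_cons] at h2
          omega
    obtain ⟨rfl, rfl⟩ := hsplit
    have h3 := wdb_le c' e2 (E_mem c'.1)
    have e5 : xj (s' ++ [c']) = xj s' + (E c'.1).2 := by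
      rw [xj_append]; simp [xj]
    have e6 : w.2 - xj (s' ++ [c']) = w'.2 - (E c'.1).2 := by
      rw [e3, e5]; ring
    rw [e6]
    exact h3

private lemma HiLo_FP {σ : Bool} {q : ℕ} {l : List Blk} {c : Blk} (h : hsI.FP (q + Sys.d σ) (l ++ [c])) :
    q + Sys.d σ ≤ hj (l ++ [c]) ∧ hj l < q + Sys.d σ := by
  obtain ⟨h1, h2⟩ := h
  exact ⟨h1, h2 l c [] rfl⟩

theorem hsI_hi (σ : Bool) (q : ℕ) (l : List Blk) (c : Blk) (h : hsI.FP (q + Sys.d σ) (l ++ [c])) :
    |hsI.hi σ (l ++ [c]) q - hsI.pl σ (l ++ [c])| ≤ wdb c := by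
  obtain ⟨h1, h2⟩ := HiLo_FP h
  cases σ with
  | true =>
    rw [Sys.d_true] at h1 h2
    obtain ⟨h3, h4⟩ := HiLo_T h1 h2
    have h5 := h4 _ (Int.csSup_mem h3 (HiLo_finT _ _).bddAbove)
    have h6 : hsI.pl true (l ++ [c]) = (fe (jn (l ++ [c]).reverse)).2 := hsI_p1 (by simp)
    have h7 : hsI.hi true (l ++ [c]) q = sSup (rowT (l ++ [c]) q) := rfl
    rw [h6, h7]
    omega
  | false =>
    rw [Sys.d_false, add_zero] at h1 h2
    obtain ⟨h3, h4⟩ := HiLo_F h1 h2
    have h5 := h4 _ (Int.csSup_mem h3 (HiLo_finF _ _).bddAbove)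
    have h6 : hsI.pl false (l ++ [c]) = xj (l ++ [c]) := rfl
    have h7 : hsI.hi false (l ++ [c]) q = sSup (rowF (l ++ [c]) q) := rfl
    rw [h6, h7]
    omega

theorem hsI_lo (σ : Bool) (q : ℕ) (l : List Blk) (c : Blk) (h : hsI.FP (q + Sys.d σ) (l ++ [c])) :
    |hsI.lo σ (l ++ [c]) q - hsI.pl σ (l ++ [c])| ≤ wdb c := by
  obtain ⟨h1, h2⟩ := HiLo_FP h
  cases σ with
  | true =>
    rw [Sys.d_true] at h1 h2
    obtain ⟨h3, h4⟩ := HiLo_T h1 h2
    have h5 := h4 _ (Int.csInf_mem h3 (HiLo_finT _ _).bddBelow)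
    have h6 : hsI.pl true (l ++ [c]) = (fe (jn (l ++ [c]).reverse)).2 := hsI_p1 (by simp)
    have h7 : hsI.lo true (l ++ [c]) q = sInf (rowT (l ++ [c]) q) := rfl
    rw [h6, h7]
    omega
  | false =>
    rw [Sys.d_false, add_zero] at h1 h2
    obtain ⟨h3, h4⟩ := HiLo_F h1 h2
    have h5 := h4 _ (Int.csInf_mem h3 (HiLo_finF _ _).bddBelow)
    have h6 : hsI.pl false (l ++ [c]) = xj (l ++ [c]) := rfl
    have h7 : hsI.lo false (l ++ [c]) q = sInf (rowF (l ++ [c]) q) := rfl
    rw [h6, h7]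
    omega

end Pool.Agent.HEP
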