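import Mathlib

/-!
Project PLY (MP_8c6f77_pr), LEMMA G, assembly, file 3: the two bounds `A a ^ m`, `B b ^ n` of one quantity give `K ρ1 ^ m ρ2 ^ n`,
with `ρ2 > b` arbitrary and `ρ2 < ρ1 < 1` (geometric mean).
-/

namespace Pool.Agent.PLY.G

open scoped ENNReal Topology

lemma MC_real {a b r : ℝ} (ha : 0 < a) (ha1 : a < 1) (hb : 0 < b) (hbr : b < r) (hr : r < 1) :
    ∃ θ : ℝ, 0 < θ ∧ θ < 1 ∧ b ^ (1 - θ) < r ∧ r < a ^ θ ∧ a ^ θ < 1 := by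
  have h1 : Filter.Tendsto (fun θ : ℝ => b ^ (1 - θ)) (𝓝[>] 0) (𝓝 (b ^ (1 - 0 : ℝ))) := by
    refine Filter.Tendsto.mono_left ?_ nhdsWithin_le_nhds
    have : Continuous fun θ : ℝ => b ^ (1 - θ) := by
      exact (Real.continuous_const_rpow hb.ne').comp (continuous_const.sub continuous_id)
    exact this.tendsto 0
  have h2 : Filter.Tendsto (fun θ : ℝ => a ^ θ) (𝓝[>] 0) (𝓝 (a ^ (0 : ℝ))) := by
    refine Filter.Tendsto.mono_left ?_ nhdsWithin_le_nhds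
    exact (Real.continuous_const_rpow ha.ne').tendsto 0
  rw [sub_zero, Real.rpow_one] at h1
  rw [Real.rpow_zero] at h2
  have h3 := h1.eventually (gt_mem_nhds hbr)
  have h4 := h2.eventually (lt_mem_nhds hr)
  have h5 : ∀ᶠ θ : ℝ in 𝓝[>] 0, θ ∈ Set.Ioo (0 : ℝ) 1 := Ioo_mem_nhdsGT one_pos
  obtain ⟨θ, ⟨h6, h7⟩, h8⟩ := ((h3.and h4).and h5).exists
  exact ⟨θ, h8.1, h8.2, h6, h7, Real.rpow_lt_one ha.le ha1 h8.1⟩

/-- The exponents. -/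
lemma MC_exp {a b ρ : ℝ≥0∞} (ha : a ≠ 0) (ha1 : a < 1) (hb : b ≠ 0) (hbr : b < ρ) (hr : ρ < 1) :
    ∃ θ : ℝ, 0 < θ ∧ θ < 1 ∧ b ^ (1 - θ) ≤ ρ ∧ ρ < a ^ θ ∧ a ^ θ < 1 := by
  have hat : a ≠ ⊤ := ne_top_of_lt ha1
  have hrt : ρ ≠ ⊤ := ne_top_of_lt hr
  have hbt : b ≠ ⊤ := ne_top_of_lt hbr
  have e : ∀ x : ℝ≥0∞, x ≠ 0 → x ≠ ⊤ → ∀ y : ℝ, x ^ y = ENNReal.ofReal (x.toReal ^ y) := by
    intro x hx hx' y
    rw [← ENNReal.ofReal_rpow_of_pos (ENNReal.toReal_pos hx hx'), ENNReal.ofReal_toReal hx']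
  have h1 : ∀ x : ℝ≥0∞, x ≠ ⊤ → x < 1 → x.toReal < 1 := by
    intro x hx hx'
    have := (ENNReal.toReal_lt_toReal hx ENNReal.one_ne_top).2 hx'
    rwa [ENNReal.toReal_one] at this
  obtain ⟨θ, h2, h3, h4, h5, h6⟩ := MC_real (ENNReal.toReal_pos ha hat) (h1 a hat ha1)
    (ENNReal.toReal_pos hb hbt) ((ENNReal.toReal_lt_toReal hbt hrt).2 hbr) (h1 ρ hrt hr)
  refine ⟨θ, h2, h3, ?_, ?_, ?_⟩
  · rw [e b hb hbt, ← ENNReal.ofReal_toReal hrt]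
    exact ENNReal.ofReal_le_ofReal h4.le
  · rw [e a ha hat, ← ENNReal.ofReal_toReal hrt]
    exact (ENNReal.ofReal_lt_ofReal_iff_of_nonneg ENNReal.toReal_nonneg).2 h5
  · rw [e a ha hat, ENNReal.ofReal_lt_one]
    exact h6

/-- Geometric mean of two bounds. -/
lemma MC_mean {X A B a b : ℝ≥0∞} {m n : ℕ} {θ : ℝ} (h0 : 0 ≤ θ) (h1 : θ ≤ 1) (hX : X ≤ A * a ^ m) (hX' : X ≤ B * b ^ n) :
    X ≤ A ^ θ * B ^ (1 - θ) * (a ^ θ) ^ m * (b ^ (1 - θ)) ^ n := by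
  have e : ∀ (x : ℝ≥0∞) (y : ℝ) (k : ℕ), (x ^ k) ^ y = (x ^ y) ^ k := by
    intro x y k
    rw [← ENNReal.rpow_natCast, ← ENNReal.rpow_natCast, ← ENNReal.rpow_mul, ← ENNReal.rpow_mul, mul_comm]
  calc X = X ^ θ * X ^ (1 - θ) := by
        rw [← ENNReal.rpow_add_of_nonneg _ _ h0 (by linarith)]
        simp
    _ ≤ (A * a ^ m) ^ θ * (B * b ^ n) ^ (1 - θ) :=
        mul_le_mul' (ENNReal.rpow_le_rpow hX h0) (ENNReal.rpow_le_rpow hX' (by linarith))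
    _ = _ := by
        rw [ENNReal.mul_rpow_of_nonneg _ _ h0, ENNReal.mul_rpow_of_nonneg _ _ (by linarith), e, e]
        ring

/-- From the number of scales to the number of octaves. -/
lemma MC_oct {ρ : ℝ≥0∞} (h0 : 2⁻¹ ≤ ρ) (h1 : ρ < 1) {b n m : ℕ} (hb : 1 ≤ b) (hm : m ≤ b * (n + 1) + 1) :
    ρ ^ n ≤ 4 * (ρ ^ (1 / (b : ℝ))) ^ m := by
  have hb' : (0 : ℝ) < b := by exact_mod_cast hb
  set a := ρ ^ (1 / (b : ℝ)) with ha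
  have hab : a ^ b = ρ := by
    rw [ha, ← ENNReal.rpow_natCast, ← ENNReal.rpow_mul, one_div, inv_mul_cancel₀ hb'.ne', ENNReal.rpow_one]
  have ha1 : a ≤ 1 := ENNReal.rpow_le_one h1.le (by positivity)
  have hρa : ρ ≤ a := by
    calc ρ = a ^ b := hab.symm
      _ ≤ a ^ 1 := pow_le_pow_right_of_le_one' ha1 hb
      _ = a := pow_one a
  have h4 : 1 ≤ 4 * (ρ * ρ) := by
    calc (1 : ℝ≥0∞) = 4 * (2⁻¹ * 2⁻¹) := by
          rw [← ENNReal.mul_inv (Or.inl (by norm_num)) (Or.inl (by norm_num))]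
          norm_num
          rw [ENNReal.mul_inv_cancel (by norm_num) (by norm_num)]
      _ ≤ _ := by gcongr
  calc ρ ^ n = 1 * ρ ^ n := (one_mul _).symm
    _ ≤ (4 * (ρ * ρ)) * ρ ^ n := mul_le_mul' h4 le_rfl
    _ = 4 * (ρ ^ (n + 1) * ρ) := by ring
    _ ≤ 4 * (ρ ^ (n + 1) * a) := by gcongr
    _ = 4 * a ^ (b * (n + 1) + 1) := by rw [pow_succ a, pow_mul, hab]
    _ ≤ _ := by
        gcongr 4 * ?_
        exact pow_le_pow_right_of_le_one' ha1 hm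

end Pool.Agent.PLY.G
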