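import Pool.Agent.PLY.G.RunB

/-!
Project PLY, Lemma G, part RUNS: the regularity `RegU` from two sided bounds `U N ~ N ^ (3/4)` (which are `Quarter.U_ge`, `Quarter.U_le` of BEX/Reg).
-/

namespace Pool.Agent.HEP.Alph

open scoped ENNReal

variable {A : Alph}

private lemma g_lo (n : ℕ) : (2 : ℝ) ^ ((3 / 4 : ℝ) * n) ≤ (((2 ^ n : ℕ) : ℝ) + 1) ^ (3 / 4 : ℝ) := by
  have h1 : (2 : ℝ) ^ ((3 / 4 : ℝ) * n) = ((2 : ℝ) ^ n) ^ (3 / 4 : ℝ) := by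
    rw [mul_comm, Real.rpow_mul (by norm_num), Real.rpow_natCast]
  rw [h1]
  push_cast
  exact Real.rpow_le_rpow (by positivity) (by linarith) (by norm_num)

private lemma g_hi (n : ℕ) : (((2 ^ n : ℕ) : ℝ) + 1) ^ (3 / 4 : ℝ) ≤ 2 * (2 : ℝ) ^ ((3 / 4 : ℝ) * n) := by
  have h1 : (2 : ℝ) ^ ((3 / 4 : ℝ) * n) = ((2 : ℝ) ^ n) ^ (3 / 4 : ℝ) := by
    rw [mul_comm, Real.rpow_mul (by norm_num), Real.rpow_natCast]
  have h0 : (1 : ℝ) ≤ 2 ^ n := one_le_pow₀ (by norm_num)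
  rw [h1]
  push_cast
  calc ((2 : ℝ) ^ n + 1) ^ (3 / 4 : ℝ) ≤ (2 * 2 ^ n) ^ (3 / 4 : ℝ) :=
        Real.rpow_le_rpow (by positivity) (by linarith) (by norm_num)
    _ = 2 ^ (3 / 4 : ℝ) * ((2 : ℝ) ^ n) ^ (3 / 4 : ℝ) := Real.mul_rpow (by norm_num) (by positivity)
    _ ≤ 2 ^ (1 : ℝ) * ((2 : ℝ) ^ n) ^ (3 / 4 : ℝ) := by
        refine mul_le_mul_of_nonneg_right ?_ (by positivity)
        exact Real.rpow_le_rpow_of_exponent_le (by norm_num) (by norm_num)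
    _ = _ := by rw [Real.rpow_one]

theorem regU_of {c C : ℝ} (hc : 0 < c) (hC : 0 < C)
    (hl : ∀ N : ℕ, ENNReal.ofReal (c * ((N : ℝ) + 1) ^ (3 / 4 : ℝ)) ≤ A.U N)
    (hu : ∀ N : ℕ, A.U N ≤ ENNReal.ofReal (C * ((N : ℝ) + 1) ^ (3 / 4 : ℝ))) :
    RegU A (ENNReal.ofReal (2 * C / c)) (ENNReal.ofReal (2 ^ (-(3 / 4) : ℝ))) (ENNReal.ofReal (2 ^ (-(1 / 4) : ℝ))) := by
  have hl' : ∀ n : ℕ, ENNReal.ofReal (c * (2 : ℝ) ^ ((3 / 4 : ℝ) * n)) ≤ A.U (2 ^ n) := fun n =>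
    (ENNReal.ofReal_le_ofReal (mul_le_mul_of_nonneg_left (g_lo n) hc.le)).trans (hl (2 ^ n))
  have hu' : ∀ n : ℕ, A.U (2 ^ n) ≤ ENNReal.ofReal (C * (2 * (2 : ℝ) ^ ((3 / 4 : ℝ) * n))) := fun n =>
    (hu (2 ^ n)).trans (ENNReal.ofReal_le_ofReal (mul_le_mul_of_nonneg_left (g_hi n) hC.le))
  have h2 : ∀ n : ℕ, (2 : ℝ≥0∞) ^ n = ENNReal.ofReal ((2 : ℝ) ^ n) := fun n => by
    rw [ENNReal.ofReal_pow (by norm_num)]; norm_num
  have hp : ∀ (a : ℝ) (n : ℕ), ENNReal.ofReal ((2 : ℝ) ^ a) ^ n = ENNReal.ofReal ((2 : ℝ) ^ (a * n)) := fun a n => by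
    rw [← ENNReal.ofReal_pow (by positivity), Real.rpow_mul (by norm_num), Real.rpow_natCast]
  constructor
  · intro i j hij
    rw [hp]
    calc A.U (2 ^ i) ≤ ENNReal.ofReal (C * (2 * (2 : ℝ) ^ ((3 / 4 : ℝ) * i))) := hu' i
      _ = ENNReal.ofReal (2 * C / c) * ENNReal.ofReal ((2 : ℝ) ^ (-(3 / 4) * ((j - i : ℕ) : ℝ))) *
            ENNReal.ofReal (c * (2 : ℝ) ^ ((3 / 4 : ℝ) * j)) := by
          rw [← ENNReal.ofReal_mul (by positivity), ← ENNReal.ofReal_mul (by positivity)]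
          congr 1
          have h1 : (2 : ℝ) ^ ((3 / 4 : ℝ) * i) = (2 : ℝ) ^ (-(3 / 4) * ((j - i : ℕ) : ℝ)) * (2 : ℝ) ^ ((3 / 4 : ℝ) * j) := by
            rw [← Real.rpow_add (by norm_num), Nat.cast_sub hij]
            congr 1
            ring
          rw [h1]
          field_simp
      _ ≤ _ := mul_le_mul' le_rfl (hl' j)
  · intro i j hij
    rw [hp]
    calc 2 ^ i * A.U (2 ^ j) ≤ ENNReal.ofReal ((2 : ℝ) ^ i) * ENNReal.ofReal (C * (2 * (2 : ℝ) ^ ((3 / 4 : ℝ) * j))) := by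
          rw [h2]; exact mul_le_mul' le_rfl (hu' j)
      _ = ENNReal.ofReal (2 * C / c) * ENNReal.ofReal ((2 : ℝ) ^ (-(1 / 4) * ((j - i : ℕ) : ℝ))) *
            (ENNReal.ofReal ((2 : ℝ) ^ j) * ENNReal.ofReal (c * (2 : ℝ) ^ ((3 / 4 : ℝ) * i))) := by
          rw [← ENNReal.ofReal_mul (by positivity), ← ENNReal.ofReal_mul (by positivity),
            ← ENNReal.ofReal_mul (by positivity), ← ENNReal.ofReal_mul (by positivity)]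
          congr 1
          have h1 : (2 : ℝ) ^ i * (2 : ℝ) ^ ((3 / 4 : ℝ) * j) =
              (2 : ℝ) ^ (-(1 / 4) * ((j - i : ℕ) : ℝ)) * ((2 : ℝ) ^ j * (2 : ℝ) ^ ((3 / 4 : ℝ) * i)) := by
            rw [← Real.rpow_natCast 2 i, ← Real.rpow_natCast 2 j, ← Real.rpow_add (by norm_num),
              ← Real.rpow_add (by norm_num), ← Real.rpow_add (by norm_num), Nat.cast_sub hij]
            congr 1
            ring
          calc (2 : ℝ) ^ i * (C * (2 * (2 : ℝ) ^ ((3 / 4 : ℝ) * j)))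
              = 2 * C * ((2 : ℝ) ^ i * (2 : ℝ) ^ ((3 / 4 : ℝ) * j)) := by ring
            _ = _ := by rw [h1]; field_simp
      _ ≤ _ := by rw [h2]; exact mul_le_mul' le_rfl (mul_le_mul' le_rfl (hl' i))

lemma regU_rho : ENNReal.ofReal (2 ^ (-(3 / 4) : ℝ)) < 1 := by
  rw [ENNReal.ofReal_lt_one]
  exact Real.rpow_lt_one_of_one_lt_of_neg (by norm_num) (by norm_num)

lemma regU_sigma : ENNReal.ofReal (2 ^ (-(1 / 4) : ℝ)) < 1 := by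
  rw [ENNReal.ofReal_lt_one]
  exact Real.rpow_lt_one_of_one_lt_of_neg (by norm_num) (by norm_num)

/-- Regularity from the two sided bounds of the renewal function. -/
theorem exists_regU (hl : ∃ c : ℝ, 0 < c ∧ ∀ N : ℕ, ENNReal.ofReal (c * ((N : ℝ) + 1) ^ (3 / 4 : ℝ)) ≤ A.U N)
    (hu : ∃ C : ℝ, 0 < C ∧ ∀ N : ℕ, A.U N ≤ ENNReal.ofReal (C * ((N : ℝ) + 1) ^ (3 / 4 : ℝ))) :
    ∃ K ρ σ : ℝ≥0∞, K ≠ ⊤ ∧ ρ < 1 ∧ σ < 1 ∧ RegU A K ρ σ := by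
  obtain ⟨c, hc, hl⟩ := hl
  obtain ⟨C, hC, hu⟩ := hu
  exact ⟨_, _, _, ENNReal.ofReal_ne_top, regU_rho, regU_sigma, regU_of hc hC hl hu⟩

end Pool.Agent.HEP.Alph
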