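import Pool.Agent.PLY.G.BSm
import Pool.Agent.HEP.RnSeq

/-!
Project PLY, Lemma G, part BLOCKS, module BTail: tail of the width of a block.

PAPER PROOF. Let `q = H / 64`. Triples `(l, c, l')`: `l` a narrow word of height `≤ q` (`|z.2| ≤ 20 q`, so that all its blocks have width `≤ 40 q + 2 ≤ H`),
`c` a block with `htw c ≤ H < wdb c`, `l'` any word of height `≤ H`. The map `l ++ c :: l'` is injective (`c` is the first block of width `> H`), the
height of the image is `≤ 3 H`: `(U q / 2) * mass * U H ≤ U (3 H) ≤ 3 U H`; cancel `U H`. `U H ≤ 65 U q`.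
-/

namespace Pool.Agent.PLY.G

open Pool.Agent.Hhelper14.SAW Pool.Agent.HHP Pool.Agent.HEP Pool.Agent.BEX Pool.Agent.BEX.C
open scoped ENNReal

/-- The blocks of a narrow word are narrow. -/
lemma narrow_blk {l : List Blk} {c : Blk} (hc : c ∈ l) {Y H : ℕ} (hl : ∀ z ∈ V (jn l), |z.2| ≤ (Y : ℤ)) (hY : 2 * Y + 2 ≤ H) :
    wdb c ≤ H := by
  obtain ⟨l1, l2, rfl⟩ := List.append_of_mem hc
  refine le_trans ?_ hY
  unfold wdb
  refine Nat.add_le_add_right (Finset.sup_le ?_) 2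
  rintro ⟨y, w⟩ hyw
  rw [Finset.mem_product, List.mem_toFinset, List.mem_toFinset] at hyw
  obtain ⟨z1, g1, -, g2⟩ := jn_V_mid (l := l1) (l' := l2) hyw.1
  obtain ⟨z2, g3, -, g4⟩ := jn_V_mid (l := l1) (l' := l2) hyw.2
  have h1 := abs_le.1 (hl z1 g1)
  have h2 := abs_le.1 (hl z2 g3)
  simp only at g2 g4 ⊢
  omega

/-- Triples, general form. -/
theorem tri_gen (P : List Blk → Prop) (Q : Blk → Prop) (P' : List Blk → Prop) (G : List Blk → Prop)
    (hinj : ∀ l, P l → ∀ c ∈ l, ¬ Q c) (hG : ∀ l c l', P l → Q c → P' l' → G (l ++ c :: l')) :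
    (∑' l, ind (P l) * wj l) * ((∑' c : Blk, ind (Q c) * xE ^ (c.1.length + 1)) * ∑' l', ind (P' l') * wj l') ≤
      ∑' L, ind (G L) * wj L := by
  classical
  rw [← ENNReal.tsum_mul_right, ← ENNReal.tsum_mul_right]
  simp only [← ENNReal.tsum_mul_left]
  have e2 : ∀ (f : List Blk → Blk → List Blk → ℝ≥0∞), ∑' l, ∑' c, ∑' l', f l c l' =
      ∑' t : List Blk × Blk × List Blk, f t.1 t.2.1 t.2.2 := by
    intro f
    rw [ENNReal.tsum_prod']
    refine tsum_congr fun l => ?_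
    rw [ENNReal.tsum_prod']
  rw [e2]
  set C : List Blk × Blk × List Blk → Prop := fun t => P t.1 ∧ Q t.2.1 ∧ P' t.2.2 with hC
  have e3 : ∀ t : List Blk × Blk × List Blk, ind (P t.1) * wj t.1 *
      (ind (Q t.2.1) * xE ^ (t.2.1.1.length + 1) * (ind (P' t.2.2) * wj t.2.2)) =
      Set.indicator {t | C t} (fun t => wj (t.1 ++ t.2.1 :: t.2.2)) t := by
    intro t
    by_cases h : C t
    · rw [Set.indicator_of_mem (by exact h), ind_true h.1, ind_true h.2.1, ind_true h.2.2, wj_append, wj_cons']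
      ring
    · rw [Set.indicator_of_notMem (by exact h)]
      by_cases h1 : P t.1
      · by_cases h2 : Q t.2.1
        · rw [ind_false (p := P' t.2.2) (fun h3 => h ⟨h1, h2, h3⟩)]
          ring
        · rw [ind_false h2]
          ring
      · rw [ind_false h1]
        ring
  rw [tsum_congr e3, ← tsum_subtype {t | C t} (fun t : List Blk × Blk × List Blk => wj (t.1 ++ t.2.1 :: t.2.2))]
  refine tsum_rel _ _ (fun t L => L = t.1.1 ++ t.1.2.1 :: t.1.2.2) ?_ ?_
  · rintro ⟨⟨l, c, l'⟩, h1, h2, h3⟩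
    refine ⟨_, rfl, ?_⟩
    rw [ind_true (hG l c l' h1 h2 h3), one_mul]
  · rintro ⟨⟨l, c, l'⟩, h1, h2, h3⟩ ⟨⟨m, d, m'⟩, g1, g2, g3⟩ L e e'
    simp only at h1 h2 h3 g1 g2 g3 e e'
    have h := e.symm.trans e'
    have key : l = m ∧ c = d ∧ l' = m' := by
      rcases List.append_eq_append_iff.1 h with ⟨u, k1, k2⟩ | ⟨u, k1, k2⟩
      · cases u with
        | nil =>
          simp only [List.append_nil, List.nil_append, List.cons.injEq] at k1 k2
          exact ⟨k1.symm, k2.1, k2.2⟩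
        | cons a u =>
          simp only [List.cons_append, List.cons.injEq] at k2
          have h5 : c ∈ m := by rw [k1, k2.1]; simp
          exact absurd h2 (hinj m g1 c h5)
      · cases u with
        | nil =>
          simp only [List.append_nil, List.nil_append, List.cons.injEq] at k1 k2
          exact ⟨k1, k2.1.symm, k2.2.symm⟩
        | cons a u =>
          simp only [List.cons_append, List.cons.injEq] at k2
          have h5 : d ∈ l := by rw [k1, k2.1]; simp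
          exact absurd g2 (hinj l h1 d h5)
    obtain ⟨rfl, rfl, rfl⟩ := key
    rfl

theorem width_tail (H : ℕ) : hsI.U H * ∑' c : Blk, ind (htw c.1 ≤ H ∧ H < wdb c) * xE ^ (c.1.length + 1) ≤ 390 := by
  set q := H / 64 with hq
  set X := ∑' c : Blk, ind (htw c.1 ≤ H ∧ H < wdb c) * xE ^ (c.1.length + 1) with hX
  have h1 := narrow_words q (20 * q) le_rfl
  have h2 := tri_gen (fun l => hj l ≤ q ∧ (l = [] ∨ ∀ z ∈ V (jn l), |z.2| ≤ ((20 * q : ℕ) : ℤ)))
    (fun c => htw c.1 ≤ H ∧ H < wdb c) (fun l => hj l ≤ H) (fun l => hj l ≤ 3 * H)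
    (by
      rintro l ⟨g1, g2⟩ c hc ⟨g3, g4⟩
      rcases g2 with rfl | g2
      · exact absurd hc (by simp)
      · have h5 := hj_mem hc
        have h6 := htw_pos c.1
        have := narrow_blk (H := H) hc g2 (by omega)
        omega)
    (by
      rintro l c l' ⟨g1, -⟩ ⟨g3, -⟩ g5
      rw [hj_app, hj_cons']
      omega)
  rw [← hX, ← hsI_U, ← hsI_U] at h2
  have h3 : hsI.U (3 * H) ≤ 3 * hsI.U H := hsI.U_mul_nat hsI_anti' 3 H (by norm_num)
  have h4 : hsI.U q * (X * hsI.U H) ≤ 6 * hsI.U H := by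
    calc hsI.U q * (X * hsI.U H) ≤ (2 * ∑' l : List Blk, ind (hj l ≤ q ∧ (l = [] ∨ ∀ z ∈ V (jn l),
          |z.2| ≤ ((20 * q : ℕ) : ℤ))) * wj l) * (X * hsI.U H) := by gcongr
      _ = 2 * ((∑' l : List Blk, ind (hj l ≤ q ∧ (l = [] ∨ ∀ z ∈ V (jn l),
          |z.2| ≤ ((20 * q : ℕ) : ℤ))) * wj l) * (X * hsI.U H)) := by ring
      _ ≤ 2 * (3 * hsI.U H) := mul_le_mul_right (h2.trans h3) _
      _ = 6 * hsI.U H := by ring
  have h5 : hsI.U q * X ≤ 6 := by
    have h6 : hsI.U H * (hsI.U q * X) ≤ hsI.U H * 6 := by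
      calc hsI.U H * (hsI.U q * X) = hsI.U q * (X * hsI.U H) := by ring
        _ ≤ 6 * hsI.U H := h4
        _ = _ := by ring
    exact (ENNReal.mul_le_mul_iff_right (hsI.U_ne_zero H) (hsI_U_top H)).1 h6
  have h7 : hsI.U H ≤ 65 * hsI.U q := by
    calc hsI.U H ≤ hsI.U (64 * (q + 1) + q) := hsI_U_mono (by omega)
      _ ≤ (64 + 1 : ℕ) * hsI.U q := hsI_U_mul q 64
      _ = _ := by norm_num
  calc hsI.U H * X ≤ 65 * hsI.U q * X := by gcongr
    _ = 65 * (hsI.U q * X) := by ring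
    _ ≤ 65 * 6 := by gcongr
    _ = 390 := by norm_num

theorem tailP : hsI.toAlph.TailP wdb 400 := by
  intro H
  have h1 := width_tail H
  have h2 := hsI.U_mul_Lam H
  have h3 : ∑' c : Blk, ind (H < htw c.1 ∨ H < wdb c) * xE ^ (c.1.length + 1) ≤
      ∑' c : Blk, ind (H < htw c.1) * xE ^ (c.1.length + 1) +
      ∑' c : Blk, ind (htw c.1 ≤ H ∧ H < wdb c) * xE ^ (c.1.length + 1) := by
    rw [← ENNReal.tsum_add]
    refine ENNReal.tsum_le_tsum fun c => ?_
    rw [← add_mul]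
    refine mul_le_mul_left ((ind_mono fun h => ?_).trans (ind_or_le _ _)) _
    by_cases h4 : H < htw c.1
    · exact Or.inl h4
    · exact Or.inr ⟨not_lt.1 h4, h.resolve_left h4⟩
  change hsI.U H * ∑' c : Blk, ind (H < htw c.1 ∨ H < wdb c) * xE ^ (c.1.length + 1) ≤ _
  calc hsI.U H * ∑' c : Blk, ind (H < htw c.1 ∨ H < wdb c) * xE ^ (c.1.length + 1)
      ≤ hsI.U H * (hsI.Lam H + ∑' c : Blk, ind (htw c.1 ≤ H ∧ H < wdb c) * xE ^ (c.1.length + 1)) := mul_le_mul_right h3 _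
    _ = hsI.U H * hsI.Lam H + hsI.U H * ∑' c : Blk, ind (htw c.1 ≤ H ∧ H < wdb c) * xE ^ (c.1.length + 1) := by ring
    _ ≤ 1 + 390 := add_le_add h2 h1
    _ ≤ ((400 : ℕ) : ℝ≥0∞) := by norm_num

end Pool.Agent.PLY.G
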