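import Pool.Agent.PLY.G.StZero
import Pool.Agent.BEX.Quart

/-!
Project PLY (MP_8c6f77_pr, honeycomb lattice, polynomial bound), LEMMA G, STEERING: `Quarter` gives `StReg`.
-/

namespace Pool.Agent.HEP

open scoped ENNReal
open Finset

private lemma StQ_step (n : ℕ) :
    (1 / 4) * ((n : ℝ) + 1) ^ (-(3 / 4) : ℝ) ≤ ((n : ℝ) + 1) ^ (1 / 4 : ℝ) - (n : ℝ) ^ (1 / 4 : ℝ) := by
  have hn : (0 : ℝ) ≤ n := Nat.cast_nonneg n
  have h0 : (0 : ℝ) < (n : ℝ) + 1 := by positivity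
  have h1 : (n : ℝ) = ((n : ℝ) + 1) * (1 + -(1 / ((n : ℝ) + 1))) := by field_simp; ring
  have h2 : (1 + -(1 / ((n : ℝ) + 1))) ^ (1 / 4 : ℝ) ≤ 1 + (1 / 4) * -(1 / ((n : ℝ) + 1)) := by
    have h6 : 1 / ((n : ℝ) + 1) ≤ 1 := by rw [div_le_one h0]; linarith
    exact rpow_one_add_le_one_add_mul_self (by linarith) (by norm_num) (by norm_num)
  have h3 : (0 : ℝ) ≤ 1 + -(1 / ((n : ℝ) + 1)) := by
    have : 1 / ((n : ℝ) + 1) ≤ 1 := by rw [div_le_one h0]; linarith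
    linarith
  have h4 : ((n : ℝ) + 1) ^ (-(3 / 4) : ℝ) = ((n : ℝ) + 1) ^ (1 / 4 : ℝ) * (1 / ((n : ℝ) + 1)) := by
    rw [one_div ((n : ℝ) + 1), ← Real.rpow_neg_one, ← Real.rpow_add h0]
    norm_num
  have h5 : (n : ℝ) ^ (1 / 4 : ℝ) ≤ ((n : ℝ) + 1) ^ (1 / 4 : ℝ) * (1 + (1 / 4) * -(1 / ((n : ℝ) + 1))) := by
    calc (n : ℝ) ^ (1 / 4 : ℝ) = (((n : ℝ) + 1) * (1 + -(1 / ((n : ℝ) + 1)))) ^ (1 / 4 : ℝ) := by rw [← h1]
      _ = ((n : ℝ) + 1) ^ (1 / 4 : ℝ) * (1 + -(1 / ((n : ℝ) + 1))) ^ (1 / 4 : ℝ) := Real.mul_rpow h0.le h3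
      _ ≤ _ := mul_le_mul_of_nonneg_left h2 (by positivity)
  rw [h4]
  nlinarith

private lemma StQ_sum (n : ℕ) :
    ∑ k ∈ range n, ((k : ℝ) + 1) ^ (-(3 / 4) : ℝ) ≤ 4 * (n : ℝ) ^ (1 / 4 : ℝ) := by
  induction n with
  | zero => simp
  | succ n ih =>
    rw [sum_range_succ]
    push_cast
    have := StQ_step n
    linarith

namespace Alph

variable {A : Alph}

/-- The regularity which is used in the steering part. -/
theorem Quarter.stReg (h : A.Quarter) (hA : Antitone A.b) : A.StReg := by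
  obtain ⟨c, hc, hL⟩ := h.U_ge hA
  obtain ⟨C, hC, hU⟩ := h.U_le
  constructor
  · intro R
    obtain ⟨k, hk⟩ := exists_nat_ge (R * (C * 2) / c + 1)
    have hk1 : (1 : ℝ) ≤ k := by
      have : (0 : ℝ) ≤ R * (C * 2) / c := by positivity
      linarith
    have hk1' : 1 ≤ k := by exact_mod_cast hk1
    refine ⟨k ^ 2, Nat.one_le_pow _ _ hk1', fun M hM => ?_⟩
    have hM1 : (1 : ℝ) ≤ M := by exact_mod_cast hM
    have hM0 : (0 : ℝ) ≤ M := by linarith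
    calc (R : ℝ≥0∞) * A.U M ≤ R * ENNReal.ofReal (C * ((M : ℝ) + 1) ^ (3 / 4 : ℝ)) :=
          mul_le_mul' le_rfl (hU M)
      _ = ENNReal.ofReal (R * (C * ((M : ℝ) + 1) ^ (3 / 4 : ℝ))) := by
          rw [ENNReal.ofReal_mul (Nat.cast_nonneg R), ENNReal.ofReal_natCast]
      _ ≤ ENNReal.ofReal (c * (((k ^ 2 * M : ℕ) : ℝ) + 1) ^ (3 / 4 : ℝ)) := by
          apply ENNReal.ofReal_le_ofReal
          have h1 : ((M : ℝ) + 1) ^ (3 / 4 : ℝ) ≤ 2 * (M : ℝ) ^ (3 / 4 : ℝ) := by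
            calc ((M : ℝ) + 1) ^ (3 / 4 : ℝ) ≤ (2 * (M : ℝ)) ^ (3 / 4 : ℝ) :=
                  Real.rpow_le_rpow (by linarith) (by linarith) (by norm_num)
              _ = (2 : ℝ) ^ (3 / 4 : ℝ) * (M : ℝ) ^ (3 / 4 : ℝ) := Real.mul_rpow (by norm_num) hM0
              _ ≤ 2 * (M : ℝ) ^ (3 / 4 : ℝ) := by
                  refine mul_le_mul_of_nonneg_right ?_ (by positivity)
                  calc (2 : ℝ) ^ (3 / 4 : ℝ) ≤ (2 : ℝ) ^ (1 : ℝ) :=
                        Real.rpow_le_rpow_of_exponent_le (by norm_num) (by norm_num)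
                    _ = 2 := Real.rpow_one 2
          have h2 : (k : ℝ) * (M : ℝ) ^ (3 / 4 : ℝ) ≤ (((k ^ 2 * M : ℕ) : ℝ) + 1) ^ (3 / 4 : ℝ) := by
            have h3 : (((k : ℝ) ^ 2 * M)) ^ (3 / 4 : ℝ) ≤ (((k ^ 2 * M : ℕ) : ℝ) + 1) ^ (3 / 4 : ℝ) := by
              refine Real.rpow_le_rpow (by positivity) ?_ (by norm_num)
              push_cast
              linarith
            refine le_trans ?_ h3
            rw [Real.mul_rpow (by positivity) hM0]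
            refine mul_le_mul_of_nonneg_right ?_ (by positivity)
            calc (k : ℝ) = (k : ℝ) ^ (1 : ℝ) := (Real.rpow_one _).symm
              _ ≤ (k : ℝ) ^ (3 / 2 : ℝ) := Real.rpow_le_rpow_of_exponent_le hk1 (by norm_num)
              _ = ((k : ℝ) ^ 2) ^ (3 / 4 : ℝ) := by
                  rw [← Real.rpow_natCast (k : ℝ) 2, ← Real.rpow_mul (by linarith)]
                  norm_num
          have h4 : (R : ℝ) * (C * 2) ≤ c * k := by
            have : (R : ℝ) * (C * 2) / c ≤ k := by linarith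
            rw [div_le_iff₀ hc] at this
            linarith
          have h5 : (0 : ℝ) ≤ (M : ℝ) ^ (3 / 4 : ℝ) := by positivity
          calc (R : ℝ) * (C * ((M : ℝ) + 1) ^ (3 / 4 : ℝ)) ≤ R * (C * (2 * (M : ℝ) ^ (3 / 4 : ℝ))) := by
                gcongr
            _ = (R * (C * 2)) * (M : ℝ) ^ (3 / 4 : ℝ) := by ring
            _ ≤ (c * k) * (M : ℝ) ^ (3 / 4 : ℝ) := mul_le_mul_of_nonneg_right h4 h5
            _ = c * (k * (M : ℝ) ^ (3 / 4 : ℝ)) := by ring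
            _ ≤ _ := mul_le_mul_of_nonneg_left h2 hc.le
      _ ≤ A.U (k ^ 2 * M) := hL _
  · obtain ⟨K, hK⟩ := exists_nat_ge (8 * C / c)
    refine ⟨K, fun G => ?_⟩
    rcases Nat.eq_zero_or_pos G with rfl | hG
    · simp
    have hG1 : (1 : ℝ) ≤ G := by exact_mod_cast hG
    have hG0 : (0 : ℝ) < G := by linarith
    have h1 : ∀ j : ℕ, (A.U j)⁻¹ ≤ ENNReal.ofReal (1 / c * ((j : ℝ) + 1) ^ (-(3 / 4) : ℝ)) := by
      intro j
      have h0 : (0 : ℝ) < (j : ℝ) + 1 := by positivity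
      have h2 : 0 < c * ((j : ℝ) + 1) ^ (3 / 4 : ℝ) := by positivity
      calc (A.U j)⁻¹ ≤ (ENNReal.ofReal (c * ((j : ℝ) + 1) ^ (3 / 4 : ℝ)))⁻¹ := ENNReal.inv_le_inv.2 (hL j)
        _ = ENNReal.ofReal (c * ((j : ℝ) + 1) ^ (3 / 4 : ℝ))⁻¹ := (ENNReal.ofReal_inv_of_pos h2).symm
        _ = _ := by
            congr 1
            rw [mul_inv, ← Real.rpow_neg h0.le, one_div]
    have h2 : ∑ j ∈ range G, (A.U j)⁻¹ ≤ ENNReal.ofReal (1 / c * (4 * (G : ℝ) ^ (1 / 4 : ℝ))) := by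
      calc ∑ j ∈ range G, (A.U j)⁻¹ ≤ ∑ j ∈ range G, ENNReal.ofReal (1 / c * ((j : ℝ) + 1) ^ (-(3 / 4) : ℝ)) :=
            sum_le_sum fun j _ => h1 j
        _ = ENNReal.ofReal (∑ j ∈ range G, 1 / c * ((j : ℝ) + 1) ^ (-(3 / 4) : ℝ)) := by
            rw [ENNReal.ofReal_sum_of_nonneg fun j _ => by positivity]
        _ ≤ _ := by
            apply ENNReal.ofReal_le_ofReal
            rw [← mul_sum]
            exact mul_le_mul_of_nonneg_left (StQ_sum G) (by positivity)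
    calc (∑ j ∈ range G, (A.U j)⁻¹) * A.U G
        ≤ ENNReal.ofReal (1 / c * (4 * (G : ℝ) ^ (1 / 4 : ℝ))) * ENNReal.ofReal (C * ((G : ℝ) + 1) ^ (3 / 4 : ℝ)) :=
          mul_le_mul' h2 (hU G)
      _ = ENNReal.ofReal (1 / c * (4 * (G : ℝ) ^ (1 / 4 : ℝ)) * (C * ((G : ℝ) + 1) ^ (3 / 4 : ℝ))) := by
          exact (ENNReal.ofReal_mul (by positivity)).symm
      _ ≤ ENNReal.ofReal (K * G) := by
          apply ENNReal.ofReal_le_ofReal
          have h3 : ((G : ℝ) + 1) ^ (3 / 4 : ℝ) ≤ 2 * (G : ℝ) ^ (3 / 4 : ℝ) := by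
            calc ((G : ℝ) + 1) ^ (3 / 4 : ℝ) ≤ (2 * (G : ℝ)) ^ (3 / 4 : ℝ) :=
                  Real.rpow_le_rpow (by linarith) (by linarith) (by norm_num)
              _ = (2 : ℝ) ^ (3 / 4 : ℝ) * (G : ℝ) ^ (3 / 4 : ℝ) := Real.mul_rpow (by norm_num) hG0.le
              _ ≤ 2 * (G : ℝ) ^ (3 / 4 : ℝ) := by
                  refine mul_le_mul_of_nonneg_right ?_ (by positivity)
                  calc (2 : ℝ) ^ (3 / 4 : ℝ) ≤ (2 : ℝ) ^ (1 : ℝ) :=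
                        Real.rpow_le_rpow_of_exponent_le (by norm_num) (by norm_num)
                    _ = 2 := Real.rpow_one 2
          have h4 : (G : ℝ) ^ (1 / 4 : ℝ) * (G : ℝ) ^ (3 / 4 : ℝ) = G := by
            rw [← Real.rpow_add hG0]
            norm_num
          have h5 : (0 : ℝ) ≤ (G : ℝ) ^ (1 / 4 : ℝ) := by positivity
          calc 1 / c * (4 * (G : ℝ) ^ (1 / 4 : ℝ)) * (C * ((G : ℝ) + 1) ^ (3 / 4 : ℝ))
              ≤ 1 / c * (4 * (G : ℝ) ^ (1 / 4 : ℝ)) * (C * (2 * (G : ℝ) ^ (3 / 4 : ℝ))) := by gcongr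
            _ = 8 * C / c * ((G : ℝ) ^ (1 / 4 : ℝ) * (G : ℝ) ^ (3 / 4 : ℝ)) := by ring
            _ = 8 * C / c * G := by rw [h4]
            _ ≤ K * G := mul_le_mul_of_nonneg_right hK hG0.le
      _ = K * G := by
          rw [ENNReal.ofReal_mul (Nat.cast_nonneg K), ENNReal.ofReal_natCast, ENNReal.ofReal_natCast]

end Alph

end Pool.Agent.HEP
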