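import Pool.Agent.PLY.G.Defs
import Pool.Agent.HEP.GRefl

/-!
Project PLY (MP_8c6f77_pr, honeycomb lattice, polynomial bound), LEMMA G: width of the blocks of `hsI`: `|dx c| + 2 ≤ wdb c`, and the
width is invariant under the reflection.
-/

namespace Pool.Agent.HEP

open Pool.Agent.Hhelper14.SAW Pool.Agent.HHP

/-- The displacement of a block is at most its width. -/
theorem wdb_dx2 (c : Blk) : |hsI.dx c| + 2 ≤ wdb c := by
  have h := wdb_le c (E_mem c.1) (o_mem c.1)
  rwa [sub_zero] at h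

theorem wdb_dx (c : Blk) : |hsI.dx c| ≤ wdb c := by
  have := wdb_dx2 c
  omega

/-- The width is invariant under the reflection. -/
theorem wdb_rf (c : Blk) : wdb (hsI.rf c) = wdb c := by
  have key : ∀ c : Blk, wdb (hsI.rf c) ≤ wdb c := by
    intro c
    unfold wdb
    refine Nat.add_le_add_right (Finset.sup_le ?_) 2
    rintro ⟨z, w⟩ hzw
    rw [Finset.mem_product, List.mem_toFinset, List.mem_toFinset] at hzw
    obtain ⟨hz, hw⟩ := hzw
    have e : (hsI.rf c).1 = c.1.map (! ·) := rfl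
    rw [e, V_not, List.mem_map] at hz hw
    obtain ⟨z', hz', rfl⟩ := hz
    obtain ⟨w', hw', rfl⟩ := hw
    have h1 : ((sg z').2 - (sg w').2).natAbs = (z'.2 - w'.2).natAbs := by
      show (-z'.2 - -w'.2).natAbs = (z'.2 - w'.2).natAbs
      omega
    show ((sg z').2 - (sg w').2).natAbs ≤ _
    rw [h1]
    exact Finset.le_sup (f := fun p : (ℤ × ℤ) × (ℤ × ℤ) => (p.1.2 - p.2.2).natAbs)
      (Finset.mem_product.2 ⟨List.mem_toFinset.2 hz', List.mem_toFinset.2 hw'⟩ :
        (z', w') ∈ (V c.1).toFinset ×ˢ (V c.1).toFinset)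
  refine le_antisymm (key c) ?_
  have h := key (hsI.rf c)
  have e : hsI.rf (hsI.rf c) = c := hsI.rf_rf c
  rw [e] at h
  exact h

end Pool.Agent.HEP
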