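import Pool.Agent.PLY.G.StFlat
import Pool.Agent.PLY.G.StQ
import Pool.Agent.PLY.G.StWdb
import Pool.Agent.PLY.G.BTail

/-!
Project PLY (MP_8c6f77_pr, honeycomb lattice, polynomial bound), LEMMA G, STEERING: the output `FlatP K` for `hsI`, from the reversal
theorem (files Rv*) and the regularity of `b`.
-/

namespace Pool.Agent.HEP

/-- The vertical tube of `hsI`. -/
theorem hsI_tube_zero (hQ : hsI.toAlph.Quarter) (hA : Antitone hsI.b) : hsI.toAlph.Tube wdb 0 :=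
  Alph.tube_zero hA wdb_dx wdb_rf Pool.Agent.PLY.G.tailP (hQ.stReg hA)

/-- Tubes of every slope. -/
theorem hsI_tube (hQ : hsI.toAlph.Quarter) (hA : Antitone hsI.b)
    (hrev : ∀ κ κ₁ : ℝ, 0 ≤ κ → κ < 1 → κ₁ < (3 + κ) / (1 - κ) → hsI.toAlph.Tube wdb κ → hsI.toAlph.Slope wdb κ₁)
    (κ : ℝ) : hsI.toAlph.Tube wdb κ :=
  Alph.Tube.all hA wdb_dx wdb_rf (hsI_tube_zero hQ hA) hrev κ

/-- The flat slabs. -/
theorem hsI_flatP (hQ : hsI.toAlph.Quarter) (hA : Antitone hsI.b)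
    (hrev : ∀ κ κ₁ : ℝ, 0 ≤ κ → κ < 1 → κ₁ < (3 + κ) / (1 - κ) → hsI.toAlph.Tube wdb κ → hsI.toAlph.Slope wdb κ₁)
    (K : ℕ) : hsI.toAlph.FlatP wdb K :=
  Alph.Tube.flatP wdb_dx K (hsI_tube hQ hA hrev _) (hsI_tube_zero hQ hA)

end Pool.Agent.HEP
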