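import Pool.Agent.PLY.G.MainB
import Pool.Agent.PLY.G.MainC
import Pool.Agent.PLY.G.HiLo
import Pool.Agent.PLY.G.StAll
import Pool.Agent.PLY.G.RunReg
import Pool.Agent.BEX.Reg

/-!
Project PLY (MP_8c6f77_pr), LEMMA G (note 3063): THE THEOREM, for the system `hsI` and the width `wdb`.

`hit`: two bounds. (1) No avoidance: `U (2 ^ j) * mass{size c ≥ 2 ^ k} ≤ C 2 ^ (- 3 (k - j) / 4)`. (2) With avoidance: either the giant block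
avoids half of the windows (`blk_main`), or the fresh chain has no slab at half of the scales (`Alph.runs`, `MBm_half`): `≤ C ρ ^ (j - i)`.
Geometric mean (`MC_exp`, `MC_mean`): `ρ₂` is any number `> 2 ^ (- 3/4)`, then `ρ₁ < 1` close to `1`.
-/

namespace Pool.Agent.HEP

open Pool.Agent.Hhelper14.SAW Pool.Agent.HHP Pool.Agent.PLY.G
open scoped ENNReal

private lemma MG_U (k : ℕ) : hsI.U (2 ^ k) ≤ 2 * hsI.U (2 ^ k - 1) := by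
  have h3 := hsI_U_mul (2 ^ k - 1) 1
  have h4 : 1 ≤ 2 ^ k := Nat.one_le_two_pow
  refine (hsI_U_mono (by omega)).trans (h3.trans (le_of_eq ?_))
  norm_num

/-- Tail of the size. -/
lemma MG_tail (k : ℕ) : hsI.U (2 ^ k) * ∑' c, ind (2 ^ k ≤ hsI.sz wdb c) * hsI.wt c ≤ 800 := by
  have h1 := tailP (2 ^ k - 1)
  have h2 : 1 ≤ 2 ^ k := Nat.one_le_two_pow
  calc hsI.U (2 ^ k) * ∑' c, ind (2 ^ k ≤ hsI.sz wdb c) * hsI.wt c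
      ≤ (2 * hsI.U (2 ^ k - 1)) * ∑' c, ind (2 ^ k - 1 < hsI.ht c ∨ 2 ^ k - 1 < wdb c) * hsI.wt c := by
        refine mul_le_mul' (MG_U k) (ENNReal.tsum_le_tsum fun c => mul_le_mul' (ind_mono fun h => ?_) le_rfl)
        unfold Sys.sz at h
        rcases le_max_iff.1 h with h | h
        · left; omega
        · right; omega
    _ = 2 * (hsI.U (2 ^ k - 1) * ∑' c, ind (2 ^ k - 1 < hsI.ht c ∨ 2 ^ k - 1 < wdb c) * hsI.wt c) := by ring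
    _ ≤ 2 * ((400 : ℕ) : ℝ≥0∞) := mul_le_mul' le_rfl h1
    _ = 800 := by norm_num

/-- The left side of Lemma G, without the factor `U`. -/
private noncomputable def MGs (σ : Bool) (l s : List Blk) (j k : ℕ) : ℝ≥0∞ :=
  ∑' c : Blk, ∑' t : List Blk, ind (hsI.gp σ (l ++ [c]) (s ++ t) ∧ hsI.h (s ++ t) ≤ hsI.h l + 2 ^ j ∧ 2 ^ j ≤ hsI.ht c ∧
      2 ^ k ≤ hsI.sz wdb c) * (hsI.wt c * (hsI.w t * hsI.Lam (hsI.h l + 2 ^ j - hsI.h (s ++ t))))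

private lemma MGs_eq (σ : Bool) (l s : List Blk) (j k : ℕ) :
    MGs σ l s j k = ∑' c : Blk, ind (2 ^ j ≤ hsI.ht c ∧ 2 ^ k ≤ hsI.sz wdb c) * (hsI.wt c * MBm σ l s j c) := by
  unfold MGs
  refine tsum_congr fun c => ?_
  unfold MBm
  rw [← ENNReal.tsum_mul_left, ← ENNReal.tsum_mul_left]
  refine tsum_congr fun t => ?_
  have h1 : ind (hsI.gp σ (l ++ [c]) (s ++ t) ∧ hsI.h (s ++ t) ≤ hsI.h l + 2 ^ j ∧ 2 ^ j ≤ hsI.ht c ∧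
      2 ^ k ≤ hsI.sz wdb c) = ind (2 ^ j ≤ hsI.ht c ∧ 2 ^ k ≤ hsI.sz wdb c) *
        ind (hsI.gp σ (l ++ [c]) (s ++ t) ∧ hsI.h (s ++ t) ≤ hsI.h l + 2 ^ j) := by
    rw [← ind_and]
    exact ind_congr ⟨fun h => ⟨h.2.2, h.1, h.2.1⟩, fun h => ⟨h.2.1, h.2.2, h.1⟩⟩
  rw [h1]
  ring

/-- The bound without avoidance. -/
private lemma MG_far {K0 ρ κ : ℝ≥0∞} (hR : Alph.RegU hsI.toAlph K0 ρ κ) {σ : Bool} {l s : List Blk} {i j k : ℕ} (hij : i ≤ j) (hjk : j ≤ k)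
    (hds : hsI.ds σ l s ≤ 2 ^ i) : hsI.U (2 ^ j) * MGs σ l s j k ≤ (800 * K0) * ρ ^ (k - j) := by
  rw [MGs_eq]
  calc hsI.U (2 ^ j) * ∑' c : Blk, ind (2 ^ j ≤ hsI.ht c ∧ 2 ^ k ≤ hsI.sz wdb c) * (hsI.wt c * MBm σ l s j c)
      ≤ (K0 * ρ ^ (k - j) * hsI.U (2 ^ k)) * ∑' c : Blk, ind (2 ^ k ≤ hsI.sz wdb c) * hsI.wt c := by
        refine mul_le_mul' (hR.up j k hjk) (ENNReal.tsum_le_tsum fun c => mul_le_mul' (ind_mono fun h => h.2) ?_)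
        calc hsI.wt c * MBm σ l s j c ≤ hsI.wt c * 1 := mul_le_mul' le_rfl (MBm_le_one hij hds c)
          _ = hsI.wt c := mul_one _
    _ = (K0 * ρ ^ (k - j)) * (hsI.U (2 ^ k) * ∑' c : Blk, ind (2 ^ k ≤ hsI.sz wdb c) * hsI.wt c) := by ring
    _ ≤ (K0 * ρ ^ (k - j)) * 800 := mul_le_mul' le_rfl (MG_tail k)
    _ = _ := by ring

private lemma MG_div {Y C : ℝ≥0∞} {i j : ℕ} (hij : i ≤ j) (h : (2 ^ j : ℝ≥0∞) * Y ≤ C * 2 ^ i) : Y ≤ C * 2⁻¹ ^ (j - i) := by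
  have h1 : (2 ^ j : ℝ≥0∞) = 2 ^ i * 2 ^ (j - i) := by rw [← pow_add]; congr 1; omega
  have h2 : (2 ^ i : ℝ≥0∞) ≠ 0 := by positivity
  have h3 : (2 ^ i : ℝ≥0∞) ≠ ⊤ := by finiteness
  have h4 : (2 ^ (j - i) : ℝ≥0∞) * Y ≤ C := by
    refine (ENNReal.mul_le_mul_iff_right h2 h3).1 ?_
    calc (2 ^ i : ℝ≥0∞) * (2 ^ (j - i) * Y) = 2 ^ j * Y := by rw [h1]; ring
      _ ≤ C * 2 ^ i := h
      _ = _ := by ring
  have h5 : (2⁻¹ ^ (j - i) : ℝ≥0∞) * 2 ^ (j - i) = 1 := by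
    rw [← mul_pow, ENNReal.inv_mul_cancel (by norm_num) (by norm_num), one_pow]
  calc Y = (2⁻¹ ^ (j - i) * 2 ^ (j - i)) * Y := by rw [h5, one_mul]
    _ = 2⁻¹ ^ (j - i) * (2 ^ (j - i) * Y) := by ring
    _ ≤ 2⁻¹ ^ (j - i) * C := mul_le_mul' le_rfl h4
    _ = _ := by ring

/-- The bound with avoidance. -/
private lemma MG_near {b K Cb : ℕ} {C ρ : ℝ≥0∞} (hb : 5 ≤ b)
    (hrun : ∀ (i n M : ℕ) (J : Finset ℕ), J ⊆ Finset.Icc 1 n → n ≤ 2 * J.card → 3 * 2 ^ (b * n + i) ≤ M →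
      ∑' f, ind (hsI.fpw M f ∧ ∀ m ∈ J, ¬ hsI.slab wdb (K + 2) (2 ^ (b * m + i)) f) * hsI.w f ≤ C * ρ ^ n)
    (hblk : ∀ (σ τ : Bool) (r R : ℕ), 1 ≤ r → r ≤ R →
      (R : ℝ≥0∞) * (hsI.U R * ∑' c : Blk, ind (R ≤ htw c.1 ∧ Avh σ τ K (2 ^ b) r R c) * xE ^ (c.1.length + 1)) ≤ Cb * r)
    {σ : Bool} {l s : List Blk} {i j k : ℕ} (hij : i ≤ j) (hls : hsI.h l ≤ hsI.h s) (hds : hsI.ds σ l s ≤ 2 ^ i) :
    hsI.U (2 ^ j) * MGs σ l s j k ≤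
      2 * (Cb * 2⁻¹ ^ (j - i)) + 1600 * (C * ρ ^ (Js (2 ^ b) (2 ^ i) (2 ^ j)).card) := by
  set n := (Js (2 ^ b) (2 ^ i) (2 ^ j)).card with hn
  have hi : 1 ≤ 2 ^ i := Nat.one_le_two_pow
  have hij' : 2 ^ i ≤ 2 ^ j := Nat.pow_le_pow_right (by norm_num) hij
  have hB : ∀ τ, hsI.U (2 ^ j) * ∑' c : Blk, ind (2 ^ j ≤ hsI.ht c ∧ Avh σ τ K (2 ^ b) (2 ^ i) (2 ^ j) c) * hsI.wt c ≤
      Cb * 2⁻¹ ^ (j - i) := by
    intro τ
    refine MG_div hij ?_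
    have h1 := hblk σ τ (2 ^ i) (2 ^ j) hi hij'
    push_cast at h1
    exact h1
  have hT : hsI.U (2 ^ j) * ∑' c : Blk, ind (2 ^ j ≤ hsI.ht c) * hsI.wt c ≤ 800 :=
    le_trans (mul_le_mul' le_rfl (ENNReal.tsum_le_tsum fun c => mul_le_mul' (ind_mono fun h =>
      le_max_of_le_left h) le_rfl)) (MG_tail j)
  have hpt : ∀ c : Blk, ind (2 ^ j ≤ hsI.ht c ∧ 2 ^ k ≤ hsI.sz wdb c) * (hsI.wt c * MBm σ l s j c) ≤
      ind (2 ^ j ≤ hsI.ht c ∧ Avh σ true K (2 ^ b) (2 ^ i) (2 ^ j) c) * hsI.wt c +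
      ind (2 ^ j ≤ hsI.ht c ∧ Avh σ false K (2 ^ b) (2 ^ i) (2 ^ j) c) * hsI.wt c +
      ind (2 ^ j ≤ hsI.ht c) * hsI.wt c * (2 * (C * ρ ^ n)) := by
    intro c
    by_cases h0 : 2 ^ j ≤ hsI.ht c ∧ 2 ^ k ≤ hsI.sz wdb c
    · rw [ind_true h0, one_mul, ind_true h0.1, one_mul]
      by_cases h1 : Avh σ true K (2 ^ b) (2 ^ i) (2 ^ j) c
      · rw [ind_true ⟨h0.1, h1⟩, one_mul]
        refine le_trans ?_ (le_add_right le_self_add)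
        calc hsI.wt c * MBm σ l s j c ≤ hsI.wt c * 1 := mul_le_mul' le_rfl (MBm_le_one hij hds c)
          _ = hsI.wt c := mul_one _
      by_cases h2 : Avh σ false K (2 ^ b) (2 ^ i) (2 ^ j) c
      · rw [ind_true (p := 2 ^ j ≤ hsI.ht c ∧ Avh σ false K (2 ^ b) (2 ^ i) (2 ^ j) c) ⟨h0.1, h2⟩, one_mul]
        refine le_trans ?_ (le_add_right le_add_self)
        calc hsI.wt c * MBm σ l s j c ≤ hsI.wt c * 1 := mul_le_mul' le_rfl (MBm_le_one hij hds c)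
          _ = hsI.wt c := mul_one _
      · exact le_trans (mul_le_mul' le_rfl (MBm_half hb hrun hij hls hds h1 h2)) le_add_self
    · rw [ind_false h0, zero_mul]; exact bot_le
  rw [MGs_eq]
  calc hsI.U (2 ^ j) * ∑' c : Blk, ind (2 ^ j ≤ hsI.ht c ∧ 2 ^ k ≤ hsI.sz wdb c) * (hsI.wt c * MBm σ l s j c)
      ≤ hsI.U (2 ^ j) * ∑' c : Blk, (ind (2 ^ j ≤ hsI.ht c ∧ Avh σ true K (2 ^ b) (2 ^ i) (2 ^ j) c) * hsI.wt c +
          ind (2 ^ j ≤ hsI.ht c ∧ Avh σ false K (2 ^ b) (2 ^ i) (2 ^ j) c) * hsI.wt c +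
          ind (2 ^ j ≤ hsI.ht c) * hsI.wt c * (2 * (C * ρ ^ n))) :=
        mul_le_mul' le_rfl (ENNReal.tsum_le_tsum hpt)
    _ = hsI.U (2 ^ j) * ∑' c : Blk, ind (2 ^ j ≤ hsI.ht c ∧ Avh σ true K (2 ^ b) (2 ^ i) (2 ^ j) c) * hsI.wt c +
          hsI.U (2 ^ j) * ∑' c : Blk, ind (2 ^ j ≤ hsI.ht c ∧ Avh σ false K (2 ^ b) (2 ^ i) (2 ^ j) c) * hsI.wt c +
          (hsI.U (2 ^ j) * ∑' c : Blk, ind (2 ^ j ≤ hsI.ht c) * hsI.wt c) * (2 * (C * ρ ^ n)) := by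
        rw [ENNReal.tsum_add, ENNReal.tsum_add, ENNReal.tsum_mul_right]
        ring
    _ ≤ Cb * 2⁻¹ ^ (j - i) + Cb * 2⁻¹ ^ (j - i) + 800 * (2 * (C * ρ ^ n)) :=
        add_le_add (add_le_add (hB true) (hB false)) (mul_le_mul' hT le_rfl)
    _ = _ := by ring

/-- `2 ^ (- 3/4)`. -/
noncomputable def r34 : ℝ≥0∞ := ENNReal.ofReal (2 ^ (-(3 / 4) : ℝ))

/-- **LEMMA G**, from the flat slabs. -/
theorem hsI_lemmaG_of (hF : ∀ K, hsI.toAlph.FlatP wdb K) {ρ₂ : ℝ≥0∞} (h2 : r34 < ρ₂) (h2' : ρ₂ < 1) :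
    ∃ K ρ₁ : ℝ≥0∞, 1 ≤ K ∧ K ≠ ⊤ ∧ ρ₂ < ρ₁ ∧ ρ₁ < 1 ∧ hsI.Hit wdb K ρ₁ ρ₂ ∧ hsI.Rho K ρ₂ := by
  -- regularity
  have hA : Antitone hsI.b := hsI_anti'
  obtain ⟨c, hc, hl⟩ := hsI_quarter.U_ge hA
  obtain ⟨Cu, hCu, hu⟩ := hsI_quarter.U_le
  have hR := Alph.regU_of hc hCu hl hu
  set K0 : ℝ≥0∞ := ENNReal.ofReal (2 * Cu / c) with hK0
  have hK0t : K0 ≠ ⊤ := ENNReal.ofReal_ne_top
  -- runs and blocks
  obtain ⟨b0, hb0⟩ := Alph.runs wdb_dx hR hK0t Alph.regU_rho Alph.regU_sigma tailP hF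
  set b := max b0 5 with hb
  have hb5 : 5 ≤ b := le_max_right _ _
  obtain ⟨K, Cb, hblk⟩ := blk_main (2 ^ b) (by
    calc 8 = 2 ^ 3 := by norm_num
      _ ≤ 2 ^ b := Nat.pow_le_pow_right (by norm_num) (by omega))
  obtain ⟨C, ρ, hC, hρ, hrun⟩ := hb0 b (le_max_left _ _) (K + 2)
  have hblk := hblk K le_rfl
  -- the base
  set ρm : ℝ≥0∞ := max ρ 2⁻¹ with hρm
  have hρm1 : ρm < 1 := max_lt hρ (by norm_num)
  have hρm2 : 2⁻¹ ≤ ρm := le_max_right _ _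
  have hρmρ : ρ ≤ ρm := le_max_left _ _
  have hb' : (0 : ℝ) < b := by
    have : (5 : ℝ) ≤ b := by exact_mod_cast hb5
    linarith
  set a : ℝ≥0∞ := ρm ^ (1 / (b : ℝ)) with ha
  have ha1 : a < 1 := ENNReal.rpow_lt_one hρm1 (by positivity)
  have ha2 : ρm ≤ a := by
    have h3 : a ^ b = ρm := by
      rw [ha, ← ENNReal.rpow_natCast, ← ENNReal.rpow_mul, one_div, inv_mul_cancel₀ hb'.ne', ENNReal.rpow_one]
    calc ρm = a ^ b := h3.symm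
      _ ≤ a ^ 1 := pow_le_pow_right_of_le_one' ha1.le (by omega)
      _ = a := pow_one a
  have ha0 : a ≠ 0 := fun h => by
    have h3 := hρm2.trans ha2
    rw [h] at h3
    exact absurd h3 (by simp)
  have hr0 : r34 ≠ 0 := by
    unfold r34
    have : (0 : ℝ) < 2 ^ (-(3 / 4) : ℝ) := by positivity
    exact (ENNReal.ofReal_pos.2 this).ne'
  obtain ⟨θ, hθ0, hθ1, hθ2, hθ3, hθ4⟩ := MC_exp ha0 ha1 hr0 h2 h2'
  -- the two bounds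
  set A1 : ℝ≥0∞ := 2 * Cb + 6400 * C with hA1
  set A2 : ℝ≥0∞ := 800 * K0 with hA2
  have hA1t : A1 ≠ ⊤ := by
    rw [hA1]
    have : (Cb : ℝ≥0∞) ≠ ⊤ := ENNReal.natCast_ne_top Cb
    finiteness
  have hA2t : A2 ≠ ⊤ := by
    rw [hA2]
    finiteness
  set KK : ℝ≥0∞ := A1 ^ θ * A2 ^ (1 - θ) + 800 + K0 with hKK
  have hKKt : KK ≠ ⊤ := by
    have h3 : A1 ^ θ ≠ ⊤ := ENNReal.rpow_ne_top_of_nonneg hθ0.le hA1t
    have h4 : A2 ^ (1 - θ) ≠ ⊤ := ENNReal.rpow_ne_top_of_nonneg (by linarith) hA2t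
    rw [hKK]
    finiteness
  have hKK800 : 800 ≤ KK := le_trans le_add_self le_self_add
  have hr2 : r34 ≤ ρ₂ := h2.le
  refine ⟨KK, a ^ θ, le_trans (by norm_num) hKK800, hKKt, hθ3, hθ4, ⟨?_, hsI_hi, hsI_lo, ?_, ?_⟩, ?_⟩
  · intro c
    have := wdb_dx2 c
    omega
  · intro k
    exact (MG_tail k).trans hKK800
  · intro σ l s i j k hij hjk hls hds
    have e1 : hsI.U (2 ^ j) * MGs σ l s j k ≤ A2 * r34 ^ (k - j) := MG_far hR hij hjk hds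
    have e2 : hsI.U (2 ^ j) * MGs σ l s j k ≤ A1 * a ^ (j - i) := by
      refine (MG_near hb5 hrun hblk hij hls hds).trans ?_
      set n := (Js (2 ^ b) (2 ^ i) (2 ^ j)).card with hn
      have h3 : 2 ^ j < 4 * ((2 ^ b) ^ (n + 1) * 2 ^ i) := Js_lt (by
        calc 8 = 2 ^ 3 := by norm_num
          _ ≤ 2 ^ b := Nat.pow_le_pow_right (by norm_num) (by omega)) Nat.one_le_two_pow
      have h4 : j < 2 + (b * (n + 1) + i) := by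
        refine (Nat.pow_lt_pow_iff_right (a := 2) (by norm_num)).1 (h3.trans_le (le_of_eq ?_))
        calc 4 * ((2 ^ b) ^ (n + 1) * 2 ^ i) = 2 ^ 2 * (2 ^ (b * (n + 1)) * 2 ^ i) := by rw [pow_mul]; norm_num
          _ = 2 ^ (2 + (b * (n + 1) + i)) := by rw [pow_add 2 2, pow_add 2 (b * (n + 1)) i]
      have h5 : ρ ^ n ≤ 4 * a ^ (j - i) :=
        (pow_le_pow_left' hρmρ n).trans (MC_oct hρm2 hρm1 (by omega) (by omega))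
      have h6 : (2⁻¹ : ℝ≥0∞) ^ (j - i) ≤ a ^ (j - i) := pow_le_pow_left' (hρm2.trans ha2) _
      calc 2 * ((Cb : ℝ≥0∞) * 2⁻¹ ^ (j - i)) + 1600 * (C * ρ ^ n)
          ≤ 2 * ((Cb : ℝ≥0∞) * a ^ (j - i)) + 1600 * (C * (4 * a ^ (j - i))) := by gcongr
        _ = A1 * a ^ (j - i) := by rw [hA1]; ring
    have e3 := MC_mean hθ0.le hθ1.le e2 e1
    refine e3.trans ?_
    refine mul_le_mul' (mul_le_mul' ?_ le_rfl) (pow_le_pow_left' hθ2 _)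
    exact le_trans le_self_add le_self_add
  · intro j k hjk
    refine (hR.up j k hjk).trans ?_
    refine mul_le_mul' (mul_le_mul' le_add_self (pow_le_pow_left' hr2 _)) le_rfl

end Pool.Agent.HEP
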