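import Pool.Agent.PLY.G.Defs
import Pool.Agent.HEP.RnCut

/-!
Project PLY, Lemma G, part RUNS, file 1: the chain up to its first renewal `≥ N` (words with `fpw N`).
* `fpw_cons`: recursion; `tsum_fpw`: total mass `1`; `RunA_wald`: Wald's identity; `RunA_split`: decomposition at a lower level;
  `fpw_append`, `pref_mass`: prefixes in a prefix free set.
-/

namespace Pool.Agent.HEP.Alph

open scoped ENNReal

variable {A : Alph}

lemma fpw_nil {N : ℕ} : A.fpw N [] ↔ N = 0 := by
  unfold fpw
  rw [A.h_nil]
  constructor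
  · intro h; omega
  · rintro rfl
    exact ⟨le_rfl, fun l1 c l2 e => by simp at e⟩

lemma fpw_cons {N : ℕ} {c : A.B} {l : List A.B} : A.fpw N (c :: l) ↔ 1 ≤ N ∧ A.fpw (N - A.ht c) l := by
  unfold fpw
  rw [A.h_cons]
  constructor
  · rintro ⟨h1, h2⟩
    have h3 := h2 [] c l rfl
    rw [A.h_nil] at h3
    refine ⟨h3, by omega, fun l1 c' l2 e => ?_⟩
    have h4 := h2 (c :: l1) c' l2 (by rw [e]; rfl)
    rw [A.h_cons] at h4
    omega
  · rintro ⟨h1, h2, h3⟩
    refine ⟨by omega, fun l1 c' l2 e => ?_⟩
    cases l1 with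
    | nil => rw [A.h_nil]; omega
    | cons a l1 =>
      rw [List.cons_append, List.cons.injEq] at e
      have h4 := h3 l1 c' l2 e.2
      rw [A.h_cons, ← e.1]
      omega

/-- The first passage words have total mass `1`. -/
lemma tsum_fpw (N : ℕ) : ∑' l, ind (A.fpw N l) * A.w l = 1 := by
  induction N using Nat.strong_induction_on with
  | _ N ih =>
    rw [tsum_list, A.w_nil, mul_one]
    rcases Nat.eq_zero_or_pos N with h0 | h0
    · subst h0
      rw [ind_true (fpw_nil.2 rfl)]
      rw [ENNReal.tsum_eq_zero.2 fun c => ENNReal.tsum_eq_zero.2 fun l => by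
        rw [ind_false (fun h => by have := (fpw_cons.1 h).1; omega), zero_mul], add_zero]
    · rw [ind_false (fun h => by have := fpw_nil.1 h; omega), zero_add]
      rw [← A.tot]
      refine tsum_congr fun c => ?_
      have hc := A.ht_pos c
      calc ∑' l, ind (A.fpw N (c :: l)) * A.w (c :: l)
          = ∑' l, A.wt c * (ind (A.fpw (N - A.ht c) l) * A.w l) := by
            refine tsum_congr fun l => ?_
            rw [A.w_cons, ind_congr (show A.fpw N (c :: l) ↔ A.fpw (N - A.ht c) l from
              ⟨fun h => (fpw_cons.1 h).2, fun h => fpw_cons.2 ⟨h0, h⟩⟩)]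
            ring
        _ = A.wt c := by rw [ENNReal.tsum_mul_left, ih (N - A.ht c) (by omega), mul_one]

/-- The mass of the words of height `< N`. -/
noncomputable def Rn (A : Alph) (N : ℕ) : ℝ≥0∞ := ∑' l, ind (A.h l < N) * A.w l

lemma Rn_zero : A.Rn 0 = 0 := by
  unfold Rn
  exact ENNReal.tsum_eq_zero.2 fun l => by rw [ind_false (by omega), zero_mul]

lemma Rn_pos {N : ℕ} (h0 : 1 ≤ N) : A.Rn N = 1 + ∑' c, A.wt c * A.Rn (N - A.ht c) := by
  unfold Rn
  rw [tsum_list, A.h_nil, A.w_nil, ind_true (by omega), one_mul]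
  congr 1
  refine tsum_congr fun c => ?_
  rw [← ENNReal.tsum_mul_left]
  refine tsum_congr fun l => ?_
  rw [A.h_cons, A.w_cons, ind_congr (show A.ht c + A.h l < N ↔ A.h l < N - A.ht c by omega)]
  ring

lemma Rn_le (N : ℕ) : A.Rn N ≤ A.U N := by
  rw [← A.tsum_le N]
  unfold Rn
  exact ENNReal.tsum_le_tsum fun l => mul_le_mul' (ind_mono fun h => h.le) le_rfl

/-- Wald's identity. -/
lemma RunA_wald (f : A.B → ℝ≥0∞) (N : ℕ) :
    ∑' l, ind (A.fpw N l) * (A.w l * (l.map f).sum) = A.Rn N * ∑' c, A.wt c * f c := by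
  induction N using Nat.strong_induction_on with
  | _ N ih =>
    rcases Nat.eq_zero_or_pos N with h0 | h0
    · subst h0
      rw [Rn_zero, zero_mul]
      refine ENNReal.tsum_eq_zero.2 fun l => ?_
      cases l with
      | nil => simp
      | cons c l => rw [ind_false (fun h => by have := (fpw_cons.1 h).1; omega), zero_mul]
    · rw [tsum_list, ind_false (fun h => by have := fpw_nil.1 h; omega), zero_mul, zero_add, Rn_pos h0, add_mul, one_mul,
        ← ENNReal.tsum_mul_right, ← ENNReal.tsum_add]
      refine tsum_congr fun c => ?_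
      have hc := A.ht_pos c
      calc ∑' l, ind (A.fpw N (c :: l)) * (A.w (c :: l) * ((c :: l).map f).sum)
          = ∑' l, (A.wt c * f c * (ind (A.fpw (N - A.ht c) l) * A.w l) +
              A.wt c * (ind (A.fpw (N - A.ht c) l) * (A.w l * (l.map f).sum))) := by
            refine tsum_congr fun l => ?_
            rw [A.w_cons, ind_congr (show A.fpw N (c :: l) ↔ A.fpw (N - A.ht c) l from
              ⟨fun h => (fpw_cons.1 h).2, fun h => fpw_cons.2 ⟨h0, h⟩⟩), List.map_cons, List.sum_cons]
            ring
        _ = _ := by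
            rw [ENNReal.tsum_add, ENNReal.tsum_mul_left, ENNReal.tsum_mul_left, tsum_fpw, mul_one,
              ih (N - A.ht c) (by omega)]
            ring

/-- First passage of a concatenation. -/
lemma fpw_append {N : ℕ} {l m : List A.B} (h : A.h l ≤ N) : A.fpw N (l ++ m) ↔ A.fpw (N - A.h l) m := by
  induction l generalizing N with
  | nil => rw [List.nil_append, A.h_nil, Nat.sub_zero]
  | cons c l ih =>
    rw [A.h_cons] at h
    have hc := A.ht_pos c
    rw [List.cons_append, fpw_cons, ih (by omega), A.h_cons, Nat.sub_sub]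
    exact ⟨fun h => h.2, fun h => ⟨by omega, h⟩⟩

/-- Decomposition of a first passage word at a lower level. -/
lemma RunA_split {N N' : ℕ} (hN : N ≤ N') (F : List A.B → ℝ≥0∞) :
    ∑' s, ind (A.fpw N' s) * F s =
      ∑' s, ind (A.fpw N s) * ∑' t, ind (A.fpw (N' - A.h s) t) * F (s ++ t) := by
  induction N using Nat.strong_induction_on generalizing N' F with
  | _ N ih =>
    rw [tsum_list (fun s => ind (A.fpw N s) * ∑' t, ind (A.fpw (N' - A.h s) t) * F (s ++ t))]
    rcases Nat.eq_zero_or_pos N with h0 | h0
    · subst h0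
      rw [ind_true (fpw_nil.2 rfl), one_mul, A.h_nil, Nat.sub_zero]
      rw [ENNReal.tsum_eq_zero.2 fun c => ENNReal.tsum_eq_zero.2 fun l => by
        rw [ind_false (fun h => by have := (fpw_cons.1 h).1; omega), zero_mul], add_zero]
      rfl
    · rw [ind_false (p := A.fpw N []) (fun h => by have := fpw_nil.1 h; omega), zero_mul, zero_add, tsum_list,
        ind_false (p := A.fpw N' []) (fun h => by have := fpw_nil.1 h; omega), zero_mul, zero_add]
      refine tsum_congr fun c => ?_
      have hc := A.ht_pos c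
      have h1 := ih (N - A.ht c) (by omega) (N' := N' - A.ht c) (by omega) (fun s => F (c :: s))
      calc ∑' l, ind (A.fpw N' (c :: l)) * F (c :: l)
          = ∑' l, ind (A.fpw (N' - A.ht c) l) * F (c :: l) := by
            refine tsum_congr fun l => ?_
            rw [ind_congr (show A.fpw N' (c :: l) ↔ A.fpw (N' - A.ht c) l from
              ⟨fun h => (fpw_cons.1 h).2, fun h => fpw_cons.2 ⟨by omega, h⟩⟩)]
        _ = _ := h1
        _ = _ := by
            refine tsum_congr fun l => ?_
            rw [ind_congr (show A.fpw N (c :: l) ↔ A.fpw (N - A.ht c) l from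
              ⟨fun h => (fpw_cons.1 h).2, fun h => fpw_cons.2 ⟨h0, h⟩⟩), A.h_cons, Nat.sub_sub]
            rfl

/-- The word `s` has a prefix in `X`. -/
def hasPre (X : Set (List A.B)) (s : List A.B) : Prop := ∃ l ∈ X, ∃ m, s = l ++ m

/-- The first passage words with a prefix in the prefix free set `X` have at least the mass of `X`. -/
lemma pref_mass {X : Set (List A.B)} (hX : A.PF X) {N : ℕ} (hN : ∀ l ∈ X, A.h l ≤ N) :
    ∑' l, ind (l ∈ X) * A.w l ≤ ∑' s, ind (A.fpw N s ∧ hasPre X s) * A.w s := by
  classical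
  calc ∑' l, ind (l ∈ X) * A.w l
      = ∑' l, ∑' m, ind (l ∈ X) * (A.w l * (ind (A.fpw (N - A.h l) m) * A.w m)) := by
        refine tsum_congr fun l => ?_
        rw [ENNReal.tsum_mul_left, ENNReal.tsum_mul_left, tsum_fpw, mul_one]
    _ = ∑' l, ∑' m, ∑' s, ind (s = l ++ m) * (ind (l ∈ X) * (A.w l * (ind (A.fpw (N - A.h l) m) * A.w m))) := by
        refine tsum_congr fun l => tsum_congr fun m => ?_
        rw [tsum_eq_single (l ++ m) (fun s hs => by rw [ind_false hs, zero_mul]), ind_true rfl, one_mul]
    _ = ∑' s, ∑' l, ∑' m, ind (s = l ++ m) * (ind (l ∈ X) * (A.w l * (ind (A.fpw (N - A.h l) m) * A.w m))) := by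
        rw [ENNReal.tsum_comm]
        rw [show (∑' m, ∑' l, ∑' s, ind (s = l ++ m) * (ind (l ∈ X) * (A.w l * (ind (A.fpw (N - A.h l) m) * A.w m)))) =
          ∑' m, ∑' s, ∑' l, ind (s = l ++ m) * (ind (l ∈ X) * (A.w l * (ind (A.fpw (N - A.h l) m) * A.w m))) from
          tsum_congr fun m => ENNReal.tsum_comm]
        rw [ENNReal.tsum_comm]
        exact tsum_congr fun s => ENNReal.tsum_comm
    _ ≤ _ := by
        refine ENNReal.tsum_le_tsum fun s => ?_
        by_cases hs : ∃ l0 m0, l0 ∈ X ∧ s = l0 ++ m0 ∧ A.fpw (N - A.h l0) m0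
        · obtain ⟨l0, m0, h1, h2, h3⟩ := hs
          rw [ind_true ⟨by rw [h2]; exact (fpw_append (hN l0 h1)).2 h3, l0, h1, m0, h2⟩, one_mul]
          have key : ∀ l m, l ∈ X → s = l ++ m → l = l0 ∧ m = m0 := by
            intro l m hl e
            rw [h2] at e
            rcases List.append_eq_append_iff.1 e with ⟨u, e1, e2⟩ | ⟨u, e1, e2⟩
            · have := hX l0 h1 u (by rw [← e1]; exact hl)
              subst this
              simp only [List.append_nil] at e1
              simp only [List.nil_append] at e2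
              exact ⟨e1, e2.symm⟩
            · have := hX l hl u (by rw [← e1]; exact h1)
              subst this
              simp only [List.append_nil] at e1
              simp only [List.nil_append] at e2
              exact ⟨e1.symm, e2⟩
          rw [tsum_eq_single l0, tsum_eq_single m0]
          · rw [ind_true h2, ind_true h1, ind_true h3, one_mul, one_mul, one_mul, ← A.w_append, ← h2]
          · intro m hm
            rw [ind_false (fun e => hm (key l0 m h1 e).2), zero_mul]
          · intro l hl
            refine ENNReal.tsum_eq_zero.2 fun m => ?_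
            by_cases h4 : l ∈ X
            · rw [ind_false (p := s = l ++ m) (fun e => hl (key l m h4 e).1), zero_mul]
            · rw [ind_false (p := l ∈ X) h4, zero_mul, mul_zero]
        · refine le_trans (le_of_eq ?_) bot_le
          refine ENNReal.tsum_eq_zero.2 fun l => ENNReal.tsum_eq_zero.2 fun m => ?_
          by_cases h4 : l ∈ X
          · by_cases h5 : s = l ++ m
            · rw [ind_false (p := A.fpw (N - A.h l) m) (fun h6 => hs ⟨l, m, h4, h5, h6⟩), zero_mul, mul_zero, mul_zero,
                mul_zero]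
            · rw [ind_false h5, zero_mul]
          · rw [ind_false (p := l ∈ X) h4, zero_mul, mul_zero]

end Pool.Agent.HEP.Alph
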