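import Pool.Agent.PLY.G.BFin
import Pool.Agent.PLY.G.BTail

/-!
Project PLY, Lemma G, part BLOCKS, module BCon: `blk_main` in the form of the contract with helper37 (scales `2 ^ (β m + i)`, `1 ≤ m ≤ n`).

PAPER PROOF. `blk_main` with `B = 2 ^ β`, `r = 2 ^ i`, `R = 2 ^ j`. `Js` is `{1, ..., n}` or `{1, ..., n + 1}`. If less than `n / 2` of the `n` windows are met, at least
`(n + 1) / 2` are avoided.
-/

namespace Pool.Agent.PLY.G

open Pool.Agent.Hhelper14.SAW Pool.Agent.HHP Pool.Agent.HEP Pool.Agent.BEX Pool.Agent.BEX.C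
open scoped ENNReal

open Classical in
theorem blk (β : ℕ) (hβ : 3 ≤ β) : ∃ K₀ C : ℕ, ∀ K, K₀ ≤ K → ∀ (σ τ : Bool) (i j n : ℕ), 4 * 2 ^ (β * n + i) ≤ 2 ^ j →
    j ≤ β * (n + 1) + i + 2 →
    hsI.U (2 ^ j) * ∑' c : Blk, ind (2 ^ j ≤ htw c.1 ∧
      2 * ((Finset.Icc 1 n).filter (fun m => meets σ τ K (2 ^ (β * m + i)) c)).card < n) * hsI.wt c ≤
      (C : ℝ≥0∞) * ENNReal.ofReal (1 / 2) ^ n := by
  have hB : 8 ≤ 2 ^ β := by
    calc 8 = 2 ^ 3 := by norm_num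
      _ ≤ 2 ^ β := Nat.pow_le_pow_right (by norm_num) hβ
  obtain ⟨K₀, C, hC⟩ := blk_main (2 ^ β) hB
  refine ⟨K₀, C, fun K hK σ τ i j n h1 h2 => ?_⟩
  have hsc : ∀ m, (2 ^ β) ^ m * 2 ^ i = 2 ^ (β * m + i) := fun m => by rw [← pow_mul, ← pow_add]
  have hle : 2 ^ (n + i) ≤ 2 ^ j := by
    refine le_trans ?_ (h1.trans' (Nat.le_mul_of_pos_left _ (by norm_num)))
    exact Nat.pow_le_pow_right (by norm_num) (by nlinarith)
  have hir : 2 ^ i ≤ 2 ^ j := le_trans (Nat.pow_le_pow_right (by norm_num) (by omega)) hle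
  have h3 := hC K hK σ τ (2 ^ i) (2 ^ j) (Nat.one_le_two_pow) hir
  have h4 : ∑' c : Blk, ind (2 ^ j ≤ htw c.1 ∧
      2 * ((Finset.Icc 1 n).filter (fun m => meets σ τ K (2 ^ (β * m + i)) c)).card < n) * hsI.wt c ≤
      ∑' c : Blk, ind (2 ^ j ≤ htw c.1 ∧ Avh σ τ K (2 ^ β) (2 ^ i) (2 ^ j) c) * xE ^ (c.1.length + 1) := by
    refine ENNReal.tsum_le_tsum fun c => ?_
    change ind _ * xE ^ (c.1.length + 1) ≤ _
    refine mul_le_mul_left (ind_mono fun h => ⟨h.1, ?_⟩) _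
    unfold Avh
    have e1 : (Js (2 ^ β) (2 ^ i) (2 ^ j)).filter (fun m => ¬ meets σ τ K ((2 ^ β) ^ m * 2 ^ i) c) =
        (Js (2 ^ β) (2 ^ i) (2 ^ j)).filter (fun m => ¬ meets σ τ K (2 ^ (β * m + i)) c) :=
      Finset.filter_congr fun m _ => by rw [hsc]
    have e2 : Finset.Icc 1 n ⊆ Js (2 ^ β) (2 ^ i) (2 ^ j) := by
      intro m hm
      rw [Finset.mem_Icc] at hm
      rw [Js, Finset.mem_filter, Finset.mem_Icc, hsc]
      have h5 : 4 * 2 ^ (β * m + i) ≤ 2 ^ j := le_trans (Nat.mul_le_mul_left 4 (Nat.pow_le_pow_right (by norm_num)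
        (by nlinarith))) h1
      refine ⟨⟨hm.1, ?_⟩, h5⟩
      have h6 : m < 2 ^ m := Nat.lt_two_pow_self
      have h7 : 2 ^ m ≤ 2 ^ (β * m + i) := Nat.pow_le_pow_right (by norm_num) (by nlinarith)
      omega
    have e3 : Js (2 ^ β) (2 ^ i) (2 ^ j) ⊆ Finset.Icc 1 (n + 1) := by
      intro m hm
      rw [Js, Finset.mem_filter, Finset.mem_Icc, hsc] at hm
      rw [Finset.mem_Icc]
      refine ⟨hm.1.1, ?_⟩
      by_contra hcon
      have h5 : 2 ^ (β * m + i + 2) ≤ 2 ^ j := by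
        calc 2 ^ (β * m + i + 2) = 4 * 2 ^ (β * m + i) := by rw [pow_add _ _ 2]; ring
          _ ≤ 2 ^ j := hm.2
      have h6 : β * m + i + 2 ≤ j := (Nat.pow_le_pow_iff_right (by norm_num)).1 h5
      have h7 : β * (n + 2) ≤ β * m := Nat.mul_le_mul_left β (by omega)
      nlinarith
    have e4 : (Js (2 ^ β) (2 ^ i) (2 ^ j)).card ≤ n + 1 := by
      have := Finset.card_le_card e3
      rwa [Nat.card_Icc, Nat.add_sub_cancel] at this
    have e5 : ((Finset.Icc 1 n).filter (fun m => ¬ meets σ τ K (2 ^ (β * m + i)) c)).card ≤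
        ((Js (2 ^ β) (2 ^ i) (2 ^ j)).filter (fun m => ¬ meets σ τ K (2 ^ (β * m + i)) c)).card :=
      Finset.card_le_card (Finset.filter_subset_filter _ e2)
    have e6 := Finset.card_filter_add_card_filter_not (s := Finset.Icc 1 n) (fun m => meets σ τ K (2 ^ (β * m + i)) c)
    rw [Nat.card_Icc, Nat.add_sub_cancel] at e6
    have h5 := h.2
    rw [e1]
    omega
  have h5 : ((2 ^ j : ℕ) : ℝ≥0∞) * (hsI.U (2 ^ j) * ∑' c : Blk, ind (2 ^ j ≤ htw c.1 ∧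
      2 * ((Finset.Icc 1 n).filter (fun m => meets σ τ K (2 ^ (β * m + i)) c)).card < n) * hsI.wt c) ≤
      ((2 ^ j : ℕ) : ℝ≥0∞) * ((C : ℝ≥0∞) * ENNReal.ofReal (1 / 2) ^ n) := by
    calc ((2 ^ j : ℕ) : ℝ≥0∞) * (hsI.U (2 ^ j) * ∑' c : Blk, ind (2 ^ j ≤ htw c.1 ∧
          2 * ((Finset.Icc 1 n).filter (fun m => meets σ τ K (2 ^ (β * m + i)) c)).card < n) * hsI.wt c)
        ≤ (C : ℝ≥0∞) * ((2 ^ i : ℕ) : ℝ≥0∞) := le_trans (by gcongr) h3
      _ = (C : ℝ≥0∞) * (((2 ^ (n + i) : ℕ) : ℝ≥0∞) * ENNReal.ofReal (1 / 2) ^ n) := by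
          congr 1
          have e7 : (2 : ℝ≥0∞) * ENNReal.ofReal (1 / 2) = 1 := by
            rw [show (2 : ℝ≥0∞) = ENNReal.ofReal 2 by simp, ← ENNReal.ofReal_mul (by norm_num)]
            norm_num
          have e8 : (2 : ℝ≥0∞) ^ n * ENNReal.ofReal (1 / 2) ^ n = 1 := by rw [← mul_pow, e7, one_pow]
          push_cast
          rw [pow_add]
          calc (2 : ℝ≥0∞) ^ i = ((2 : ℝ≥0∞) ^ n * ENNReal.ofReal (1 / 2) ^ n) * 2 ^ i := by rw [e8, one_mul]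
            _ = _ := by ring
      _ ≤ (C : ℝ≥0∞) * (((2 ^ j : ℕ) : ℝ≥0∞) * ENNReal.ofReal (1 / 2) ^ n) := by gcongr
      _ = _ := by ring
  have h6 : ((2 ^ j : ℕ) : ℝ≥0∞) ≠ 0 := by
    have : 2 ^ j ≠ 0 := by positivity
    exact_mod_cast this
  exact (ENNReal.mul_le_mul_iff_right h6 (ENNReal.natCast_ne_top _)).1 h5

theorem tail : ∃ C, hsI.toAlph.TailP wdb C := ⟨400, tailP⟩

end Pool.Agent.PLY.G
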