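import Pool.Agent.PLY.G.StTube

/-!
Project PLY (MP_8c6f77_pr, honeycomb lattice, polynomial bound), LEMMA G, STEERING: the vertical tube `Tube 0`.

PROOF. `sum_words`: the mass of the words of height `≤ M`, weighted with `∑_(c ∈ l) g c`, is at most `(∑ wt c * g c) (U M)²` (induction on
`M`, first block). With `g = ind (G < wd c) + min (wd c) G / (D M)`, `G = B M`: the mass of the words of height `≤ M` whose total width is
larger than `D M` is at most `U M / 4` (`TailP` and the regularity of `U`, `StReg`). So the words of height in `[n, C n]` which stay in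
the box `C n` have mass at least `U n / 2`; by reflection half of them have displacement `≥ 0`: `Slope 0`, and steering gives `Tube 0`.
-/

namespace Pool.Agent.HEP

open scoped ENNReal
open Finset

namespace Alph

variable {A : Alph} {wd : A.B → ℕ}

/-- Decomposition of `U M` at the first block. -/
lemma U_first (M : ℕ) : A.U M = 1 + ∑' c, ind (A.ht c ≤ M) * (A.wt c * A.U (M - A.ht c)) := by
  rw [← A.tsum_le M, tsum_list, A.h_nil, ind_true (Nat.zero_le _), A.w_nil, one_mul]
  congr 1
  refine tsum_congr fun c => ?_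
  by_cases hc : A.ht c ≤ M
  · rw [ind_true hc, one_mul, ← A.tsum_le (M - A.ht c), ← ENNReal.tsum_mul_left]
    refine tsum_congr fun l => ?_
    rw [A.h_cons, A.w_cons, ind_congr (show A.ht c + A.h l ≤ M ↔ A.h l ≤ M - A.ht c by omega)]
    ring
  · rw [ind_false hc, zero_mul, ENNReal.tsum_eq_zero]
    intro l
    rw [A.h_cons, ind_false (by omega), zero_mul]

/-- Sum of a function of the blocks over the words of height at most `M`. -/
theorem sum_words (g : A.B → ℝ≥0∞) (M : ℕ) :
    ∑' l, ind (A.h l ≤ M) * (A.w l * (l.map g).sum) ≤ (∑' c, A.wt c * g c) * A.U M ^ 2 := by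
  induction M using Nat.strong_induction_on with
  | _ M ih =>
    set Γ : ℝ≥0∞ := ∑' c, A.wt c * g c with hΓ
    have key : ∀ c, ∑' l, ind (A.h (c :: l) ≤ M) * (A.w (c :: l) * ((c :: l).map g).sum) ≤
        A.wt c * g c * A.U M + Γ * A.U M * (ind (A.ht c ≤ M) * (A.wt c * A.U (M - A.ht c))) := by
      intro c
      by_cases hc : A.ht c ≤ M
      · have hpos := A.ht_pos c
        have e : ∀ l, ind (A.h (c :: l) ≤ M) * (A.w (c :: l) * ((c :: l).map g).sum) =
            A.wt c * g c * (ind (A.h l ≤ M - A.ht c) * A.w l) +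
              A.wt c * (ind (A.h l ≤ M - A.ht c) * (A.w l * (l.map g).sum)) := by
          intro l
          rw [A.h_cons, A.w_cons, List.map_cons, List.sum_cons,
            ind_congr (show A.ht c + A.h l ≤ M ↔ A.h l ≤ M - A.ht c by omega)]
          ring
        simp_rw [e]
        rw [ENNReal.tsum_add, ENNReal.tsum_mul_left, ENNReal.tsum_mul_left, A.tsum_le, ind_true hc, one_mul]
        refine add_le_add (mul_le_mul' le_rfl (A.U_mono (by omega))) ?_
        calc A.wt c * ∑' l, ind (A.h l ≤ M - A.ht c) * (A.w l * (l.map g).sum)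
            ≤ A.wt c * (Γ * A.U (M - A.ht c) ^ 2) := mul_le_mul' le_rfl (ih _ (by omega))
          _ = Γ * A.U (M - A.ht c) * (A.wt c * A.U (M - A.ht c)) := by ring
          _ ≤ Γ * A.U M * (A.wt c * A.U (M - A.ht c)) :=
              mul_le_mul' (mul_le_mul' le_rfl (A.U_mono (by omega))) le_rfl
      · refine le_trans (le_of_eq ?_) zero_le
        rw [ENNReal.tsum_eq_zero]
        intro l
        rw [A.h_cons, ind_false (by omega), zero_mul]
    rw [tsum_list]
    simp only [List.map_nil, List.sum_nil, mul_zero, zero_add]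
    refine (ENNReal.tsum_le_tsum key).trans (le_of_eq ?_)
    rw [ENNReal.tsum_add, ENNReal.tsum_mul_right, ENNReal.tsum_mul_left, ← hΓ]
    conv_rhs => rw [sq, ← mul_assoc]; arg 2; rw [A.U_first M]
    ring

variable (A) in
/-- Regularity of the renewal function, the form which is used here. -/
def StReg : Prop :=
  (∀ R : ℕ, ∃ B : ℕ, 1 ≤ B ∧ ∀ M : ℕ, 1 ≤ M → R * A.U M ≤ A.U (B * M)) ∧
  ∃ C : ℕ, ∀ G : ℕ, (∑ j ∈ range G, (A.U j)⁻¹) * A.U G ≤ C * G

/-- Total width of a word. -/
def sw (wd : A.B → ℕ) (l : List A.B) : ℕ := (l.map wd).sum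

lemma tub_of_sw (hdx : ∀ c, |A.dx c| ≤ wd c) {l : List A.B} {E : ℕ} (h : sw wd l ≤ E) :
    A.tub wd 0 E l := by
  have hx : ∀ l1 : List A.B, |(A.x l1 : ℝ)| ≤ (sw wd l1 : ℝ) := by
    intro l1
    induction l1 with
    | nil => simp [A.x_nil, sw]
    | cons c l1 ih =>
      have h2 : |(A.dx c : ℝ)| ≤ wd c := by exact_mod_cast hdx c
      have e : sw wd (c :: l1) = wd c + sw wd l1 := by simp [sw]
      rw [A.x_cons, e]
      push_cast
      exact (abs_add_le _ _).trans (add_le_add h2 ih)
  intro l1 c l2 e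
  simp only [zero_mul, sub_zero, abs_zero, add_zero]
  have e2 : sw wd l = sw wd l1 + (wd c + sw wd l2) := by rw [e]; simp [sw]
  have h3 := hx l1
  have h4 : (sw wd l1 : ℝ) + wd c ≤ E := by
    have : sw wd l1 + wd c ≤ E := by omega
    exact_mod_cast this
  linarith

/-- Truncated first moment of the width of a block. -/
lemma min_le (G : ℕ) {C : ℕ} (hT : A.TailP wd C) :
    ∑' c, A.wt c * ((min (wd c) G : ℕ) : ℝ≥0∞) ≤ C * ∑ j ∈ range G, (A.U j)⁻¹ := by
  have e : ∀ c, A.wt c * ((min (wd c) G : ℕ) : ℝ≥0∞) = ∑ j ∈ range G, ind (j < wd c) * A.wt c := by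
    intro c
    rw [← sum_mul, mul_comm]
    congr 1
    have h1 : ∑ j ∈ range G, ind (j < wd c) = ∑ j ∈ (range G).filter (fun j => j < wd c), (1 : ℝ≥0∞) := by
      rw [sum_filter]
      refine sum_congr rfl fun j _ => ?_
      by_cases hj : j < wd c
      · rw [ind_true hj, if_pos hj]
      · rw [ind_false hj, if_neg hj]
    rw [h1, sum_const, nsmul_eq_mul, mul_one]
    congr 1
    have h2 : (range G).filter (fun j => j < wd c) = range (min (wd c) G) := by
      ext j
      simp only [mem_filter, mem_range]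
      omega
    rw [h2, card_range]
  simp_rw [e]
  rw [Summable.tsum_finsetSum (fun _ _ => ENNReal.summable), mul_sum]
  refine sum_le_sum fun j _ => ?_
  rw [← div_eq_mul_inv, ENNReal.le_div_iff_mul_le (Or.inl (A.U_ne_zero j)) (Or.inl (A.U_ne_top j)), mul_comm]
  refine le_trans (mul_le_mul' le_rfl ?_) (hT j)
  exact ENNReal.tsum_le_tsum fun c => mul_le_mul' (ind_mono fun h => Or.inr h) le_rfl

/-- The width tail of the words. -/
theorem wide_le {C : ℕ} (hT : A.TailP wd C) (G E M : ℕ) (hE : 0 < E) :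
    ∑' l, ind (A.h l ≤ M ∧ E < sw wd l) * A.w l ≤
      (C * (A.U G)⁻¹ + C * (∑ j ∈ range G, (A.U j)⁻¹) / E) * A.U M ^ 2 := by
  set g : A.B → ℝ≥0∞ := fun c => ind (G < wd c) + ((min (wd c) G : ℕ) : ℝ≥0∞) / E with hg
  have hE0 : (E : ℝ≥0∞) ≠ 0 := by exact_mod_cast hE.ne'
  have hE1 : (E : ℝ≥0∞) ≠ ⊤ := ENNReal.natCast_ne_top E
  -- the function `g` is at least 1 on the wide words
  have hg1 : ∀ l, E < sw wd l → 1 ≤ (l.map g).sum := by
    intro l hl
    by_cases hb : ∃ c ∈ l, G < wd c
    · obtain ⟨c, hc, hG⟩ := hb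
      have h1 : g c ≤ (l.map g).sum := List.single_le_sum (fun _ _ => zero_le) _ (List.mem_map_of_mem hc)
      refine le_trans ?_ h1
      rw [hg]
      show 1 ≤ ind (G < wd c) + ((min (wd c) G : ℕ) : ℝ≥0∞) / E
      rw [ind_true hG]
      exact le_self_add
    · push Not at hb
      have h1 : ∀ l : List A.B, (∀ c ∈ l, wd c ≤ G) → ((sw wd l : ℕ) : ℝ≥0∞) / E ≤ (l.map g).sum := by
        intro l
        induction l with
        | nil => intro _; simp [sw]
        | cons c l ih =>
          intro hcl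
          have e : sw wd (c :: l) = wd c + sw wd l := by simp [sw]
          rw [e, List.map_cons, List.sum_cons]
          push_cast
          rw [ENNReal.add_div]
          refine add_le_add ?_ (ih fun d hd => hcl d (List.mem_cons_of_mem _ hd))
          have h2 : min (wd c) G = wd c := min_eq_left (hcl c List.mem_cons_self)
          rw [hg]
          show (wd c : ℝ≥0∞) / E ≤ ind (G < wd c) + ((min (wd c) G : ℕ) : ℝ≥0∞) / E
          rw [h2]
          exact le_add_self
      refine le_trans ?_ (h1 l hb)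
      rw [ENNReal.le_div_iff_mul_le (Or.inl hE0) (Or.inl hE1), one_mul]
      exact_mod_cast hl.le
  calc ∑' l, ind (A.h l ≤ M ∧ E < sw wd l) * A.w l
      ≤ ∑' l, ind (A.h l ≤ M) * (A.w l * (l.map g).sum) := by
        refine ENNReal.tsum_le_tsum fun l => ?_
        rw [ind_and, mul_assoc]
        refine mul_le_mul' le_rfl ?_
        by_cases hl : E < sw wd l
        · rw [ind_true hl, one_mul]
          calc A.w l = A.w l * 1 := (mul_one _).symm
            _ ≤ _ := mul_le_mul' le_rfl (hg1 l hl)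
        · rw [ind_false hl, zero_mul]
          exact zero_le
    _ ≤ (∑' c, A.wt c * g c) * A.U M ^ 2 := sum_words g M
    _ ≤ _ := by
        refine mul_le_mul' ?_ le_rfl
        have e : ∀ c, A.wt c * g c = ind (G < wd c) * A.wt c +
            (A.wt c * ((min (wd c) G : ℕ) : ℝ≥0∞)) * (E : ℝ≥0∞)⁻¹ := by
          intro c
          rw [hg]
          show A.wt c * (ind (G < wd c) + ((min (wd c) G : ℕ) : ℝ≥0∞) / E) = _
          rw [div_eq_mul_inv]
          ring
        simp_rw [e]
        rw [ENNReal.tsum_add, ENNReal.tsum_mul_right, ← div_eq_mul_inv]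
        refine add_le_add ?_ (ENNReal.div_le_div (min_le G hT) le_rfl)
        rw [← div_eq_mul_inv, ENNReal.le_div_iff_mul_le (Or.inl (A.U_ne_zero G)) (Or.inl (A.U_ne_top G)),
          mul_comm]
        refine le_trans (mul_le_mul' le_rfl ?_) (hT G)
        exact ENNReal.tsum_le_tsum fun c => mul_le_mul' (ind_mono fun h => Or.inr h) le_rfl

/-- Words of height at most `M` and large width are rare. -/
theorem wide_small {C : ℕ} (hT : A.TailP wd C) (hR : A.StReg) :
    ∃ D : ℕ, 1 ≤ D ∧ ∀ M : ℕ, 1 ≤ M →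
      ∑' l, ind (A.h l ≤ M ∧ D * M < sw wd l) * A.w l ≤ A.U M / 4 := by
  obtain ⟨h1, C', h2⟩ := hR
  obtain ⟨B, hB1, hB⟩ := h1 (8 * C)
  refine ⟨8 * C * C' * B + 1, by omega, fun M hM => ?_⟩
  set D : ℕ := 8 * C * C' * B + 1 with hD
  have hDM : 0 < D * M := Nat.mul_pos (by omega) (by omega)
  refine (wide_le hT (B * M) (D * M) M hDM).trans ?_
  have hU0 := A.U_ne_zero M
  have hU1 := A.U_ne_top M
  have hV0 := A.U_ne_zero (B * M)
  have hV1 := A.U_ne_top (B * M)
  -- first term
  have t1 : (C : ℝ≥0∞) * (A.U (B * M))⁻¹ * A.U M ^ 2 ≤ A.U M / 8 := by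
    have h3 := hB M hM
    rw [sq, ENNReal.le_div_iff_mul_le (Or.inl (by norm_num)) (Or.inl (by norm_num))]
    calc (C : ℝ≥0∞) * (A.U (B * M))⁻¹ * (A.U M * A.U M) * 8
        = ((8 * C : ℕ) * A.U M) * (A.U (B * M))⁻¹ * A.U M := by push_cast; ring
      _ ≤ A.U (B * M) * (A.U (B * M))⁻¹ * A.U M := mul_le_mul' (mul_le_mul' h3 le_rfl) le_rfl
      _ = A.U M := by rw [ENNReal.mul_inv_cancel hV0 hV1, one_mul]
  -- second term
  have t2 : (C : ℝ≥0∞) * (∑ j ∈ range (B * M), (A.U j)⁻¹) / ((D * M : ℕ) : ℝ≥0∞) * A.U M ^ 2 ≤ A.U M / 8 := by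
    have h3 := h2 (B * M)
    have h4 : A.U M ≤ A.U (B * M) := A.U_mono (Nat.le_mul_of_pos_left M (by omega))
    have hDM0 : ((D * M : ℕ) : ℝ≥0∞) ≠ 0 := by exact_mod_cast hDM.ne'
    have hDM1 : ((D * M : ℕ) : ℝ≥0∞) ≠ ⊤ := ENNReal.natCast_ne_top _
    rw [sq, ENNReal.le_div_iff_mul_le (Or.inl (by norm_num)) (Or.inl (by norm_num))]
    calc (C : ℝ≥0∞) * (∑ j ∈ range (B * M), (A.U j)⁻¹) / ((D * M : ℕ) : ℝ≥0∞) * (A.U M * A.U M) * 8
        = (C * 8) * ((∑ j ∈ range (B * M), (A.U j)⁻¹) * A.U M) / ((D * M : ℕ) : ℝ≥0∞) * A.U M := by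
          rw [div_eq_mul_inv, div_eq_mul_inv]; ring
      _ ≤ (C * 8) * (C' * (B * M : ℕ)) / ((D * M : ℕ) : ℝ≥0∞) * A.U M := by
          refine mul_le_mul' (ENNReal.div_le_div (mul_le_mul' le_rfl ?_) le_rfl) le_rfl
          exact (mul_le_mul' le_rfl h4).trans h3
      _ ≤ 1 * A.U M := by
          refine mul_le_mul' ?_ le_rfl
          refine ENNReal.div_le_of_le_mul ?_
          rw [one_mul]
          have : C * 8 * (C' * (B * M)) ≤ D * M := by
            rw [hD]
            have : (8 * C * C' * B + 1) * M = C * 8 * (C' * (B * M)) + M := by ring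
            rw [this]
            exact Nat.le_add_right _ _
          exact_mod_cast this
      _ = A.U M := one_mul _
  rw [add_mul]
  calc _ ≤ A.U M / 8 + A.U M / 8 := add_le_add t1 t2
    _ = A.U M / 4 := by
        rw [← ENNReal.add_div, ← two_mul, ENNReal.div_eq_div_iff (by norm_num) (by norm_num) (by norm_num)
          (by norm_num)]
        ring

/-- `Slope 0`. -/
theorem slope_zero (hdx : ∀ c, |A.dx c| ≤ wd c) (hrf : ∀ c, wd (A.rf c) = wd c) {C : ℕ}
    (hT : A.TailP wd C) (hR : A.StReg) : A.Slope wd 0 := by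
  obtain ⟨D, hD1, hD⟩ := wide_small hT hR
  obtain ⟨B, hB1, hB⟩ := hR.1 4
  refine ⟨1 / 4, D * B, 1, by norm_num, fun n hn => ?_⟩
  set M : ℕ := B * n with hM
  have hM1 : 1 ≤ M := Nat.mul_pos (by omega) (by omega)
  set T : Set (List A.B) := {l | n ≤ A.h l ∧ A.h l ≤ D * B * n ∧ A.tub wd 0 ((D * B : ℕ) * n) l} with hTdef
  -- the mass of `T`
  have hU1 : A.U M ≠ ⊤ := A.U_ne_top M
  have m1 : A.U M ≤ ∑' l, ind (l ∈ T) * A.w l + (A.U n + A.U M / 4) := by
    calc A.U M = ∑' l, ind (A.h l ≤ M) * A.w l := (A.tsum_le M).symm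
      _ ≤ ∑' l, (ind (l ∈ T) * A.w l + (ind (A.h l ≤ n) * A.w l +
            ind (A.h l ≤ M ∧ D * M < sw wd l) * A.w l)) := by
          refine ENNReal.tsum_le_tsum fun l => ?_
          rw [← add_mul, ← add_mul]
          refine mul_le_mul' ?_ le_rfl
          by_cases h1 : A.h l ≤ M
          · by_cases h2 : A.h l ≤ n
            · rw [ind_true h1, ind_true h2]
              exact le_add_left le_self_add
            · by_cases h3 : D * M < sw wd l
              · rw [ind_true h1, ind_true (p := A.h l ≤ M ∧ D * M < sw wd l) ⟨h1, h3⟩]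
                exact le_add_left le_add_self
              · have h4 : l ∈ T := by
                  refine ⟨by omega, ?_, ?_⟩
                  · calc A.h l ≤ M := h1
                      _ ≤ D * M := Nat.le_mul_of_pos_left M (by omega)
                      _ = D * B * n := by rw [hM]; ring
                  · have h5 := tub_of_sw (l := l) hdx (E := D * M) (by omega)
                    have h6 : ((D * M : ℕ) : ℝ) = ((D * B : ℕ) : ℝ) * n := by
                      rw [hM]; push_cast; ring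
                    rwa [h6] at h5
                rw [ind_true h1, ind_true h4]
                exact le_self_add
          · rw [ind_false h1]
            exact zero_le
      _ ≤ _ := by
          rw [ENNReal.tsum_add, ENNReal.tsum_add, A.tsum_le n]
          exact add_le_add le_rfl (add_le_add le_rfl (hD M hM1))
  have m2 : A.U n ≤ A.U M / 4 := by
    rw [ENNReal.le_div_iff_mul_le (Or.inl (by norm_num)) (Or.inl (by norm_num)), mul_comm]
    exact_mod_cast hB n hn
  have m3 : A.U M / 2 ≤ ∑' l, ind (l ∈ T) * A.w l := by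
    have h1 : A.U M ≤ ∑' l, ind (l ∈ T) * A.w l + A.U M / 2 := by
      refine m1.trans (add_le_add le_rfl ?_)
      calc A.U n + A.U M / 4 ≤ A.U M / 4 + A.U M / 4 := add_le_add m2 le_rfl
        _ = A.U M / 2 := by
          rw [← ENNReal.add_div, ← two_mul, ENNReal.div_eq_div_iff (by norm_num) (by norm_num) (by norm_num)
            (by norm_num)]
          ring
    have h2 : A.U M / 2 ≠ ⊤ := (ENNReal.div_lt_top hU1 (by norm_num)).ne
    have h3 : A.U M / 2 + A.U M / 2 ≤ ∑' l, ind (l ∈ T) * A.w l + A.U M / 2 := by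
      rw [ENNReal.add_halves]; exact h1
    exact (ENNReal.add_le_add_iff_right h2).1 h3
  -- reflection
  have m4 : ∑' l, ind (l ∈ T) * A.w l ≤ 2 * ∑' l, ind (n ≤ A.h l ∧ A.h l ≤ D * B * n ∧
      (0 : ℝ) * A.h l ≤ A.x l ∧ A.tub wd 0 ((D * B : ℕ) * n) l) * A.w l := by
    have r1 : ∑' l : List A.B, ind (l ∈ T ∧ A.x l < 0) * A.w l ≤
        ∑' l, ind (n ≤ A.h l ∧ A.h l ≤ D * B * n ∧
          (0 : ℝ) * A.h l ≤ A.x l ∧ A.tub wd 0 ((D * B : ℕ) * n) l) * A.w l := by
      rw [← tsum_map_rf (fun l => ind (l ∈ T ∧ A.x l < 0) * A.w l)]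
      refine ENNReal.tsum_le_tsum fun l => ?_
      rw [w_map_rf]
      refine mul_le_mul' (ind_mono ?_) le_rfl
      rintro ⟨⟨a1, a2, a3⟩, a4⟩
      rw [h_map_rf] at a1 a2
      rw [x_map_rf] at a4
      refine ⟨a1, a2, ?_, ?_⟩
      · rw [zero_mul]
        exact_mod_cast (by omega : (0 : ℤ) ≤ A.x l)
      · have := tub_map_rf hrf a3
        rwa [map_rf_rf] at this
    calc ∑' l, ind (l ∈ T) * A.w l
        ≤ ∑' l, (ind (n ≤ A.h l ∧ A.h l ≤ D * B * n ∧
          (0 : ℝ) * A.h l ≤ A.x l ∧ A.tub wd 0 ((D * B : ℕ) * n) l) * A.w l +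
            ind (l ∈ T ∧ A.x l < 0) * A.w l) := by
          refine ENNReal.tsum_le_tsum fun l => ?_
          rw [← add_mul]
          refine mul_le_mul' ?_ le_rfl
          by_cases h1 : l ∈ T
          · by_cases h2 : A.x l < 0
            · rw [ind_true h1, ind_true (p := l ∈ T ∧ A.x l < 0) ⟨h1, h2⟩]
              exact le_add_self
            · rw [ind_true h1, ind_true (p := n ≤ A.h l ∧ A.h l ≤ D * B * n ∧
                (0 : ℝ) * A.h l ≤ A.x l ∧ A.tub wd 0 ((D * B : ℕ) * n) l) ⟨h1.1, h1.2.1, by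
                  rw [zero_mul]; exact_mod_cast (by omega : (0 : ℤ) ≤ A.x l), h1.2.2⟩]
              exact le_self_add
          · rw [ind_false h1]
            exact zero_le
      _ ≤ _ := by
          rw [ENNReal.tsum_add, two_mul]
          exact add_le_add le_rfl r1
  rw [one_div, ← ENNReal.div_eq_inv_mul]
  refine ENNReal.div_le_of_le_mul ?_
  calc A.U n ≤ A.U M := A.U_mono (Nat.le_mul_of_pos_left n (by omega))
    _ = A.U M / 2 + A.U M / 2 := (ENNReal.add_halves _).symm
    _ ≤ _ := add_le_add (m3.trans m4) (m3.trans m4)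
    _ = _ := by ring

/-- The vertical tube. -/
theorem tube_zero (hA : Antitone A.b) (hdx : ∀ c, |A.dx c| ≤ wd c) (hrf : ∀ c, wd (A.rf c) = wd c) {C : ℕ}
    (hT : A.TailP wd C) (hR : A.StReg) : A.Tube wd 0 :=
  (slope_zero hdx hrf hT hR).tube hA hdx hrf (by simp)

end Alph

end Pool.Agent.HEP
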