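import Pool.Agent.PLY.G.Defs

/-!
Project PLY (MP_8c6f77_pr, honeycomb lattice, polynomial bound), Lemma G, STEERING: the interface with the reversal (files Rv*).

* `Slope κ`: the words of height in `[n, C n]`, displacement at least `κ` times the height and width at most `C n` have mass at least
  `c U n`, at every scale `n`.
* `Tube κ`: the fresh chain follows the line of slope `κ` up to the height `N`, at distance at most `ε N`, with positive probability
  (a prefix free set of words of mass at least `c(ε)`), for every `ε > 0`.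

Steering (`StTube.lean`): `Slope κ` gives `Tube κ₁` for `|κ₁| ≤ κ`; `Tube 0` holds. `StFlat.lean`: `Tube κ` for every `κ` gives
`FlatP K` for every `K`. The reversal gives `Tube κ → Slope κ₁` for `κ₁ < (3 + κ) / (1 - κ)`, `κ < 1`.
-/

namespace Pool.Agent.HEP

open scoped ENNReal

namespace Alph

variable (A : Alph) (wd : A.B → ℕ)

/-- The words of slope at least `κ` have a positive proportion, at every scale. -/
def Slope (κ : ℝ) : Prop :=
  ∃ (c : ℝ≥0∞) (C n0 : ℕ), 0 < c ∧ ∀ n : ℕ, n0 ≤ n →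
    c * A.U n ≤ ∑' l, ind (n ≤ A.h l ∧ A.h l ≤ C * n ∧ κ * A.h l ≤ A.x l ∧ A.tub wd 0 (C * n) l) * A.w l

/-- The fresh chain follows the line of slope `κ` with positive probability. -/
def Tube (κ : ℝ) : Prop :=
  ∀ ε : ℝ, 0 < ε → ∃ (c : ℝ≥0∞) (n0 : ℕ), 0 < c ∧ ∀ N : ℕ, n0 ≤ N → ∃ X : Set (List A.B), A.PF X ∧
    (∀ l ∈ X, N ≤ A.h l ∧ (A.h l : ℝ) ≤ (1 + ε) * N ∧ A.tub wd κ (ε * N) l) ∧
    c ≤ ∑' l, ind (l ∈ X) * A.w l

variable {A wd}

/-- The end of a word in a tube. -/
lemma tub_end {κ E : ℝ} (hE : 0 ≤ E) (hdx : ∀ c, |A.dx c| ≤ wd c) {l : List A.B} (h : A.tub wd κ E l) :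
    |(A.x l : ℝ) - κ * A.h l| ≤ E := by
  rcases List.eq_nil_or_concat l with rfl | ⟨l1, c, rfl⟩
  · simpa [A.x_nil, A.h_nil] using hE
  · have h1 := h l1 c [] (by simp)
    have h2 : |(A.dx c : ℝ)| ≤ wd c := by exact_mod_cast hdx c
    have e : (A.x (l1.concat c) : ℝ) - κ * A.h (l1.concat c) =
        ((A.x l1 : ℝ) - κ * A.h l1) + ((A.dx c : ℝ) + (-κ * A.ht c)) := by
      rw [List.concat_eq_append, A.x_append, A.h_append, A.x_cons, A.h_cons, A.x_nil, A.h_nil]
      push_cast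
      ring
    rw [e]
    have h3 : |-κ * (A.ht c : ℝ)| = |κ| * A.ht c := by
      rw [abs_mul, abs_neg, Nat.abs_cast]
    calc _ ≤ |(A.x l1 : ℝ) - κ * A.h l1| + (|(A.dx c : ℝ)| + |-κ * (A.ht c : ℝ)|) :=
          (abs_add_le _ _).trans (add_le_add le_rfl (abs_add_le _ _))
      _ ≤ E := by rw [h3]; linarith

end Alph

end Pool.Agent.HEP
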