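import Pool.Agent.PLY.G.Rv4
import Pool.Agent.PLY.G.StDefs
import Pool.Agent.BEX.Quart

/-!
Project PLY (polynomial bound), Lemma G, part (a): vertices of a word of blocks in terms of its blocks; the geometry of a tube word; the masses
of wedge words in terms of the renewal function.
-/

namespace Pool.Agent.PLY.G

open Pool.Agent.Hhelper14.SAW Pool.Agent.HHP Pool.Agent.HEP Pool.Agent.BEX Pool.Agent.BEX.C
open scoped ENNReal

/-- The start of the part after the word `l`. -/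
def ptz (l : List Blk) : ℤ × ℤ := (l.map fun c => E c.1 + (1, 0)).sum

lemma ptz_nil : ptz [] = 0 := rfl

lemma ptz_cons (c : Blk) (l : List Blk) : ptz (c :: l) = (E c.1 + (1, 0)) + ptz l := by
  unfold ptz
  rw [List.map_cons, List.sum_cons]

lemma F0_ptz (l : List Blk) : F0 (ptz l) = 3 * hj l := by
  induction l with
  | nil => simp [ptz_nil, hj_nil, F0]
  | cons c l ih =>
    have h1 := c.2.br.2
    have h2 := htw_pos c.1
    rw [ptz_cons, F0_add, F0_add, ih, hj_cons, h1]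
    simp only [F0]
    push_cast
    omega

lemma snd_ptz (l : List Blk) : (ptz l).2 = xj l := by
  induction l with
  | nil => simp [ptz_nil, xj]
  | cons c l ih =>
    rw [ptz_cons, xj_cons, Prod.snd_add, Prod.snd_add, ih]
    simp

lemma mem_jn {T : List Blk} (hT : T ≠ []) (z : ℤ × ℤ) :
    z ∈ V (jn T) ↔ ∃ l1 c l2 u, T = l1 ++ c :: l2 ∧ u ∈ V c.1 ∧ z = ptz l1 + u := by
  induction T generalizing z with
  | nil => exact absurd rfl hT
  | cons c l ih =>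
    by_cases h : l = []
    · subst h
      rw [jn_single]
      constructor
      · intro hz
        exact ⟨[], c, [], z, rfl, hz, by rw [ptz_nil, zero_add]⟩
      · rintro ⟨l1, c', l2, u, h1, h2, h3⟩
        cases l1 with
        | nil =>
          simp only [List.nil_append, List.cons.injEq] at h1
          rw [h3, ptz_nil, zero_add, h1.1]
          exact h2
        | cons a l1 =>
          exfalso
          simp at h1
    · rw [jn_cons h, (app_right (Q := jn l) c.2.br.tn_rt).1, List.mem_append]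
      constructor
      · rintro (hz | hz)
        · exact ⟨[], c, l, z, rfl, hz, by rw [ptz_nil, zero_add]⟩
        · obtain ⟨u, hu, rfl⟩ := List.mem_map.1 hz
          obtain ⟨l1, c', l2, v, h1, h2, h3⟩ := (ih h u).1 hu
          exact ⟨c :: l1, c', l2, v, by rw [h1]; rfl, h2, by rw [ptz_cons, h3]; ring⟩
      · rintro ⟨l1, c', l2, u, h1, h2, h3⟩
        cases l1 with
        | nil =>
          left
          simp only [List.nil_append, List.cons.injEq] at h1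
          rw [h3, ptz_nil, zero_add, h1.1]
          exact h2
        | cons a l1 =>
          right
          simp only [List.cons_append, List.cons.injEq] at h1
          obtain ⟨rfl, h1⟩ := h1
          refine List.mem_map.2 ⟨ptz l1 + u, (ih h _).2 ⟨l1, c', l2, u, h1, h2, rfl⟩, ?_⟩
          rw [h3, ptz_cons]
          ring

lemma dx_wdb (c : Blk) : |(E c.1).2| + 2 ≤ wdb c := by
  have := wdb_le c (E_mem c.1) (w := (0, 0)) (head_mem _ _ _)
  simpa using this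

/-- The vertices of a tube word. -/
theorem tube_V {κ : ℝ} {E0 : ℝ} {T : List Blk} (hT : T ≠ []) (h : hsI.toAlph.tub wdb κ E0 T) {z : ℤ × ℤ}
    (hz : z ∈ V (jn T)) : |(z.2 : ℝ) - κ * (F0 z / 3)| ≤ E0 := by
  obtain ⟨l1, c, l2, u, h1, h2, rfl⟩ := (mem_jn hT z).1 hz
  have h3 := h l1 c l2 h1
  have h4 : |(u.2 : ℝ)| ≤ wdb c := by
    have := wdb_le c h2 (w := (0, 0)) (head_mem _ _ _)
    have h5 : |u.2| ≤ (wdb c : ℤ) := by
      have e : |u.2 - (0 : ℤ)| = |u.2| := by rw [sub_zero]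
      simp only [e] at this
      linarith
    exact_mod_cast h5
  have hb := c.2.br.1.2 u h2
  have hp := htw_pos c.1
  have h6 : (0 : ℝ) ≤ F0 u ∧ (F0 u : ℝ) ≤ 3 * htw c.1 := by
    constructor
    · exact_mod_cast hb.1
    · have : F0 u ≤ 3 * (htw c.1 : ℤ) := by omega
      exact_mod_cast this
  rw [Prod.snd_add, snd_ptz, F0_add, F0_ptz]
  push_cast
  have e : (xj l1 : ℝ) + u.2 - κ * ((3 * hj l1 + F0 u) / 3) = ((xj l1 : ℝ) - κ * hj l1) + (u.2 + -κ * (F0 u / 3)) := by ring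
  rw [e]
  have h7 : |-κ * ((F0 u : ℝ) / 3)| ≤ |κ| * htw c.1 := by
    rw [abs_mul, abs_neg]
    refine mul_le_mul_of_nonneg_left ?_ (abs_nonneg κ)
    rw [abs_of_nonneg (by linarith [h6.1])]
    linarith [h6.2]
  calc _ ≤ |(xj l1 : ℝ) - κ * hj l1| + (|(u.2 : ℝ)| + |-κ * ((F0 u : ℝ) / 3)|) :=
        (abs_add_le _ _).trans (add_le_add le_rfl (abs_add_le _ _))
    _ ≤ |(xj l1 : ℝ) - κ * hj l1| + (wdb c + |κ| * htw c.1) := by gcongr
    _ ≤ E0 := by
        have h8 : |(xj l1 : ℝ) - κ * hj l1| + wdb c + |κ| * htw c.1 ≤ E0 := h3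
        linarith

/-- The end of a tube word. -/
theorem tube_E {κ : ℝ} {E0 : ℝ} {T : List Blk} (hE : 0 ≤ E0) (h : hsI.toAlph.tub wdb κ E0 T) :
    |(xj T : ℝ) - κ * hj T| ≤ E0 := by
  refine Alph.tub_end (A := hsI.toAlph) hE (fun c => ?_) h
  have h1 := dx_wdb c
  have h2 : |(E c.1).2| ≤ (wdb c : ℤ) := by linarith
  exact h2

/-! ### Masses -/

lemma hb (N : ℕ) (hN : 1 ≤ N) : hsI.b N = bn N := by
  obtain ⟨k, rfl⟩ : ∃ k, N = k + 1 := ⟨N - 1, by omega⟩
  rw [hsI_b]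
  rfl

lemma hU (r : ℕ) : hsI.U r = 1 + ∑ k ∈ Finset.range r, ms xE (Br k) := by
  unfold Alph.U
  rw [Finset.sum_range_succ', hsI_b_zero, add_comm]
  congr 1
  exact Finset.sum_congr rfl fun k _ => hsI_b k

lemma bn_top (N : ℕ) : bn N ≠ ∞ := ne_top_of_le_ne_top ENNReal.one_ne_top (bn_le_one N)

lemma reg1 (hQ : hsI.Quarter) : ∃ C0 : ℕ, 1 ≤ C0 ∧ ∀ r : ℕ, 1 ≤ r → bn r ≤ C0 * bn (4 * r + 1) := by
  obtain ⟨C, hC, h⟩ := hQ.b_ratio
  obtain ⟨K, hK⟩ := exists_nat_ge (C * 4)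
  refine ⟨K + 1, by omega, fun r hr => ?_⟩
  have h1 := h r (4 * r + 1)
  rw [hb r hr, hb (4 * r + 1) (by omega)] at h1
  refine h1.trans (mul_le_mul_left ?_ _)
  have h2 : ENNReal.ofReal (C * (((r : ℝ) + 1) / (((4 * r + 1 : ℕ) : ℝ) + 1)) ^ (-(1 / 4) : ℝ)) ≤ ENNReal.ofReal (K : ℝ) := by
    apply ENNReal.ofReal_le_ofReal
    refine le_trans (mul_le_mul_of_nonneg_left ?_ hC.le) hK
    have h3 : (1 / 4 : ℝ) ≤ ((r : ℝ) + 1) / (((4 * r + 1 : ℕ) : ℝ) + 1) := by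
      rw [div_le_div_iff₀ (by norm_num) (by positivity)]
      push_cast
      linarith
    calc (((r : ℝ) + 1) / (((4 * r + 1 : ℕ) : ℝ) + 1)) ^ (-(1 / 4) : ℝ) ≤ (1 / 4 : ℝ) ^ (-(1 / 4) : ℝ) :=
          Real.rpow_le_rpow_of_nonpos (by norm_num) h3 (by norm_num)
      _ ≤ (1 / 4 : ℝ) ^ (-1 : ℝ) := Real.rpow_le_rpow_of_exponent_ge (by norm_num) (by norm_num) (by norm_num)
      _ = 4 := by rw [Real.rpow_neg_one]; norm_num
  refine h2.trans ?_
  rw [ENNReal.ofReal_natCast]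
  exact_mod_cast Nat.le_succ K

lemma reg2 (hQ : hsI.Quarter) (k : ℕ) : ∃ A : ℕ, 4 ≤ A ∧ ∀ r : ℕ, 1 ≤ r → k * bn (A * r / 2) ≤ bn (4 * r + 1) := by
  obtain ⟨C, hC, h⟩ := hQ.b_ratio
  have hlim : Filter.Tendsto (fun K : ℕ => ((k : ℝ) * C) * (K : ℝ) ^ (-(1 / 4) : ℝ)) Filter.atTop (nhds (((k : ℝ) * C) * 0)) :=
    Filter.Tendsto.const_mul _
      ((tendsto_rpow_neg_atTop (by norm_num : (0 : ℝ) < 1 / 4)).comp tendsto_natCast_atTop_atTop)
  rw [mul_zero] at hlim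
  obtain ⟨K, h3, h4⟩ := ((hlim.eventually (gt_mem_nhds (by norm_num : (0 : ℝ) < 1))).and
    (Filter.eventually_ge_atTop 1)).exists
  refine ⟨12 * K, by omega, fun r hr => ?_⟩
  have e : 12 * K * r / 2 = 6 * K * r := by
    rw [show 12 * K * r = 2 * (6 * K * r) by ring]
    exact Nat.mul_div_cancel_left _ (by norm_num)
  have hpos : 1 ≤ 6 * K * r := Nat.one_le_iff_ne_zero.2 (by positivity)
  have h1 := h (6 * K * r) (4 * r + 1)
  rw [hb _ hpos, hb (4 * r + 1) (by omega)] at h1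
  rw [e]
  calc (k : ℝ≥0∞) * bn (6 * K * r) ≤ k * (ENNReal.ofReal (C * ((((6 * K * r : ℕ) : ℝ) + 1) / (((4 * r + 1 : ℕ) : ℝ) + 1)) ^ (-(1 / 4) : ℝ)) *
        bn (4 * r + 1)) := by gcongr
    _ = ENNReal.ofReal (k * C * ((((6 * K * r : ℕ) : ℝ) + 1) / (((4 * r + 1 : ℕ) : ℝ) + 1)) ^ (-(1 / 4) : ℝ)) * bn (4 * r + 1) := by
        rw [← mul_assoc, ← ENNReal.ofReal_natCast k, ← ENNReal.ofReal_mul (by positivity)]
        congr 2
        ring
    _ ≤ 1 * bn (4 * r + 1) := by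
        gcongr
        rw [← ENNReal.ofReal_one]
        apply ENNReal.ofReal_le_ofReal
        refine le_trans (mul_le_mul_of_nonneg_left ?_ (by positivity)) h3.le
        refine Real.rpow_le_rpow_of_nonpos (by positivity) ?_ (by norm_num)
        rw [le_div_iff₀ (by positivity)]
        push_cast
        have hr' : (1 : ℝ) ≤ r := by exact_mod_cast hr
        have hK' : (1 : ℝ) ≤ K := by exact_mod_cast h4
        nlinarith
    _ = _ := one_mul _

lemma Rv5_cs_le_one : cs ≤ 1 := by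
  unfold cs
  rw [← ENNReal.ofReal_one]
  exact ENNReal.ofReal_le_ofReal (Real.cos_le_one _)

/-- Masses of the wedge words. -/
theorem PW_mass (hQ : hsI.Quarter) : ∃ (q A K : ℕ), 1 ≤ q ∧ 4 ≤ A ∧ ∀ r : ℕ, 1 ≤ r →
    hsI.U r ≤ K * ms xE (PW r (r / q) (A * r)) ∧ 1 ≤ K * ms xE (PWm r (r / q) (A * r)) := by
  obtain ⟨C0, hC0, h1⟩ := reg1 hQ
  obtain ⟨A, hA, h2⟩ := reg2 hQ 24
  obtain ⟨K0, h3⟩ := hQ.b_reg
  refine ⟨8 * C0, A, 8 * K0 * C0, by omega, hA, fun r hr => ?_⟩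
  set t := r / (8 * C0) with ht
  have ht' : 8 * C0 * t ≤ r := Nat.mul_div_le r (8 * C0)
  set M := ms xE (PW r t (A * r)) with hM
  set x : ℝ≥0∞ := (r : ℝ≥0∞) * bn (4 * r + 1) with hx
  have hx' : x ≠ ∞ := ENNReal.mul_ne_top (ENNReal.natCast_ne_top r) (bn_top _)
  have g1 := PW_ge r t (A * r) hr (by nlinarith)
  have g2 : 24 * (r * bn (A * r / 2)) ≤ x := by
    have := h2 r hr
    calc 24 * ((r : ℝ≥0∞) * bn (A * r / 2)) = r * ((24 : ℕ) * bn (A * r / 2)) := by push_cast; ring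
      _ ≤ r * bn (4 * r + 1) := by gcongr
  have g3 : 8 * (t * bn r) ≤ x := by
    calc 8 * ((t : ℝ≥0∞) * bn r) ≤ 8 * (t * (C0 * bn (4 * r + 1))) := by
          gcongr
          exact h1 r hr
      _ = ((8 * C0 * t : ℕ) : ℝ≥0∞) * bn (4 * r + 1) := by push_cast; ring
      _ ≤ (r : ℝ≥0∞) * bn (4 * r + 1) := by
          gcongr
  have g4 : 2 * x + 2 * x ≤ 8 * (cs * M) + 2 * x := by
    calc 2 * x + 2 * x = 4 * x := by ring
      _ ≤ 4 * (2 * (cs * M) + 2 * (r * (3 * bn (A * r / 2)) + t * bn r)) := by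
          gcongr
      _ = 8 * (cs * M) + (24 * (r * bn (A * r / 2)) + 8 * (t * bn r)) := by ring
      _ ≤ 8 * (cs * M) + (x + x) := by gcongr
      _ = _ := by ring
  have g5 : 2 * x ≤ 8 * (cs * M) := (ENNReal.add_le_add_iff_right (ENNReal.mul_ne_top (by norm_num) hx')).1 g4
  have g6 : x ≤ 4 * M := by
    have h5 : 2 * x ≤ 2 * (4 * M) := by
      refine g5.trans ?_
      calc 8 * (cs * M) ≤ 8 * (1 * M) := by
            gcongr
            exact Rv5_cs_le_one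
        _ = _ := by ring
    exact (ENNReal.mul_le_mul_iff_right (by norm_num) (by norm_num)).1 h5
  have g7 : hsI.U r ≤ ((8 * K0 * C0 : ℕ) : ℝ≥0∞) * M := by
    calc hsI.U r ≤ (K0 : ℝ≥0∞) * ((r + 1 : ℕ) : ℝ≥0∞) * hsI.b r := h3 r
      _ = (K0 : ℝ≥0∞) * ((r + 1 : ℕ) : ℝ≥0∞) * bn r := by rw [hb r hr]
      _ ≤ (K0 : ℝ≥0∞) * ((2 * r : ℕ) : ℝ≥0∞) * (C0 * bn (4 * r + 1)) := by
          gcongr
          · omega
          · exact h1 r hr
      _ = ((2 * K0 * C0 : ℕ) : ℝ≥0∞) * x := by push_cast; rw [hx]; ring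
      _ ≤ ((2 * K0 * C0 : ℕ) : ℝ≥0∞) * (4 * M) := by gcongr
      _ = _ := by push_cast; ring
  refine ⟨g7, ?_⟩
  have g8 := PW_le_PWm r t (A * r)
  rw [← hU r] at g8
  have g9 : hsI.U r * 1 ≤ hsI.U r * (((8 * K0 * C0 : ℕ) : ℝ≥0∞) * ms xE (PWm r t (A * r))) := by
    rw [mul_one]
    refine g7.trans ?_
    calc ((8 * K0 * C0 : ℕ) : ℝ≥0∞) * M ≤ ((8 * K0 * C0 : ℕ) : ℝ≥0∞) * (ms xE (PWm r t (A * r)) * hsI.U r) := by gcongr
      _ = _ := by ring
  exact (ENNReal.mul_le_mul_iff_right (hsI.U_ne_zero r) (hsI.U_ne_top r)).1 g9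

end Pool.Agent.PLY.G
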