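import Pool.Agent.PLY.G.StDefs
import Pool.Agent.HEP.RnWord
import Pool.Agent.HEP.RnSeq

/-!
Project PLY (MP_8c6f77_pr, honeycomb lattice, polynomial bound), LEMMA G, STEERING: prefix free sets of words.

* `Fst P` = the minimal words of the set `P` (prefix free).
* `fst_mass`: if the heights of the words of `P` lie in `[m, m + N]`, the mass of `P` is at most the mass of `Fst P` times `U N`.
* `Str P Q ch N p l`: `l` is the rest of a greedy word after the prefix `p`: as long as the height is smaller than `N`, add a word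
  of `P` if `ch` holds for the word so far, a word of `Q` otherwise. `Str.pf`: prefix free, `Str.mass`: lower bound of the mass.
* `PF.bind`: concatenation of prefix free sets.
-/

namespace Pool.Agent.HEP

open scoped ENNReal

namespace Alph

variable (A : Alph)

/-- Minimal words of a set. -/
def Fst (P : Set (List A.B)) : Set (List A.B) :=
  {l | l ∈ P ∧ ∀ l' r, l = l' ++ r → r ≠ [] → l' ∉ P}

variable {A}

lemma Fst.pf (P : Set (List A.B)) : A.PF (A.Fst P) := by
  intro l h1 r h2
  by_contra h3
  exact h2.2 l r rfl h3 h1.1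

/-- Two prefixes of one word in a prefix free set are equal. -/
lemma PF.eq {P : Set (List A.B)} (h : A.PF P) {s s' l l' : List A.B} (e : s ++ l = s' ++ l')
    (h1 : s ∈ P) (h2 : s' ∈ P) : s = s' := by
  rcases List.append_eq_append_iff.1 e with ⟨t, ht, -⟩ | ⟨t, ht, -⟩
  · have := h s h1 t (ht ▸ h2)
    rw [ht, this, List.append_nil]
  · have := h s' h2 t (ht ▸ h1)
    rw [ht, this, List.append_nil]

/-- Summation over the words which start with a word of a prefix free set. -/
theorem PF.tsum_le {P : Set (List A.B)} (h : A.PF P) (G : List A.B → List A.B → ℝ≥0∞)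
    (F : List A.B → ℝ≥0∞) (hF : ∀ s l, s ∈ P → G s l ≤ F (s ++ l)) :
    ∑' s, ∑' l, ind (s ∈ P) * G s l ≤ ∑' k, F k := by
  classical
  have hinj : Function.Injective (fun x : {x : List A.B × List A.B // x.1 ∈ P} => x.1.1 ++ x.1.2) := by
    rintro ⟨⟨s, l⟩, hs⟩ ⟨⟨s', l'⟩, hs'⟩ e
    have e1 : s = s' := h.eq e hs hs'
    subst e1
    have e2 : l = l' := List.append_cancel_left e
    subst e2
    rfl
  calc ∑' s, ∑' l, ind (s ∈ P) * G s l = ∑' x : List A.B × List A.B, ind (x.1 ∈ P) * G x.1 x.2 := by
        rw [← ENNReal.tsum_prod]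
    _ = ∑' x : {x : List A.B × List A.B // x.1 ∈ P}, ind (x.1.1 ∈ P) * G x.1.1 x.1.2 := by
        rw [← tsum_subtype_eq_of_support_subset (s := {x : List A.B × List A.B | x.1 ∈ P})]
        · rfl
        · intro x hx
          by_contra h1
          apply hx
          show ind (x.1 ∈ P) * G x.1 x.2 = 0
          rw [ind_false (show x.1 ∉ P from h1), zero_mul]
    _ ≤ ∑' x : {x : List A.B × List A.B // x.1 ∈ P}, F (x.1.1 ++ x.1.2) := by
        refine ENNReal.tsum_le_tsum fun x => ?_
        rw [ind_true x.2, one_mul]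
        exact hF _ _ x.2
    _ ≤ _ := ENNReal.tsum_comp_le_tsum_of_injective hinj F

/-- The mass of a prefix free set followed by prefix free sets. -/
theorem PF.bind_mass {P : Set (List A.B)} (h : A.PF P) (Q : List A.B → Set (List A.B)) {a b : ℝ≥0∞}
    (ha : a ≤ ∑' l, ind (l ∈ P) * A.w l) (hb : ∀ s ∈ P, b ≤ ∑' l, ind (l ∈ Q s) * A.w l) :
    a * b ≤ ∑' k, ind (∃ s l, k = s ++ l ∧ s ∈ P ∧ l ∈ Q s) * A.w k := by
  refine le_trans ?_ (h.tsum_le (fun s l => A.w s * (ind (l ∈ Q s) * A.w l))
    (fun k => ind (∃ s l, k = s ++ l ∧ s ∈ P ∧ l ∈ Q s) * A.w k) ?_)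
  · calc a * b ≤ (∑' s, ind (s ∈ P) * A.w s) * b := mul_le_mul' ha le_rfl
      _ = ∑' s, ind (s ∈ P) * A.w s * b := by rw [ENNReal.tsum_mul_right]
      _ ≤ _ := by
        refine ENNReal.tsum_le_tsum fun s => ?_
        by_cases hs : s ∈ P
        · rw [ind_true hs]
          simp only [one_mul]
          rw [ENNReal.tsum_mul_left]
          exact mul_le_mul' le_rfl (hb s hs)
        · rw [ind_false hs, zero_mul, zero_mul]
          exact zero_le
  · intro s l hs
    by_cases hl : l ∈ Q s
    · rw [ind_true hl, ind_true ⟨s, l, rfl, hs, hl⟩, one_mul, one_mul, A.w_append]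
    · rw [ind_false hl, zero_mul, mul_zero]
      exact zero_le

/-- Concatenations of prefix free sets form a prefix free set. -/
theorem PF.bind {P : Set (List A.B)} (h : A.PF P) {Q : List A.B → Set (List A.B)}
    (hQ : ∀ s ∈ P, A.PF (Q s)) : A.PF {k | ∃ s l, k = s ++ l ∧ s ∈ P ∧ l ∈ Q s} := by
  rintro k ⟨s, l, rfl, hs, hl⟩ r ⟨s', l', e, hs', hl'⟩
  rw [List.append_assoc] at e
  have e1 := h.eq e hs hs'
  subst e1
  have e2 := List.append_cancel_left e
  subst e2
  exact hQ s hs l hl r hl'

/-- Every word of a set has a minimal prefix in the set. -/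
lemma exists_fst {P : Set (List A.B)} {l : List A.B} (h : l ∈ P) :
    ∃ s r, l = s ++ r ∧ s ∈ A.Fst P := by
  classical
  have h1 : ∃ n, ∃ s r, l = s ++ r ∧ s ∈ P ∧ s.length = n := ⟨_, l, [], by simp, h, rfl⟩
  obtain ⟨s, r, e, hs, hn⟩ := Nat.find_spec h1
  refine ⟨s, r, e, hs, ?_⟩
  intro l' r' e' hr' hl'
  have h2 : l'.length < Nat.find h1 := by
    rw [← hn, e', List.length_append]
    have := List.length_pos_iff.2 hr'
    omega
  exact Nat.find_min h1 h2 ⟨l', r' ++ r, by rw [e, e', List.append_assoc], hl', rfl⟩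

/-- The mass of a set of words with heights in `[m, m + N]` is at most the mass of its minimal words times `U N`. -/
theorem fst_mass (P : Set (List A.B)) {m N : ℕ} (hP : ∀ l ∈ P, m ≤ A.h l ∧ A.h l ≤ m + N) :
    ∑' l, ind (l ∈ P) * A.w l ≤ (∑' l, ind (l ∈ A.Fst P) * A.w l) * A.U N := by
  classical
  have h2 : ∀ l, ind (l ∈ P) * A.w l ≤
      ∑' s, ∑' r, ind (l = s ++ r) * ((ind (s ∈ A.Fst P) * A.w s) * (ind (A.h r ≤ N) * A.w r)) := by
    intro l
    by_cases hl : l ∈ P
    · obtain ⟨s, r, e, hs⟩ := exists_fst hl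
      have h3 := hP l hl
      have h4 := hP s hs.1
      have h5 : A.h l = A.h s + A.h r := by rw [e, A.h_append]
      refine le_trans ?_ (ENNReal.le_tsum s)
      refine le_trans ?_ (ENNReal.le_tsum r)
      rw [ind_true hl, ind_true e, ind_true hs, ind_true (by omega), one_mul, one_mul, one_mul,
        one_mul, e, A.w_append]
    · rw [ind_false hl, zero_mul]
      exact zero_le
  refine (ENNReal.tsum_le_tsum h2).trans (le_of_eq ?_)
  rw [ENNReal.tsum_comm, ← ENNReal.tsum_mul_right]
  refine tsum_congr fun s => ?_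
  rw [ENNReal.tsum_comm, ← A.tsum_le N, ← ENNReal.tsum_mul_left]
  refine tsum_congr fun r => ?_
  rw [tsum_eq_single (s ++ r)]
  · rw [ind_true rfl, one_mul]
  · intro l hl
    rw [ind_false hl, zero_mul]

variable (A) in
/-- Greedy words. -/
inductive Str (P Q : Set (List A.B)) (ch : List A.B → Prop) (N : ℕ) : List A.B → List A.B → Prop
  | stop (p : List A.B) : N ≤ A.h p → Str P Q ch N p []
  | one (p s l : List A.B) : A.h p < N → ch p → s ∈ P → Str P Q ch N (p ++ s) l →
      Str P Q ch N p (s ++ l)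
  | two (p s l : List A.B) : A.h p < N → ¬ ch p → s ∈ Q → Str P Q ch N (p ++ s) l →
      Str P Q ch N p (s ++ l)

variable {P Q : Set (List A.B)} {ch : List A.B → Prop} {N : ℕ}

/-- The greedy words form a prefix free set. -/
theorem Str.pf (hP : A.PF P) (hQ : A.PF Q) (p : List A.B) : A.PF {l | A.Str P Q ch N p l} := by
  intro l h1 r h2
  rw [Set.mem_ofPred_eq] at h1 h2
  induction h1 with
  | stop p hp =>
    rw [List.nil_append] at h2
    cases h2 with
    | stop => rfl
    | one => omega
    | two => omega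
  | one p s l hp hc hs h ih =>
    generalize hk : s ++ l ++ r = k at h2
    cases h2 with
    | stop => omega
    | one _ s' l' _ _ hs' h' =>
      rw [List.append_assoc] at hk
      have e := hP.eq hk hs hs'
      subst e
      have e2 := List.append_cancel_left hk
      subst e2
      exact ih h'
    | two _ s' l' _ hc' => exact absurd hc hc'
  | two p s l hp hc hs h ih =>
    generalize hk : s ++ l ++ r = k at h2
    cases h2 with
    | stop => omega
    | one _ s' l' _ hc' => exact absurd hc' hc
    | two _ s' l' _ _ hs' h' =>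
      rw [List.append_assoc] at hk
      have e := hQ.eq hk hs hs'
      subst e
      have e2 := List.append_cancel_left hk
      subst e2
      exact ih h'

/-- Lower bound for the mass of the greedy words. -/
theorem Str.mass (hP : A.PF P) (hQ : A.PF Q) {m : ℕ} (hPm : ∀ s ∈ P, m ≤ A.h s)
    (hQm : ∀ s ∈ Q, m ≤ A.h s) {c : ℝ≥0∞} (hc : c ≤ 1) (hPc : c ≤ ∑' s, ind (s ∈ P) * A.w s)
    (hQc : c ≤ ∑' s, ind (s ∈ Q) * A.w s) (n : ℕ) (p : List A.B) (hn : N ≤ A.h p + n * m) :
    c ^ n ≤ ∑' l, ind (l ∈ {l | A.Str P Q ch N p l}) * A.w l := by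
  classical
  simp_rw [Set.mem_ofPred_eq]
  induction n generalizing p with
  | zero =>
    refine le_trans ?_ (ENNReal.le_tsum [])
    rw [ind_true (Str.stop p (by omega)), one_mul, A.w_nil, pow_zero]
  | succ n ih =>
    by_cases hp : N ≤ A.h p
    · refine le_trans ?_ (ENNReal.le_tsum [])
      rw [ind_true (Str.stop p hp), one_mul, A.w_nil]
      exact pow_le_one' hc _
    · push Not at hp
      have key : ∀ R : Set (List A.B), A.PF R → (∀ s ∈ R, m ≤ A.h s) →
          c ≤ ∑' s, ind (s ∈ R) * A.w s →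
          (∀ s l, s ∈ R → A.Str P Q ch N (p ++ s) l → A.Str P Q ch N p (s ++ l)) →
          c ^ (n + 1) ≤ ∑' l, ind (A.Str P Q ch N p l) * A.w l := by
        intro R hR hRm hRc hRs
        rw [pow_succ']
        refine (hR.bind_mass (fun s => {l | A.Str P Q ch N (p ++ s) l}) hRc (fun s hs => ?_)).trans ?_
        · simp_rw [Set.mem_ofPred_eq]
          refine ih (p ++ s) ?_
          have := hRm s hs
          rw [A.h_append]
          rw [add_mul, one_mul] at hn
          omega
        · refine ENNReal.tsum_le_tsum fun k => mul_le_mul' (ind_mono ?_) le_rfl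
          rintro ⟨s, l, rfl, hs, hl⟩
          exact hRs s l hs hl
      by_cases hch : ch p
      · exact key P hP hPm hPc fun s l hs h => Str.one p s l hp hch hs h
      · exact key Q hQ hQm hQc fun s l hs h => Str.two p s l hp hch hs h

end Alph

end Pool.Agent.HEP
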