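import Pool.Agent.PLY.G.BIneq
import Pool.Agent.BEX.F.Rvb
import Pool.Agent.BEX.Reg

/-!
Project PLY, Lemma G, part BLOCKS, module BFin: FINAL THEOREM OF THE BLOCKS (note 3063, (2)).

PAPER PROOF. `J = Js B r R` is an initial segment `{1, ..., n}`, `R < 4 B ^ (n + 1) r`. For `H ≥ R`: the blocks with height in `[H, 2H)` which avoid at least half of the
windows avoid all the windows of some `F ⊆ J`, `2 |F| ≥ n`; `blk_F` with `k = 2 k'`, `w = ze ^ k'`, `r b_r ≤ U r`: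
`r * mass * U H ≤ 60 H (2 w) ^ n` (`dy`). Sum over `H = 2 ^ i R`, `i < I = 2 L`, `2 ^ L r` between `R` and `2 R`: `r U R Σ ≤ 60 (2 ^ L)² R (2 w) ^ n`, so
`R U R Σ ≤ 60 r (2 ^ L)⁴ (2 w) ^ n ≤ 60 * 4096 B⁴ r` if `2 w B⁴ ≤ 1`. The blocks of height `≥ 2 ^ I R`: `U R * Lam (2 ^ I R - 1) ≤ 2 C 2 ^ (- 3 I / 4)`
(`Quarter.U_ratio`, `U_mul_Lam`), and `R * 2 ^ (- 3 L / 2) ≤ R * 2 ^ (- L) ≤ r`. The other orientations: reflection `rf`, reversal `rvB`.
-/

namespace Pool.Agent.PLY.G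

open Pool.Agent.Hhelper14.SAW Pool.Agent.HHP Pool.Agent.HEP Pool.Agent.BEX Pool.Agent.BEX.C
open scoped ENNReal

/-- The scales between `r` and `R`. -/
def Js (B r R : ℕ) : Finset ℕ := (Finset.Icc 1 R).filter (fun j => 4 * (B ^ j * r) ≤ R)

/-- The block avoids at least half of the windows. -/
def Avh (σ τ : Bool) (K B r R : ℕ) (c : Blk) : Prop := by
  classical
  exact (Js B r R).card ≤ 2 * ((Js B r R).filter (fun j => ¬ meets σ τ K (B ^ j * r) c)).card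

lemma Js_lt {B r R : ℕ} (hB : 8 ≤ B) (hr : 1 ≤ r) : R < 4 * (B ^ ((Js B r R).card + 1) * r) := by
  by_contra hcon
  rw [not_lt] at hcon
  have h1 : Finset.Icc 1 ((Js B r R).card + 1) ⊆ Js B r R := by
    intro j hj
    rw [Finset.mem_Icc] at hj
    have h2 : B ^ j ≤ B ^ ((Js B r R).card + 1) := Nat.pow_le_pow_right (by omega) hj.2
    have h3 : 4 * (B ^ j * r) ≤ R := le_trans (Nat.mul_le_mul_left 4 (Nat.mul_le_mul_right r h2)) hcon
    have h4 : j < B ^ j := Nat.lt_pow_self (by omega)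
    have h5 : B ^ j * 1 ≤ B ^ j * r := Nat.mul_le_mul_left _ hr
    rw [Js, Finset.mem_filter, Finset.mem_Icc]
    exact ⟨⟨hj.1, by omega⟩, h3⟩
  have h6 := Finset.card_le_card h1
  rw [Nat.card_Icc] at h6
  omega

lemma Js_mem {B r R j : ℕ} (h : j ∈ Js B r R) : 1 ≤ j ∧ 4 * sc B r j ≤ R := by
  rw [Js, Finset.mem_filter, Finset.mem_Icc] at h
  exact ⟨h.1.1, h.2⟩

lemma ze_le_one : ze ≤ 1 := ze_le.trans (by
  rw [← ENNReal.ofReal_one]
  exact ENNReal.ofReal_le_ofReal (by norm_num))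

/-- One set of scales. -/
lemma dyF {r B k κ K R H : ℕ} (hr : 1 ≤ r) (hB : 8 ≤ B) (hκ : 10 * (k + 1) ≤ κ) (hK : κ + 20 ≤ K)
    (hrH : r < H) (hRH : R ≤ H) (F : Finset ℕ) (hF : ∀ j ∈ F, 1 ≤ j ∧ 4 * sc B r j ≤ R) :
    r * ((∑' c : Blk, ind (H ≤ htw c.1 ∧ htw c.1 < 2 * H ∧ ∀ j ∈ F, ¬ meets false true K (sc B r j) c) *
      xE ^ (c.1.length + 1)) * hsI.U H) ≤ 60 * H * ze ^ (k * F.card) := by
  have h1 := blk_F hr hB hκ hK F hF hrH hRH
  set X := ∑' c : Blk, ind (H ≤ htw c.1 ∧ htw c.1 < 2 * H ∧ ∀ j ∈ F, ¬ meets false true K (sc B r j) c) *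
      xE ^ (c.1.length + 1)
  have h2 : (r : ℝ≥0∞) * hsI.b r ≤ hsI.U r := by
    calc (r : ℝ≥0∞) * hsI.b r = ∑ _k ∈ Finset.range r, hsI.b r := by
          rw [Finset.sum_const, Finset.card_range, nsmul_eq_mul]
      _ ≤ ∑ k ∈ Finset.range r, hsI.b k := Finset.sum_le_sum fun k hk => hsI_anti' (by
          rw [Finset.mem_range] at hk; omega)
      _ ≤ hsI.U r := Finset.sum_le_sum_of_subset (Finset.range_mono (by omega))
  have h3 : hsI.U r * (r * (X * hsI.U H)) ≤ hsI.U r * (60 * H * ze ^ (k * F.card)) := by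
    calc hsI.U r * (r * (X * hsI.U H)) = r * (hsI.U r * (X * hsI.U H)) := by ring
      _ ≤ r * (60 * H * (ze ^ (k * F.card) * hsI.b r)) := by gcongr
      _ = (r * hsI.b r) * (60 * H * ze ^ (k * F.card)) := by ring
      _ ≤ hsI.U r * (60 * H * ze ^ (k * F.card)) := by gcongr
  exact (ENNReal.mul_le_mul_iff_right (hsI.U_ne_zero r) (hsI_U_top r)).1 h3

theorem dy {r B k' κ K R H : ℕ} (hr : 1 ≤ r) (hB : 8 ≤ B) (hκ : 10 * (2 * k' + 1) ≤ κ) (hK : κ + 20 ≤ K)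
    (hrH : r < H) (hRH : R ≤ H) :
    r * ((∑' c : Blk, ind (H ≤ htw c.1 ∧ htw c.1 < 2 * H ∧ Avh false true K B r R c) * xE ^ (c.1.length + 1)) * hsI.U H) ≤
      60 * H * (2 * ze ^ k') ^ (Js B r R).card := by
  classical
  set J := Js B r R with hJ
  set n := J.card with hn
  set 𝓕 : Finset (Finset ℕ) := J.powerset.filter (fun F => n ≤ 2 * F.card) with h𝓕
  have h1 : ∑' c : Blk, ind (H ≤ htw c.1 ∧ htw c.1 < 2 * H ∧ Avh false true K B r R c) * xE ^ (c.1.length + 1) ≤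
      ∑ F ∈ 𝓕, ∑' c : Blk, ind (H ≤ htw c.1 ∧ htw c.1 < 2 * H ∧ ∀ j ∈ F, ¬ meets false true K (sc B r j) c) *
        xE ^ (c.1.length + 1) := by
    rw [← Summable.tsum_finsetSum (fun _ _ => ENNReal.summable)]
    refine ENNReal.tsum_le_tsum fun c => ?_
    by_cases h : H ≤ htw c.1 ∧ htw c.1 < 2 * H ∧ Avh false true K B r R c
    · obtain ⟨g1, g2, g3⟩ := h
      have g3' : n ≤ 2 * (J.filter (fun j => ¬ meets false true K (B ^ j * r) c)).card := by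
        unfold Avh at g3
        convert g3
      have g4 : J.filter (fun j => ¬ meets false true K (B ^ j * r) c) ∈ 𝓕 := by
        rw [h𝓕, Finset.mem_filter, Finset.mem_powerset]
        exact ⟨Finset.filter_subset _ _, g3'⟩
      refine le_trans ?_ (Finset.single_le_sum (f := fun F => ind (H ≤ htw c.1 ∧ htw c.1 < 2 * H ∧
        ∀ j ∈ F, ¬ meets false true K (sc B r j) c) * xE ^ (c.1.length + 1)) (fun _ _ => zero_le) g4)
      rw [ind_true ⟨g1, g2, g3⟩, ind_true ⟨g1, g2, fun j hj => (Finset.mem_filter.1 hj).2⟩]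
    · rw [ind_false h, zero_mul]
      exact zero_le
  have hw : ze ^ k' ≤ 1 := pow_le_one₀ (zero_le) ze_le_one
  calc r * ((∑' c : Blk, ind (H ≤ htw c.1 ∧ htw c.1 < 2 * H ∧ Avh false true K B r R c) * xE ^ (c.1.length + 1)) * hsI.U H)
      ≤ r * ((∑ F ∈ 𝓕, ∑' c : Blk, ind (H ≤ htw c.1 ∧ htw c.1 < 2 * H ∧ ∀ j ∈ F, ¬ meets false true K (sc B r j) c) *
        xE ^ (c.1.length + 1)) * hsI.U H) := by gcongr
    _ = ∑ F ∈ 𝓕, r * ((∑' c : Blk, ind (H ≤ htw c.1 ∧ htw c.1 < 2 * H ∧ ∀ j ∈ F, ¬ meets false true K (sc B r j) c) *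
        xE ^ (c.1.length + 1)) * hsI.U H) := by rw [Finset.sum_mul, Finset.mul_sum]
    _ ≤ ∑ F ∈ 𝓕, 60 * H * (ze ^ k') ^ n := by
        refine Finset.sum_le_sum fun F hF => ?_
        rw [h𝓕, Finset.mem_filter, Finset.mem_powerset] at hF
        refine (dyF (k := 2 * k') hr hB hκ hK hrH hRH F (fun j hj => Js_mem (hF.1 hj))).trans ?_
        have e : ze ^ (2 * k' * F.card) = (ze ^ k') ^ (2 * F.card) := by rw [← pow_mul]; congr 1; ring
        rw [e]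
        exact mul_le_mul_right (pow_le_pow_of_le_one (zero_le) hw hF.2) _
    _ = 𝓕.card * (60 * H * (ze ^ k') ^ n) := by rw [Finset.sum_const, nsmul_eq_mul]
    _ ≤ (2 : ℝ≥0∞) ^ n * (60 * H * (ze ^ k') ^ n) := by
        gcongr
        have h2 : 𝓕.card ≤ 2 ^ n := by
          calc 𝓕.card ≤ J.powerset.card := Finset.card_filter_le _ _
            _ = 2 ^ n := Finset.card_powerset J
        exact_mod_cast h2
    _ = _ := by rw [mul_pow]; ring

lemma dy_split {P : Prop} (R h I : ℕ) : ind (R ≤ h ∧ P) ≤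
    ∑ i ∈ Finset.range I, ind (2 ^ i * R ≤ h ∧ h < 2 * (2 ^ i * R) ∧ P) + ind (2 ^ I * R ≤ h ∧ P) := by
  induction I with
  | zero => simp
  | succ I ih =>
    rw [Finset.sum_range_succ]
    refine ih.trans ?_
    rw [add_assoc]
    gcongr
    refine (ind_mono fun h1 => ?_).trans (ind_or_le _ _)
    by_cases h2 : h < 2 * (2 ^ I * R)
    · exact Or.inl ⟨h1.1, h2, h1.2⟩
    · refine Or.inr ⟨?_, h1.2⟩
      rw [pow_succ]
      rw [not_lt] at h2
      linarith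

lemma ex_k (B : ℕ) : ∃ k' : ℕ, 2 * ze ^ k' * (B : ℝ≥0∞) ^ 4 ≤ 1 := by
  obtain ⟨k', hk⟩ := exists_pow_lt_of_lt_one (show (0 : ℝ) < 1 / (2 * (B : ℝ) ^ 4 + 1) by positivity) (show (6 / 10 : ℝ) < 1 by norm_num)
  refine ⟨k', ?_⟩
  calc 2 * ze ^ k' * (B : ℝ≥0∞) ^ 4 ≤ 2 * ENNReal.ofReal (6 / 10) ^ k' * (B : ℝ≥0∞) ^ 4 := by gcongr; exact ze_le
    _ = ENNReal.ofReal (2 * (6 / 10) ^ k' * (B : ℝ) ^ 4) := by
        rw [ENNReal.ofReal_mul (by positivity), ENNReal.ofReal_mul (by norm_num), ENNReal.ofReal_pow (by norm_num),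
          ENNReal.ofReal_pow (by positivity), ENNReal.ofReal_natCast]
        congr 2
        simp
    _ ≤ 1 := by
        rw [← ENNReal.ofReal_one]
        refine ENNReal.ofReal_le_ofReal ?_
        have h1 : (0 : ℝ) ≤ (B : ℝ) ^ 4 := by positivity
        calc 2 * (6 / 10 : ℝ) ^ k' * (B : ℝ) ^ 4 ≤ 2 * (1 / (2 * (B : ℝ) ^ 4 + 1)) * (B : ℝ) ^ 4 := by gcongr
          _ = (2 * (B : ℝ) ^ 4) / (2 * (B : ℝ) ^ 4 + 1) := by ring
          _ ≤ 1 := by rw [div_le_one (by positivity)]; linarith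

/-- The blocks of height at least `4 ^ L R`. -/
lemma high_blocks : ∃ C : ℕ, ∀ r R L : ℕ, 1 ≤ r → r < R → R ≤ 2 ^ L * r →
    (R : ℝ≥0∞) * (hsI.U R * ∑' c : Blk, ind (2 ^ (2 * L) * R ≤ htw c.1) * xE ^ (c.1.length + 1)) ≤ C * r := by
  obtain ⟨C, hC, hU⟩ := hsI_quarter.U_ratio hsI_anti'
  obtain ⟨C', hC'⟩ := exists_nat_ge (2 * C)
  refine ⟨C', fun r R L hr hrR hL => ?_⟩
  set M := 2 ^ (2 * L) * R - 1 with hM
  have h1 : 1 ≤ 2 ^ (2 * L) * R := Nat.mul_pos (Nat.pow_pos (by norm_num)) (by omega)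
  have h2 : ∑' c : Blk, ind (2 ^ (2 * L) * R ≤ htw c.1) * xE ^ (c.1.length + 1) = hsI.Lam M := by
    change _ = ∑' c : Blk, ind (M < htw c.1) * xE ^ (c.1.length + 1)
    refine tsum_congr fun c => ?_
    rw [ind_congr (p := 2 ^ (2 * L) * R ≤ htw c.1) (q := M < htw c.1)]
    omega
  rw [h2]
  have hMR : ((M : ℝ) + 1) = 4 ^ L * R := by
    have : ((M + 1 : ℕ) : ℝ) = ((2 ^ (2 * L) * R : ℕ) : ℝ) := by
      congr 1
      omega
    push_cast at this
    rw [this, pow_mul]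
    norm_num
  have hR : (1 : ℝ) ≤ R := by
    have : 1 ≤ R := by omega
    exact_mod_cast this
  have hx : (((R : ℝ) + 1) / ((M : ℝ) + 1)) ^ (3 / 4 : ℝ) ≤ 2 * (1 / 2) ^ L := by
    have h4 : (0 : ℝ) < 4 ^ L := by positivity
    have e1 : ((R : ℝ) + 1) / ((M : ℝ) + 1) ≤ 2 * (1 / 4) ^ L := by
      rw [hMR, div_le_iff₀ (by positivity)]
      have : (1 / 4 : ℝ) ^ L * 4 ^ L = 1 := by rw [← mul_pow]; norm_num
      calc (R : ℝ) + 1 ≤ 2 * R := by linarith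
        _ = 2 * ((1 / 4 : ℝ) ^ L * 4 ^ L) * R := by rw [this]; ring
        _ = _ := by ring
    have e2 : ((1 / 4 : ℝ) ^ L) ^ (3 / 4 : ℝ) ≤ (1 / 2) ^ L := by
      have e3 : ((1 / 4 : ℝ) ^ L) ^ (3 / 4 : ℝ) ≤ ((1 / 4 : ℝ) ^ L) ^ (1 / 2 : ℝ) :=
        Real.rpow_le_rpow_of_exponent_ge (by positivity) (pow_le_one₀ (by norm_num) (by norm_num)) (by norm_num)
      have e4 : ((1 / 4 : ℝ) ^ L) ^ (1 / 2 : ℝ) = (1 / 2) ^ L := by
        rw [← Real.sqrt_eq_rpow, show (1 / 4 : ℝ) ^ L = ((1 / 2) ^ L) ^ 2 by rw [← pow_mul, mul_comm, pow_mul]; norm_num,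
          Real.sqrt_sq (by positivity)]
      linarith
    have e5 : (2 : ℝ) ^ (3 / 4 : ℝ) ≤ 2 := by
      calc (2 : ℝ) ^ (3 / 4 : ℝ) ≤ (2 : ℝ) ^ (1 : ℝ) := Real.rpow_le_rpow_of_exponent_le (by norm_num) (by norm_num)
        _ = 2 := Real.rpow_one 2
    calc (((R : ℝ) + 1) / ((M : ℝ) + 1)) ^ (3 / 4 : ℝ) ≤ (2 * (1 / 4) ^ L) ^ (3 / 4 : ℝ) :=
          Real.rpow_le_rpow (by positivity) e1 (by norm_num)
      _ = 2 ^ (3 / 4 : ℝ) * ((1 / 4 : ℝ) ^ L) ^ (3 / 4 : ℝ) := Real.mul_rpow (by norm_num) (by positivity)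
      _ ≤ 2 * (1 / 2) ^ L := by gcongr
  have h3 : hsI.U R * hsI.Lam M ≤ ENNReal.ofReal (C * (2 * (1 / 2) ^ L)) := by
    calc hsI.U R * hsI.Lam M ≤ (ENNReal.ofReal (C * (((R : ℝ) + 1) / ((M : ℝ) + 1)) ^ (3 / 4 : ℝ)) * hsI.U M) * hsI.Lam M := by
          gcongr
          exact hU R M
      _ = ENNReal.ofReal (C * (((R : ℝ) + 1) / ((M : ℝ) + 1)) ^ (3 / 4 : ℝ)) * (hsI.U M * hsI.Lam M) := by ring
      _ ≤ ENNReal.ofReal (C * (2 * (1 / 2) ^ L)) * 1 := by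
          gcongr
          exact hsI.U_mul_Lam M
      _ = _ := mul_one _
  calc (R : ℝ≥0∞) * (hsI.U R * hsI.Lam M) ≤ ((2 ^ L * r : ℕ) : ℝ≥0∞) * ENNReal.ofReal (C * (2 * (1 / 2) ^ L)) := by
        gcongr
    _ = ENNReal.ofReal (((2 ^ L * r : ℕ) : ℝ) * (C * (2 * (1 / 2) ^ L))) := by
        have e := ENNReal.ofReal_mul (p := ((2 ^ L * r : ℕ) : ℝ)) (q := C * (2 * (1 / 2) ^ L)) (Nat.cast_nonneg _)
        rw [e, ENNReal.ofReal_natCast]
    _ ≤ ENNReal.ofReal (C' * r) := by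
        refine ENNReal.ofReal_le_ofReal ?_
        push_cast
        have h5 : (2 : ℝ) ^ L * (1 / 2) ^ L = 1 := by rw [← mul_pow]; norm_num
        calc (2 : ℝ) ^ L * r * (C * (2 * (1 / 2) ^ L)) = (2 * C) * r * ((2 : ℝ) ^ L * (1 / 2) ^ L) := by ring
          _ = (2 * C) * r := by rw [h5, mul_one]
          _ ≤ C' * r := by gcongr
    _ = _ := by rw [ENNReal.ofReal_mul (by positivity), ENNReal.ofReal_natCast, ENNReal.ofReal_natCast]

theorem blk_main0 (B : ℕ) (hB : 8 ≤ B) : ∃ K C : ℕ, ∀ r R : ℕ, 1 ≤ r → r < R →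
    (R : ℝ≥0∞) * (hsI.U R * ∑' c : Blk, ind (R ≤ htw c.1 ∧ Avh false true K B r R c) * xE ^ (c.1.length + 1)) ≤ C * r := by
  classical
  obtain ⟨k', hk⟩ := ex_k B
  obtain ⟨C, hC⟩ := high_blocks
  set K := 10 * (2 * k' + 1) + 20 with hK
  refine ⟨K, 60 * (4096 * B ^ 4) + C, fun r R hr hrR => ?_⟩
  set L := Nat.log 2 (R / r) + 1 with hL
  have hL1 : R ≤ 2 ^ L * r := by
    have h1 : R / r < 2 ^ L := Nat.lt_pow_succ_log_self (by norm_num) _
    exact ((Nat.div_lt_iff_lt_mul (by omega)).1 h1).le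
  have hL2 : 2 ^ L * r ≤ 2 * R := by
    have h1 : 2 ^ Nat.log 2 (R / r) ≤ R / r := Nat.pow_log_le_self 2 (Nat.div_pos hrR.le (by omega)).ne'
    have h2 : 2 ^ Nat.log 2 (R / r) * r ≤ R := (Nat.mul_le_mul_right r h1).trans (Nat.div_mul_le_self R r)
    rw [hL, pow_succ]
    linarith
  set n := (Js B r R).card with hn
  set w := ze ^ k' with hw
  set S : ℕ → ℝ≥0∞ := fun i => ∑' c : Blk, ind (2 ^ i * R ≤ htw c.1 ∧ htw c.1 < 2 * (2 ^ i * R) ∧ Avh false true K B r R c) *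
    xE ^ (c.1.length + 1) with hS
  set T := ∑' c : Blk, ind (2 ^ (2 * L) * R ≤ htw c.1) * xE ^ (c.1.length + 1) with hT
  have h1 : ∑' c : Blk, ind (R ≤ htw c.1 ∧ Avh false true K B r R c) * xE ^ (c.1.length + 1) ≤
      ∑ i ∈ Finset.range (2 * L), S i + T := by
    rw [hS, hT, ← Summable.tsum_finsetSum (fun _ _ => ENNReal.summable), ← ENNReal.tsum_add]
    refine ENNReal.tsum_le_tsum fun c => ?_
    rw [← Finset.sum_mul, ← add_mul]
    refine mul_le_mul_left ((dy_split R (htw c.1) (2 * L)).trans ?_) _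
    gcongr
    exact ind_mono fun h => h.1
  have h2 : ∀ i, r * (hsI.U R * S i) ≤ 60 * ((2 ^ i * R : ℕ) : ℝ≥0∞) * (2 * w) ^ n := by
    intro i
    have hi : R ≤ 2 ^ i * R := Nat.le_mul_of_pos_left R (Nat.pow_pos (by norm_num))
    have h3 := dy (k' := k') (κ := 10 * (2 * k' + 1)) (K := K) (H := 2 ^ i * R) (R := R) hr hB le_rfl le_rfl (by omega) hi
    calc r * (hsI.U R * S i) = r * (S i * hsI.U R) := by ring
      _ ≤ r * (S i * hsI.U (2 ^ i * R)) := by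
          gcongr
          exact hsI_U_mono hi
      _ ≤ _ := h3
  have h3 : (r : ℝ≥0∞) * (hsI.U R * ∑ i ∈ Finset.range (2 * L), S i) ≤
      60 * ((2 ^ (2 * L) * R : ℕ) : ℝ≥0∞) * (2 * w) ^ n := by
    rw [Finset.mul_sum, Finset.mul_sum]
    refine (Finset.sum_le_sum fun i _ => h2 i).trans ?_
    rw [← Finset.sum_mul, ← Finset.mul_sum]
    gcongr
    rw [← Nat.cast_sum]
    refine Nat.cast_le.2 ?_
    rw [← Finset.sum_mul]
    refine Nat.mul_le_mul_right R ?_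
    have h4 : ∑ i ∈ Finset.range (2 * L), 2 ^ i = 2 ^ (2 * L) - 1 := Nat.geomSum_eq (le_refl 2) (2 * L) |>.trans (by norm_num)
    rw [h4]
    exact Nat.sub_le _ _
  have h4 : (R : ℝ≥0∞) * (hsI.U R * ∑ i ∈ Finset.range (2 * L), S i) ≤ (60 * (4096 * B ^ 4) : ℕ) * r := by
    have h5 : (r : ℝ≥0∞) * ((R : ℝ≥0∞) * (hsI.U R * ∑ i ∈ Finset.range (2 * L), S i)) ≤
        r * ((60 * (4096 * B ^ 4) : ℕ) * r) := by
      calc (r : ℝ≥0∞) * ((R : ℝ≥0∞) * (hsI.U R * ∑ i ∈ Finset.range (2 * L), S i))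
          = R * ((r : ℝ≥0∞) * (hsI.U R * ∑ i ∈ Finset.range (2 * L), S i)) := by ring
        _ ≤ R * (60 * ((2 ^ (2 * L) * R : ℕ) : ℝ≥0∞) * (2 * w) ^ n) := by gcongr
        _ = 60 * ((2 ^ (2 * L) * R * R : ℕ) : ℝ≥0∞) * (2 * w) ^ n := by push_cast; ring
        _ ≤ 60 * ((2 ^ (2 * L) * (2 ^ L * r) * (2 ^ L * r) : ℕ) : ℝ≥0∞) * (2 * w) ^ n := by gcongr
        _ = 60 * (((2 ^ L) ^ 4 : ℕ) : ℝ≥0∞) * (r * r) * (2 * w) ^ n := by
            have : 2 ^ (2 * L) * (2 ^ L * r) * (2 ^ L * r) = (2 ^ L) ^ 4 * (r * r) := by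
              rw [show 2 * L = L + L by ring, pow_add]; ring
            rw [this]
            push_cast
            ring
        _ ≤ 60 * (((8 * B ^ (n + 1)) ^ 4 : ℕ) : ℝ≥0∞) * (r * r) * (2 * w) ^ n := by
            gcongr
            have h6 := Js_lt (R := R) hB hr
            have h7 : 2 ^ L * r < (8 * B ^ (n + 1)) * r := by
              calc 2 ^ L * r ≤ 2 * R := hL2
                _ < 2 * (4 * (B ^ (n + 1) * r)) := by rw [hn]; omega
                _ = (8 * B ^ (n + 1)) * r := by ring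
            exact (Nat.lt_of_mul_lt_mul_right h7).le
        _ = 60 * 4096 * (B : ℝ≥0∞) ^ 4 * (r * r) * (2 * w * (B : ℝ≥0∞) ^ 4) ^ n := by
            push_cast
            rw [mul_pow (2 * w), pow_succ]
            ring
        _ ≤ 60 * 4096 * (B : ℝ≥0∞) ^ 4 * (r * r) * 1 := by
            gcongr
            exact pow_le_one₀ (zero_le) hk
        _ = _ := by push_cast; ring
    have hr0 : (r : ℝ≥0∞) ≠ 0 := by
      have : r ≠ 0 := by omega
      exact_mod_cast this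
    exact (ENNReal.mul_le_mul_iff_right hr0 (ENNReal.natCast_ne_top r)).1 h5
  calc (R : ℝ≥0∞) * (hsI.U R * ∑' c : Blk, ind (R ≤ htw c.1 ∧ Avh false true K B r R c) * xE ^ (c.1.length + 1))
      ≤ R * (hsI.U R * (∑ i ∈ Finset.range (2 * L), S i + T)) := by gcongr
    _ = R * (hsI.U R * ∑ i ∈ Finset.range (2 * L), S i) + R * (hsI.U R * T) := by ring
    _ ≤ (60 * (4096 * B ^ 4) : ℕ) * r + C * r := add_le_add h4 (hC r R L hr hrR hL1)
    _ = _ := by push_cast; ring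

lemma meets_mono {σ τ : Bool} {K K' t : ℕ} (h : K ≤ K') {c : Blk} (hc : meets σ τ K t c) : meets σ τ K' t c := by
  obtain ⟨u, v, h1, h2, h3, h4⟩ := hc
  have h5 : (K : ℤ) * t ≤ K' * t := by
    have : (K : ℤ) ≤ K' := by exact_mod_cast h
    exact mul_le_mul_of_nonneg_right this (by positivity)
  refine ⟨u, v, h1, h2, h3, ?_⟩
  cases τ
  · simp only [Bool.false_eq_true, if_false] at h4 ⊢
    exact h4.trans h5
  · simp only [if_true, neg_mul] at h4 ⊢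
    linarith

theorem Avh_mono {σ τ : Bool} {K K' B r R : ℕ} (h : K ≤ K') {c : Blk} (hc : Avh σ τ K' B r R c) : Avh σ τ K B r R c := by
  classical
  unfold Avh at hc ⊢
  refine hc.trans (Nat.mul_le_mul_left 2 (Finset.card_le_card ?_))
  intro j hj
  rw [Finset.mem_filter] at hj ⊢
  exact ⟨hj.1, fun hm => hj.2 (meets_mono h hm)⟩

/-- Reflected block. -/
def rfB (c : Blk) : Blk := ⟨c.1.map (! ·), Irr_not c.2⟩

lemma rfB_rfB (c : Blk) : rfB (rfB c) = c := by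
  apply Subtype.ext
  change (c.1.map (! ·)).map (! ·) = c.1
  rw [List.map_map]
  conv_rhs => rw [← List.map_id c.1]
  refine List.map_congr_left fun b _ => ?_
  simp

lemma meets_rf (τ : Bool) (K t : ℕ) (c : Blk) : meets false τ K t (rfB c) ↔ meets false (!τ) K t c := by
  have key : ∀ (τ : Bool) (c : Blk), meets false τ K t (rfB c) → meets false (!τ) K t c := by
    rintro τ c ⟨u, v, ⟨z, hz, hzz⟩, h2, h3, h4⟩
    simp only [Bool.false_eq_true, if_false] at hzz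
    change z ∈ V (c.1.map (! ·)) at hz
    rw [V_not, List.mem_map] at hz
    obtain ⟨y, hy, rfl⟩ := hz
    refine ⟨-u, v, ⟨y, hy, ?_⟩, h2, h3, ?_⟩
    · simp only [Bool.false_eq_true, if_false]
      rw [hzz.1, hzz.2, F0_sg]
      exact ⟨by simp [sg], rfl⟩
    · cases τ <;> simp only [Bool.false_eq_true, if_false, if_true, Bool.not_true, Bool.not_false, neg_mul] at h4 ⊢ <;> linarith
  refine ⟨key τ c, fun h => ?_⟩
  have h1 := key (!τ) (rfB c)
  rw [rfB_rfB, Bool.not_not] at h1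
  exact h1 h

lemma meets_rv (τ : Bool) (K t : ℕ) (c : Blk) : meets true τ K t c ↔ meets false τ K t (Pool.Agent.BEX.F.rvB c) := by
  have hR := Pool.Agent.BEX.F.rvb_br c.2.br
  have hmem : ∀ z, z ∈ V (Pool.Agent.BEX.F.rvB c).1 ↔ E c.1 - z ∈ V c.1 := hR.2.2.2.2
  have hE : F0 (E c.1 - E c.1) = 0 := by simp [F0]
  constructor
  · rintro ⟨u, v, ⟨z, hz, hzz⟩, h2, h3, h4⟩
    simp only [if_true] at hzz
    refine ⟨u, v, ⟨E c.1 - z, ?_, ?_⟩, h2, h3, h4⟩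
    · rw [hmem]
      rwa [sub_sub_cancel]
    · simp only [Bool.false_eq_true, if_false]
      rw [hzz.1, hzz.2, F0_sub]
      exact ⟨by simp, rfl⟩
  · rintro ⟨u, v, ⟨z, hz, hzz⟩, h2, h3, h4⟩
    simp only [Bool.false_eq_true, if_false] at hzz
    rw [hmem] at hz
    refine ⟨u, v, ⟨E c.1 - z, hz, ?_⟩, h2, h3, h4⟩
    simp only [if_true]
    rw [hzz.1, hzz.2, F0_sub]
    refine ⟨by simp, by ring⟩

/-- Reflection of blocks. -/
def rfE : Blk ≃ Blk := ⟨rfB, rfB, rfB_rfB, rfB_rfB⟩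

/-- Reversal of blocks. -/
def rvE : Blk ≃ Blk := ⟨Pool.Agent.BEX.F.rvB, Pool.Agent.BEX.F.rvB, Pool.Agent.BEX.F.rvB_rvB, Pool.Agent.BEX.F.rvB_rvB⟩

lemma sym_blk (σ τ : Bool) : ∃ e : Blk ≃ Blk, (∀ c, htw (e c).1 = htw c.1) ∧
    (∀ c, (e c).1.length = c.1.length) ∧ ∀ K t c, meets σ τ K t c ↔ meets false true K t (e c) := by
  have hr1 : ∀ c, htw (rfB c).1 = htw c.1 := htw_not
  have hr2 : ∀ c, (rfB c).1.length = c.1.length := fun c => by simp [rfB]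
  cases σ
  · cases τ
    · exact ⟨rfE, hr1, hr2, fun K t c => by
        change meets false false K t c ↔ meets false true K t (rfB c)
        rw [meets_rf]; rfl⟩
    · exact ⟨Equiv.refl _, fun _ => rfl, fun _ => rfl, fun _ _ _ => Iff.rfl⟩
  · cases τ
    · refine ⟨rvE.trans rfE, fun c => ?_, fun c => ?_, fun K t c => ?_⟩
      · change htw (rfB (Pool.Agent.BEX.F.rvB c)).1 = _
        rw [hr1, Pool.Agent.BEX.F.htw_rvB]
      · change (rfB (Pool.Agent.BEX.F.rvB c)).1.length = _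
        rw [hr2, Pool.Agent.BEX.F.len_rvB]
      · change _ ↔ meets false true K t (rfB (Pool.Agent.BEX.F.rvB c))
        rw [meets_rf, meets_rv]
        rfl
    · exact ⟨rvE, Pool.Agent.BEX.F.htw_rvB, Pool.Agent.BEX.F.len_rvB, fun K t c => meets_rv true K t c⟩

/-- FINAL THEOREM OF THE BLOCKS. -/
theorem blk_main (B : ℕ) (hB : 8 ≤ B) : ∃ K₀ C : ℕ, ∀ K, K₀ ≤ K → ∀ (σ τ : Bool) (r R : ℕ), 1 ≤ r → r ≤ R →
    (R : ℝ≥0∞) * (hsI.U R * ∑' c : Blk, ind (R ≤ htw c.1 ∧ Avh σ τ K B r R c) * xE ^ (c.1.length + 1)) ≤ C * r := by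
  classical
  obtain ⟨K₀, C, hC⟩ := blk_main0 B hB
  refine ⟨K₀, C + 2, fun K hK σ τ r R hr hrR => ?_⟩
  rcases hrR.eq_or_lt with rfl | hlt
  · have h1 : ∑' c : Blk, ind (r ≤ htw c.1 ∧ Avh σ τ K B r r c) * xE ^ (c.1.length + 1) ≤ hsI.Lam (r - 1) := by
      change _ ≤ ∑' c : Blk, ind (r - 1 < htw c.1) * xE ^ (c.1.length + 1)
      refine ENNReal.tsum_le_tsum fun c => mul_le_mul_left (ind_mono fun h => ?_) _
      have := h.1
      omega
    have h2 : hsI.U r ≤ 2 * hsI.U (r - 1) := by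
      have h3 := hsI_U_mul (r - 1) 1
      refine (hsI_U_mono (by omega)).trans (h3.trans (le_of_eq ?_))
      norm_num
    calc (r : ℝ≥0∞) * (hsI.U r * ∑' c : Blk, ind (r ≤ htw c.1 ∧ Avh σ τ K B r r c) * xE ^ (c.1.length + 1))
        ≤ r * ((2 * hsI.U (r - 1)) * hsI.Lam (r - 1)) := by gcongr
      _ = r * (2 * (hsI.U (r - 1) * hsI.Lam (r - 1))) := by ring
      _ ≤ r * (2 * 1) := by
          gcongr
          exact hsI.U_mul_Lam (r - 1)
      _ ≤ ((C + 2 : ℕ) : ℝ≥0∞) * r := by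
          rw [mul_comm]
          gcongr
          push_cast
          rw [mul_one]
          exact le_add_self
  · obtain ⟨e, he2, he3, he4⟩ := sym_blk σ τ
    have h1 : ∑' c : Blk, ind (R ≤ htw c.1 ∧ Avh σ τ K B r R c) * xE ^ (c.1.length + 1) ≤
        ∑' c : Blk, ind (R ≤ htw c.1 ∧ Avh false true K₀ B r R c) * xE ^ (c.1.length + 1) := by
      rw [← e.tsum_eq (fun c : Blk => ind (R ≤ htw c.1 ∧ Avh false true K₀ B r R c) * xE ^ (c.1.length + 1))]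
      refine ENNReal.tsum_le_tsum fun c => ?_
      rw [he2, he3]
      refine mul_le_mul_left (ind_mono fun h => ⟨h.1, Avh_mono hK ?_⟩) _
      have h2 := h.2
      unfold Avh at h2 ⊢
      have h3 : (Js B r R).filter (fun j => ¬ meets σ τ K (B ^ j * r) c) =
          (Js B r R).filter (fun j => ¬ meets false true K (B ^ j * r) (e c)) :=
        Finset.filter_congr fun j _ => not_congr (he4 K (B ^ j * r) c)
      rwa [h3] at h2
    calc (R : ℝ≥0∞) * (hsI.U R * ∑' c : Blk, ind (R ≤ htw c.1 ∧ Avh σ τ K B r R c) * xE ^ (c.1.length + 1))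
        ≤ R * (hsI.U R * ∑' c : Blk, ind (R ≤ htw c.1 ∧ Avh false true K₀ B r R c) * xE ^ (c.1.length + 1)) := by gcongr
      _ ≤ C * r := hC r R hr hlt
      _ ≤ _ := by gcongr; exact_mod_cast Nat.le_add_right C 2

end Pool.Agent.PLY.G
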