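import Pool.Agent.PLY.G.BSm

/-!
Project PLY, Lemma G, part BLOCKS, module BIneq: blocks which avoid the windows of a set `F` of scales (note 3063, STEP 2).

PAPER PROOF. `tri_le` with the narrow words `l` of height `≤ r` (`|z.2| ≤ 20 r`, `narrow_words`) in front and any word of height `≤ H` behind: the word of `l ++ c :: l'` avoids
the slits `slF B r κ F` if `c` avoids the windows (`jn_V_three`: the slit of the scale `t ≥ 8 r` lies above `l`, below `l'` (`4 t ≤ R ≤ H`), and inside of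
the shifted window of `c` if `κ + 20 ≤ K`). Then `cor` for every height `N` between `H - 1` and `4 H - 1`.
-/

namespace Pool.Agent.PLY.G

open Pool.Agent.Hhelper14.SAW Pool.Agent.HHP Pool.Agent.HEP Pool.Agent.BEX Pool.Agent.BEX.C
open scoped ENNReal

lemma sc_ge {B r j : ℕ} (hB : 8 ≤ B) (hj : 1 ≤ j) : 8 * r ≤ sc B r j := by
  unfold sc
  have h1 : B ^ 1 ≤ B ^ j := Nat.pow_le_pow_right (by omega) hj
  rw [pow_one] at h1
  exact Nat.mul_le_mul_right r (hB.trans h1)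

/-- The concatenation avoids the slits. -/
theorem avs_tri {r B κ K R H : ℕ} (hr : 1 ≤ r) (hB : 8 ≤ B) (hK : κ + 20 ≤ K) (F : Finset ℕ)
    (hF : ∀ j ∈ F, 1 ≤ j ∧ 4 * sc B r j ≤ R) (hRH : R ≤ H) {l l' : List Blk} {c : Blk} (hl : hj l ≤ r)
    (hl2 : l = [] ∨ ∀ z ∈ V (jn l), |z.2| ≤ ((20 * r : ℕ) : ℤ)) (hc : H ≤ htw c.1)
    (hc2 : ∀ j ∈ F, ¬ meets false true K (sc B r j) c) : Avs (slF B r κ F) (jn (l ++ c :: l')) := by
  rintro z hz s ⟨j, hj', rfl⟩ ⟨h1, h2⟩
  simp only at h1 h2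
  obtain ⟨hj1, hj2⟩ := hF j hj'
  have hs := sc_ge (r := r) hB hj1
  have hT1 : 2 * cT B r j ≤ 3 * sc B r j := by unfold cT; omega
  have hT2 : 3 * sc B r j ≤ 2 * cT B r j + 1 := by unfold cT; omega
  have hx : |xj l| ≤ ((20 * r : ℕ) : ℤ) := by
    by_cases hl' : l = []
    · subst hl'
      have : xj ([] : List Blk) = 0 := rfl
      rw [this, abs_zero]
      exact_mod_cast Nat.zero_le _
    · rcases hl2 with h | h
      · exact absurd h hl'
      · have := h _ (E_mem _)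
        rwa [jn_E hl'] at this
  have hx' := abs_le.1 hx
  rcases jn_V_three hz with h3 | ⟨y, hy, e1, e2⟩ | h3
  · push_cast at h1
    omega
  · refine hc2 j hj' ⟨y.2, F0 y, ⟨y, hy, ?_⟩, ?_, ?_, ?_⟩
    · simp
    · push_cast at *
      omega
    · push_cast at *
      omega
    · simp only [if_true]
      have h4 : ((κ : ℤ) + 20) * (sc B r j : ℤ) ≤ (K : ℤ) * (sc B r j : ℤ) := by
        have : ((κ + 20 : ℕ) : ℤ) ≤ K := by exact_mod_cast hK
        push_cast at this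
        exact mul_le_mul_of_nonneg_right this (by positivity)
      push_cast at *
      have h5 : (r : ℤ) * 8 ≤ (sc B r j : ℤ) := by
        have : ((8 * r : ℕ) : ℤ) ≤ (sc B r j : ℤ) := by exact_mod_cast hs
        push_cast at this
        linarith
      linarith
  · push_cast at *
    omega

theorem blk_F {r B κ k R H K : ℕ} (hr : 1 ≤ r) (hB : 8 ≤ B) (hκ : 10 * (k + 1) ≤ κ) (hK : κ + 20 ≤ K) (F : Finset ℕ)
    (hF : ∀ j ∈ F, 1 ≤ j ∧ 4 * sc B r j ≤ R) (hrH : r < H) (hRH : R ≤ H) :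
    hsI.U r * ((∑' c : Blk, ind (H ≤ htw c.1 ∧ htw c.1 < 2 * H ∧ ∀ j ∈ F, ¬ meets false true K (sc B r j) c) *
      xE ^ (c.1.length + 1)) * hsI.U H) ≤ 60 * H * (ze ^ (k * F.card) * hsI.b r) := by
  have h1 := narrow_words r (20 * r) le_rfl
  have h2 := tri_le hrH (fun l => l = [] ∨ ∀ z ∈ V (jn l), |z.2| ≤ ((20 * r : ℕ) : ℤ))
    (fun c => ∀ j ∈ F, ¬ meets false true K (sc B r j) c) (fun _ W => Avs (slF B r κ F) W)
    (fun l c l' N g1 g2 g3 g4 g5 g6 g7 => avs_tri hr hB hK F hF hRH g1 g2 g3 g5)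
  rw [← hsI_U] at h2
  have h3 : ∀ N ∈ Finset.Ico (H - 1) (4 * H), ms xE (fun W => Br N W ∧ Avs (slF B r κ F) W) ≤
      6 * (ze ^ (k * F.card) * hsI.b r) := by
    intro N hN
    rw [Finset.mem_Ico] at hN
    have h4 := cs_cancel (cor (B := B) hr (by omega) hκ F (fun j hj => (hF j hj).1) N (by omega) (fun j hj => by
      have g := hF j hj
      have g2 := sc_ge (r := r) hB g.1
      have hT1 : 2 * cT B r j ≤ 3 * sc B r j := by unfold cT; omega
      omega))
    rw [bn_hsI r hr] at h4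
    refine h4.trans (le_of_eq ?_)
    ring
  have h4 : ∑ N ∈ Finset.Ico (H - 1) (4 * H), ms xE (fun W => Br N W ∧ Avs (slF B r κ F) W) ≤
      (5 * H : ℕ) * (6 * (ze ^ (k * F.card) * hsI.b r)) := by
    refine (Finset.sum_le_sum h3).trans ?_
    rw [Finset.sum_const, Nat.card_Ico, nsmul_eq_mul]
    gcongr
    omega
  calc hsI.U r * ((∑' c : Blk, ind (H ≤ htw c.1 ∧ htw c.1 < 2 * H ∧ ∀ j ∈ F, ¬ meets false true K (sc B r j) c) *
        xE ^ (c.1.length + 1)) * hsI.U H)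
      ≤ (2 * ∑' l : List Blk, ind (hj l ≤ r ∧ (l = [] ∨ ∀ z ∈ V (jn l), |z.2| ≤ ((20 * r : ℕ) : ℤ))) * wj l) *
        ((∑' c : Blk, ind (H ≤ htw c.1 ∧ htw c.1 < 2 * H ∧ ∀ j ∈ F, ¬ meets false true K (sc B r j) c) *
        xE ^ (c.1.length + 1)) * hsI.U H) := by gcongr
    _ ≤ 2 * ((5 * H : ℕ) * (6 * (ze ^ (k * F.card) * hsI.b r))) := by
        rw [mul_assoc]
        exact mul_le_mul_right (h2.trans h4) _
    _ = _ := by push_cast; ring

end Pool.Agent.PLY.G
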