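import Pool.Agent.PLY.G.BVtx

/-!
Project PLY, Lemma G, part BLOCKS, module BSm: most of the words of height `≤ q` are narrow.

PAPER PROOF. `wid2` with `k = 8`, `12 * ze ^ 8 ≤ 1 / 2`: the words of height `≤ q` with a vertex of lateral coordinate `> 20 q` have mass at most half of `U q`.
-/

namespace Pool.Agent.PLY.G

open Pool.Agent.Hhelper14.SAW Pool.Agent.HHP Pool.Agent.HEP Pool.Agent.BEX Pool.Agent.BEX.C
open scoped ENNReal

/-- `U` as a sum over words. -/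
theorem U_eq (A : Alph) (N : ℕ) : A.U N = ∑' l, ind (A.h l ≤ N) * A.w l := by
  unfold Alph.U Alph.b
  rw [← Summable.tsum_finsetSum (fun _ _ => ENNReal.summable)]
  refine tsum_congr fun l => ?_
  rw [← Finset.sum_mul]
  congr 1
  by_cases h : A.h l ≤ N
  · rw [ind_true h, Finset.sum_eq_single_of_mem (A.h l) (Finset.mem_range.2 (by omega))
      (fun k _ hk => ind_false fun h => hk h.symm), ind_true rfl]
  · rw [ind_false h]
    exact Finset.sum_eq_zero fun k hk => ind_false fun h' => h (by rw [Finset.mem_range] at hk; omega)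

theorem hsI_U (N : ℕ) : hsI.U N = ∑' l : List Blk, ind (hj l ≤ N) * wj l := U_eq hsI.toAlph N

lemma bn_hsI (N : ℕ) (hN : 1 ≤ N) : bn N = hsI.b N := by
  obtain ⟨k, rfl⟩ : ∃ k, N = k + 1 := ⟨N - 1, by omega⟩
  rw [hsI_b]
  rfl

lemma hsI_anti' : Antitone hsI.b := by
  intro a b hab
  rcases Nat.eq_zero_or_pos a with rfl | ha
  · rcases Nat.eq_zero_or_pos b with rfl | hb
    · exact le_rfl
    · rw [hsI_b_zero, ← bn_hsI b hb]
      exact bn_le_one b
  · rw [← bn_hsI a ha, ← bn_hsI b (by omega)]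
    exact bn_anti hab

lemma hsI_U_top (N : ℕ) : hsI.U N ≠ ∞ := by
  unfold Alph.U
  rw [ENNReal.sum_ne_top]
  intro k _
  have h1 : hsI.b k ≤ hsI.b 0 := hsI_anti' (Nat.zero_le k)
  rw [hsI_b_zero] at h1
  exact ne_top_of_le_ne_top ENNReal.one_ne_top h1

lemma hsI_U_one (N : ℕ) : 1 ≤ hsI.U N := by
  unfold Alph.U
  rw [← hsI_b_zero]
  exact Finset.single_le_sum (f := fun k => hsI.b k) (fun _ _ => zero_le) (Finset.mem_range.2 (Nat.succ_pos N))

lemma hsI_U_mono : Monotone hsI.U := by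
  intro a b hab
  unfold Alph.U
  exact Finset.sum_le_sum_of_subset (Finset.range_mono (by omega))

/-- `U` grows at most linearly. -/
lemma hsI_U_mul (q m : ℕ) : hsI.U (m * (q + 1) + q) ≤ (m + 1 : ℕ) * hsI.U q := by
  induction m with
  | zero => simp
  | succ m ih =>
    have h1 : (m + 1) * (q + 1) + q + 1 = (m * (q + 1) + q + 1) + (q + 1) := by ring
    have h2 : hsI.U ((m + 1) * (q + 1) + q) = hsI.U (m * (q + 1) + q) +
        ∑ i ∈ Finset.range (q + 1), hsI.b (m * (q + 1) + q + 1 + i) := by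
      unfold Alph.U
      rw [h1, Finset.sum_range_add]
    rw [h2]
    have h3 : ∑ i ∈ Finset.range (q + 1), hsI.b (m * (q + 1) + q + 1 + i) ≤ hsI.U q := by
      unfold Alph.U
      exact Finset.sum_le_sum fun i _ => hsI_anti' (by omega)
    calc hsI.U (m * (q + 1) + q) + ∑ i ∈ Finset.range (q + 1), hsI.b (m * (q + 1) + q + 1 + i)
        ≤ (m + 1 : ℕ) * hsI.U q + hsI.U q := add_le_add ih h3
      _ = ((m + 1 + 1 : ℕ) : ℝ≥0∞) * hsI.U q := by push_cast; ring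

lemma ze_le : ze ≤ ENNReal.ofReal (6 / 10) := by
  unfold ze
  refine ENNReal.ofReal_le_ofReal ?_
  have h1 : (1.4 : ℝ) ≤ √2 := by
    rw [Real.le_sqrt' (by norm_num)]
    norm_num
  linarith

lemma ze8 : 24 * ze ^ 8 ≤ 1 := by
  calc 24 * ze ^ 8 ≤ 24 * ENNReal.ofReal (6 / 10) ^ 8 := by gcongr; exact ze_le
    _ = ENNReal.ofReal (24 * (6 / 10) ^ 8) := by
        rw [ENNReal.ofReal_mul (by norm_num), ENNReal.ofReal_pow (by norm_num)]
        congr 1
        simp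
    _ ≤ 1 := by
        rw [← ENNReal.ofReal_one]
        exact ENNReal.ofReal_le_ofReal (by norm_num)

/-- The words which are not narrow. -/
theorem wide_words (q Y : ℕ) (h : 20 * q ≤ Y) :
    2 * ∑' l : List Blk, ind (hj l ≤ q ∧ l ≠ [] ∧ ∃ z ∈ V (jn l), (Y : ℤ) < |z.2|) * wj l ≤ hsI.U q := by
  classical
  have h1 : ∑' l : List Blk, ind (hj l ≤ q ∧ l ≠ [] ∧ ∃ z ∈ V (jn l), (Y : ℤ) < |z.2|) * wj l ≤
      ∑ N ∈ Finset.range q, ms xE (fun W => Br N W ∧ ∃ z ∈ V W, (Y : ℤ) < |z.2|) := by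
    have e1 : ∀ N, ms xE (fun W => Br N W ∧ ∃ z ∈ V W, (Y : ℤ) < |z.2|) =
        ∑' L : List Blk, ind (L ≠ [] ∧ hj L = N + 1 ∧ ∃ z ∈ V (jn L), (Y : ℤ) < |z.2|) * wj L := fun N =>
      (tsum_jn N (fun W => ∃ z ∈ V W, (Y : ℤ) < |z.2|)).symm
    simp only [e1]
    rw [← Summable.tsum_finsetSum (fun _ _ => ENNReal.summable)]
    refine ENNReal.tsum_le_tsum fun l => ?_
    by_cases h : hj l ≤ q ∧ l ≠ [] ∧ ∃ z ∈ V (jn l), (Y : ℤ) < |z.2|
    · obtain ⟨h1, h2, h3⟩ := h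
      have h4 : 1 ≤ hj l := by
        obtain ⟨c, l', rfl⟩ := List.exists_cons_of_ne_nil h2
        rw [hj_cons']
        have := htw_pos c.1
        omega
      rw [ind_true ⟨h1, h2, h3⟩]
      refine le_trans ?_ (Finset.single_le_sum (f := fun N => ind (l ≠ [] ∧ hj l = N + 1 ∧
        ∃ z ∈ V (jn l), (Y : ℤ) < |z.2|) * wj l) (fun _ _ => zero_le) (Finset.mem_range.2 (by omega : hj l - 1 < q)))
      rw [ind_true ⟨h2, by omega, h3⟩]
    · rw [ind_false h, zero_mul]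
      exact zero_le
  have h2 : ∀ N ∈ Finset.range q, ms xE (fun W => Br N W ∧ ∃ z ∈ V W, (Y : ℤ) < |z.2|) ≤ 12 * ze ^ 8 * hsI.b (N + 1) := by
    intro N hN
    rw [Finset.mem_range] at hN
    have h3 := cs_cancel (wid2 N 8)
    rw [bn_hsI (N + 1) (by omega)] at h3
    calc ms xE (fun W => Br N W ∧ ∃ z ∈ V W, (Y : ℤ) < |z.2|)
        ≤ ms xE (fun W => Br N W ∧ ∃ z ∈ V W, 2 * (((8 : ℕ) : ℤ) + 2) * (N + 1) < |z.2|) := by
          refine ms_mono fun W hW => ⟨hW.1, ?_⟩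
          obtain ⟨z, hz, hz2⟩ := hW.2
          refine ⟨z, hz, lt_of_le_of_lt ?_ hz2⟩
          have h5 : 20 * (N + 1) ≤ Y := by omega
          have h6 : ((20 * (N + 1) : ℕ) : ℤ) ≤ Y := by exact_mod_cast h5
          push_cast at h6 ⊢
          linarith
      _ ≤ 2 * (6 * (ze ^ 8 * hsI.b (N + 1))) := h3
      _ = _ := by ring
  calc 2 * ∑' l : List Blk, ind (hj l ≤ q ∧ l ≠ [] ∧ ∃ z ∈ V (jn l), (Y : ℤ) < |z.2|) * wj l
      ≤ 2 * ∑ N ∈ Finset.range q, 12 * ze ^ 8 * hsI.b (N + 1) := by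
        gcongr
        exact h1.trans (Finset.sum_le_sum h2)
    _ = 24 * ze ^ 8 * ∑ N ∈ Finset.range q, hsI.b (N + 1) := by
        rw [← Finset.mul_sum]; ring
    _ ≤ 1 * hsI.U q := by
        gcongr
        · exact ze8
        · unfold Alph.U
          rw [Finset.sum_range_succ']
          exact le_self_add
    _ = _ := one_mul _

/-- Most words are narrow. -/
theorem narrow_words (q Y : ℕ) (h : 20 * q ≤ Y) :
    hsI.U q ≤ 2 * ∑' l : List Blk, ind (hj l ≤ q ∧ (l = [] ∨ ∀ z ∈ V (jn l), |z.2| ≤ (Y : ℤ))) * wj l := by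
  have h1 := wide_words q Y h
  have h2 : hsI.U q ≤ ∑' l : List Blk, ind (hj l ≤ q ∧ (l = [] ∨ ∀ z ∈ V (jn l), |z.2| ≤ (Y : ℤ))) * wj l +
      ∑' l : List Blk, ind (hj l ≤ q ∧ l ≠ [] ∧ ∃ z ∈ V (jn l), (Y : ℤ) < |z.2|) * wj l := by
    rw [hsI_U, ← ENNReal.tsum_add]
    refine ENNReal.tsum_le_tsum fun l => ?_
    rw [← add_mul]
    refine mul_le_mul_left ((ind_mono fun h => ?_).trans (ind_or_le _ _)) _
    by_cases h3 : l = [] ∨ ∀ z ∈ V (jn l), |z.2| ≤ (Y : ℤ)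
    · exact Or.inl ⟨h, h3⟩
    · push Not at h3
      exact Or.inr ⟨h, h3.1, h3.2⟩
  set a := ∑' l : List Blk, ind (hj l ≤ q ∧ (l = [] ∨ ∀ z ∈ V (jn l), |z.2| ≤ (Y : ℤ))) * wj l
  set b := ∑' l : List Blk, ind (hj l ≤ q ∧ l ≠ [] ∧ ∃ z ∈ V (jn l), (Y : ℤ) < |z.2|) * wj l
  have h3 : hsI.U q + hsI.U q ≤ 2 * a + hsI.U q := by
    calc hsI.U q + hsI.U q ≤ (a + b) + (a + b) := add_le_add h2 h2
      _ = 2 * a + 2 * b := by ring
      _ ≤ 2 * a + hsI.U q := by gcongr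
  exact (ENNReal.add_le_add_iff_right (hsI_U_top q)).1 h3

end Pool.Agent.PLY.G
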