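import Pool.Agent.GAP.ISys

/-!
Project PLY (MP_8c6f77_pr, honeycomb lattice, polynomial bound), Lemma G (a giant block is hit by the fresh chain at every
scale): COMMON DEFINITIONS. Notes 3063, 3086, 3082.

UNITS. Lateral coordinate = `z.2`, height = number of columns (`F0 = 3 * column`). Slope `dx / ht = 1` is the direction
30 degrees off the axis. `tn 30 = 1`, the sides of the 60 degree wedges have slope `1` or `-1`.

ABSTRACT PART: an alphabet `A : Alph` and a width function `wd : A.B → ℕ`.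
* `tub κ E l`: every block `c` of the word `l` stays within `E` of the line of slope `κ` through the start of `l`
  (`|x - κ h| + wd c + |κ| ht c ≤ E` at the start of the block). `tub 0 E l`: the word stays within `E` of its start, laterally.
* `PF X`: the set of words `X` is prefix free. The masses of prefix free sets are probabilities of the fresh chain.
* `fpw N l`: `l` is the chain up to its first renewal `≥ N`.
* `slab K t s`: the word `s` contains a part `s2` which covers the levels `9t/8 .. 15t/8`, ends below `17t/8` and stays right of `K t`.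
* `FlatP K`: the fresh chain has a slab with positive probability, at every scale (output of the files Rv*, St*: note 3086).
* `TailP C`: tail of height and width of a block (output of the files Cor*, Blk*).
* `Reg4 C`: `b_N` is of order `N^(-1/4)` (output of BEX).

CONCRETE PART: the system `hsI`.
* `wdb c`: width of the block = largest difference of the lateral coordinates of two vertices (plus 2).
* `vsB σ c`: the vertices of the block `c` relative to its start, READ FROM THE FOLD OUTWARD (`σ = true`: `c` belongs to leg 1,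
  which is walked towards the fold, so its start is the last vertex, and the frame is turned by 180 degrees);
  first coordinate lateral, second coordinate `F0` (three times the column).
* `meets σ τ K t c`: the block has a vertex in the window `W = {lateral ≤ K t, 5t/4 ≤ column ≤ 7t/4}` (`τ = false`), resp. in the
  mirror image `{lateral ≥ - K t, ..}` (`τ = true`).
-/

namespace Pool.Agent.HEP

open Pool.Agent.Hhelper14.SAW Pool.Agent.HHP
open scoped ENNReal

namespace Alph

variable (A : Alph) (wd : A.B → ℕ)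

/-- The word stays within `E` of the line of slope `κ` through its start. -/
def tub (κ E : ℝ) (l : List A.B) : Prop :=
  ∀ l1 c l2, l = l1 ++ c :: l2 → |(A.x l1 : ℝ) - κ * A.h l1| + wd c + |κ| * A.ht c ≤ E

variable {A wd}

lemma tub_nil (κ E : ℝ) : A.tub wd κ E [] := by
  intro l1 c l2 h
  simp at h

lemma tub_mono {κ E E' : ℝ} {l : List A.B} (h : A.tub wd κ E l) (hE : E ≤ E') : A.tub wd κ E' l :=
  fun l1 c l2 e => (h l1 c l2 e).trans hE

lemma tub_left {κ E : ℝ} {l m : List A.B} (h : A.tub wd κ E (l ++ m)) : A.tub wd κ E l := by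
  intro l1 c l2 e
  exact h l1 c (l2 ++ m) (by rw [e]; simp)

lemma tub_append {κ E E' : ℝ} {l m : List A.B} (hl : A.tub wd κ E l) (hm : A.tub wd κ E' m)
    (hE : |(A.x l : ℝ) - κ * A.h l| + E' ≤ E) : A.tub wd κ E (l ++ m) := by
  intro l1 c l2 e
  rcases List.append_eq_append_iff.1 e with ⟨u, h1, h2⟩ | ⟨u, h1, h2⟩
  · -- `l1 = l ++ u`, `m = u ++ c :: l2`
    have h3 := hm u c l2 h2
    rw [h1, A.x_append, A.h_append]
    push_cast
    have h4 : |(A.x l : ℝ) + A.x u - κ * (A.h l + A.h u)| ≤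
        |(A.x l : ℝ) - κ * A.h l| + |(A.x u : ℝ) - κ * A.h u| := by
      have : (A.x l : ℝ) + A.x u - κ * (A.h l + A.h u) =
          ((A.x l : ℝ) - κ * A.h l) + ((A.x u : ℝ) - κ * A.h u) := by ring
      rw [this]
      exact abs_add_le _ _
    linarith
  · -- `l = l1 ++ u`, `c :: l2 = u ++ m`
    cases u with
    | nil =>
      rw [List.append_nil] at h1
      rw [List.nil_append] at h2
      have h3 := hm [] c l2 h2.symm
      rw [A.x_nil, A.h_nil] at h3
      subst h1
      simp only [Int.cast_zero, Nat.cast_zero, mul_zero, sub_zero, abs_zero, zero_add] at h3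
      linarith
    | cons a u =>
      rw [List.cons_append, List.cons.injEq] at h2
      obtain ⟨rfl, h2⟩ := h2
      exact hl l1 c u h1

variable (A wd)

/-- Prefix free sets of words. -/
def PF (X : Set (List A.B)) : Prop := ∀ l ∈ X, ∀ m, l ++ m ∈ X → m = []

/-- The chain up to its first renewal `≥ N`. -/
def fpw (N : ℕ) (l : List A.B) : Prop := N ≤ A.h l ∧ ∀ l1 c l2, l = l1 ++ c :: l2 → A.h l1 < N

/-- A part of the word covers the levels `9t/8 .. 15t/8`, ends below `17t/8` and stays right of `K t`. -/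
def slab (K t : ℕ) (s : List A.B) : Prop :=
  ∃ (s1 s2 s3 : List A.B) (E : ℝ), s = s1 ++ s2 ++ s3 ∧ 8 * A.h s1 ≤ 9 * t ∧ 15 * t ≤ 8 * A.h (s1 ++ s2) ∧
    8 * A.h (s1 ++ s2) ≤ 17 * t ∧ A.tub wd 0 E s2 ∧ (K : ℝ) * t + E ≤ A.x s1

lemma slab_append {K t : ℕ} {s : List A.B} (h : A.slab wd K t s) (s' : List A.B) : A.slab wd K t (s ++ s') := by
  obtain ⟨s1, s2, s3, E, h1, h2, h3, h4, h5, h6⟩ := h
  exact ⟨s1, s2, s3 ++ s', E, by rw [h1]; simp, h2, h3, h4, h5, h6⟩

/-- The fresh chain has a slab with positive probability, at every scale. -/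
def FlatP (K : ℕ) : Prop :=
  ∃ (c : ℝ≥0∞) (C n0 : ℕ), 0 < c ∧ ∀ t : ℕ, n0 ≤ t → ∃ X : Set (List A.B), A.PF X ∧
    (∀ l ∈ X, ∃ (l1 l2 : List A.B) (E : ℝ), l = l1 ++ l2 ∧ 16 * A.h l1 ≤ 17 * t ∧ 31 * t ≤ 16 * A.h l ∧ A.h l ≤ 2 * t ∧
      A.tub wd 0 (C * t) l ∧ A.tub wd 0 E l2 ∧ (K : ℝ) * t + E ≤ A.x l1) ∧
    c ≤ ∑' l, ind (l ∈ X) * A.w l

/-- Tail of height and width of a block. -/
def TailP (C : ℕ) : Prop := ∀ H : ℕ, A.U H * ∑' c, ind (H < A.ht c ∨ H < wd c) * A.wt c ≤ C

/-- `b_N` is of order `N^(-1/4)`. -/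
def Reg4 (C : ℕ) : Prop :=
  Antitone A.b ∧ ∀ N : ℕ, 1 ≤ N → A.b N ^ 4 * N ≤ C ∧ 1 ≤ C * (A.b N ^ 4 * N)

end Alph

/-! ### The blocks of the honeycomb lattice -/

/-- Width of a block. -/
noncomputable def wdb (c : Blk) : ℕ :=
  (((V c.1).toFinset ×ˢ (V c.1).toFinset).sup fun p => (p.1.2 - p.2.2).natAbs) + 2

lemma wdb_le (c : Blk) {z w : ℤ × ℤ} (hz : z ∈ V c.1) (hw : w ∈ V c.1) : |z.2 - w.2| + 2 ≤ wdb c := by
  unfold wdb
  have h : (z.2 - w.2).natAbs ≤
      ((V c.1).toFinset ×ˢ (V c.1).toFinset).sup fun p : (ℤ × ℤ) × (ℤ × ℤ) => (p.1.2 - p.2.2).natAbs :=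
    Finset.le_sup (f := fun p : (ℤ × ℤ) × (ℤ × ℤ) => (p.1.2 - p.2.2).natAbs)
      (Finset.mem_product.2 ⟨List.mem_toFinset.2 hz, List.mem_toFinset.2 hw⟩ :
        (z, w) ∈ (V c.1).toFinset ×ˢ (V c.1).toFinset)
  have h' := Int.ofNat_le.2 h
  rw [Int.natCast_natAbs] at h'
  rw [Nat.cast_add, Nat.cast_ofNat]
  linarith

/-- The vertices of a block relative to its start, read from the fold outward (`σ = true`: leg 1). -/
def vsB (σ : Bool) (c : Blk) (u v : ℤ) : Prop :=
  ∃ z ∈ V c.1, if σ then u = (E c.1).2 - z.2 ∧ v = F0 (E c.1) - F0 z else u = z.2 ∧ v = F0 z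

/-- The block meets the window of scale `t`. -/
def meets (σ τ : Bool) (K t : ℕ) (c : Blk) : Prop :=
  ∃ u v : ℤ, vsB σ c u v ∧ 15 * (t : ℤ) ≤ 4 * v ∧ 4 * v ≤ 21 * t ∧ if τ then - (K : ℤ) * t ≤ u else u ≤ K * t

end Pool.Agent.HEP
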