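import Pool.Agent.PLY.G.CWid
import Pool.Agent.PLY.G.Defs

/-!
Project PLY, Lemma G, part BLOCKS (architect helper96), module BTri: a large block between two short words.

PAPER PROOF. `tri_le`: the map `(l, c, l') ↦ l ++ c :: l'` is injective on the triples with `hj l ≤ r < H ≤ htw c` (`c` is the first block of height `≥ H`); the heights
of the images are between `H` and `4 H - 1`; `tsum_jn`.
-/

namespace Pool.Agent.PLY.G

open Pool.Agent.Hhelper14.SAW Pool.Agent.HHP Pool.Agent.HEP Pool.Agent.BEX Pool.Agent.BEX.C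
open scoped ENNReal

lemma hj_mem {l : List Blk} {c : Blk} (h : c ∈ l) : htw c.1 ≤ hj l := by
  unfold hj
  exact List.single_le_sum (fun _ _ => Nat.zero_le _) _ (List.mem_map_of_mem (f := fun c : Blk => htw c.1) h)

lemma hj_app (l m : List Blk) : hj (l ++ m) = hj l + hj m := by simp [hj]

lemma hj_cons' (c : Blk) (m : List Blk) : hj (c :: m) = htw c.1 + hj m := by simp [hj]

lemma wj_cons' (c : Blk) (m : List Blk) : wj (c :: m) = xE ^ (c.1.length + 1) * wj m := by simp [wj]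

lemma tri_inj {H : ℕ} {l l2 m m2 : List Blk} {c d : Blk} (hl : hj l < H) (hm : hj m < H) (hc : H ≤ htw c.1)
    (hd : H ≤ htw d.1) (h : l ++ c :: l2 = m ++ d :: m2) : l = m ∧ c = d ∧ l2 = m2 := by
  rcases List.append_eq_append_iff.1 h with ⟨u, h1, h2⟩ | ⟨u, h1, h2⟩
  · cases u with
    | nil =>
      simp only [List.append_nil, List.nil_append, List.cons.injEq] at h1 h2
      exact ⟨h1.symm, h2.1, h2.2⟩
    | cons a u =>
      simp only [List.cons_append, List.cons.injEq] at h2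
      have h3 : c ∈ m := by rw [h1, h2.1]; simp
      have := hj_mem h3
      omega
  · cases u with
    | nil =>
      simp only [List.append_nil, List.nil_append, List.cons.injEq] at h1 h2
      exact ⟨h1, h2.1.symm, h2.2.symm⟩
    | cons a u =>
      simp only [List.cons_append, List.cons.injEq] at h2
      have h3 : d ∈ l := by rw [h1, h2.1]; simp
      have := hj_mem h3
      omega

theorem tri_le {r H : ℕ} (hrH : r < H) (P : List Blk → Prop) (Q : Blk → Prop) (A : ℕ → List Bool → Prop)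
    (hA : ∀ l c l' N, hj l ≤ r → P l → H ≤ htw c.1 → htw c.1 < 2 * H → Q c → hj l' ≤ H → hj (l ++ c :: l') = N + 1 →
      A N (jn (l ++ c :: l'))) :
    (∑' l, ind (hj l ≤ r ∧ P l) * wj l) * ((∑' c : Blk, ind (H ≤ htw c.1 ∧ htw c.1 < 2 * H ∧ Q c) * xE ^ (c.1.length + 1)) *
      ∑' l', ind (hj l' ≤ H) * wj l') ≤
      ∑ N ∈ Finset.Ico (H - 1) (4 * H), ms xE (fun W => Br N W ∧ A N W) := by
  classical
  have e1 : ∀ N, ms xE (fun W => Br N W ∧ A N W) = ∑' L : List Blk, ind (L ≠ [] ∧ hj L = N + 1 ∧ A N (jn L)) * wj L := fun N =>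
    (tsum_jn N (A N)).symm
  simp only [e1]
  rw [← Summable.tsum_finsetSum (fun _ _ => ENNReal.summable)]
  rw [← ENNReal.tsum_mul_right, ← ENNReal.tsum_mul_right]
  simp only [← ENNReal.tsum_mul_left]
  -- sums over triples
  have e2 : ∀ (f : List Blk → Blk → List Blk → ℝ≥0∞), ∑' l, ∑' c, ∑' l', f l c l' =
      ∑' t : List Blk × Blk × List Blk, f t.1 t.2.1 t.2.2 := by
    intro f
    rw [ENNReal.tsum_prod']
    refine tsum_congr fun l => ?_
    rw [ENNReal.tsum_prod']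
  rw [e2]
  set C : List Blk × Blk × List Blk → Prop := fun t => (hj t.1 ≤ r ∧ P t.1) ∧ (H ≤ htw t.2.1.1 ∧ htw t.2.1.1 < 2 * H ∧ Q t.2.1) ∧
    hj t.2.2 ≤ H with hC
  have e3 : ∀ t : List Blk × Blk × List Blk, ind (hj t.1 ≤ r ∧ P t.1) * wj t.1 *
      (ind (H ≤ htw t.2.1.1 ∧ htw t.2.1.1 < 2 * H ∧ Q t.2.1) * xE ^ (t.2.1.1.length + 1) * (ind (hj t.2.2 ≤ H) * wj t.2.2)) =
      Set.indicator {t | C t} (fun t => wj (t.1 ++ t.2.1 :: t.2.2)) t := by
    intro t
    by_cases h : C t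
    · rw [Set.indicator_of_mem (by exact h), ind_true h.1, ind_true h.2.1, ind_true h.2.2, wj_append, wj_cons']
      ring
    · rw [Set.indicator_of_notMem (by exact h)]
      by_cases h1 : hj t.1 ≤ r ∧ P t.1
      · by_cases h2 : H ≤ htw t.2.1.1 ∧ htw t.2.1.1 < 2 * H ∧ Q t.2.1
        · rw [ind_false (p := hj t.2.2 ≤ H) (fun h3 => h ⟨h1, h2, h3⟩)]
          ring
        · rw [ind_false h2]
          ring
      · rw [ind_false h1]
        ring
  rw [tsum_congr e3, ← tsum_subtype {t | C t} (fun t : List Blk × Blk × List Blk => wj (t.1 ++ t.2.1 :: t.2.2))]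
  refine tsum_rel _ _ (fun t L => L = t.1.1 ++ t.1.2.1 :: t.1.2.2) ?_ ?_
  · rintro ⟨⟨l, c, l'⟩, h1, h2, h3⟩
    simp only at h1 h2 h3
    refine ⟨_, rfl, ?_⟩
    have h4 : hj (l ++ c :: l') = hj l + (htw c.1 + hj l') := by rw [hj_app, hj_cons']
    have h5 := htw_pos c.1
    set N := hj (l ++ c :: l') - 1 with hN
    have h6 : hj (l ++ c :: l') = N + 1 := by omega
    have h7 : N ∈ Finset.Ico (H - 1) (4 * H) := by
      rw [Finset.mem_Ico]
      omega
    refine le_trans ?_ (Finset.single_le_sum (f := fun N => ind ((l ++ c :: l') ≠ [] ∧ hj (l ++ c :: l') = N + 1 ∧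
      A N (jn (l ++ c :: l'))) * wj (l ++ c :: l')) (fun _ _ => zero_le) h7)
    simp only
    rw [ind_true ⟨by simp, h6, hA l c l' N h1.1 h1.2 h2.1 h2.2.1 h2.2.2 h3 h6⟩, one_mul]
  · rintro ⟨⟨l, c, l'⟩, h1, h2, h3⟩ ⟨⟨m, d, m'⟩, g1, g2, g3⟩ L e e'
    simp only at h1 h2 h3 g1 g2 g3 e e'
    obtain ⟨rfl, rfl, rfl⟩ := tri_inj (H := H) (by omega) (by omega) h2.1 g2.1 (e.symm.trans e')
    rfl

end Pool.Agent.PLY.G
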