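import Pool.Agent.PLY.G.BTri

/-!
Project PLY, Lemma G, part BLOCKS, module BVtx: the vertices of the word of `l ++ c :: l'`.

PAPER PROOF. `jn_append`, `app_right`, `jn_E`.
-/

namespace Pool.Agent.PLY.G

open Pool.Agent.Hhelper14.SAW Pool.Agent.HHP Pool.Agent.HEP Pool.Agent.BEX Pool.Agent.BEX.C
open scoped ENNReal

/-- Vertices of a concatenation. -/
theorem jn_V_append {l m : List Blk} (hm : m ≠ []) {z : ℤ × ℤ} :
    z ∈ V (jn (l ++ m)) ↔ (l ≠ [] ∧ z ∈ V (jn l)) ∨ ∃ y ∈ V (jn m), F0 z = F0 y + 3 * hj l ∧ z.2 = y.2 + xj l := by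
  by_cases hl : l = []
  · subst hl
    simp only [List.nil_append, ne_eq, not_true_eq_false, false_and, false_or]
    have h1 : hj ([] : List Blk) = 0 := rfl
    have h2 : xj ([] : List Blk) = 0 := rfl
    rw [h1, h2]
    constructor
    · intro h
      exact ⟨z, h, by simp, by simp⟩
    · rintro ⟨y, hy, e1, e2⟩
      have : z = y := by
        apply Prod.ext
        · simp only [F0] at e1
          push_cast at e1
          omega
        · omega
      rwa [this]
  · rw [jn_append hl hm]
    have hB := jn_Br hl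
    rw [(app_right hB.tn_rt).1, List.mem_append, List.mem_map]
    have hE2 : (E (jn l)).2 = xj l := by rw [jn_E hl]
    have hE0 : F0 (E (jn l)) = 3 * (hj l : ℤ) - 2 := by
      rw [hB.2]
      have : 1 ≤ hj l := by
        obtain ⟨c, l', rfl⟩ := List.exists_cons_of_ne_nil hl
        rw [hj_cons']
        have := htw_pos c.1
        omega
      omega
    constructor
    · rintro (h | ⟨y, hy, rfl⟩)
      · exact Or.inl ⟨hl, h⟩
      · right
        refine ⟨y, hy, ?_, ?_⟩
        · simp only [F0, Prod.fst_add, Prod.snd_add] at *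
          linarith
        · simp only [Prod.snd_add]
          rw [hE2]
          ring
    · rintro (h | ⟨y, hy, e1, e2⟩)
      · exact Or.inl h.2
      · right
        refine ⟨y, hy, ?_⟩
        apply Prod.ext
        · simp only [F0, Prod.fst_add] at *
          omega
        · simp only [Prod.snd_add]
          omega

/-- Vertices of the word of `l ++ c :: l'`: in `l`, in `c`, or above `c`. -/
theorem jn_V_three {l l' : List Blk} {c : Blk} {z : ℤ × ℤ} (hz : z ∈ V (jn (l ++ c :: l'))) :
    (F0 z < 3 * (hj l : ℤ)) ∨ (∃ y ∈ V c.1, F0 z = F0 y + 3 * hj l ∧ z.2 = y.2 + xj l) ∨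
      3 * ((hj l : ℤ) + htw c.1) ≤ F0 z := by
  rcases (jn_V_append (by simp)).1 hz with ⟨hl, h⟩ | ⟨y, hy, e1, e2⟩
  · left
    have hB := jn_Br hl
    have h1 := (hB.1.2 z h).2
    have : 1 ≤ hj l := by
      obtain ⟨c, l', rfl⟩ := List.exists_cons_of_ne_nil hl
      rw [hj_cons']
      have := htw_pos c.1
      omega
    omega
  · right
    by_cases hl' : l' = []
    · subst hl'
      rw [jn_single] at hy
      exact Or.inl ⟨y, hy, e1, e2⟩
    · have h2 : c :: l' = [c] ++ l' := rfl
      rw [h2] at hy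
      rcases (jn_V_append hl').1 hy with ⟨-, h⟩ | ⟨x, hx, g1, g2⟩
      · rw [jn_single] at h
        exact Or.inl ⟨y, h, e1, e2⟩
      · right
        have h3 := ((jn_Br hl').1.2 x hx).1
        have h4 : hj [c] = htw c.1 := by simp [hj]
        rw [h4] at g1
        omega

/-- Vertices of the block. -/
theorem jn_V_mid {l l' : List Blk} {c : Blk} {y : ℤ × ℤ} (hy : y ∈ V c.1) :
    ∃ z ∈ V (jn (l ++ c :: l')), F0 z = F0 y + 3 * hj l ∧ z.2 = y.2 + xj l := by
  have h1 : y ∈ V (jn (c :: l')) := by
    by_cases hl' : l' = []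
    · subst hl'; rwa [jn_single]
    · have h2 : c :: l' = [c] ++ l' := rfl
      rw [h2]
      exact (jn_V_append hl').2 (Or.inl ⟨by simp, by rwa [jn_single]⟩)
  have h3 := (jn_V_append (l := l) (m := c :: l') (by simp) (z := ((F0 y + 3 * hj l - (y.2 + xj l)) / 2, y.2 + xj l))).2
  have hpar : (F0 y + 3 * (hj l : ℤ) - (y.2 + xj l)) % 2 = 0 := by
    by_cases hl : l = []
    · subst hl
      have h1 : hj ([] : List Blk) = 0 := rfl
      have h2 : xj ([] : List Blk) = 0 := rfl
      rw [h1, h2]
      simp only [F0]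
      omega
    · have hB := jn_Br hl
      have hE2 : (E (jn l)).2 = xj l := by rw [jn_E hl]
      have h5 : 1 ≤ hj l := by
        obtain ⟨c, l', rfl⟩ := List.exists_cons_of_ne_nil hl
        rw [hj_cons']
        have := htw_pos c.1
        omega
      have hE0 : F0 (E (jn l)) = 3 * (hj l : ℤ) - 2 := by
        rw [hB.2]; omega
      simp only [F0] at *
      omega
  refine ⟨_, h3 (Or.inr ⟨y, h1, ?_, rfl⟩), ?_, rfl⟩
  · simp only [F0] at *; omega
  · simp only [F0] at *; omega

end Pool.Agent.PLY.G
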