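import Pool.Agent.PLY.G.CId

/-!
Project PLY, part CORRIDORS, module CCmp: comparison of the exits of two domains `p ⊆ p'`.

PAPER PROOF. The exits of `p` without the property `A` are exits of `p'` (`hA`) without the property `B` (`hB`). So `mx p' B f + mx p (not A) f ≤ c =
mx p A f + mx p (not A) f`, cancel.
-/

namespace Pool.Agent.PLY.G

open Pool.Agent.Hhelper14.SAW Pool.Agent.HHP Pool.Agent.HEP Pool.Agent.BEX Pool.Agent.BEX.C
open scoped ENNReal

theorem ex_cmp {p p' : ℤ × ℤ → Prop} (hpp : ∀ z, p z → p' z) {f : ℤ → ℝ≥0∞} {c : ℝ≥0∞} (hc : c ≠ ∞)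
    (h1 : mx p (fun _ => True) f = c) (h2 : mx p' (fun _ => True) f = c) {A B : List Bool → Prop}
    (hA : ∀ W, Ex p W → ¬ A W → ¬ p' (E W)) (hB : ∀ W, Ex p W → ¬ A W → ¬ B W) : mx p' B f ≤ mx p A f := by
  have key : mx p' B f + mx p (fun W => ¬ A W) f ≤ mx p' (fun _ => True) f := by
    unfold mx
    rw [← ENNReal.tsum_add]
    refine ENNReal.tsum_le_tsum fun W => ?_
    rw [← add_mul]
    refine mul_le_mul_left ?_ _
    by_cases hW : Ex p W ∧ ¬ A W
    · have h3 : Ex p' W := by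
        obtain ⟨W', b, rfl, g1, g2, g3⟩ := hW.1
        exact ⟨W', b, rfl, g1, fun z hz => hpp z (g2 z hz), hA _ hW.1 hW.2⟩
      rw [ind_true hW, ind_false (fun h => hB W hW.1 hW.2 h.2), zero_add, ind_true ⟨h3, trivial⟩]
    · rw [ind_false hW, add_zero]
      exact ind_mono fun h => ⟨h.1, trivial⟩
  have key2 : mx p (fun _ => True) f = mx p A f + mx p (fun W => ¬ A W) f := by
    unfold mx
    rw [← ENNReal.tsum_add]
    refine tsum_congr fun W => ?_
    rw [← add_mul]
    congr 1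
    by_cases hE : Ex p W
    · by_cases hW : A W
      · rw [ind_true ⟨hE, trivial⟩, ind_true ⟨hE, hW⟩, ind_false (fun h => h.2 hW), add_zero]
      · rw [ind_true ⟨hE, trivial⟩, ind_false (fun h => hW h.2), ind_true ⟨hE, hW⟩, zero_add]
    · rw [ind_false fun h => hE h.1, ind_false fun h => hE h.1, ind_false fun h => hE h.1, add_zero]
  have hfin : mx p (fun W => ¬ A W) f ≠ ∞ := by
    refine ne_top_of_le_ne_top hc ?_
    rw [← h1, key2]
    exact le_add_self
  rw [h2, ← h1, key2] at key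
  exact (ENNReal.add_le_add_iff_right hfin).1 key

theorem mx_const {p : ℤ × ℤ → Prop} {A : List Bool → Prop} {f : ℤ → ℝ≥0∞} {k : ℤ}
    (h : ∀ W, Ex p W → A W → Tn (toL W) = k) :
    mx p A f = f k * ∑' W, ind (Ex p W ∧ A W) * xE ^ W.length := by
  unfold mx
  rw [← ENNReal.tsum_mul_left]
  refine tsum_congr fun W => ?_
  by_cases hW : Ex p W ∧ A W
  · rw [ind_true hW, h W hW.1 hW.2]
    ring
  · rw [ind_false hW]
    ring

end Pool.Agent.PLY.G
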