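import Pool.Agent.PLY.G.CSt

/-!
Project PLY, part CORRIDORS, module CCor: THE CORRIDOR BOUND (note 3063, STEP 1) and the width of bridges.

UNITS. `sc B r j = B ^ j * r = t` is the scale, the slit of the scale `t` consists of the vertices with `F0 = 3 ⌊3 t / 2⌋ + 1` (right borders of the column
`⌊3 t / 2⌋`), `z.2 ≥ - κ t`.

PAPER PROOF. `br_le`: a bridge `W` of `Br N` which avoids the slits of `sl'` gives the exit `W ++ [rt W]` through the top of `GW N M M M sl'` for every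
large `M` (`ms_sup`); `top_le`. `cor_ind`: induction on `F` (`Finset.induction_on_max`), with the scales `s j = B ^ j * r`, slits `(T j + 1, - κ s j)`,
`T j = 3 s j / 2`: there is `b` with `2 b + T m ≤ κ s m` (`m` the largest element), `S1 (T m) M b sl ≤ ze ^ (k |F|) * X` for all `M`. Start: `b = 2 r`,
`X = Eg (2 r)`. A new element `m' > m`: `S1_trans` (`Cov` by `2 b + T m ≤ κ s m`), then `k` steps of length `T m' + 1 ≤ 2 s m'`. `wid`: one domain
without slits, `k` steps.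
-/

namespace Pool.Agent.PLY.G

open Pool.Agent.Hhelper14.SAW Pool.Agent.HHP Pool.Agent.HEP Pool.Agent.BEX Pool.Agent.BEX.C
open scoped ENNReal

private lemma CCor_bd (l : List (ℤ × ℤ)) : ∃ M : ℕ, ∀ z ∈ l, F1 z ≤ M ∧ F5 z ≤ M ∧ F4 z ≤ M := by
  induction l with
  | nil => exact ⟨0, by simp⟩
  | cons w l ih =>
    obtain ⟨M, hM⟩ := ih
    refine ⟨M + (F1 w).toNat + (F5 w).toNat + (F4 w).toNat, fun z hz => ?_⟩
    have h0 := Int.self_le_toNat (F1 w)
    have h1 := Int.self_le_toNat (F5 w)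
    have h5 := Int.self_le_toNat (F4 w)
    push_cast
    rcases List.mem_cons.1 hz with rfl | h
    · refine ⟨?_, ?_, ?_⟩ <;> omega
    · obtain ⟨a1, a2, a3⟩ := hM z h
      refine ⟨?_, ?_, ?_⟩ <;> omega

/-- Bridges which avoid the slits of the large domain and leave the small domain. -/
theorem br_le {T b N : ℕ} {sl sl' : Set (ℕ × ℤ)} (h : Sub T sl b N sl') {X : ℝ≥0∞} (hX : ∀ M, S1 T M b sl ≤ X) :
    cs * ms xE (fun W => Br N W ∧ Avs sl' W ∧ ∃ z ∈ V W, 3 * (b : ℤ) < F5 z ∨ 3 * (T : ℤ) + 1 < F0 z) ≤ r2 * X := by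
  have h1 : ms xE (fun W => Br N W ∧ Avs sl' W ∧ ∃ z ∈ V W, 3 * (b : ℤ) < F5 z ∨ 3 * (T : ℤ) + 1 < F0 z) =
      ⨆ n : ℕ, ms xE (fun W => (Br N W ∧ Avs sl' W ∧ ∃ z ∈ V W, 3 * (b : ℤ) < F5 z ∨ 3 * (T : ℤ) + 1 < F0 z) ∧
        ∀ z ∈ V W, F1 z ≤ n ∧ F5 z ≤ n ∧ F4 z ≤ n) := by
    rw [← ms_sup]
    · refine ms_congr fun W => ⟨fun hW => ?_, fun ⟨n, hn⟩ => hn.1⟩
      obtain ⟨M, hM⟩ := CCor_bd (V W)
      exact ⟨M, hW, hM⟩
    · rintro n W ⟨h1, h2⟩
      refine ⟨h1, fun z hz => ?_⟩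
      obtain ⟨a1, a2, a3⟩ := h2 z hz
      push_cast
      refine ⟨?_, ?_, ?_⟩ <;> omega
  rw [h1, ENNReal.mul_iSup]
  refine iSup_le fun n => ?_
  set M : ℕ := n + b with hM
  have h2 := top_le h (b1 := M) (b2 := M) (by omega) (by omega) M
  refine le_trans ?_ (h2.trans (mul_le_mul_right (hX M) _))
  refine mul_le_mul_right ?_ _
  unfold ms
  have e : ∀ W, ind (Ex (GW N M M M sl') W ∧ 3 * (N : ℤ) + 1 < F0 (E W) ∧
      ∃ z ∈ V W, GW N M M M sl' z ∧ ¬ GW T M b b sl z) * xE ^ W.length =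
      Set.indicator {W | Ex (GW N M M M sl') W ∧ 3 * (N : ℤ) + 1 < F0 (E W) ∧
        ∃ z ∈ V W, GW N M M M sl' z ∧ ¬ GW T M b b sl z} (fun W => xE ^ W.length) W := by
    intro W
    by_cases h : Ex (GW N M M M sl') W ∧ 3 * (N : ℤ) + 1 < F0 (E W) ∧ ∃ z ∈ V W, GW N M M M sl' z ∧ ¬ GW T M b b sl z
    · rw [ind_true h, one_mul, Set.indicator_of_mem (by exact h)]
    · rw [ind_false h, zero_mul, Set.indicator_of_notMem (by exact h)]
  rw [tsum_congr e, ← tsum_subtype {W | Ex (GW N M M M sl') W ∧ 3 * (N : ℤ) + 1 < F0 (E W) ∧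
        ∃ z ∈ V W, GW N M M M sl' z ∧ ¬ GW T M b b sl z} (fun W : List Bool => xE ^ W.length)]
  refine tsum_rel _ _ (fun W W' => W'.1 = W.1 ++ [rt W.1]) ?_ ?_
  · rintro ⟨W, ⟨hB, hA, z, hz, hzz⟩, hn⟩
    have hE : E (W ++ [rt W]) = E W + (1, 0) := by rw [HHP.E_snoc, hB.tn_rt]
    have hF : F0 (E (W ++ [rt W])) = 3 * (N : ℤ) + 3 := by
      rw [hE, F0_add, hB.2]
      simp only [F0]
      ring
    have hin : ∀ z ∈ V W, GW N M M M sl' z := by
      intro z hz
      rw [GW_iff (V_hon hz)]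
      have h3 := hB.1.2 z hz
      have h4 := hn z hz
      refine ⟨?_, hA z hz⟩
      rw [hM]
      push_cast
      omega
    have hout : ¬ GW N M M M sl' (E (W ++ [rt W])) := by
      intro hh
      have := ((GW_iff (GW_hon hh)).1 hh).1.2.1
      omega
    refine ⟨⟨W ++ [rt W], ⟨W, rt W, rfl, hB.1.1, hin, hout⟩, by omega, z, ?_, hin z hz, ?_⟩, rfl, ?_⟩
    · rw [V_snoc]; exact List.mem_append_left _ hz
    · intro hh
      have := ((GW_iff (GW_hon hh)).1 hh).1
      omega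
    · simp
  · rintro ⟨W, hW⟩ ⟨W2, hW2⟩ ⟨W', hW'⟩ h3 h4
    simp only at h3 h4
    apply Subtype.ext
    simp only
    rw [h3] at h4
    exact (List.append_inj' h4 (by simp)).1

/-- The scales. -/
def sc (B r j : ℕ) : ℕ := B ^ j * r

/-- The column of the slit. -/
def cT (B r j : ℕ) : ℕ := 3 * sc B r j / 2

/-- The slits of `F`. -/
def slF (B r κ : ℕ) (F : Finset ℕ) : Set (ℕ × ℤ) :=
  {s | ∃ j ∈ F, s = (cT B r j + 1, -((κ : ℤ) * (sc B r j : ℤ)))}

lemma sc_lt {B r i j : ℕ} (hB : 2 ≤ B) (h : i < j) : 2 * sc B r i ≤ sc B r j := by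
  unfold sc
  have h1 : B ^ (i + 1) ≤ B ^ j := Nat.pow_le_pow_right (by omega) h
  calc 2 * (B ^ i * r) = 2 * B ^ i * r := by ring
    _ ≤ B * B ^ i * r := by gcongr
    _ = B ^ (i + 1) * r := by ring
    _ ≤ B ^ j * r := by gcongr

lemma sc_zero (B r : ℕ) : sc B r 0 = r := by simp [sc]

theorem cor_ind {r B κ k : ℕ} (hr : 1 ≤ r) (hB : 2 ≤ B) (hκ : 10 * (k + 1) ≤ κ) (F : Finset ℕ) :
    (∀ j ∈ F, 1 ≤ j) → ∀ m ∈ F, (∀ j ∈ F, j ≤ m) →
    ∃ b : ℕ, 2 * b + cT B r m ≤ κ * sc B r m ∧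
      ∀ M, S1 (cT B r m) M b (slF B r κ F) ≤ ze ^ (k * F.card) * Eg (2 * r) := by
  induction F using Finset.induction_on_max with
  | empty => intro _ m hm; exact absurd hm (Finset.notMem_empty m)
  | insert a F ha ih =>
    intro h1 m hm hmax
    have hma : m = a := by
      rcases Finset.mem_insert.1 hm with h | h
      · exact h
      · have h2 := ha m h
        have h3 := hmax a (Finset.mem_insert_self a F)
        omega
    subst hma
    have hmF : m ∉ F := fun h => lt_irrefl _ (ha m h)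
    have hsr : 2 * r ≤ sc B r m := by
      have := sc_lt (r := r) hB (h1 m (Finset.mem_insert_self m F))
      rwa [sc_zero] at this
    rcases F.eq_empty_or_nonempty with rfl | hne
    · refine ⟨2 * r + k * (cT B r m + 1), ?_, fun M => ?_⟩
      · have hT : 2 * cT B r m ≤ 3 * sc B r m := by unfold cT; omega
        generalize sc B r m = s at *
        generalize cT B r m = T at *
        have h2 : 10 * (k + 1) * s ≤ κ * s := Nat.mul_le_mul_right s hκ
        have h3 : k * (2 * T) ≤ k * (3 * s) := Nat.mul_le_mul_left k hT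
        have h4 : k * 2 ≤ k * s := Nat.mul_le_mul_left k (by omega)
        nlinarith
      · refine (S1_step _ _ _ _ _).trans ?_
        have hc : (insert m (∅ : Finset ℕ)).card = 1 := by simp
        rw [hc, mul_one]
        gcongr
        exact S1_le_Eg _ _ _ _
    · set m' := F.max' hne with hm'
      have hm'F : m' ∈ F := F.max'_mem hne
      obtain ⟨b', hb', hS⟩ := ih (fun j hj => h1 j (Finset.mem_insert_of_mem hj)) m' hm'F (fun j hj => F.le_max' j hj)
      have hlt : m' < m := ha m' hm'F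
      have hs2 := sc_lt (r := r) hB hlt
      have hs0 : 1 ≤ sc B r m' := by
        unfold sc
        exact Nat.mul_pos (Nat.pow_pos (by omega)) hr
      have hSub : Sub (cT B r m') (slF B r κ F) b' (cT B r m) (slF B r κ (insert m F)) := by
        have hTT : cT B r m' < cT B r m := by unfold cT; omega
        refine ⟨?_, Or.inr ⟨hTT, ?_, ?_⟩⟩
        · rintro s ⟨j, hj, rfl⟩
          exact ⟨j, Finset.mem_insert_of_mem hj, rfl⟩
        · rintro s ⟨j, hj, rfl⟩
          rcases Finset.mem_insert.1 hj with rfl | hj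
          · right
            simp only
            omega
          · exact Or.inl ⟨j, hj, rfl⟩
        · refine ⟨_, ⟨m', hm'F, rfl⟩, rfl, ?_⟩
          simp only
          have : ((2 * b' + cT B r m' : ℕ) : ℤ) ≤ ((κ * sc B r m' : ℕ) : ℤ) := by exact_mod_cast hb'
          push_cast at this ⊢
          linarith
      refine ⟨b' + k * (cT B r m + 1), ?_, fun M => ?_⟩
      · have hT : 2 * cT B r m ≤ 3 * sc B r m := by unfold cT; omega
        have hT' : 2 * cT B r m' ≤ 3 * sc B r m' := by unfold cT; omega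
        generalize sc B r m = s at *
        generalize sc B r m' = s' at *
        generalize cT B r m = T at *
        generalize cT B r m' = T' at *
        have h2 : 10 * (k + 1) * s ≤ κ * s := Nat.mul_le_mul_right s hκ
        have h3 : κ * (2 * s') ≤ κ * s := Nat.mul_le_mul_left κ hs2
        have h4 : k * (2 * T) ≤ k * (3 * s) := Nat.mul_le_mul_left k hT
        have h5 : k * 2 ≤ k * s := Nat.mul_le_mul_left k (by omega)
        nlinarith
      · have h2 := S1_step (cT B r m) M b' k (slF B r κ (insert m F))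
        have h3 := S1_trans hSub le_rfl M
        refine h2.trans ?_
        rw [Finset.card_insert_of_notMem hmF, mul_add, mul_one, pow_add, mul_comm (ze ^ (k * F.card)) (ze ^ k), mul_assoc]
        gcongr
        exact h3.trans (hS M)

lemma cs_le_one : cs ≤ 1 := by
  unfold cs
  rw [← ENNReal.ofReal_one]
  exact ENNReal.ofReal_le_ofReal (Real.cos_le_one _)

/-- THE CORRIDOR BOUND. -/
theorem cor {r B κ k : ℕ} (hr : 1 ≤ r) (hB : 2 ≤ B) (hκ : 10 * (k + 1) ≤ κ) (F : Finset ℕ) (hF : ∀ j ∈ F, 1 ≤ j)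
    (N : ℕ) (hrN : r ≤ N) (hN : ∀ j ∈ F, cT B r j < N) :
    cs ^ 2 * ms xE (fun W => Br N W ∧ Avs (slF B r κ F) W) ≤ 3 * (ze ^ (k * F.card) * bn r) := by
  rcases F.eq_empty_or_nonempty with rfl | hne
  · have h1 : ms xE (fun W => Br N W ∧ Avs (slF B r κ ∅) W) ≤ bn r := by
      refine (ms_mono fun W h => h.1).trans ?_
      have : ms xE (Br N) = bn (N + 1) := rfl
      rw [this]
      exact bn_anti (by omega)
    simp only [Finset.card_empty, mul_zero, pow_zero, one_mul]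
    calc cs ^ 2 * ms xE (fun W => Br N W ∧ Avs (slF B r κ ∅) W) ≤ 1 * bn r := by
          gcongr
          exact pow_le_one₀ (zero_le) cs_le_one
      _ ≤ 3 * bn r := by gcongr; norm_num
  · set m := F.max' hne with hm
    have hmF : m ∈ F := F.max'_mem hne
    obtain ⟨b, hb, hS⟩ := cor_ind hr hB hκ F hF m hmF (fun j hj => F.le_max' j hj)
    have hSub : Sub (cT B r m) (slF B r κ F) b N (slF B r κ F) := by
      refine ⟨subset_rfl, Or.inr ⟨hN m hmF, fun s hs => Or.inl hs, _, ⟨m, hmF, rfl⟩, rfl, ?_⟩⟩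
      simp only
      have : ((2 * b + cT B r m : ℕ) : ℤ) ≤ ((κ * sc B r m : ℕ) : ℤ) := by exact_mod_cast hb
      push_cast at this ⊢
      linarith
    have h1 := br_le hSub hS
    have h2 : ms xE (fun W => Br N W ∧ Avs (slF B r κ F) W) ≤ ms xE (fun W => Br N W ∧ Avs (slF B r κ F) W ∧
        ∃ z ∈ V W, 3 * (b : ℤ) < F5 z ∨ 3 * ((cT B r m : ℕ) : ℤ) + 1 < F0 z) := by
      refine ms_mono fun W h => ⟨h.1, h.2, E W, E_mem W, Or.inr ?_⟩
      rw [h.1.2]
      have : ((cT B r m : ℕ) : ℤ) < (N : ℤ) := by exact_mod_cast hN m hmF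
      omega
    have h3 := Eg_le' (2 * r) (by omega)
    rw [Nat.mul_div_cancel_left r (by norm_num)] at h3
    calc cs ^ 2 * ms xE (fun W => Br N W ∧ Avs (slF B r κ F) W)
        = cs * (cs * ms xE (fun W => Br N W ∧ Avs (slF B r κ F) W)) := by ring
      _ ≤ cs * (r2 * (ze ^ (k * F.card) * Eg (2 * r))) :=
          mul_le_mul_right ((mul_le_mul_right h2 _).trans h1) _
      _ = r2 * (ze ^ (k * F.card) * (cs * Eg (2 * r))) := by ring
      _ ≤ 1 * (ze ^ (k * F.card) * (3 * bn r)) := by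
          gcongr
          exact r2_le_one
      _ = _ := by ring

/-- Width of bridges, one side, in terms of `F5`. -/
theorem wid (N k : ℕ) :
    cs ^ 2 * ms xE (fun W => Br N W ∧ ∃ z ∈ V W, 3 * (((k + 2) * (N + 1) : ℕ) : ℤ) < F5 z) ≤ 3 * (ze ^ k * bn (N + 1)) := by
  have hSub : Sub N ∅ ((k + 2) * (N + 1)) N ∅ := ⟨subset_rfl, Or.inl ⟨rfl, subset_rfl⟩⟩
  have hS : ∀ M, S1 N M ((k + 2) * (N + 1)) ∅ ≤ ze ^ k * Eg (2 * (N + 1)) := by
    intro M
    have e : (k + 2) * (N + 1) = 2 * (N + 1) + k * (N + 1) := by ring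
    rw [e]
    refine (S1_step _ _ _ _ _).trans ?_
    gcongr
    exact S1_le_Eg _ _ _ _
  have h1 := br_le hSub hS
  have h2 : ms xE (fun W => Br N W ∧ ∃ z ∈ V W, 3 * (((k + 2) * (N + 1) : ℕ) : ℤ) < F5 z) ≤
      ms xE (fun W => Br N W ∧ Avs ∅ W ∧ ∃ z ∈ V W, 3 * (((k + 2) * (N + 1) : ℕ) : ℤ) < F5 z ∨ 3 * (N : ℤ) + 1 < F0 z) := by
    refine ms_mono fun W h => ⟨h.1, fun z _ s hs => absurd hs (Set.notMem_empty s), ?_⟩
    obtain ⟨z, hz, hz2⟩ := h.2
    exact ⟨z, hz, Or.inl hz2⟩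
  have h3 := Eg_le' (2 * (N + 1)) (by omega)
  rw [Nat.mul_div_cancel_left (N + 1) (by norm_num)] at h3
  calc cs ^ 2 * ms xE (fun W => Br N W ∧ ∃ z ∈ V W, 3 * (((k + 2) * (N + 1) : ℕ) : ℤ) < F5 z)
      = cs * (cs * ms xE (fun W => Br N W ∧ ∃ z ∈ V W, 3 * (((k + 2) * (N + 1) : ℕ) : ℤ) < F5 z)) := by ring
    _ ≤ cs * (r2 * (ze ^ k * Eg (2 * (N + 1)))) :=
        mul_le_mul_right ((mul_le_mul_right h2 _).trans h1) _
    _ = r2 * (ze ^ k * (cs * Eg (2 * (N + 1)))) := by ring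
    _ ≤ 1 * (ze ^ k * (3 * bn (N + 1))) := by
        gcongr
        exact r2_le_one
    _ = _ := by ring

end Pool.Agent.PLY.G
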