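import Pool.Agent.BEX.CMon
import Pool.Agent.HEP.GTurn

/-!
Project PLY (MP_8c6f77_pr, honeycomb lattice, polynomial bound), Lemma G of note 3063, part CORRIDORS (architect helper96): DEFINITIONS.

Words of turns, `V`, `E`, `Dr`, `Br`, `ms`, `xE`, `F0`, `F1`, `F4`, `F5` as in `HHP/Defs`, `SAW/Exit`, `BEX/CDefs`.
* `GW T M b1 b2 sl`: the domain `0 ≤ F0 ≤ 3 T + 1` (columns `0..T`), `F1 ≤ 3 M` (far side), `F5 ≤ 3 b1` (side which makes an angle of 60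
  degrees with the base), `F4 ≤ 3 b2 + 1` (side which makes an angle of 120 degrees with the base), minus the vertices of the slits:
  a slit `s ∈ sl` consists of the vertices with `F0 = 3 s.1 - 2`, `s.2 ≤ z.2` (right borders of the column `s.1 - 1`; it comes from the far side).
* `Ex p W`: the word `W` leaves the domain `p` by its last step. `mx p A f`: mass of these words with the property `A`,
  with weight `xE ^ length` (number of vertices in the domain) and the factor `f (turning number)`. The turning number is `Tn (toL W)`.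
* `fp k = sin ((3 + k) π / 8)`, `fm k = sin ((3 - k) π / 8)`: nonnegative for `-3 ≤ k ≤ 3`.
* `S1`, `S2`: mass of the exits through the 60 degrees side (domain with `b1 = b2 = b`), 120 degrees side (`b2 = b`, `b1 = b + T + 1`).
* `Cov T b sl`: the top row of the domain `GW T M b b sl` is covered by a slit.
* `Sub T b sl T' b' sl'`: comparison of two domains, see the definition.
-/

namespace Pool.Agent.PLY.G

open Pool.Agent.Hhelper14.SAW Pool.Agent.HHP Pool.Agent.HEP Pool.Agent.BEX Pool.Agent.BEX.C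
open scoped ENNReal

/-- The word `W` leaves the domain `p` by its last step. -/
def Ex (p : ℤ × ℤ → Prop) (W : List Bool) : Prop :=
  ∃ W' b, W = W' ++ [b] ∧ (V W').Nodup ∧ (∀ z ∈ V W', p z) ∧ ¬ p (E W)

/-- Mass of the exits with the property `A`, with the factor `f (turning number)`. -/
noncomputable def mx (p : ℤ × ℤ → Prop) (A : List Bool → Prop) (f : ℤ → ℝ≥0∞) : ℝ≥0∞ :=
  ∑' W, ind (Ex p W ∧ A W) * (xE ^ W.length * f (Tn (toL W)))

/-- `sin ((3 + k) π / 8)`. -/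
noncomputable def fp (k : ℤ) : ℝ≥0∞ := ENNReal.ofReal (Real.sin ((3 + k) * (Real.pi / 8)))

/-- `sin ((3 - k) π / 8)`. -/
noncomputable def fm (k : ℤ) : ℝ≥0∞ := ENNReal.ofReal (Real.sin ((3 - k) * (Real.pi / 8)))

/-- `sin (π / 4)`. -/
noncomputable def r2 : ℝ≥0∞ := ENNReal.ofReal (Real.sin (Real.pi / 4))

/-- The factor of a step, `2 - √2 = 0.5858`. -/
noncomputable def ze : ℝ≥0∞ := ENNReal.ofReal (2 - √2)

/-- Parameters of the domain without slits. -/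
def pc (T M b1 b2 : ℕ) : Par := ⟨T, M, M, 0, b1, b2, 0⟩

/-- The domain. -/
def GW (T M b1 b2 : ℕ) (sl : Set (ℕ × ℤ)) (z : ℤ × ℤ) : Prop :=
  D (pc T M b1 b2) z ∧ ∀ s ∈ sl, ¬ (F0 z = 3 * (s.1 : ℤ) - 2 ∧ s.2 ≤ z.2)

/-- Domains with finitely many walks. -/
def Fin' (p : ℤ × ℤ → Prop) : Prop := ∃ B : ℕ, ∀ n, B ≤ n → ∀ P, ¬ IsSaw p n P

/-- Mass of the exits through the side `F5 = 3 b` (60 degrees). -/
noncomputable def S1 (T M b : ℕ) (sl : Set (ℕ × ℤ)) : ℝ≥0∞ :=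
  ∑' W, ind (Ex (GW T M b b sl) W ∧ 3 * (b : ℤ) < F5 (E W) ∧ F0 (E W) ≤ 3 * (T : ℤ) + 1) * xE ^ W.length

/-- Mass of the exits through the side `F4 = 3 b + 1` (120 degrees). -/
noncomputable def S2 (T M b : ℕ) (sl : Set (ℕ × ℤ)) : ℝ≥0∞ :=
  ∑' W, ind (Ex (GW T M (b + T + 1) b sl) W ∧ 3 * (b : ℤ) + 1 < F4 (E W)) * xE ^ W.length

/-- The top row of `GW T M b b sl` is covered. -/
def Cov (T b : ℕ) (sl : Set (ℕ × ℤ)) : Prop := ∃ s ∈ sl, s.1 = T + 1 ∧ s.2 ≤ -(2 * (b : ℤ)) - T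

/-- Comparison of `GW T M b b sl` with the domains `GW T' M b1 b2 sl'`, `b ≤ b1, b2`. -/
def Sub (T : ℕ) (sl : Set (ℕ × ℤ)) (b : ℕ) (T' : ℕ) (sl' : Set (ℕ × ℤ)) : Prop :=
  sl ⊆ sl' ∧ ((T = T' ∧ sl' ⊆ sl) ∨ (T < T' ∧ (∀ s ∈ sl', s ∈ sl ∨ T + 1 < s.1) ∧ Cov T b sl))

/-- The word avoids the slits. -/
def Avs (sl : Set (ℕ × ℤ)) (W : List Bool) : Prop :=
  ∀ z ∈ V W, ∀ s ∈ sl, ¬ (F0 z = 3 * (s.1 : ℤ) - 2 ∧ s.2 ≤ z.2)

lemma GW_iff {T M b1 b2 : ℕ} {sl : Set (ℕ × ℤ)} {z : ℤ × ℤ} (hz : hon z) :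
    GW T M b1 b2 sl z ↔ (0 ≤ F0 z ∧ F0 z ≤ 3 * (T : ℤ) + 1 ∧ F1 z ≤ 3 * (M : ℤ) ∧ F5 z ≤ 3 * (b1 : ℤ) ∧ F4 z ≤ 3 * (b2 : ℤ) + 1) ∧
      ∀ s ∈ sl, ¬ (F0 z = 3 * (s.1 : ℤ) - 2 ∧ s.2 ≤ z.2) := by
  unfold GW
  refine and_congr_left fun _ => ?_
  constructor
  · rintro ⟨h1, h2, h3, h4, h5, h6, h7⟩
    simp only [pc, F0, F1, F2, F3, F4, F5, hon] at *
    rcases lt_or_ge z.2 0 with h | h
    · have := h7 h; push_cast at *; omega
    · have := h6 h; push_cast at *; omega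
  · rintro ⟨h1, h2, h3, h4, h5⟩
    refine ⟨hz, ?_, ?_, ?_, ?_, ?_, ?_⟩
    · simp only [slit, F0] at *; omega
    · simpa [pc] using h2
    · simpa [pc] using h3
    · simpa [pc] using h4
    · intro h
      simp only [pc, F0, F1, F2, F3, F4, F5] at *
      push_cast
      omega
    · intro h
      simp only [pc, F0, F1, F2, F3, F4, F5] at *
      push_cast
      omega

lemma GW_dom (T M b1 b2 : ℕ) (sl : Set (ℕ × ℤ)) : Dom (GW T M b1 b2 sl) := by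
  refine ⟨⟨(D_dom _).start, ?_⟩, fun x h => h.1.1, fun x h => h.1.2.1⟩
  rintro s - ⟨h, -⟩
  have : F0 o = 0 := by decide
  omega

lemma GW_fin (T M b1 b2 : ℕ) (sl : Set (ℕ × ℤ)) : Fin' (GW T M b1 b2 sl) := by
  obtain ⟨B, hB⟩ := saw_empty' (pc T M b1 b2)
  refine ⟨B, fun n hn P hP => ?_⟩
  have h1 : P ∈ saw (D (pc T M b1 b2)) n := by
    rw [mem_saw (D_dom _)]
    exact hP.mono (fun x hx => hx.1)
  rw [hB n hn] at h1
  simp at h1

lemma GW_hon {T M b1 b2 : ℕ} {sl : Set (ℕ × ℤ)} {z : ℤ × ℤ} (h : GW T M b1 b2 sl z) : hon z := h.1.1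

/-- The exit vertex. -/
lemma Ex.step {p : ℤ × ℤ → Prop} {W : List Bool} (h : Ex p W) :
    ∃ W' b, W = W' ++ [b] ∧ (V W').Nodup ∧ (∀ z ∈ V W', p z) ∧ ¬ p (E W) ∧ p (E W') ∧ E W = E W' + tn b (Dr W') := by
  obtain ⟨W', b, rfl, h1, h2, h3⟩ := h
  exact ⟨W', b, rfl, h1, h2, h3, h2 _ (E_mem W'), HHP.E_snoc W' b⟩

end Pool.Agent.PLY.G
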