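import Pool.Agent.PLY.G.CTn

/-!
Project PLY, part CORRIDORS, module CId: the identity of Duminil-Copin and Smirnov for a finite domain, in terms of words.

PAPER PROOF. `telescope`, `Tsum = 0` for large `N`: `∑ n < N, xc ^ (n + 1) * ∑ Q ∈ exits p n, zt (Tn Q) = 1`. Real and imaginary part
(`zt_re`, `zt_im`): the sums with `cos (Tn Q π / 8)`, `sin (Tn Q π / 8)` are `1`, `0`. `sin ((3 ± k) a) = sin (3 a) cos (k a) ± cos (3 a) sin (k a)`,
`sin (3 π / 8) = cos (π / 8)`. The lists of `exits p n` are the lists `toL W`, `Ex p W`, `W.length = n + 1` (`toL_surj`, `hex_nbr`, `isSaw_toL`, `toL_inj`).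
-/

namespace Pool.Agent.PLY.G

open Pool.Agent.Hhelper14.SAW Pool.Agent.HHP Pool.Agent.HEP Pool.Agent.BEX Pool.Agent.BEX.C
open scoped ENNReal

/-- The exits as lists and as words. -/
private lemma CId_mem {p : ℤ × ℤ → Prop} [DecidablePred p] (hp : Dom p) {n : ℕ} {Q : List (ℤ × ℤ)} :
    Q ∈ exits p n ↔ ∃ W, Ex p W ∧ W.length = n + 1 ∧ toL W = Q := by
  rw [mem_exits hp]
  constructor
  · rintro ⟨u, v, w, r, rfl, h1, h2, h3, h4⟩
    obtain ⟨W', g1, g2, g3, g4⟩ := toL_surj hp h1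
    obtain ⟨r', hr'⟩ := toL_cases W'
    rw [g4] at hr'
    simp only [List.cons.injEq] at hr'
    obtain ⟨e1, e2, e3⟩ := hr'
    obtain ⟨v', w', r'', e4, h5, -⟩ := h1.cases
    simp only [List.cons.injEq] at e4
    obtain ⟨rfl, rfl, rfl⟩ := e4
    have h6 := hex_nbr h2 h5 h3
    have h7 : v - w = Dr W' := by rw [e1, e2]; ring
    rw [h7] at h6
    have h8 : ∃ b, u = E W' + tn b (Dr W') := by
      rcases h6 with h6 | h6
      · exact ⟨true, by rw [← e1, show tn true (Dr W') = L (Dr W') from rfl, ← h6]; ring⟩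
      · exact ⟨false, by rw [← e1, show tn false (Dr W') = R (Dr W') from rfl, ← h6]; ring⟩
    obtain ⟨b, hb⟩ := h8
    refine ⟨W' ++ [b], ⟨W', b, rfl, g2, g3, ?_⟩, by simp [g1], ?_⟩
    · rw [HHP.E_snoc, ← hb]; exact h4
    · rw [toL_snoc, ← hb, g4]
  · rintro ⟨W, hW, hl, rfl⟩
    obtain ⟨W', b, rfl, h1, h2, h3, h4, h5⟩ := hW.step
    have hS := isSaw_toL hp h1 h2
    obtain ⟨r, hr⟩ := toL_cases W'
    have hn : W'.length = n := by simpa using hl
    have hadj : Adj (E (W' ++ [b])) (E W') := ⟨V_hon (E_mem _), V_hon (E_mem _), by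
      rw [h5, add_sub_cancel_left]; exact U_tn W' b⟩
    have hne : E (W' ++ [b]) ≠ E W' - Dr W' := by
      rw [h5]
      intro h
      have h6 : tn b (Dr W') = - Dr W' := by
        have h7 : E W' + tn b (Dr W') = E W' + - Dr W' := by rw [h]; ring
        exact add_left_cancel h7
      have h8 := U_Dr W'
      generalize Dr W' = e at *
      obtain ⟨e1, e2⟩ := e
      cases b <;> simp [tn, L, R, U] at h6 h8 <;> omega
    rw [hn, hr] at hS
    exact ⟨E (W' ++ [b]), E W', E W' - Dr W', r, by rw [toL_snoc, ← h5, hr], hS, hadj, hne, h3⟩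

private lemma CId_sum {p : ℤ × ℤ → Prop} [DecidablePred p] (hp : Dom p) {B : ℕ} (hB : ∀ n, B ≤ n → ∀ P, ¬ IsSaw p n P)
    (f : ℤ → ℝ) (hf : ∀ W, Ex p W → 0 ≤ f (Tn (toL W))) :
    mx p (fun _ => True) (fun k => ENNReal.ofReal (f k)) =
      ENNReal.ofReal (∑ n ∈ Finset.range B, xc ^ (n + 1) * ∑ Q ∈ exits p n, f (Tn Q)) := by
  classical
  have hx := xc_pos
  have hpos : ∀ n, ∀ Q ∈ exits p n, 0 ≤ f (Tn Q) := by
    intro n Q hQ
    obtain ⟨W, h1, -, rfl⟩ := (CId_mem hp).1 hQ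
    exact hf W h1
  -- the finset of words
  set 𝒬 : Finset ((_ : ℕ) × List (ℤ × ℤ)) := (Finset.range B).sigma (fun n => exits p n) with h𝒬
  have hex : ∀ q : (_ : ℕ) × List (ℤ × ℤ), ∃ W : List Bool, q ∈ 𝒬 → Ex p W ∧ W.length = q.1 + 1 ∧ toL W = q.2 := by
    intro q
    by_cases hq : q ∈ 𝒬
    · obtain ⟨W, hW⟩ := (CId_mem hp).1 (Finset.mem_sigma.1 hq).2
      exact ⟨W, fun _ => hW⟩
    · exact ⟨[], fun h => absurd h hq⟩
  choose ψ hψ using hex
  have hinj : ∀ q ∈ 𝒬, ∀ q' ∈ 𝒬, ψ q = ψ q' → q = q' := by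
    rintro ⟨n, Q⟩ hq ⟨n', Q'⟩ hq' he
    have a := hψ _ hq
    have b := hψ _ hq'
    simp only at a b
    have e1 : n = n' := by
      have := congrArg List.length he
      omega
    subst e1
    have e2 : Q = Q' := by rw [← a.2.2, ← b.2.2, he]
    rw [e2]
  have hall : ∀ W, Ex p W → W ∈ 𝒬.image ψ := by
    intro W hW
    have hne : W ≠ [] := by
      obtain ⟨W', b, rfl, -⟩ := hW
      simp
    have hlen : W.length = (W.length - 1) + 1 := by
      have := List.length_pos_iff.2 hne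
      omega
    have h1 : toL W ∈ exits p (W.length - 1) := (CId_mem hp).2 ⟨W, hW, hlen, rfl⟩
    have h2 : W.length - 1 < B := by
      by_contra hcon
      obtain ⟨u, v, w, r, -, h3, -⟩ := (mem_exits hp).1 h1
      exact hB _ (not_lt.1 hcon) _ h3
    have h3 : (⟨W.length - 1, toL W⟩ : (_ : ℕ) × List (ℤ × ℤ)) ∈ 𝒬 :=
      Finset.mem_sigma.2 ⟨Finset.mem_range.2 h2, h1⟩
    rw [Finset.mem_image]
    exact ⟨_, h3, toL_inj (hψ _ h3).2.2⟩
  unfold mx
  rw [tsum_eq_sum (s := 𝒬.image ψ) (fun W hW => by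
    rw [ind_false (fun h => hW (hall W h.1)), zero_mul])]
  rw [Finset.sum_image (fun q hq q' hq' he => hinj q hq q' hq' he)]
  rw [ENNReal.ofReal_sum_of_nonneg (fun n _ => mul_nonneg (by positivity) (Finset.sum_nonneg (hpos n))),
    h𝒬, Finset.sum_sigma]
  refine Finset.sum_congr rfl fun n hn => ?_
  rw [Finset.mul_sum, ENNReal.ofReal_sum_of_nonneg (fun Q hQ => mul_nonneg (by positivity) (hpos n Q hQ))]
  refine Finset.sum_congr rfl fun Q hQ => ?_
  obtain ⟨h1, h2, h3⟩ := hψ ⟨n, Q⟩ (Finset.mem_sigma.2 ⟨hn, hQ⟩)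
  simp only at h2 h3
  rw [ind_true ⟨h1, trivial⟩, one_mul, h2, h3, ENNReal.ofReal_mul (by positivity), ENNReal.ofReal_pow hx.le]
  rfl

private lemma CId_re {p : ℤ × ℤ → Prop} [DecidablePred p] (hp : Dom p) {B : ℕ} (hB : ∀ n, B ≤ n → ∀ P, ¬ IsSaw p n P) :
    ∑ n ∈ Finset.range B, xc ^ (n + 1) * ∑ Q ∈ exits p n, Real.cos ((Tn Q : ℝ) * (Real.pi / 8)) = 1 ∧
      ∑ n ∈ Finset.range B, xc ^ (n + 1) * ∑ Q ∈ exits p n, Real.sin ((Tn Q : ℝ) * (Real.pi / 8)) = 0 := by
  have h := telescope hp B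
  have hT : Tsum p B = 0 := by
    unfold Tsum
    have : saw p B = ∅ := by
      rw [Finset.eq_empty_iff_forall_notMem]
      intro P hP
      rw [mem_saw hp] at hP
      exact hB B le_rfl P hP
    rw [this]
    simp
  rw [hT, mul_zero, sub_zero] at h
  constructor
  · have h2 := congrArg Complex.re h
    rw [Complex.re_sum, Complex.one_re] at h2
    rw [← h2]
    refine Finset.sum_congr rfl fun n _ => ?_
    rw [← Complex.ofReal_pow, Complex.re_ofReal_mul, Complex.re_sum]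
    congr 1
    refine Finset.sum_congr rfl fun Q _ => ?_
    rw [zt_re]
  · have h2 := congrArg Complex.im h
    rw [Complex.im_sum, Complex.one_im] at h2
    rw [← h2]
    refine Finset.sum_congr rfl fun n _ => ?_
    rw [← Complex.ofReal_pow, Complex.im_ofReal_mul, Complex.im_sum]
    congr 1
    refine Finset.sum_congr rfl fun Q _ => ?_
    rw [zt_im]

theorem ex_ident {p : ℤ × ℤ → Prop} (hp : Dom p) (hf : Fin' p)
    (hT : ∀ W, Ex p W → -3 ≤ Tn (toL W) ∧ Tn (toL W) ≤ 3) :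
    mx p (fun _ => True) fp = cs ∧ mx p (fun _ => True) fm = cs := by
  classical
  obtain ⟨B, hB⟩ := hf
  have hs3 : Real.sin (3 * (Real.pi / 8)) = Real.cos (Real.pi / 8) := by
    rw [← Real.sin_pi_div_two_sub]; congr 1; ring
  obtain ⟨hc, hs⟩ := CId_re hp hB
  have hpi := Real.pi_pos
  constructor
  · have h1 := CId_sum hp hB (fun k => Real.sin ((3 + k) * (Real.pi / 8))) (fun W hW => by
      obtain ⟨h1, h2⟩ := hT W hW
      have h1' : (-3 : ℝ) ≤ Tn (toL W) := by exact_mod_cast h1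
      have h2' : (Tn (toL W) : ℝ) ≤ 3 := by exact_mod_cast h2
      refine Real.sin_nonneg_of_nonneg_of_le_pi (mul_nonneg (by linarith) (by positivity)) ?_
      nlinarith)
    refine h1.trans ?_
    unfold cs
    congr 1
    have h2 : ∀ n ∈ Finset.range B, xc ^ (n + 1) * ∑ Q ∈ exits p n, Real.sin ((3 + (Tn Q : ℝ)) * (Real.pi / 8)) =
        Real.sin (3 * (Real.pi / 8)) * (xc ^ (n + 1) * ∑ Q ∈ exits p n, Real.cos ((Tn Q : ℝ) * (Real.pi / 8))) +
        Real.cos (3 * (Real.pi / 8)) * (xc ^ (n + 1) * ∑ Q ∈ exits p n, Real.sin ((Tn Q : ℝ) * (Real.pi / 8))) := by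
      intro n _
      have h3 : ∀ Q ∈ exits p n, Real.sin ((3 + (Tn Q : ℝ)) * (Real.pi / 8)) =
          Real.sin (3 * (Real.pi / 8)) * Real.cos ((Tn Q : ℝ) * (Real.pi / 8)) +
          Real.cos (3 * (Real.pi / 8)) * Real.sin ((Tn Q : ℝ) * (Real.pi / 8)) := by
        intro Q _
        rw [← Real.sin_add]; congr 1; ring
      rw [Finset.sum_congr rfl h3, Finset.sum_add_distrib, ← Finset.mul_sum, ← Finset.mul_sum]
      ring
    rw [Finset.sum_congr rfl h2, Finset.sum_add_distrib, ← Finset.mul_sum, ← Finset.mul_sum, hc, hs, hs3]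
    ring
  · have h1 := CId_sum hp hB (fun k => Real.sin ((3 - k) * (Real.pi / 8))) (fun W hW => by
      obtain ⟨h1, h2⟩ := hT W hW
      have h1' : (-3 : ℝ) ≤ Tn (toL W) := by exact_mod_cast h1
      have h2' : (Tn (toL W) : ℝ) ≤ 3 := by exact_mod_cast h2
      refine Real.sin_nonneg_of_nonneg_of_le_pi (mul_nonneg (by linarith) (by positivity)) ?_
      nlinarith)
    refine h1.trans ?_
    unfold cs
    congr 1
    have h2 : ∀ n ∈ Finset.range B, xc ^ (n + 1) * ∑ Q ∈ exits p n, Real.sin ((3 - (Tn Q : ℝ)) * (Real.pi / 8)) =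
        Real.sin (3 * (Real.pi / 8)) * (xc ^ (n + 1) * ∑ Q ∈ exits p n, Real.cos ((Tn Q : ℝ) * (Real.pi / 8))) -
        Real.cos (3 * (Real.pi / 8)) * (xc ^ (n + 1) * ∑ Q ∈ exits p n, Real.sin ((Tn Q : ℝ) * (Real.pi / 8))) := by
      intro n _
      have h3 : ∀ Q ∈ exits p n, Real.sin ((3 - (Tn Q : ℝ)) * (Real.pi / 8)) =
          Real.sin (3 * (Real.pi / 8)) * Real.cos ((Tn Q : ℝ) * (Real.pi / 8)) -
          Real.cos (3 * (Real.pi / 8)) * Real.sin ((Tn Q : ℝ) * (Real.pi / 8)) := by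
        intro Q _
        rw [← Real.sin_sub]; congr 1; ring
      rw [Finset.sum_congr rfl h3, Finset.sum_sub_distrib, ← Finset.mul_sum, ← Finset.mul_sum]
      ring
    rw [Finset.sum_congr rfl h2, Finset.sum_sub_distrib, ← Finset.mul_sum, ← Finset.mul_sum, hc, hs, hs3]
    ring

end Pool.Agent.PLY.G
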