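import Pool.Agent.PLY.G.CStp
import Pool.Agent.BEX.CUp

/-!
Project PLY, part CORRIDORS, module CSt: the first cut is bounded by the bridges.

PAPER PROOF. An exit `W = W' ++ [b]` counted in `S1 T M b sl` has `F5 (E W') = 3 b` and last step `(1, -1)`, so `W'` determines `W`; `W'` is a walk of the wedge
`0 ≤ F0`, `F5 ≤ 3 b`; its mirror image is counted in `Eg b`. `Eg_le'`.
-/

namespace Pool.Agent.PLY.G

open Pool.Agent.Hhelper14.SAW Pool.Agent.HHP Pool.Agent.HEP Pool.Agent.BEX Pool.Agent.BEX.C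
open scoped ENNReal

lemma ms_ind' (y : ℝ≥0∞) (P : List Bool → Prop) : ms y P = ∑' W, ind (P W) * y ^ (W.length + 1) := by
  classical
  rw [ms_ind]
  refine tsum_congr fun W => ?_
  by_cases h : P W
  · rw [if_pos h, ind_true h, one_mul]
  · rw [if_neg h, ind_false h, zero_mul]

theorem S1_le_Eg (T M b : ℕ) (sl : Set (ℕ × ℤ)) : S1 T M b sl ≤ Eg b := by
  have h1 : S1 T M b sl ≤ ms xE (fun W => (Hp W ∧ ∀ z ∈ V W, F5 z ≤ 3 * b) ∧ F5 (E W) = 3 * b) := by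
    unfold S1 ms
    have e : ∀ W, ind (Ex (GW T M b b sl) W ∧ 3 * (b : ℤ) < F5 (E W) ∧ F0 (E W) ≤ 3 * (T : ℤ) + 1) * xE ^ W.length =
        Set.indicator {W | Ex (GW T M b b sl) W ∧ 3 * (b : ℤ) < F5 (E W) ∧ F0 (E W) ≤ 3 * (T : ℤ) + 1}
          (fun W => xE ^ W.length) W := by
      intro W
      by_cases h : Ex (GW T M b b sl) W ∧ 3 * (b : ℤ) < F5 (E W) ∧ F0 (E W) ≤ 3 * (T : ℤ) + 1
      · rw [ind_true h, one_mul, Set.indicator_of_mem (by exact h)]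
      · rw [ind_false h, zero_mul, Set.indicator_of_notMem (by exact h)]
    rw [tsum_congr e, ← tsum_subtype {W | Ex (GW T M b b sl) W ∧ 3 * (b : ℤ) < F5 (E W) ∧ F0 (E W) ≤ 3 * (T : ℤ) + 1}
      (fun W : List Bool => xE ^ W.length)]
    refine tsum_rel _ _ (fun W W' => ∃ c, W.1 = W'.1 ++ [c] ∧ tn c (Dr W'.1) = (1, -1)) ?_ ?_
    · rintro ⟨W, hW, h5, h0⟩
      obtain ⟨W', c, rfl, g1, g2, g3, g4, g5⟩ := hW.step
      have hv' := GW_hon g4
      have hv := ((GW_iff hv').1 g4).1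
      have hu : hon (E (W' ++ [c])) := V_hon (E_mem _)
      have hU := U_tn W' c
      rw [g5] at h5 h0 hu
      have key : tn c (Dr W') = (1, -1) ∧ F5 (E W') = 3 * b := by
        generalize tn c (Dr W') = e at *
        generalize E W' = v at *
        obtain ⟨e1, e2⟩ := e
        obtain ⟨v1, v2⟩ := v
        simp only [U, hon, F0, F1, F4, F5, Prod.mk_add_mk, Prod.mk.injEq] at *
        omega
      refine ⟨⟨W', ⟨⟨⟨g1, fun z hz => ?_⟩, fun z hz => ?_⟩, key.2⟩⟩, ⟨c, rfl, key.1⟩, ?_⟩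
      · exact ((GW_iff (V_hon hz)).1 (g2 z hz)).1.1
      · exact ((GW_iff (V_hon hz)).1 (g2 z hz)).1.2.2.2.1
      · simp
    · rintro ⟨W, hW⟩ ⟨W2, hW2⟩ ⟨W', hW'⟩ ⟨c, h1, h2⟩ ⟨c', h1', h2'⟩
      simp only at h1 h1' h2 h2'
      have : c = c' := tn_inj (U_Dr W') (h2.trans h2'.symm)
      apply Subtype.ext
      simp only
      rw [h1, h1', this]
  refine h1.trans ?_
  unfold Eg
  rw [← ms_not]
  refine ms_mono fun W h => ?_
  obtain ⟨⟨⟨h1, h2⟩, h3⟩, h4⟩ := h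
  have hE : F1 (E W) = F5 (E (W.map (! ·))) := by
    rw [E_not]; simp only [F1, F5, sg]; ring
  refine ⟨⟨⟨?_, ?_⟩, ?_⟩, hE.trans h4⟩
  · rw [V_not] at h1
    exact List.Nodup.of_map _ h1
  · intro z hz
    have := h2 (sg z) (by rw [V_not]; exact List.mem_map_of_mem hz)
    rwa [F0_sg] at this
  · intro z hz
    have := h3 (sg z) (by rw [V_not]; exact List.mem_map_of_mem hz)
    have e : F5 (sg z) = F1 z := by simp only [F1, F5, sg]; ring
    rwa [e] at this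

theorem S1_start (T M b : ℕ) (sl : Set (ℕ × ℤ)) (hb : 2 ≤ b) : cs * S1 T M b sl ≤ 3 * bn (b / 2) :=
  (mul_le_mul_right (S1_le_Eg T M b sl) _).trans (Eg_le' b hb)

end Pool.Agent.PLY.G
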