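import Pool.Agent.PLY.G.CCmp

/-!
Project PLY, part CORRIDORS, module CStp: one step of the cut.

PAPER PROOF. All from `ex_cmp` and `ex_ident`, with `ex_cut1`, `ex_cut2`, `ex_top`, `mx_const`.
* `S2_le`: `p = GW T M b b sl`, `p' = GW T M (b + T + 1) b sl`, `f = fm`, `fm (-1) = sin (4 π / 8) = 1`, `fm (-2) = sin (5 π / 8) = cs`.
* `S1_le`: `p = GW T M (b + T + 1) b sl`, `p' = GW T M (b + T + 1) (b + T + 1) sl`, `f = fp`, `fp (-1) = r2`, `fp (-2) = sn`.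
* `S1_step`: `sn = r2 * cs * ze`.
* `S1_trans`: `p = GW T M b b sl`, `p' = GW T' M b' b' sl'`, `f = fp`; if `T < T'` there is no exit through the top of `p` (`Cov`).
* `top_le`: `p = GW T M b b sl`, `p' = GW T' M b1 b2 sl'`, `f = fp`, `fp 0 = cs`.
-/

namespace Pool.Agent.PLY.G

open Pool.Agent.Hhelper14.SAW Pool.Agent.HHP Pool.Agent.HEP Pool.Agent.BEX Pool.Agent.BEX.C
open scoped ENNReal

lemma GW_ident_p (T M b1 b2 : ℕ) (sl : Set (ℕ × ℤ)) : mx (GW T M b1 b2 sl) (fun _ => True) fp = cs :=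
  (ex_ident (GW_dom _ _ _ _ _) (GW_fin _ _ _ _ _) fun _ h => ex_turn h).1

lemma GW_ident_m (T M b1 b2 : ℕ) (sl : Set (ℕ × ℤ)) : mx (GW T M b1 b2 sl) (fun _ => True) fm = cs :=
  (ex_ident (GW_dom _ _ _ _ _) (GW_fin _ _ _ _ _) fun _ h => ex_turn h).2

lemma fm_neg_one : fm (-1) = 1 := by
  unfold fm
  have : ((3 : ℝ) - ((-1 : ℤ) : ℝ)) * (Real.pi / 8) = Real.pi / 2 := by push_cast; ring
  rw [this, Real.sin_pi_div_two, ENNReal.ofReal_one]

lemma fm_neg_two : fm (-2) = cs := by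
  unfold fm cs
  have : ((3 : ℝ) - ((-2 : ℤ) : ℝ)) * (Real.pi / 8) = Real.pi / 8 + Real.pi / 2 := by push_cast; ring
  rw [this, Real.sin_add_pi_div_two]

lemma fp_neg_one : fp (-1) = r2 := by
  unfold fp r2
  have : ((3 : ℝ) + ((-1 : ℤ) : ℝ)) * (Real.pi / 8) = Real.pi / 4 := by push_cast; ring
  rw [this]

lemma fp_neg_two : fp (-2) = sn := by
  unfold fp sn
  have : ((3 : ℝ) + ((-2 : ℤ) : ℝ)) * (Real.pi / 8) = Real.pi / 8 := by push_cast; ring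
  rw [this]

lemma fp_zero : fp 0 = cs := by
  unfold fp cs
  have : ((3 : ℝ) + ((0 : ℤ) : ℝ)) * (Real.pi / 8) = Real.pi / 2 - Real.pi / 8 := by push_cast; ring
  rw [this, Real.sin_pi_div_two_sub]

lemma r2_pos : 0 < r2 := by
  unfold r2
  rw [ENNReal.ofReal_pos]
  exact Real.sin_pos_of_pos_of_lt_pi (by positivity) (by linarith [Real.pi_pos])

lemma r2_top : r2 ≠ ∞ := ENNReal.ofReal_ne_top

lemma r2_le_one : r2 ≤ 1 := by
  unfold r2
  rw [← ENNReal.ofReal_one]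
  exact ENNReal.ofReal_le_ofReal (Real.sin_le_one _)

lemma sn_eq : sn = r2 * cs * ze := by
  have h1 : (0 : ℝ) ≤ Real.cos (Real.pi / 8) :=
    (Real.cos_pos_of_mem_Ioo ⟨by linarith [Real.pi_pos], by linarith [Real.pi_pos]⟩).le
  have h2 : (0 : ℝ) ≤ Real.sin (Real.pi / 4) := by rw [Real.sin_pi_div_four]; positivity
  unfold sn r2 cs ze
  rw [← ENNReal.ofReal_mul h2, ← ENNReal.ofReal_mul (by positivity)]
  congr 1
  have h3 : Real.sin (Real.pi / 4) = 2 * Real.sin (Real.pi / 8) * Real.cos (Real.pi / 8) := by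
    rw [← Real.sin_two_mul]; congr 1; ring
  have h4 : Real.cos (Real.pi / 4) = 2 * Real.cos (Real.pi / 8) ^ 2 - 1 := by
    rw [← Real.cos_two_mul]; congr 1; ring
  rw [Real.cos_pi_div_four] at h4
  have h5 : Real.cos (Real.pi / 8) ^ 2 = (√2 + 2) / 4 := by linarith
  rw [h3]
  have h6 : 2 * Real.sin (Real.pi / 8) * Real.cos (Real.pi / 8) * Real.cos (Real.pi / 8) * (2 - √2) =
      Real.sin (Real.pi / 8) * (2 * Real.cos (Real.pi / 8) ^ 2 * (2 - √2)) := by ring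
  rw [h6, h5]
  have h7 : √2 * √2 = 2 := Real.mul_self_sqrt (by norm_num)
  have h8 : 2 * ((√2 + 2) / 4) * (2 - √2) = 1 := by nlinarith
  rw [h8, mul_one]

theorem S2_le (T M b : ℕ) (sl : Set (ℕ × ℤ)) : cs * S2 T M b sl ≤ S1 T M b sl := by
  have h := ex_cmp (p := GW T M b b sl) (p' := GW T M (b + T + 1) b sl) (f := fm) (c := cs)
    (A := fun W => 3 * (b : ℤ) < F5 (E W) ∧ F0 (E W) ≤ 3 * (T : ℤ) + 1)
    (B := fun W => 3 * (b : ℤ) + 1 < F4 (E W)) ?_ cs_top (GW_ident_m _ _ _ _ _) (GW_ident_m _ _ _ _ _) ?_ ?_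
  · rw [mx_const (k := -2) (fun W h1 h2 => ex_cut2 h1 h2), mx_const (k := -1) (fun W h1 h2 => ex_cut1 h1 h2.1 h2.2),
      fm_neg_one, fm_neg_two, one_mul] at h
    exact h
  · intro z hz
    have hz' := GW_hon hz
    rw [GW_iff hz'] at hz ⊢
    refine ⟨?_, hz.2⟩
    have := hz.1
    push_cast at *
    omega
  · intro W hW hA hp'
    obtain ⟨W', b', rfl, g1, g2, g3, g4, g5⟩ := hW.step
    have hh := GW_hon hp'
    apply g3
    rw [GW_iff hh] at hp' ⊢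
    refine ⟨?_, hp'.2⟩
    have := hp'.1
    push_cast at *
    omega
  · intro W hW hA hB
    obtain ⟨v, hv, hu, hc⟩ := ex_geo hW
    have hv' := GW_hon hv
    have h1 := ((GW_iff hv').1 hv).1
    generalize E W = u at *
    obtain ⟨u1, u2⟩ := u
    obtain ⟨v1, v2⟩ := v
    simp only [F0, F1, F4, F5, hon, Prod.mk_add_mk, Prod.mk.injEq] at *
    omega

theorem S1_le (T M b : ℕ) (sl : Set (ℕ × ℤ)) : r2 * S1 T M (b + T + 1) sl ≤ sn * S2 T M b sl := by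
  have h := ex_cmp (p := GW T M (b + T + 1) b sl) (p' := GW T M (b + T + 1) (b + T + 1) sl) (f := fp) (c := cs)
    (A := fun W => 3 * (b : ℤ) + 1 < F4 (E W))
    (B := fun W => 3 * ((b + T + 1 : ℕ) : ℤ) < F5 (E W) ∧ F0 (E W) ≤ 3 * (T : ℤ) + 1) ?_ cs_top (GW_ident_p _ _ _ _ _)
    (GW_ident_p _ _ _ _ _) ?_ ?_
  · rw [mx_const (k := -1) (fun W h1 h2 => ex_cut1 h1 h2.1 h2.2), mx_const (k := -2) (fun W h1 h2 => ex_cut2 h1 h2),
      fp_neg_one, fp_neg_two] at h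
    exact h
  · intro z hz
    have hz' := GW_hon hz
    rw [GW_iff hz'] at hz ⊢
    refine ⟨?_, hz.2⟩
    have := hz.1
    push_cast at *
    omega
  · intro W hW hA hp'
    obtain ⟨W', b', rfl, g1, g2, g3, g4, g5⟩ := hW.step
    have hh := GW_hon hp'
    apply g3
    rw [GW_iff hh] at hp' ⊢
    refine ⟨?_, hp'.2⟩
    have := hp'.1
    push_cast at *
    omega
  · intro W hW hA hB
    obtain ⟨v, hv, hu, hc⟩ := ex_geo hW
    have hv' := GW_hon hv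
    have h1 := ((GW_iff hv').1 hv).1
    generalize E W = u at *
    obtain ⟨u1, u2⟩ := u
    obtain ⟨v1, v2⟩ := v
    push_cast at *
    simp only [F0, F1, F4, F5, hon, Prod.mk_add_mk, Prod.mk.injEq] at *
    omega

theorem S1_one (T M b : ℕ) (sl : Set (ℕ × ℤ)) : S1 T M (b + (T + 1)) sl ≤ ze * S1 T M b sl := by
  have h1 := S2_le T M b sl
  have h2 := S1_le T M b sl
  have h3 : r2 * S1 T M (b + T + 1) sl ≤ r2 * (ze * S1 T M b sl) := by
    calc r2 * S1 T M (b + T + 1) sl ≤ sn * S2 T M b sl := h2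
      _ = r2 * (ze * (cs * S2 T M b sl)) := by rw [sn_eq]; ring
      _ ≤ r2 * (ze * S1 T M b sl) := by gcongr
  exact (ENNReal.mul_le_mul_iff_right r2_pos.ne' r2_top).1 h3

theorem S1_step (T M b k : ℕ) (sl : Set (ℕ × ℤ)) : S1 T M (b + k * (T + 1)) sl ≤ ze ^ k * S1 T M b sl := by
  induction k with
  | zero => simp
  | succ k ih =>
    have h1 : b + (k + 1) * (T + 1) = b + k * (T + 1) + (T + 1) := by ring
    rw [h1, pow_succ']
    calc S1 T M (b + k * (T + 1) + (T + 1)) sl ≤ ze * S1 T M (b + k * (T + 1)) sl := S1_one _ _ _ _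
      _ ≤ ze * (ze ^ k * S1 T M b sl) := by gcongr
      _ = _ := by ring

/-- Inclusion of the domains. -/
lemma Sub.incl {T b T' : ℕ} {sl sl' : Set (ℕ × ℤ)} (h : Sub T sl b T' sl') {b1 b2 : ℕ} (h1 : b ≤ b1) (h2 : b ≤ b2) {M : ℕ}
    {z : ℤ × ℤ} (hz : GW T M b b sl z) : GW T' M b1 b2 sl' z := by
  have hz' := GW_hon hz
  rw [GW_iff hz'] at hz ⊢
  obtain ⟨hz1, hz2⟩ := hz
  obtain ⟨-, h3⟩ := h
  constructor
  · rcases h3 with ⟨rfl, -⟩ | ⟨h3, -⟩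
    · simp only [F0, F4, F5] at *; omega
    · simp only [F0, F4, F5] at *; omega
  · intro s hs hh
    rcases h3 with ⟨-, h3⟩ | ⟨-, h3, -⟩
    · exact hz2 s (h3 hs) hh
    · rcases h3 s hs with h4 | h4
      · exact hz2 s h4 hh
      · omega

/-- The exits of the small domain which are not on the cut. -/
lemma Sub.out {T b T' : ℕ} {sl sl' : Set (ℕ × ℤ)} (h : Sub T sl b T' sl') {b1 b2 : ℕ} {M : ℕ}
    {W : List Bool} (hW : Ex (GW T M b b sl) W) (hA : ¬ (3 * (b : ℤ) < F5 (E W) ∧ F0 (E W) ≤ 3 * (T : ℤ) + 1)) :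
    ¬ GW T' M b1 b2 sl' (E W) ∧ (T < T' → F0 (E W) ≤ 3 * (T : ℤ) + 1) := by
  obtain ⟨W', b', rfl, g1, g2, g3, g4, g5⟩ := hW.step
  obtain ⟨v, hv, hu, hc⟩ := ex_geo hW
  have hv' := GW_hon hv
  rw [GW_iff hv'] at hv
  have hT : T < T' → F0 (E (W' ++ [b'])) ≤ 3 * (T : ℤ) + 1 := by
    intro hlt
    obtain ⟨-, ⟨h3, -⟩ | ⟨-, -, s, hs, hs1, hs2⟩⟩ := h
    · omega
    · by_contra hcon
      apply hv.2 s hs
      have h1 := hv.1
      generalize E (W' ++ [b']) = u at *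
      obtain ⟨u1, u2⟩ := u
      obtain ⟨v1, v2⟩ := v
      simp only [F0, F1, F4, F5, hon, Prod.mk_add_mk, Prod.mk.injEq] at *
      constructor <;> omega
  refine ⟨fun hp' => ?_, hT⟩
  have hh := GW_hon hp'
  apply g3
  rw [GW_iff hh] at hp' ⊢
  obtain ⟨hp1, hp2⟩ := hp'
  refine ⟨?_, fun s hs => hp2 s (h.1 hs)⟩
  have hT' : F0 (E (W' ++ [b'])) ≤ 3 * (T : ℤ) + 1 := by
    rcases h.2 with ⟨h3, -⟩ | ⟨h3, -⟩
    · rw [h3]; exact hp1.2.1
    · exact hT h3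
  simp only [F0, F4, F5, F1] at *
  omega

theorem S1_trans {T b T' b' : ℕ} {sl sl' : Set (ℕ × ℤ)} (h : Sub T sl b T' sl') (hb : b ≤ b') (M : ℕ) :
    S1 T' M b' sl' ≤ S1 T M b sl := by
  have h' := ex_cmp (p := GW T M b b sl) (p' := GW T' M b' b' sl') (f := fp) (c := cs)
    (A := fun W => 3 * (b : ℤ) < F5 (E W) ∧ F0 (E W) ≤ 3 * (T : ℤ) + 1)
    (B := fun W => 3 * (b' : ℤ) < F5 (E W) ∧ F0 (E W) ≤ 3 * (T' : ℤ) + 1) (fun z hz => h.incl hb hb hz) cs_top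
    (GW_ident_p _ _ _ _ _) (GW_ident_p _ _ _ _ _) (fun W hW hA => (h.out hW hA).1) ?_
  · rw [mx_const (k := -1) (fun W h1 h2 => ex_cut1 h1 h2.1 h2.2), mx_const (k := -1) (fun W h1 h2 => ex_cut1 h1 h2.1 h2.2),
      fp_neg_one] at h'
    exact (ENNReal.mul_le_mul_iff_right r2_pos.ne' r2_top).1 h'
  · intro W hW hA hB
    have h1 := (h.out (b1 := b) (b2 := b) hW hA).2
    have h2 : T ≤ T' := by rcases h.2 with ⟨h3, -⟩ | ⟨h3, -⟩ <;> omega
    rcases h2.eq_or_lt with h3 | h3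
    · rw [h3] at hA
      exact hA ⟨lt_of_le_of_lt (by exact_mod_cast Nat.mul_le_mul_left 3 hb) hB.1, hB.2⟩
    · have := h1 h3
      exact hA ⟨lt_of_le_of_lt (by exact_mod_cast Nat.mul_le_mul_left 3 hb) hB.1, this⟩

theorem top_le {T b T' : ℕ} {sl sl' : Set (ℕ × ℤ)} (h : Sub T sl b T' sl') {b1 b2 : ℕ} (h1 : b ≤ b1) (h2 : b ≤ b2) (M : ℕ) :
    cs * ∑' W, ind (Ex (GW T' M b1 b2 sl') W ∧ 3 * (T' : ℤ) + 1 < F0 (E W) ∧
      ∃ z ∈ V W, GW T' M b1 b2 sl' z ∧ ¬ GW T M b b sl z) * xE ^ W.length ≤ r2 * S1 T M b sl := by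
  have h' := ex_cmp (p := GW T M b b sl) (p' := GW T' M b1 b2 sl') (f := fp) (c := cs)
    (A := fun W => 3 * (b : ℤ) < F5 (E W) ∧ F0 (E W) ≤ 3 * (T : ℤ) + 1)
    (B := fun W => 3 * (T' : ℤ) + 1 < F0 (E W) ∧ ∃ z ∈ V W, GW T' M b1 b2 sl' z ∧ ¬ GW T M b b sl z)
    (fun z hz => h.incl h1 h2 hz) cs_top
    (GW_ident_p _ _ _ _ _) (GW_ident_p _ _ _ _ _) (fun W hW hA => (h.out hW hA).1) ?_
  · rw [mx_const (k := 0) (fun W h1 h2 => ex_top h1 h2.1), mx_const (k := -1) (fun W h1 h2 => ex_cut1 h1 h2.1 h2.2),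
      fp_neg_one, fp_zero] at h'
    exact h'
  · rintro W hW hA ⟨-, z, hz, hz1, hz2⟩
    have h3 := (h.out (b1 := b1) (b2 := b2) hW hA).1
    obtain ⟨W', b', rfl, g1, g2, g3⟩ := hW
    rw [V_snoc, List.mem_append, List.mem_singleton] at hz
    rcases hz with hz | hz
    · exact hz2 (g2 z hz)
    · rw [← HHP.E_snoc] at hz
      rw [hz] at hz1
      exact h3 hz1

end Pool.Agent.PLY.G
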