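import Pool.Agent.PLY.G.CEx

/-!
Project PLY, part CORRIDORS, module CTn: turning numbers of the exits of the domain `GW`.

PAPER PROOF. Let `W = W' ++ [b]` be an exit of `p = GW T M b1 b2 sl`, `v = E W'`, `u = E W`. `toL W = u :: toL W'` (`toL_snoc`), `toL W' = v :: (v - Dr W') :: r`
(`toL_cases`), `IsSaw p _ (toL W')` (`isSaw_toL`). If `¬ D u`, `exit_class` (after `IsSaw.mono`) gives the kind. If `D u`, then `u` is a vertex of a slit
`s ∈ sl`, `p` is contained in `Rg (pc ..) s.1 s.2`, and `slit_turn` gives `3`, `1` or `-1` (`1 ≤ s.1` since `0 ≤ F0 u = 3 s.1 - 2`).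
-/

namespace Pool.Agent.PLY.G

open Pool.Agent.Hhelper14.SAW Pool.Agent.HHP Pool.Agent.HEP Pool.Agent.BEX Pool.Agent.BEX.C
open scoped ENNReal

variable {T M b1 b2 : ℕ} {sl : Set (ℕ × ℤ)} {W : List Bool}

/-- The last step of an exit. -/
theorem ex_geo (h : Ex (GW T M b1 b2 sl) W) : ∃ v, GW T M b1 b2 sl v ∧ hon (E W) ∧
    ((F0 v % 3 = 0 ∧ (E W = v + (-1, 0) ∨ E W = v + (0, 1) ∨ E W = v + (1, -1))) ∨
      (F0 v % 3 = 1 ∧ (E W = v + (1, 0) ∨ E W = v + (0, -1) ∨ E W = v + (-1, 1)))) := by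
  obtain ⟨W', b, rfl, h1, h2, h3, h4, h5⟩ := h.step
  refine ⟨E W', h4, V_hon (E_mem _), ?_⟩
  have h6 := U_tn W' b
  have h7 : hon (E (W' ++ [b])) := V_hon (E_mem _)
  rw [h5] at h7 ⊢
  have h8 := GW_hon h4
  generalize E W' = v at *
  generalize tn b (Dr W') = e at *
  obtain ⟨e1, e2⟩ := e
  obtain ⟨v1, v2⟩ := v
  simp only [U, hon, F0, Prod.mk_add_mk, Prod.mk.injEq] at *
  omega

/-- Classification of an exit. -/
theorem ex_kind' (h : Ex (GW T M b1 b2 sl) W) :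
    (∃ v, GW T M b1 b2 sl v ∧ Adj (E W) v ∧ ExitKind (pc T M b1 b2) (E W) v (Tn (toL W))) ∨
      (D (pc T M b1 b2) (E W) ∧ (Tn (toL W) = 3 ∨ Tn (toL W) = 1 ∨ Tn (toL W) = -1)) := by
  obtain ⟨W', b, rfl, h1, h2, h3, h4, h5⟩ := h.step
  have hS := isSaw_toL (GW_dom T M b1 b2 sl) h1 h2
  obtain ⟨r, hr⟩ := toL_cases W'
  have hadj : Adj (E (W' ++ [b])) (E W') := ⟨V_hon (E_mem _), V_hon (E_mem _), by
    rw [h5, add_sub_cancel_left]; exact U_tn W' b⟩
  have hne : E (W' ++ [b]) ≠ E W' - Dr W' := by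
    rw [h5]
    intro h
    have h6 : tn b (Dr W') = - Dr W' := by
      have h7 : E W' + tn b (Dr W') = E W' + - Dr W' := by rw [h]; ring
      exact add_left_cancel h7
    have h8 := U_Dr W'
    generalize Dr W' = e at *
    obtain ⟨e1, e2⟩ := e
    cases b <;> simp [tn, L, R, U] at h6 h8 <;> omega
  rw [toL_snoc, ← h5]
  rw [hr] at hS ⊢
  by_cases hD : D (pc T M b1 b2) (E (W' ++ [b]))
  · right
    refine ⟨hD, ?_⟩
    have hs : ∃ s ∈ sl, F0 (E (W' ++ [b])) = 3 * (s.1 : ℤ) - 2 ∧ s.2 ≤ (E (W' ++ [b])).2 := by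
      by_contra hcon
      push Not at hcon
      exact h3 ⟨hD, fun s hs hh => absurd hh.2 (not_le.2 (hcon s hs hh.1))⟩
    obtain ⟨s, hs, hs1, hs2⟩ := hs
    have hF : 0 ≤ F0 (E (W' ++ [b])) := by
      obtain ⟨g0, g1, g2, g3, g4, g5, g6⟩ := hD
      simp only [pc, F3, F0] at *
      rcases lt_or_ge (E (W' ++ [b])).2 0 with h | h
      · have := g6 h; push_cast at *; omega
      · have := g5 h; push_cast at *; omega
    have hm : IsSaw (Rg (pc T M b1 b2) s.1 s.2) W'.length (E W' :: (E W' - Dr W') :: r) :=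
      hS.mono fun x hx => ⟨hx.1, hx.2 s hs⟩
    rcases slit_turn hm hadj hne (by omega) hs1 hs2 with h | h | h
    · exact Or.inl h.1
    · exact Or.inr (Or.inl h.1)
    · exact Or.inr (Or.inr h.1)
  · left
    exact ⟨E W', h4, hadj, exit_class (hS.mono fun x hx => hx.1) hadj hne hD⟩

theorem ex_turn (h : Ex (GW T M b1 b2 sl) W) : -3 ≤ Tn (toL W) ∧ Tn (toL W) ≤ 3 := by
  rcases ex_kind' h with ⟨v, hv, hadj, hk⟩ | ⟨-, hk⟩
  · have h1 := (GW_iff (GW_hon hv)).1 hv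
    have h2 := hadj.1
    generalize Tn (toL W) = k at *
    generalize E W = u at *
    obtain ⟨u1, u2⟩ := u
    obtain ⟨v1, v2⟩ := v
    simp only [ExitKind, slit, F0, F1, F2, F3, F4, F5, hon, Prod.mk_sub_mk, Prod.mk.injEq] at *
    omega
  · omega

theorem ex_cut1 (h : Ex (GW T M b1 b2 sl) W) (h5 : 3 * (b1 : ℤ) < F5 (E W)) (h0 : F0 (E W) ≤ 3 * (T : ℤ) + 1) :
    Tn (toL W) = -1 := by
  rcases ex_kind' h with ⟨v, hv, hadj, hk⟩ | ⟨hD, hk⟩
  · have h1 := (GW_iff (GW_hon hv)).1 hv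
    have h1' := GW_hon hv
    have h2 := hadj.1
    generalize Tn (toL W) = k at *
    generalize E W = u at *
    obtain ⟨u1, u2⟩ := u
    obtain ⟨v1, v2⟩ := v
    simp only [ExitKind, pc, slit, F0, F1, F2, F3, F4, F5, hon, Prod.mk_sub_mk, Prod.mk.injEq] at *
    omega
  · have := hD.2.2.2.2.1
    simp only [pc] at this
    omega

theorem ex_cut2 (h : Ex (GW T M b1 b2 sl) W) (h4 : 3 * (b2 : ℤ) + 1 < F4 (E W)) : Tn (toL W) = -2 := by
  rcases ex_kind' h with ⟨v, hv, hadj, hk⟩ | ⟨hD, hk⟩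
  · have h1 := (GW_iff (GW_hon hv)).1 hv
    have h1' := GW_hon hv
    have h2 := hadj.1
    generalize Tn (toL W) = k at *
    generalize E W = u at *
    obtain ⟨u1, u2⟩ := u
    obtain ⟨v1, v2⟩ := v
    simp only [ExitKind, pc, slit, F0, F1, F2, F3, F4, F5, hon, Prod.mk_sub_mk, Prod.mk.injEq] at *
    omega
  · obtain ⟨g0, g1, g2, g3, g4, g5, g6⟩ := hD
    simp only [pc, F3, F4, F0, F2] at *
    rcases lt_or_ge (E W).2 0 with h | h
    · have := g6 h; push_cast at *; omega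
    · have := g5 h; push_cast at *; omega

theorem ex_top (h : Ex (GW T M b1 b2 sl) W) (h0 : 3 * (T : ℤ) + 1 < F0 (E W)) : Tn (toL W) = 0 := by
  rcases ex_kind' h with ⟨v, hv, hadj, hk⟩ | ⟨hD, hk⟩
  · have h1 := (GW_iff (GW_hon hv)).1 hv
    have h1' := GW_hon hv
    have h2 := hadj.1
    generalize Tn (toL W) = k at *
    generalize E W = u at *
    obtain ⟨u1, u2⟩ := u
    obtain ⟨v1, v2⟩ := v
    simp only [ExitKind, pc, slit, F0, F1, F2, F3, F4, F5, hon, Prod.mk_sub_mk, Prod.mk.injEq] at *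
    omega
  · have := hD.2.2.1
    simp only [pc] at this
    omega

end Pool.Agent.PLY.G
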