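import Pool.Agent.PLY.G.CCor

/-!
Project PLY, part CORRIDORS, module CWid: width of bridges in terms of the lateral coordinate `z.2`.

PAPER PROOF. `2 F5 z = F0 z - 3 z.2`. The other side by reflection (`ms_not`).
-/

namespace Pool.Agent.PLY.G

open Pool.Agent.Hhelper14.SAW Pool.Agent.HHP Pool.Agent.HEP Pool.Agent.BEX Pool.Agent.BEX.C
open scoped ENNReal

/-- Bridges with a vertex far from the axis. -/
theorem wid2 (N k : ℕ) :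
    cs ^ 2 * ms xE (fun W => Br N W ∧ ∃ z ∈ V W, 2 * ((k : ℤ) + 2) * (N + 1) < |z.2|) ≤ 6 * (ze ^ k * bn (N + 1)) := by
  have h1 : ms xE (fun W => Br N W ∧ ∃ z ∈ V W, 2 * ((k : ℤ) + 2) * (N + 1) < -z.2) ≤
      ms xE (fun W => Br N W ∧ ∃ z ∈ V W, 3 * (((k + 2) * (N + 1) : ℕ) : ℤ) < F5 z) := by
    refine ms_mono fun W h => ⟨h.1, ?_⟩
    obtain ⟨z, hz, hz2⟩ := h.2
    refine ⟨z, hz, ?_⟩
    have h0 := (h.1.1.2 z hz).1
    push_cast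
    simp only [F0, F5] at *
    linarith
  have h2 : ms xE (fun W => Br N W ∧ ∃ z ∈ V W, 2 * ((k : ℤ) + 2) * (N + 1) < z.2) ≤
      ms xE (fun W => Br N W ∧ ∃ z ∈ V W, 2 * ((k : ℤ) + 2) * (N + 1) < -z.2) := by
    rw [← ms_not xE (fun W => Br N W ∧ ∃ z ∈ V W, 2 * ((k : ℤ) + 2) * (N + 1) < -z.2)]
    refine ms_mono fun W h => ⟨Br_not h.1, ?_⟩
    obtain ⟨z, hz, hz2⟩ := h.2
    refine ⟨sg z, by rw [V_not]; exact List.mem_map_of_mem hz, ?_⟩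
    simp only [sg]
    linarith
  have h3 : ms xE (fun W => Br N W ∧ ∃ z ∈ V W, 2 * ((k : ℤ) + 2) * (N + 1) < |z.2|) ≤
      ms xE (fun W => Br N W ∧ ∃ z ∈ V W, 2 * ((k : ℤ) + 2) * (N + 1) < z.2) +
      ms xE (fun W => Br N W ∧ ∃ z ∈ V W, 2 * ((k : ℤ) + 2) * (N + 1) < -z.2) := by
    simp only [ms_ind']
    rw [← ENNReal.tsum_add]
    refine ENNReal.tsum_le_tsum fun W => ?_
    rw [← add_mul]
    refine mul_le_mul_left ((ind_mono ?_).trans (ind_or_le _ _)) _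
    rintro ⟨hB, z, hz, hz2⟩
    rcases lt_abs.1 hz2 with h | h
    · exact Or.inl ⟨hB, z, hz, h⟩
    · exact Or.inr ⟨hB, z, hz, h⟩
  have h4 := wid N k
  calc cs ^ 2 * ms xE (fun W => Br N W ∧ ∃ z ∈ V W, 2 * ((k : ℤ) + 2) * (N + 1) < |z.2|)
      ≤ cs ^ 2 * (ms xE (fun W => Br N W ∧ ∃ z ∈ V W, 3 * (((k + 2) * (N + 1) : ℕ) : ℤ) < F5 z) +
          ms xE (fun W => Br N W ∧ ∃ z ∈ V W, 3 * (((k + 2) * (N + 1) : ℕ) : ℤ) < F5 z)) := by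
        refine mul_le_mul_right (h3.trans (add_le_add (h2.trans h1) h1)) _
    _ = 2 * (cs ^ 2 * ms xE (fun W => Br N W ∧ ∃ z ∈ V W, 3 * (((k + 2) * (N + 1) : ℕ) : ℤ) < F5 z)) := by ring
    _ ≤ 2 * (3 * (ze ^ k * bn (N + 1))) := by gcongr
    _ = _ := by ring

/-- `cs ≥ 9 / 10`. -/
lemma cs_ge : ENNReal.ofReal (9 / 10) ≤ cs := by
  unfold cs
  refine ENNReal.ofReal_le_ofReal ?_
  rw [Real.cos_pi_div_eight]
  have h1 : (1.4 : ℝ) ≤ √2 := by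
    rw [Real.le_sqrt' (by norm_num)]
    norm_num
  have h2 : (1.8 : ℝ) ≤ √(2 + √2) := by
    rw [Real.le_sqrt' (by norm_num)]
    norm_num
    linarith
  linarith

lemma cs_inv : (1 : ℝ≥0∞) ≤ 2 * cs ^ 2 := by
  have h1 := cs_ge
  have h2 : ENNReal.ofReal (9 / 10) ^ 2 ≤ cs ^ 2 := by gcongr
  have h3 : (1 : ℝ≥0∞) ≤ 2 * ENNReal.ofReal (9 / 10) ^ 2 := by
    rw [← ENNReal.ofReal_pow (by norm_num), show (2 : ℝ≥0∞) = ENNReal.ofReal 2 by simp, ← ENNReal.ofReal_mul (by norm_num),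
      ← ENNReal.ofReal_one]
    exact ENNReal.ofReal_le_ofReal (by norm_num)
  exact h3.trans (by gcongr)

/-- Cancel the constant. -/
lemma cs_cancel {X Y : ℝ≥0∞} (h : cs ^ 2 * X ≤ Y) : X ≤ 2 * Y := by
  calc X = 1 * X := (one_mul X).symm
    _ ≤ 2 * cs ^ 2 * X := by gcongr; exact cs_inv
    _ = 2 * (cs ^ 2 * X) := by ring
    _ ≤ 2 * Y := by gcongr

end Pool.Agent.PLY.G
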