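import Pool.Agent.PLY.G.HitB
import Pool.Agent.PLY.G.Defs

/-!
Project PLY, Lemma G, planarity (HIT) for the system `hsI`.

`hsI_hit`: long leg `l ++ [c]`, short leg `s1 ++ s2 ++ s3`, not meeting; at the end level of the short leg all the crossings of the long leg are on
the left (`τ = true`) resp. right (`τ = false`) of its end. Then a vertex of the last block `c` in the levels covered by `s2` is not on the
right (left) of `s2`.
-/

namespace Pool.Agent.HEP

open Pool.Agent.Hhelper14.SAW Pool.Agent.HHP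
open scoped ENNReal

private lemma Hit_br (c : Blk) : F0 (E c.1) = 3 * (htw c.1 : ℤ) - 2 := by
  have h1 := c.2.br.2
  have h2 := htw_pos c.1
  rw [h1]
  omega

private lemma Hit_in (c : Blk) {z : ℤ × ℤ} (hz : z ∈ V c.1) : 0 ≤ F0 z ∧ F0 z ≤ 3 * (htw c.1 : ℤ) - 2 := by
  have h1 := c.2.br.1.2 z hz
  have h2 := htw_pos c.1
  omega

/-- The vertices of a word of blocks. -/
lemma V_jn_mem {s : List Blk} (hs : s ≠ []) {w : ℤ × ℤ} (h : w ∈ V (jn s)) :
    ∃ s' c' s'' w', s = s' ++ c' :: s'' ∧ w' ∈ V (c' : Blk).1 ∧ w.2 = xj s' + w'.2 ∧ F0 w = 3 * (hj s' : ℤ) + F0 w' := by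
  induction s generalizing w with
  | nil => exact absurd rfl hs
  | cons c l ih =>
    by_cases hl : l = []
    · subst hl
      exact ⟨[], c, [], w, rfl, h, by simp [xj], by simp [hj]⟩
    · rw [jn_cons hl, (app_right c.2.br.tn_rt).1, List.mem_append, List.mem_map] at h
      rcases h with h | ⟨w1, h1, rfl⟩
      · exact ⟨[], c, l, w, rfl, h, by simp [xj], by simp [hj]⟩
      · obtain ⟨s', c', s'', w', h2, h3, h4, h5⟩ := ih hl h1
        refine ⟨c :: s', c', s'', w', by rw [h2]; rfl, h3, ?_, ?_⟩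
        · rw [xj_cons]
          simp only [Prod.snd_add]
          rw [h4]; ring
        · rw [hj_cons, F0_add, F0_add, h5, Hit_br c]
          simp only [F0]
          push_cast
          ring

/-- The block of a vertex in the levels of `s2`. -/
private lemma Hit_split {s1 s2 s3 s' s'' : List Blk} {c' : Blk} (h : s1 ++ s2 ++ s3 = s' ++ c' :: s'')
    (h1 : hj s1 < hj s' + htw c'.1) (h2 : hj s' < hj (s1 ++ s2)) :
    ∃ t t', s2 = t ++ c' :: t' ∧ s' = s1 ++ t := by
  rw [List.append_assoc] at h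
  have key : ∃ t, s' = s1 ++ t ∧ s2 ++ s3 = t ++ c' :: s'' := by
    rcases List.append_eq_append_iff.1 h with ⟨t, e1, e2⟩ | ⟨t, e1, e2⟩
    · exact ⟨t, e1, e2⟩
    · cases t with
      | nil =>
        rw [List.append_nil] at e1
        rw [List.nil_append] at e2
        exact ⟨[], by rw [e1]; simp, by rw [← e2]; rfl⟩
      | cons a t =>
        rw [List.cons_append, List.cons.injEq] at e2
        obtain ⟨rfl, -⟩ := e2
        rw [e1, hj_append, hj_cons] at h1
        omega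
  obtain ⟨t, e1, e2⟩ := key
  rcases List.append_eq_append_iff.1 e2 with ⟨t2, e3, e4⟩ | ⟨t2, e3, e4⟩
  · rw [e1, e3, hj_append, hj_append, hj_append] at h2
    omega
  · cases t2 with
    | nil =>
      rw [List.append_nil] at e3
      rw [e1, e3] at h2
      omega
    | cons a t2 =>
      rw [List.cons_append, List.cons.injEq] at e4
      obtain ⟨rfl, -⟩ := e4
      exact ⟨t, t2, e3, e1⟩

private lemma Hit_tub {s2 t t' : List Blk} {c' : Blk} {E' : ℝ} (hE : hsI.tub wdb 0 E' s2) (h : s2 = t ++ c' :: t') :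
    (|xj t| : ℝ) + wdb c' ≤ E' := by
  have h1 := hE t c' t' h
  simp only [zero_mul, sub_zero, abs_zero, add_zero] at h1
  have h2 : ((hsI.x t : ℤ) : ℝ) = (xj t : ℝ) := by rw [hsI_x]
  rw [h2] at h1
  exact h1

private lemma Hit_wd (c : Blk) {z w : ℤ × ℤ} (hz : z ∈ V c.1) (hw : w ∈ V c.1) : (|z.2 - w.2| : ℝ) + 2 ≤ wdb c := by
  have h := wdb_le c hz hw
  have h2 : ((|z.2 - w.2| + 2 : ℤ) : ℝ) ≤ ((wdb c : ℤ) : ℝ) := by exact_mod_cast h
  push_cast at h2
  exact h2

private lemma Hit_xj_cons (c : Blk) (l : List Blk) : xj (l ++ [c]) = xj l + (E c.1).2 := by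
  rw [xj_append]
  simp [xj]

private lemma Hit_finT (l : List Blk) (j : ℕ) : (rowT l j).Finite := by
  have h : rowT l j ⊆ (fun z => (fe (jn l.reverse) + (-1, 0) - z).2) '' ({z | z = o' ∨ z ∈ V (jn l.reverse)}) := by
    rintro y ⟨z, h1, -, rfl⟩
    exact ⟨z, h1, rfl⟩
  refine Set.Finite.subset (Set.Finite.image _ ?_) h
  refine Set.Finite.subset (((V (jn l.reverse)).toFinset ∪ {o'}).finite_toSet) ?_
  rintro z (h1 | h1)
  · simp [h1]
  · simp [h1]

private lemma Hit_finF (l : List Blk) (j : ℕ) : (rowF l j).Finite := by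
  refine Set.Finite.subset (((V (jn l)).toFinset.image Prod.snd).finite_toSet) ?_
  rintro y ⟨z, h1, -, rfl⟩
  simp only [Finset.coe_image, Set.mem_image, Finset.mem_coe, List.mem_toFinset]
  exact ⟨z, h1, rfl⟩

/-- The giant is in the older leg. -/
private lemma Hit_true (τ : Bool) (l s1 s2 s3 : List Blk) (c : Blk)
    (hav : AvI (l ++ [c]) (s1 ++ s2 ++ s3)) (hh : hj (s1 ++ s2 ++ s3) + 1 ≤ hj (l ++ [c]))
    (hos : if τ then sSup (rowT (l ++ [c]) (hj (s1 ++ s2 ++ s3))) + 1 ≤ xj (s1 ++ s2 ++ s3)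
      else xj (s1 ++ s2 ++ s3) + 1 ≤ sInf (rowT (l ++ [c]) (hj (s1 ++ s2 ++ s3))))
    {z0 : ℤ × ℤ} (hz : z0 ∈ V c.1)
    (h1 : 3 * (hj s1 : ℤ) + 6 ≤ 3 * hj l + (F0 (E c.1) - F0 z0))
    (h2 : 3 * (hj l : ℤ) + (F0 (E c.1) - F0 z0) + 6 ≤ 3 * hj (s1 ++ s2)) {E' : ℝ} (hE : hsI.tub wdb 0 E' s2) :
    if τ then (((fe (jn (l ++ [c]).reverse)).2 - z0.2 : ℤ) : ℝ) ≤ xj s1 + E'
      else (xj s1 : ℝ) - E' ≤ (((fe (jn (l ++ [c]).reverse)).2 - z0.2 : ℤ) : ℝ) := by
  by_contra hcon
  set s := s1 ++ s2 ++ s3 with hs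
  have hsne : s ≠ [] := by
    intro h0
    have : hj (s1 ++ s2) ≤ hj s := by rw [hs, hj_append (s1 ++ s2)]; omega
    rw [h0, hj_nil] at this
    omega
  have hlne : (l ++ [c]).reverse ≠ [] := by simp
  have hlr : (l ++ [c]).reverse = c :: l.reverse := by simp
  set X := jn (l ++ [c]).reverse with hXdef
  set Y := jn s with hYdef
  have hX := jn_Br hlne
  have hY := jn_Br hsne
  have ehr : hj (l ++ [c]).reverse = hj (l ++ [c]) := by
    unfold hj
    rw [List.map_reverse, List.sum_reverse]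
  rw [ehr] at hX
  have hsp := hj_pos hsne
  have hlp : 1 ≤ hj (l ++ [c]) := by omega
  have hlc : hj (l ++ [c]) = hj l + htw c.1 := by
    rw [hj_append, hj_cons, hj_nil, add_zero]
  have hN : (V (fw X Y)).Nodup := by
    rcases hav with h | h | h
    · exact absurd h (by simp)
    · exact absurd h hsne
    · exact h
  have hfe := fe_F0 hX
  obtain ⟨-, v2, -, -⟩ := fw_V hX Y
  have hFq : F0 (fe X + (-1, 0)) = 3 * ((hj (l ++ [c]) - 1 : ℕ) : ℤ) - 2 := by
    rw [F0_add, hfe]; simp [F0]; ring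
  have hq2 : (fe X + (-1, 0)).2 = (fe X).2 := by simp
  have hz0X : z0 ∈ V X := by
    rw [hXdef, hlr]
    by_cases hl : l.reverse = []
    · rw [hl]; exact hz
    · rw [jn_cons hl, (app_right c.2.br.tn_rt).1]
      exact List.mem_append_left _ hz
  have hEc := Hit_br c
  have hs12 : hj (s1 ++ s2) ≤ hj s := by rw [hs, hj_append (s1 ++ s2)]; omega
  -- the vertices of the short leg in the rows of `z0`
  have hrow : ∀ w ∈ V Y, (F0 (fe X + (-1, 0) - w) = F0 z0 ∨ F0 (fe X + (-1, 0) - w) = F0 z0 + 1) →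
      (|(w.2 : ℝ) - xj s1| ≤ E' - 2) := by
    intro w hw hF
    rw [F0_sub', hFq] at hF
    obtain ⟨s', c', s'', w', e1, e2, e3, e4⟩ := V_jn_mem hsne hw
    have hb := Hit_in c' e2
    obtain ⟨t, t', e5, e6⟩ := Hit_split (s1 := s1) (s2 := s2) (s3 := s3) e1 (by omega) (by omega)
    have k1 := Hit_tub hE e5
    have k2 := Hit_wd c' e2 (o_mem c'.1)
    simp only [Int.cast_zero, sub_zero] at k2
    rw [e3, e6, xj_append]
    push_cast
    have k3 : (xj s1 : ℝ) + xj t + w'.2 - xj s1 = xj t + w'.2 := by ring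
    rw [k3]
    have k4 := abs_add_le (xj t : ℝ) (w'.2 : ℝ)
    linarith
  -- the row of the end of the short leg
  have hos' : ∀ z, (z = o' ∨ z ∈ V X) → F0 z = 3 * (((hj (l ++ [c]) - 1 : ℕ) : ℤ) - ((hj s - 1 : ℕ) : ℤ) - 1) - 2 →
      if (!τ) then z.2 < (E (fw X Y)).2 else (E (fw X Y)).2 < z.2 := by
    intro z hzm hF
    have hmem : (fe X + (-1, 0) - z).2 ∈ rowT (l ++ [c]) (hj s) := by
      refine ⟨z, hzm, ?_, rfl⟩
      rw [← hXdef, F0_sub', hFq, hF]
      omega
    have hEY : (E Y).2 = xj s := jn_E hsne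
    have e1 : (fe X + (-1, 0) - z).2 = (fe X).2 - z.2 := by rw [Prod.snd_sub, hq2]
    have e2 : (E (fw X Y)).2 = (fe X).2 - xj s := by rw [v2, Prod.snd_sub, hq2, hEY]
    rw [e1] at hmem
    rw [e2]
    cases τ with
    | true =>
      simp only [if_true] at hos
      have := le_csSup (Hit_finT (l ++ [c]) (hj s)).bddAbove hmem
      simp only [Bool.not_true, Bool.false_eq_true, if_false]
      omega
    | false =>
      simp only [Bool.false_eq_true, if_false] at hos
      have := csInf_le (Hit_finT (l ++ [c]) (hj s)).bddBelow hmem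
      simp only [Bool.not_false, if_true]
      omega
  refine hitT hX hY (by omega) hN (!τ) hos' hz0X (by omega) (by omega) ?_
  intro w hw hF
  have h3 := hrow w hw hF
  rw [abs_le] at h3
  have e1 : (fe X + (-1, 0) - w).2 = (fe X).2 - w.2 := by rw [Prod.snd_sub, hq2]
  rw [e1]
  cases τ with
  | true =>
    simp only [if_true, not_le] at hcon
    simp only [Bool.not_true, Bool.false_eq_true, if_false]
    have h4 : (z0.2 : ℝ) < ((fe X).2 - w.2 : ℤ) := by
      push_cast at hcon ⊢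
      linarith [h3.2]
    exact_mod_cast h4
  | false =>
    simp only [Bool.false_eq_true, if_false, not_le] at hcon
    simp only [Bool.not_false, if_true]
    have h4 : (((fe X).2 - w.2 : ℤ) : ℝ) < z0.2 := by
      push_cast at hcon ⊢
      linarith [h3.1]
    exact_mod_cast h4

/-- The giant is in the younger leg. -/
private lemma Hit_false (τ : Bool) (l s1 s2 s3 : List Blk) (c : Blk)
    (hav : AvI (s1 ++ s2 ++ s3) (l ++ [c])) (hh : hj (s1 ++ s2 ++ s3) ≤ hj (l ++ [c]))
    (hos : if τ then sSup (rowF (l ++ [c]) (hj (s1 ++ s2 ++ s3))) + 1 ≤ (fe (jn (s1 ++ s2 ++ s3).reverse)).2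
      else (fe (jn (s1 ++ s2 ++ s3).reverse)).2 + 1 ≤ sInf (rowF (l ++ [c]) (hj (s1 ++ s2 ++ s3))))
    {z0 : ℤ × ℤ} (hz : z0 ∈ V c.1)
    (h1 : 3 * (hj s1 : ℤ) + 6 ≤ 3 * hj l + F0 z0)
    (h2 : 3 * (hj l : ℤ) + F0 z0 + 6 ≤ 3 * hj (s1 ++ s2)) {E' : ℝ} (hE : hsI.tub wdb 0 E' s2) :
    if τ then ((xj l + z0.2 : ℤ) : ℝ) ≤ ((fe (jn (s1 ++ s2 ++ s3).reverse)).2 - xj (s1 ++ s2 ++ s3) : ℝ) + xj s1 + E'
      else ((fe (jn (s1 ++ s2 ++ s3).reverse)).2 - xj (s1 ++ s2 ++ s3) : ℝ) + xj s1 - E' ≤ ((xj l + z0.2 : ℤ) : ℝ) := by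
  by_contra hcon
  set s := s1 ++ s2 ++ s3 with hs
  have hsne : s ≠ [] := by
    intro h0
    have : hj (s1 ++ s2) ≤ hj s := by rw [hs, hj_append (s1 ++ s2)]; omega
    rw [h0, hj_nil] at this
    have := (Hit_in c hz).1
    omega
  have hsr : s.reverse ≠ [] := by simpa using hsne
  have hlne : l ++ [c] ≠ [] := by simp
  set X := jn s.reverse with hXdef
  set Y := jn (l ++ [c]) with hYdef
  have hX := jn_Br hsr
  have hY := jn_Br hlne
  have ehr : hj s.reverse = hj s := by
    unfold hj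
    rw [List.map_reverse, List.sum_reverse]
  rw [ehr] at hX
  have hsp := hj_pos hsne
  have hlc : hj (l ++ [c]) = hj l + htw c.1 := by
    rw [hj_append, hj_cons, hj_nil, add_zero]
  have hN : (V (fw X Y)).Nodup := by
    rcases hav with h | h | h
    · exact absurd h hsne
    · exact absurd h hlne
    · exact h
  have hfe := fe_F0 hX
  have hFq : F0 (fe X + (-1, 0)) = 3 * ((hj s - 1 : ℕ) : ℤ) - 2 := by
    rw [F0_add, hfe]; simp [F0]; ring
  have hq2 : (fe X + (-1, 0)).2 = (fe X).2 := by simp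
  have hs12 : hj (s1 ++ s2) ≤ hj s := by rw [hs, hj_append (s1 ++ s2)]; omega
  -- the vertex `w0` of `Y`
  obtain ⟨w0, hw0, hw2, hwF⟩ : ∃ w0 ∈ V Y, w0.2 = xj l + z0.2 ∧ F0 w0 = 3 * (hj l : ℤ) + F0 z0 := by
    by_cases hl : l = []
    · subst hl
      refine ⟨z0, ?_, by simp [xj], by simp [hj]⟩
      rw [hYdef]
      exact hz
    · refine ⟨(E (jn l) + (1, 0)) + z0, ?_, ?_, ?_⟩
      · rw [hYdef, jn_append hl (by simp), (app_right (jn_Br hl).tn_rt).1]
        exact List.mem_append_right _ (List.mem_map_of_mem hz)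
      · simp only [Prod.snd_add]
        rw [jn_E hl]; ring
      · rw [F0_add, F0_add, (jn_Br hl).2]
        have := hj_pos hl
        simp only [F0]
        omega
  -- the vertices of the short leg in the rows of `w0`
  have hrow : ∀ z ∈ V X, (F0 z = F0 (fe X + (-1, 0) - w0) ∨ F0 z = F0 (fe X + (-1, 0) - w0) + 1) →
      (|(xj s : ℝ) - z.2 - xj s1| ≤ E' - 2) := by
    intro z hzX hF
    rw [F0_sub', hFq, hwF] at hF
    obtain ⟨t', c', t'', w', e1, e2, e3, e4⟩ := V_jn_mem hsr hzX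
    have hb := Hit_in c' e2
    have es : s = t''.reverse ++ c' :: t'.reverse := by
      have := congrArg List.reverse e1
      rw [List.reverse_reverse] at this
      rw [this]; simp
    have htr : hj t'.reverse = hj t' := by
      unfold hj
      rw [List.map_reverse, List.sum_reverse]
    have hxr : xj t'.reverse = xj t' := by
      unfold xj
      rw [List.map_reverse, List.sum_reverse]
    have hhs : hj s = hj t''.reverse + htw c'.1 + hj t' := by
      rw [es, hj_append, hj_cons, htr]; ring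
    have hxs : xj s = xj t''.reverse + (E c'.1).2 + xj t' := by
      rw [es, xj_append, xj_cons, hxr]; ring
    obtain ⟨t, r, e5, e6⟩ := Hit_split (s1 := s1) (s2 := s2) (s3 := s3) es (by omega) (by omega)
    have k1 := Hit_tub hE e5
    have k2 := Hit_wd c' (E_mem c'.1) e2
    have hx1 : (xj s : ℝ) - z.2 - xj s1 = xj t + ((E c'.1).2 - w'.2) := by
      rw [hxs, e3, e6, xj_append]
      push_cast
      ring
    rw [hx1]
    have k4 := abs_add_le (xj t : ℝ) ((E c'.1).2 - w'.2 : ℝ)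
    linarith
  have hos' : ∀ w ∈ V Y, F0 w = 3 * ((hj s - 1 : ℕ) : ℤ) → if τ then w.2 < (fe X).2 else (fe X).2 < w.2 := by
    intro w hw hF
    have hmem : w.2 ∈ rowF (l ++ [c]) (hj s) := ⟨w, hw, by rw [hF]; omega, rfl⟩
    cases τ with
    | true =>
      simp only [if_true] at hos ⊢
      have := le_csSup (Hit_finF (l ++ [c]) (hj s)).bddAbove hmem
      omega
    | false =>
      simp only [Bool.false_eq_true, if_false] at hos ⊢
      have := csInf_le (Hit_finF (l ++ [c]) (hj s)).bddBelow hmem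
      omega
  refine hitF hX hY (by omega) hN τ hos' hw0 (by rw [hwF]; omega) ?_
  intro z hzX hF
  have h3 := hrow z hzX hF
  rw [abs_le] at h3
  have e1 : (fe X + (-1, 0) - w0).2 = (fe X).2 - (xj l + z0.2) := by rw [Prod.snd_sub, hq2, hw2]
  rw [e1]
  cases τ with
  | true =>
    simp only [if_true, not_le] at hcon ⊢
    have h4 : (((fe X).2 - (xj l + z0.2) : ℤ) : ℝ) < z.2 := by
      push_cast at hcon ⊢
      linarith [h3.1, h3.2]
    exact_mod_cast h4
  | false =>
    simp only [Bool.false_eq_true, if_false, not_le] at hcon ⊢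
    have h4 : (z.2 : ℝ) < ((fe X).2 - (xj l + z0.2) : ℤ) := by
      push_cast at hcon ⊢
      linarith [h3.1, h3.2]
    exact_mod_cast h4

private lemma Hit_p1_app (s t : List Blk) (h : s ≠ []) : hsI.p1 (s ++ t : List Blk) = hsI.p1 s + xj t :=
  hsI.p1_append h t

private lemma Hit_p1_sub (s : List Blk) : |hsI.p1 s - xj s| ≤ 1 := hsI.p1_sub s

private lemma Hit_h_app (s t : List Blk) : hsI.h (s ++ t : List Blk) = hsI.h s + hsI.h t := hsI.h_append s t

private lemma Hit_h_nil : hsI.h ([] : List Blk) = 0 := rfl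

/-- **HIT.** -/
theorem hsI_hit (σ τ : Bool) (l s1 s2 s3 : List Blk) (c : Blk)
    (hav : hsI.av σ (l ++ [c]) (s1 ++ s2 ++ s3)) (hh : hsI.h (s1 ++ s2 ++ s3) ≤ hsI.h (l ++ [c]) - Sys.d σ)
    (hos : if τ then hsI.hi σ (l ++ [c]) (hsI.h (s1 ++ s2 ++ s3)) + 1 ≤ hsI.ps σ (s1 ++ s2 ++ s3)
      else hsI.ps σ (s1 ++ s2 ++ s3) + 1 ≤ hsI.lo σ (l ++ [c]) (hsI.h (s1 ++ s2 ++ s3)))
    {u v : ℤ} (hv : vsB σ c u v) (h1 : 3 * (hsI.h s1 : ℤ) + 6 ≤ 3 * hsI.h l + v)
    (h2 : 3 * (hsI.h l : ℤ) + v + 6 ≤ 3 * hsI.h (s1 ++ s2)) {E' : ℝ} (hE : hsI.tub wdb 0 E' s2) :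
    if τ then ((hsI.pl σ l + u : ℤ) : ℝ) ≤ hsI.ps σ s1 + E' + 2 else (hsI.ps σ s1 : ℝ) - E' - 2 ≤ ((hsI.pl σ l + u : ℤ) : ℝ) := by
  obtain ⟨z0, hz, hv⟩ := hv
  cases σ with
  | true =>
    simp only [if_true] at hv
    obtain ⟨rfl, rfl⟩ := hv
    have hne : 1 ≤ hsI.h (s1 ++ s2 ++ s3) := by
      have e1 := Hit_h_app (s1 ++ s2) s3
      omega
    have hh' : hj (s1 ++ s2 ++ s3) + 1 ≤ hj (l ++ [c]) := by
      have e1 : hsI.h (s1 ++ s2 ++ s3) = hj (s1 ++ s2 ++ s3) := rfl
      have e2 : hsI.h (l ++ [c]) = hj (l ++ [c]) := rfl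
      rw [Sys.d_true] at hh
      omega
    have key := Hit_true τ l s1 s2 s3 c hav hh' (by
      cases τ with
      | true => simp only [if_true] at hos ⊢; exact hos
      | false => simp only [Bool.false_eq_true, if_false] at hos ⊢; exact hos) hz h1 h2 hE
    -- the position of the fold
    have hp : |((fe (jn (l ++ [c]).reverse)).2 : ℤ) - (hsI.pl true l + (E c.1).2)| ≤ 1 := by
      have e1 : (fe (jn (l ++ [c]).reverse)).2 = hsI.p1 (l ++ [c]) := (hsI_p1 (by simp)).symm
      rw [e1]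
      change |hsI.p1 (l ++ [c]) - (hsI.p1 l + (E c.1).2)| ≤ 1
      by_cases hl : l = []
      · subst hl
        have e2 : hsI.p1 ([] ++ [c] : List Blk) = hsI.ee c + xj [c] := rfl
        have e3 : xj [c] = (E c.1).2 := by simp [xj]
        have e4 : hsI.p1 ([] : List Blk) = 0 := rfl
        rw [e2, e3, e4]
        have := hsI.ee_le c
        have e5 : hsI.ee c + (E c.1).2 - (0 + (E c.1).2) = hsI.ee c := by ring
        rw [e5]; exact this
      · have e2 := Hit_p1_app l [c] hl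
        have e3 : xj [c] = (E c.1).2 := by simp [xj]
        rw [e3] at e2
        rw [e2, sub_self, abs_zero]
        exact zero_le_one
    rw [abs_le] at hp
    have hp1 : ((fe (jn (l ++ [c]).reverse)).2 : ℝ) - (hsI.pl true l + (E c.1).2) ≤ 1 := by exact_mod_cast hp.2
    have hp2 : -1 ≤ ((fe (jn (l ++ [c]).reverse)).2 : ℝ) - (hsI.pl true l + (E c.1).2) := by exact_mod_cast hp.1
    have hps : ((hsI.ps true s1 : ℤ) : ℝ) = xj s1 := by rfl
    rw [hps]
    cases τ with
    | true =>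
      simp only [if_true] at key ⊢
      push_cast at key ⊢
      linarith
    | false =>
      simp only [Bool.false_eq_true, if_false] at key ⊢
      push_cast at key ⊢
      linarith
  | false =>
    simp only [Bool.false_eq_true, if_false] at hv
    obtain ⟨rfl, rfl⟩ := hv
    have hsne : s1 ++ s2 ++ s3 ≠ [] := by
      intro h0
      have e1 := Hit_h_app (s1 ++ s2) s3
      rw [h0, Hit_h_nil] at e1
      have := (Hit_in c hz).1
      omega
    have e1 : (fe (jn (s1 ++ s2 ++ s3).reverse)).2 = hsI.p1 (s1 ++ s2 ++ s3) := (hsI_p1 hsne).symm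
    have hh' : hj (s1 ++ s2 ++ s3) ≤ hj (l ++ [c]) := by
      rw [Sys.d_false] at hh
      exact hh
    have key := Hit_false τ l s1 s2 s3 c hav hh' (by
      rw [e1]
      cases τ with
      | true => simp only [if_true] at hos ⊢; exact hos
      | false => simp only [Bool.false_eq_true, if_false] at hos ⊢; exact hos) hz h1 h2 hE
    rw [e1] at key
    -- the correction at the fold
    have hp : |(hsI.p1 (s1 ++ s2 ++ s3) - xj (s1 ++ s2 ++ s3) + xj s1) - hsI.ps false s1| ≤ 1 := by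
      change |(hsI.p1 (s1 ++ s2 ++ s3) - xj (s1 ++ s2 ++ s3) + xj s1) - hsI.p1 s1| ≤ 1
      by_cases hl : s1 = []
      · subst hl
        have e4 : hsI.p1 ([] : List Blk) = 0 := rfl
        have e5 : xj ([] : List Blk) = 0 := by simp [xj]
        rw [e4, e5]
        have := Hit_p1_sub ([] ++ s2 ++ s3)
        rw [add_zero, sub_zero]
        exact this
      · have e2 : hsI.p1 (s1 ++ s2 ++ s3) = hsI.p1 s1 + xj (s2 ++ s3) := by
          rw [List.append_assoc]
          exact Hit_p1_app s1 (s2 ++ s3) hl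
        have e3 : xj (s1 ++ s2 ++ s3) = xj s1 + xj (s2 ++ s3) := by
          rw [List.append_assoc, xj_append]
        rw [e2, e3]
        have e7 : hsI.p1 s1 + xj (s2 ++ s3) - (xj s1 + xj (s2 ++ s3)) + xj s1 - hsI.p1 s1 = 0 := by ring
        rw [e7]
        simp
    rw [abs_le] at hp
    have hp1 : ((hsI.p1 (s1 ++ s2 ++ s3) : ℝ) - xj (s1 ++ s2 ++ s3) + xj s1) - hsI.ps false s1 ≤ 1 := by exact_mod_cast hp.2
    have hp2 : -1 ≤ ((hsI.p1 (s1 ++ s2 ++ s3) : ℝ) - xj (s1 ++ s2 ++ s3) + xj s1) - hsI.ps false s1 := by exact_mod_cast hp.1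
    have hpl : hsI.pl false l = xj l := rfl
    rw [hpl]
    cases τ with
    | true =>
      simp only [if_true] at key ⊢
      push_cast at key ⊢
      linarith
    | false =>
      simp only [Bool.false_eq_true, if_false] at key ⊢
      push_cast at key ⊢
      linarith

end Pool.Agent.HEP
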