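import Pool.Agent.HEP.GSide

/-!
Project PLY, Lemma G, planarity (HIT), abstract part.

A barrier `Bar = [e2 + (0, -1), e2, e1] ++ A2` (`e1 = e2 + (1, 0)`, `F0 e2 = 3 m - 2`, all points of `A2` have `F0 ≥ 3 m`), a path `P` of unit
steps, strictly between the ends of the barrier, which does not meet it. If `P` has a point `z1` in the row `F0 = 3 m - 2` on one
side of `e2`, then it has no point `z0` which lies on the other side of ALL the points of the barrier in the rows `F0 z0`, `F0 z0 + 1`: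
the invariant `Iv` of HEP/GSide is constant on `P`; from `z0` it is also constant along the zigzag to infinity in the two rows, and then
down to the row `F0 = 3 m - 2`, where `Iv_row` gives the other value.
-/

namespace Pool.Agent.HEP

open Pool.Agent.Hhelper14.SAW Pool.Agent.HHP

private lemma HitA_U {x y : ℤ × ℤ} (p : ℤ × ℤ) (hp : U p) (h : y = x + p) : U (x - y) := by
  subst h
  have : x - (x + p) = -p := by ring
  rw [this]
  exact hp.neg

/-- The zigzag to the left. -/
private lemma HitA_left {B : List (ℤ × ℤ)} {hb z : ℤ × ℤ} (hB : UChain (hb :: B)) (h1 : F0 hb < F0 z)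
    (h2 : F0 z + 1 < F0 ((hb :: B).getLast (by simp)))
    (hr : ∀ b ∈ hb :: B, (F0 b = F0 z ∨ F0 b = F0 z + 1) → z.2 < b.2) (k : ℕ) :
    Iv (hb :: B) hb ((hb :: B).getLast (by simp)) z =
      Iv (hb :: B) hb ((hb :: B).getLast (by simp)) (z + ((k : ℤ), -(2 * (k : ℤ)))) := by
  induction k with
  | zero =>
    congr 1
    ext <;> simp
  | succ k ih =>
    rw [ih]
    set u : ℤ × ℤ := z + ((k : ℤ), -(2 * (k : ℤ))) with hu
    have hu1 : u.1 = z.1 + k := by rw [hu]; simp
    have hu2 : u.2 = z.2 - 2 * k := by rw [hu]; simp; ring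
    have e3 : z + (((k + 1 : ℕ) : ℤ), -(2 * ((k + 1 : ℕ) : ℤ))) = (u + (1, -1)) + (0, -1) := by
      ext <;> simp <;> omega
    rw [e3]
    have f1 : F0 u = F0 z := by simp only [F0]; omega
    have f2 : F0 (u + (1, -1)) = F0 z + 1 := by simp only [F0, Prod.fst_add, Prod.snd_add] at *; omega
    have f3 : F0 ((u + (1, -1)) + (0, -1)) = F0 z := by
      simp only [F0, Prod.fst_add, Prod.snd_add] at *; omega
    have n1 : u ∉ hb :: B := fun h => by
      have := hr _ h (Or.inl f1); omega
    have n2 : u + (1, -1) ∉ hb :: B := fun h => by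
      have := hr _ h (Or.inr f2); simp only [Prod.snd_add] at this; omega
    have n3 : (u + (1, -1)) + (0, -1) ∉ hb :: B := fun h => by
      have := hr _ h (Or.inl f3); simp only [Prod.snd_add] at this; omega
    rw [Iv_step hB (p := u) (q := u + (1, -1)) (HitA_U (1, -1) (by simp [U]) rfl) n1 n2 (by omega) (by omega)
      (by omega) (by omega)]
    exact Iv_step hB (HitA_U (0, -1) (by simp [U]) rfl) n2 n3 (by omega) (by omega) (by omega) (by omega)

/-- The zigzag to the right. -/
private lemma HitA_right {B : List (ℤ × ℤ)} {hb z : ℤ × ℤ} (hB : UChain (hb :: B)) (h1 : F0 hb < F0 z)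
    (h2 : F0 z + 1 < F0 ((hb :: B).getLast (by simp)))
    (hr : ∀ b ∈ hb :: B, (F0 b = F0 z ∨ F0 b = F0 z + 1) → b.2 < z.2) (k : ℕ) :
    Iv (hb :: B) hb ((hb :: B).getLast (by simp)) z =
      Iv (hb :: B) hb ((hb :: B).getLast (by simp)) (z + (-(k : ℤ), 2 * (k : ℤ))) := by
  induction k with
  | zero =>
    congr 1
    ext <;> simp
  | succ k ih =>
    rw [ih]
    set u : ℤ × ℤ := z + (-(k : ℤ), 2 * (k : ℤ)) with hu
    have hu1 : u.1 = z.1 - k := by rw [hu]; simp; ring
    have hu2 : u.2 = z.2 + 2 * k := by rw [hu]; simp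
    have e3 : z + (-((k + 1 : ℕ) : ℤ), 2 * ((k + 1 : ℕ) : ℤ)) = (u + (0, 1)) + (-1, 1) := by
      ext <;> simp <;> omega
    rw [e3]
    have f1 : F0 u = F0 z := by simp only [F0]; omega
    have f2 : F0 (u + (0, 1)) = F0 z + 1 := by simp only [F0, Prod.fst_add, Prod.snd_add] at *; omega
    have f3 : F0 ((u + (0, 1)) + (-1, 1)) = F0 z := by
      simp only [F0, Prod.fst_add, Prod.snd_add] at *; omega
    have n1 : u ∉ hb :: B := fun h => by
      have := hr _ h (Or.inl f1); omega
    have n2 : u + (0, 1) ∉ hb :: B := fun h => by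
      have := hr _ h (Or.inr f2); simp only [Prod.snd_add] at this; omega
    have n3 : (u + (0, 1)) + (-1, 1) ∉ hb :: B := fun h => by
      have := hr _ h (Or.inl f3); simp only [Prod.snd_add] at this; omega
    rw [Iv_step hB (p := u) (q := u + (0, 1)) (HitA_U (0, 1) (by simp [U]) rfl) n1 n2 (by omega) (by omega)
      (by omega) (by omega)]
    exact Iv_step hB (HitA_U (-1, 1) (by simp [U]) rfl) n2 n3 (by omega) (by omega) (by omega) (by omega)

/-- Down at the left of everything. -/
private lemma HitA_downL {B : List (ℤ × ℤ)} {hb z : ℤ × ℤ} (hB : UChain (hb :: B))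
    (hr : ∀ b ∈ hb :: B, z.2 < b.2) (h2 : F0 z < F0 ((hb :: B).getLast (by simp))) (n : ℕ) (h1 : F0 hb < F0 z - n) :
    Iv (hb :: B) hb ((hb :: B).getLast (by simp)) z =
      Iv (hb :: B) hb ((hb :: B).getLast (by simp)) (z + (0, -(n : ℤ))) := by
  induction n with
  | zero =>
    congr 1
    ext <;> simp
  | succ n ih =>
    rw [ih (by push_cast at h1; omega)]
    set u : ℤ × ℤ := z + (0, -(n : ℤ)) with hu
    have hu1 : u.1 = z.1 := by rw [hu]; simp
    have hu2 : u.2 = z.2 - n := by rw [hu]; simp; ring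
    have e3 : z + (0, -((n + 1 : ℕ) : ℤ)) = u + (0, -1) := by
      ext <;> simp <;> omega
    rw [e3]
    have f1 : F0 u = F0 z - n := by simp only [F0]; omega
    have f2 : F0 (u + (0, -1)) = F0 z - n - 1 := by simp only [F0, Prod.fst_add, Prod.snd_add] at *; omega
    push_cast at h1
    exact Iv_step hB (HitA_U (0, -1) (by simp [U]) rfl) (fun h => by have := hr _ h; omega)
      (fun h => by have := hr _ h; simp only [Prod.snd_add] at this; omega) (by omega) (by omega) (by omega) (by omega)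

/-- Down at the right of everything. -/
private lemma HitA_downR {B : List (ℤ × ℤ)} {hb z : ℤ × ℤ} (hB : UChain (hb :: B))
    (hr : ∀ b ∈ hb :: B, b.2 < z.2) (h2 : F0 z < F0 ((hb :: B).getLast (by simp))) (n : ℕ) (h1 : F0 hb < F0 z - n) :
    Iv (hb :: B) hb ((hb :: B).getLast (by simp)) z =
      Iv (hb :: B) hb ((hb :: B).getLast (by simp)) (z + (-(n : ℤ), (n : ℤ))) := by
  induction n with
  | zero =>
    congr 1
    ext <;> simp
  | succ n ih =>
    rw [ih (by push_cast at h1; omega)]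
    set u : ℤ × ℤ := z + (-(n : ℤ), (n : ℤ)) with hu
    have hu1 : u.1 = z.1 - n := by rw [hu]; simp; ring
    have hu2 : u.2 = z.2 + n := by rw [hu]; simp
    have e3 : z + (-((n + 1 : ℕ) : ℤ), ((n + 1 : ℕ) : ℤ)) = u + (-1, 1) := by
      ext <;> simp <;> omega
    rw [e3]
    have f1 : F0 u = F0 z - n := by simp only [F0]; omega
    have f2 : F0 (u + (-1, 1)) = F0 z - n - 1 := by simp only [F0, Prod.fst_add, Prod.snd_add] at *; omega
    push_cast at h1
    exact Iv_step hB (HitA_U (-1, 1) (by simp [U]) rfl) (fun h => by have := hr _ h; omega)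
      (fun h => by have := hr _ h; simp only [Prod.snd_add] at this; omega) (by omega) (by omega) (by omega) (by omega)

private lemma HitA_bdd (L : List (ℤ × ℤ)) : ∃ M : ℕ, ∀ b ∈ L, |b.2| ≤ M := by
  induction L with
  | nil => exact ⟨0, by simp⟩
  | cons a L ih =>
    obtain ⟨M, hM⟩ := ih
    refine ⟨max M a.2.natAbs, ?_⟩
    intro b hb
    rcases List.mem_cons.1 hb with rfl | hb
    · have : |b.2| = (b.2.natAbs : ℤ) := (Int.natCast_natAbs _).symm
      rw [this]
      exact_mod_cast le_max_right _ _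
    · exact (hM b hb).trans (by exact_mod_cast le_max_left _ _)

/-- **The abstract hitting lemma.** `τ = true`: the path ends left of `e2`. -/
theorem hit_abs {A2 P : List (ℤ × ℤ)} {e1 e2 : ℤ × ℤ} {m : ℤ} (τ : Bool)
    (hB : UChain (e1 :: A2)) (he : e1 = e2 + (1, 0)) (he2 : F0 e2 = 3 * m - 2) (hA : ∀ z ∈ A2, 3 * m ≤ F0 z)
    (hP : UChain P) (hd : ∀ z ∈ P, z ∉ e1 :: A2) (hlo : ∀ z ∈ P, 3 * m - 2 ≤ F0 z)
    (hhi : ∀ z ∈ P, F0 z < F0 ((e1 :: A2).getLast (by simp)))
    (hs : ∀ z ∈ P, F0 z = 3 * m - 2 → if τ then z.2 < e2.2 else e2.2 < z.2)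
    {z0 z1 : ℤ × ℤ} (h0 : z0 ∈ P) (h1 : z1 ∈ P) (hz1 : F0 z1 = 3 * m - 2)
    (hz0 : 3 * m ≤ F0 z0) (hz0' : F0 z0 + 1 < F0 ((e1 :: A2).getLast (by simp)))
    (hr : ∀ b ∈ e1 :: A2, (F0 b = F0 z0 ∨ F0 b = F0 z0 + 1) → if τ then b.2 < z0.2 else z0.2 < b.2) : False := by
  set hb : ℤ × ℤ := e2 + (0, -1) with hhb
  have hFb : F0 hb = 3 * m - 3 := by rw [hhb]; simp only [F0, Prod.fst_add, Prod.snd_add] at *; omega
  set B : List (ℤ × ℤ) := e2 :: e1 :: A2 with hBdef
  have hBc : UChain (hb :: B) := by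
    refine List.isChain_cons_cons.2 ⟨?_, List.isChain_cons_cons.2 ⟨?_, hB⟩⟩
    · rw [hhb]; simp [U]
    · rw [he]; exact HitA_U (1, 0) (by simp [U]) rfl
  have hlast : (hb :: B).getLast (by simp) = (e1 :: A2).getLast (by simp) := by
    rw [hBdef]
    simp
  have hbar : [hb] ++ e2 :: e1 :: A2 = hb :: B := rfl
  -- the points of the path are not in the barrier
  have hdB : ∀ z ∈ P, z ∉ hb :: B := by
    intro z hz hm
    rcases List.mem_cons.1 hm with h | h
    · have := hlo z hz; rw [h, hFb] at this; omega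
    · rcases List.mem_cons.1 h with h | h
      · have := hs z hz (by rw [h]; exact he2)
        rw [h] at this
        split_ifs at this <;> omega
      · exact hd z hz h
  obtain ⟨h, P', rfl⟩ : ∃ h P', P = h :: P' := by
    cases P with
    | nil => exact absurd h0 (by simp)
    | cons a A => exact ⟨_, _, rfl⟩
  have hlo' : ∀ z ∈ h :: P', F0 hb < F0 z := fun z hz => by have := hlo z hz; omega
  have hhi' : ∀ z ∈ h :: P', F0 z < F0 ((hb :: B).getLast (by simp)) := fun z hz => by rw [hlast]; exact hhi z hz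
  have c0 := Iv_chain hBc P' h hP hdB hlo' hhi' z0 h0
  have c1 := Iv_chain hBc P' h hP hdB hlo' hhi' z1 h1
  have r1 := Iv_row hbar hBc he he2 (by intro z hz; rw [List.mem_singleton] at hz; rw [hz, hFb]; omega) hA
    (hdB z1 h1) (hlo' z1 h1) hz1
  have hs1 := hs z1 h1 hz1
  -- the points of the barrier in the two rows
  have hrB : ∀ b ∈ hb :: B, (F0 b = F0 z0 ∨ F0 b = F0 z0 + 1) → if τ then b.2 < z0.2 else z0.2 < b.2 := by
    intro b hbm hF
    rcases List.mem_cons.1 hbm with hh | hh
    · exfalso; rw [hh, hFb] at hF; omega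
    · rcases List.mem_cons.1 hh with hh | hh
      · exfalso; rw [hh, he2] at hF; omega
      · exact hr b hh hF
  obtain ⟨M, hM⟩ := HitA_bdd (hb :: B)
  have he2M := hM e2 (by rw [hBdef]; simp)
  rw [← hlast] at hz0'
  cases τ with
  | true =>
    simp only [if_true] at hs1 hrB
    -- to the right
    set k : ℕ := (M + z0.2.natAbs + 1) with hk
    have hkz : |z0.2| = (z0.2.natAbs : ℤ) := (Int.natCast_natAbs _).symm
    set u : ℤ × ℤ := z0 + (-(k : ℤ), 2 * (k : ℤ)) with hu
    have hu1 : u.1 = z0.1 - k := by rw [hu]; simp; ring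
    have hu2 : u.2 = z0.2 + 2 * k := by rw [hu]; simp
    have hku : (M : ℤ) < u.2 := by
      have := neg_abs_le z0.2
      rw [hu2]
      push_cast [hk]
      omega
    have i1 := HitA_right hBc (z := z0) (by omega) hz0' hrB k
    have hur : ∀ b ∈ hb :: B, b.2 < u.2 := fun b hbm => by
      have := hM b hbm
      have := le_abs_self b.2
      omega
    have hFu : F0 u = F0 z0 := by simp only [F0]; omega
    obtain ⟨n, hn⟩ : ∃ n : ℕ, (n : ℤ) = F0 z0 - (3 * m - 2) := ⟨(F0 z0 - (3 * m - 2)).toNat, by omega⟩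
    have i2 := HitA_downR hBc hur (by rw [hFu]; omega) n (by rw [hFu]; omega)
    set y : ℤ × ℤ := u + (-(n : ℤ), (n : ℤ)) with hy
    have hy1 : y.1 = u.1 - n := by rw [hy]; simp; ring
    have hy2 : y.2 = u.2 + n := by rw [hy]; simp
    have hFy : F0 y = 3 * m - 2 := by simp only [F0] at *; omega
    have r2 := Iv_row hbar hBc he he2 (by intro z hz; rw [List.mem_singleton] at hz; rw [hz, hFb]; omega) hA
      (z := y) (fun hm => by have := hur y hm; omega) (by rw [hFb, hFy]; omega) hFy
    rw [if_neg (by have := le_abs_self e2.2; omega)] at r2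
    rw [if_pos hs1] at r1
    rw [← i2, ← i1, c0] at r2
    rw [c1] at r1
    rw [r1] at r2
    omega
  | false =>
    simp only [Bool.false_eq_true, if_false] at hs1 hrB
    set k : ℕ := (M + z0.2.natAbs + 1) with hk
    have hkz : |z0.2| = (z0.2.natAbs : ℤ) := (Int.natCast_natAbs _).symm
    set u : ℤ × ℤ := z0 + ((k : ℤ), -(2 * (k : ℤ))) with hu
    have hu1 : u.1 = z0.1 + k := by rw [hu]; simp
    have hu2 : u.2 = z0.2 - 2 * k := by rw [hu]; simp; ring
    have hku : u.2 < -(M : ℤ) := by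
      have := le_abs_self z0.2
      rw [hu2]
      push_cast [hk]
      omega
    have i1 := HitA_left hBc (z := z0) (by omega) hz0' hrB k
    have hur : ∀ b ∈ hb :: B, u.2 < b.2 := fun b hbm => by
      have := hM b hbm
      have := neg_abs_le b.2
      omega
    have hFu : F0 u = F0 z0 := by simp only [F0]; omega
    obtain ⟨n, hn⟩ : ∃ n : ℕ, (n : ℤ) = F0 z0 - (3 * m - 2) := ⟨(F0 z0 - (3 * m - 2)).toNat, by omega⟩
    have i2 := HitA_downL hBc hur (by rw [hFu]; omega) n (by rw [hFu]; omega)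
    set y : ℤ × ℤ := u + (0, -(n : ℤ)) with hy
    have hy1 : y.1 = u.1 := by rw [hy]; simp
    have hy2 : y.2 = u.2 - n := by rw [hy]; simp; ring
    have hFy : F0 y = 3 * m - 2 := by simp only [F0] at *; omega
    have r2 := Iv_row hbar hBc he he2 (by intro z hz; rw [List.mem_singleton] at hz; rw [hz, hFb]; omega) hA
      (z := y) (fun hm => by have := hur y hm; omega) (by rw [hFb, hFy]; omega) hFy
    rw [if_pos (by have := neg_abs_le e2.2; omega)] at r2
    rw [if_neg (by omega)] at r1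
    rw [← i2, ← i1, c0] at r2
    rw [c1] at r1
    rw [r1] at r2
    omega

end Pool.Agent.HEP
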