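import Pool.Agent.PLY.G.HitA
import Pool.Agent.HEP.GPLA
import Pool.Agent.HHP.Lib

/-!
Project PLY, Lemma G, planarity (HIT), the two cases in words.

`hit_path`: `hit_abs` for a path which starts at `z0` and ends below the line. `hitT`: the giant is in the older leg `X`, the barrier is the
younger leg `Y`, extended above the fold by `fe X`, `E X`, `E X + (1, 0)`. `hitF`: the giant is in the younger leg `Y`, the barrier is `X`.
-/

namespace Pool.Agent.HEP

open Pool.Agent.Hhelper14.SAW Pool.Agent.HHP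

/-- First point with a property. -/
lemma hit_seg (p : ℤ × ℤ → Prop) : ∀ (R : List (ℤ × ℤ)) (z0 : ℤ × ℤ), ¬ p z0 → p ((z0 :: R).getLast (by simp)) →
    ∃ M z1 R', R = M ++ z1 :: R' ∧ p z1 ∧ ∀ z ∈ M, ¬ p z := by
  intro R
  induction R with
  | nil => intro z0 h1 h2; exact absurd (by simpa using h2) h1
  | cons x R ih =>
    intro z0 h1 h2
    by_cases hx : p x
    · exact ⟨[], x, R, rfl, hx, by simp⟩
    · obtain ⟨M, z1, R', h3, h4, h5⟩ := ih x hx (by simpa using h2)
      refine ⟨x :: M, z1, R', by rw [h3]; rfl, h4, ?_⟩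
      intro z hz
      rcases List.mem_cons.1 hz with rfl | hz
      · exact hx
      · exact h5 z hz

/-- `hit_abs` for a path which ends below the line. -/
theorem hit_path {A2 R : List (ℤ × ℤ)} {e1 e2 z0 : ℤ × ℤ} {m : ℤ} (τ : Bool)
    (hB : UChain (e1 :: A2)) (he : e1 = e2 + (1, 0)) (he2 : F0 e2 = 3 * m - 2) (hA : ∀ z ∈ A2, 3 * m ≤ F0 z)
    (hP : UChain (z0 :: R)) (hd : ∀ z ∈ z0 :: R, z ∉ e1 :: A2) (hmod : ∀ z ∈ z0 :: R, F0 z % 3 ≠ 2)
    (hend : F0 ((z0 :: R).getLast (by simp)) < 3 * m)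
    (hhi : ∀ z ∈ z0 :: R, F0 z < F0 ((e1 :: A2).getLast (by simp)))
    (hs : ∀ z ∈ z0 :: R, F0 z = 3 * m - 2 → if τ then z.2 < e2.2 else e2.2 < z.2)
    (hz0 : 3 * m ≤ F0 z0) (hz0' : F0 z0 + 1 < F0 ((e1 :: A2).getLast (by simp)))
    (hr : ∀ b ∈ e1 :: A2, (F0 b = F0 z0 ∨ F0 b = F0 z0 + 1) → if τ then b.2 < z0.2 else z0.2 < b.2) : False := by
  obtain ⟨M, z1, R', hR, h1, h2⟩ := hit_seg (fun z => F0 z < 3 * m) R z0 (by simpa using hz0) hend
  have hsub : z0 :: R = (z0 :: M ++ [z1]) ++ R' := by rw [hR]; simp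
  have hPc : UChain (z0 :: M ++ [z1]) := by
    rw [hsub] at hP
    exact (List.isChain_append.1 hP).1
  have hmem : ∀ z ∈ z0 :: M ++ [z1], z ∈ z0 :: R := fun z hz => by
    rw [hsub]; exact List.mem_append_left _ hz
  have hMl : ∀ z ∈ z0 :: M, 3 * m ≤ F0 z := by
    intro z hz
    rcases List.mem_cons.1 hz with rfl | hz
    · exact hz0
    · exact not_lt.1 (h2 z hz)
  -- the crossing
  have hz1 : F0 z1 = 3 * m - 2 := by
    have hm1 := hmod z1 (hmem z1 (by simp))
    -- the point before `z1`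
    have hne : (z0 :: M) ≠ [] := by simp
    set x : ℤ × ℤ := (z0 :: M).getLast hne with hx
    have hxm : x ∈ z0 :: M := List.getLast_mem hne
    have hxl := hMl x hxm
    have hU : U (x - z1) := by
      have h3 := (List.isChain_append.1 hPc).2.2
      exact h3 x (by rw [hx]; exact List.getLast?_eq_some_getLast hne) z1 (by simp)
    have hstep : F0 x - F0 z1 ≤ 2 := by
      simp only [U, F0, Prod.fst_sub, Prod.snd_sub] at *
      omega
    omega
  refine hit_abs τ hB he he2 hA hPc (fun z hz => hd z (hmem z hz)) ?_ (fun z hz => hhi z (hmem z hz))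
    (fun z hz => hs z (hmem z hz)) (z0 := z0) (z1 := z1) (by simp) (by simp) hz1 hz0 hz0' hr
  intro z hz
  rcases List.mem_append.1 hz with hz | hz
  · have := hMl z hz; omega
  · rw [List.mem_singleton] at hz; rw [hz]; omega

private lemma HitB_last (W : List Bool) : V W = (V W).dropLast ++ [E W] := by
  have h := vs_getLast? (0, 0) (1, 0) W
  have hne : V W ≠ [] := by
    intro h0
    have := o_mem W
    rw [h0] at this
    simp at this
  have h2 : (V W).getLast hne = E W := by
    have h3 : (V W).getLast? = some (E W) := h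
    rw [List.getLast?_eq_some_getLast hne] at h3
    exact Option.some_injective _ h3
  rw [← h2]
  exact (List.dropLast_append_getLast hne).symm

private lemma HitB_head (W : List Bool) : V W = (0, 0) :: (V W).tail := by
  cases W <;> rfl

private lemma HitB_mod {W : List Bool} {z : ℤ × ℤ} (h : z ∈ V W) : F0 z % 3 ≠ 2 := by
  have := V_hon h
  simp only [hon, F0] at *
  omega

private lemma HitB_rev {L : List (ℤ × ℤ)} (h : UChain L) : UChain L.reverse := by
  unfold UChain at *
  rw [List.isChain_reverse]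
  exact List.IsChain.imp (fun x y h => h.symm) h

/-- The giant is in the older leg. `q = fe X + (-1, 0)`; the point `w` of the frame of `Y` is `q - w`. -/
theorem hitT {a c : ℕ} {X Y : List Bool} (hX : Br a X) (hY : Br c Y) (hca : c + 1 ≤ a) (hN : (V (fw X Y)).Nodup) (τ : Bool)
    (hs : ∀ z, (z = o' ∨ z ∈ V X) → F0 z = 3 * ((a : ℤ) - c - 1) - 2 →
      if τ then z.2 < (E (fw X Y)).2 else (E (fw X Y)).2 < z.2)
    {z0 : ℤ × ℤ} (h0 : z0 ∈ V X) (hl : 3 * ((a : ℤ) - c - 1) ≤ F0 z0) (hh : F0 z0 + 1 < 3 * a)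
    (hr : ∀ w ∈ V Y, (F0 (fe X + (-1, 0) - w) = F0 z0 ∨ F0 (fe X + (-1, 0) - w) = F0 z0 + 1) →
      if τ then (fe X + (-1, 0) - w).2 < z0.2 else z0.2 < (fe X + (-1, 0) - w).2) : False := by
  obtain ⟨v1, v2, -, -⟩ := fw_V hX Y
  have hfe := fe_F0 hX
  set q : ℤ × ℤ := fe X + (-1, 0) with hq
  have hFq : F0 q = 3 * a - 2 := by rw [hq, F0_add, hfe]; simp [F0]; ring
  have hEY := hY.2
  have hEX := hX.2
  set m : ℤ := (a : ℤ) - c - 1 with hm
  set e1 : ℤ × ℤ := q - E Y with he1
  set e2 : ℤ × ℤ := e1 + (-1, 0) with he2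
  have hF1 : F0 e1 = 3 * m := by rw [he1, F0_sub', hFq, hEY]; ring
  have hF2 : F0 e2 = 3 * m - 2 := by rw [he2, F0_add, hF1]; simp [F0]; ring
  have he12 : e1 = e2 + (1, 0) := by rw [he2]; ext <;> simp
  have he22 : e2.2 = (E (fw X Y)).2 := by rw [v2, he2]; simp [he1]
  set A2 : List (ℤ × ℤ) := ((V Y).dropLast.map (fun w => q - w)).reverse ++ [fe X, E X, E X + (1, 0)] with hA2
  have hT : ((E X + (1, 0)) :: E X :: fe X :: (V Y).map (fun w => q - w)).reverse = e1 :: A2 := by
    rw [hA2, he1]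
    conv_lhs => rw [HitB_last Y]
    simp
  have hch : UChain (e1 :: A2) := by
    rw [← hT]
    apply HitB_rev
    have h1 : UChain ((V Y).map (fun w => q - w)) := by
      unfold UChain
      rw [List.isChain_map]
      refine List.IsChain.imp ?_ (uchain_V Y)
      intro x y h
      have : q - x - (q - y) = -(x - y) := by ring
      rw [this]
      exact h.neg
    have h2 : (V Y).map (fun w => q - w) = q :: ((V Y).map (fun w => q - w)).tail := by
      rw [HitB_head]
      simp
    rw [h2] at h1 ⊢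
    refine List.isChain_cons_cons.2 ⟨?_, List.isChain_cons_cons.2 ⟨?_, List.isChain_cons_cons.2 ⟨?_, h1⟩⟩⟩
    · simp [U]
    · rw [fe_eq]
      have : E X - (E X + tn (!rt X) (Dr X)) = - tn (!rt X) (Dr X) := by ring
      rw [this]
      exact (U_tn X _).neg
    · rw [hq]
      simp [U]
  have hsub : ∀ x ∈ e1 :: A2, x = E X + (1, 0) ∨ x = E X ∨ x = fe X ∨ ∃ w ∈ V Y, x = q - w := by
    intro x hx
    rw [← hT, List.mem_reverse, List.mem_cons, List.mem_cons, List.mem_cons, List.mem_map] at hx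
    rcases hx with h | h | h | ⟨w, hw, h⟩
    · exact Or.inl h
    · exact Or.inr (Or.inl h)
    · exact Or.inr (Or.inr (Or.inl h))
    · exact Or.inr (Or.inr (Or.inr ⟨w, hw, h.symm⟩))
  have hlast : (e1 :: A2).getLast (by simp) = E X + (1, 0) := by
    rw [hA2]
    simp
  have hFl : F0 (E X + (1, 0)) = 3 * a + 3 := by rw [F0_add, hEX]; simp [F0]; ring
  have hYlo : ∀ w ∈ V Y, 3 * m ≤ F0 (q - w) ∧ F0 (q - w) ≤ 3 * a - 2 := by
    intro w hw
    have := hY.1.2 w hw
    rw [F0_sub', hFq]
    omega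
  have hA2lo : ∀ z ∈ A2, 3 * m ≤ F0 z := by
    intro z hz
    rcases hsub z (List.mem_cons_of_mem _ hz) with h | h | h | ⟨w, hw, h⟩
    · rw [h, hFl]; omega
    · rw [h, hEX]; omega
    · rw [h, hfe]; omega
    · rw [h]; exact (hYlo w hw).1
  -- the path
  have hnd := List.nodup_append.1 (v1 ▸ hN)
  obtain ⟨A, R', hV⟩ := List.append_of_mem h0
  have hR' : R' ≠ [] := by
    intro h
    have h1 := HitB_last X
    rw [hV, h] at h1
    have h2 : z0 = E X := by
      have := congrArg List.getLast? h1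
      simpa using this
    rw [h2, hEX] at hh
    omega
  have hEXn : E X ∉ A ++ [z0] := by
    intro h
    have hndX := hnd.1
    have h1 : E X ∈ R' := by
      have h2 : (V X).getLast? = some (E X) := by rw [HitB_last X]; simp
      rw [hV, List.getLast?_append_cons, List.getLast?_cons] at h2
      have h3 : R'.getLast? = some (R'.getLast hR') := List.getLast?_eq_some_getLast hR'
      rw [h3] at h2
      simp only [Option.getD_some, Option.some.injEq] at h2
      rw [← h2]
      exact List.getLast_mem hR'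
    have hV' : V X = (A ++ [z0]) ++ R' := by rw [hV]; simp
    rw [hV', List.nodup_append] at hndX
    exact hndX.2.2 _ h _ h1 rfl
  have hQ : UChain (z0 :: (A.reverse ++ [o'])) := by
    have h1 : UChain (A ++ [z0]) := by
      have := uchain_V X
      rw [hV, show A ++ z0 :: R' = (A ++ [z0]) ++ R' by simp] at this
      exact (List.isChain_append.1 this).1
    have h2 : UChain (o' :: (A ++ [z0])) := by
      have h3 : (A ++ [z0]) = (0, 0) :: (A ++ [z0]).tail := by
        have h4 := HitB_head X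
        rw [hV] at h4
        cases A with
        | nil =>
          simp only [List.nil_append, List.cons.injEq] at h4 ⊢
          exact ⟨h4.1, rfl⟩
        | cons x A =>
          simp only [List.cons_append, List.cons.injEq] at h4 ⊢
          exact ⟨h4.1, rfl⟩
      rw [h3] at h1 ⊢
      exact List.isChain_cons_cons.2 ⟨by simp [U, o'], h1⟩
    have h3 := HitB_rev h2
    simpa using h3
  have hmemQ : ∀ z ∈ z0 :: (A.reverse ++ [o']), z = o' ∨ (z ∈ V X ∧ z ∈ A ++ [z0]) := by
    intro z hz
    rcases List.mem_cons.1 hz with h | h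
    · right; rw [h]; exact ⟨h0, by simp⟩
    · rcases List.mem_append.1 h with h | h
      · right
        rw [List.mem_reverse] at h
        exact ⟨by rw [hV]; exact List.mem_append_left _ h, List.mem_append_left _ h⟩
      · left; exact List.mem_singleton.1 h
  have ho' : F0 o' = -2 := by simp [F0, o']
  refine hit_path (R := A.reverse ++ [o']) (z0 := z0) (m := m) τ hch he12 hF2 hA2lo hQ ?_ ?_ ?_ ?_ ?_ hl ?_ ?_
  · intro z hz hzb
    rcases hmemQ z hz with h | ⟨h, h'⟩
    · have : 3 * m ≤ F0 z := by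
        rcases List.mem_cons.1 hzb with h1 | h1
        · rw [h1, hF1]
        · exact hA2lo z h1
      rw [h, ho'] at this
      omega
    · rcases hsub z hzb with h1 | h1 | h1 | ⟨w, hw, h1⟩
      · have := (hX.1.2 z h).2
        rw [h1, hFl] at this
        omega
      · rw [h1] at h'
        exact hEXn h'
      · exact hnd.2.2 z h _ (List.mem_cons_self) h1
      · exact hnd.2.2 z h _ (List.mem_cons_of_mem _ (List.mem_map.2 ⟨w, hw, rfl⟩)) h1
  · intro z hz
    rcases hmemQ z hz with h | ⟨h, -⟩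
    · rw [h, ho']; decide
    · exact HitB_mod h
  · have : (z0 :: (A.reverse ++ [o'])).getLast (by simp) = o' := by simp
    rw [this, ho']
    omega
  · intro z hz
    rw [hlast, hFl]
    rcases hmemQ z hz with h | ⟨h, -⟩
    · rw [h, ho']; omega
    · have := (hX.1.2 z h).2; omega
  · intro z hz hrow
    have := hs z ((hmemQ z hz).imp id And.left) hrow
    rw [he22]
    exact this
  · rw [hlast, hFl]; omega
  · intro b hb hF
    rcases hsub b hb with h1 | h1 | h1 | ⟨w, hw, h1⟩
    · rw [h1, hFl] at hF; omega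
    · rw [h1, hEX] at hF; omega
    · rw [h1, hfe] at hF; omega
    · rw [h1] at hF ⊢
      exact hr w hw hF

/-- The giant is in the younger leg. -/
theorem hitF {a c : ℕ} {X Y : List Bool} (hX : Br a X) (hY : Br c Y) (hac : a ≤ c) (hN : (V (fw X Y)).Nodup) (τ : Bool)
    (hs : ∀ w ∈ V Y, F0 w = 3 * (a : ℤ) → if τ then w.2 < (fe X).2 else (fe X).2 < w.2)
    {w0 : ℤ × ℤ} (h0 : w0 ∈ V Y) (hl : F0 w0 + 2 ≤ 3 * a)
    (hr : ∀ z ∈ V X, (F0 z = F0 (fe X + (-1, 0) - w0) ∨ F0 z = F0 (fe X + (-1, 0) - w0) + 1) →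
      if τ then (fe X + (-1, 0) - w0).2 < z.2 else z.2 < (fe X + (-1, 0) - w0).2) : False := by
  obtain ⟨v1, v2, -, -⟩ := fw_V hX Y
  have hfe := fe_F0 hX
  set q : ℤ × ℤ := fe X + (-1, 0) with hq
  have hFq : F0 q = 3 * a - 2 := by rw [hq, F0_add, hfe]; simp [F0]; ring
  have hq2 : q.2 = (fe X).2 := by rw [hq]; simp
  have hEY := hY.2
  have hEX := hX.2
  have hnd := List.nodup_append.1 (v1 ▸ hN)
  have hch : UChain ((0, 0) :: (V X).tail) := by
    rw [← HitB_head X]
    exact uchain_V X
  have hmemX : ∀ z ∈ ((0, 0) : ℤ × ℤ) :: (V X).tail, z ∈ V X := fun z hz => by rw [HitB_head X]; exact hz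
  have hlast : (((0, 0) : ℤ × ℤ) :: (V X).tail).getLast (by simp) = E X := by
    have h1 : (V X).getLast? = some (E X) := by rw [HitB_last X]; simp
    rw [HitB_head X, List.getLast?_eq_some_getLast (by simp)] at h1
    exact Option.some_injective _ h1
  obtain ⟨A, R, hV⟩ := List.append_of_mem h0
  have hmemY : ∀ w ∈ w0 :: R, w ∈ V Y := fun w hw => by rw [hV]; exact List.mem_append_right _ hw
  have hQ : UChain ((q - w0) :: R.map (fun w => q - w)) := by
    have h1 : UChain (w0 :: R) := by
      have := uchain_V Y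
      rw [hV] at this
      exact (List.isChain_append.1 this).2.1
    have h2 : UChain ((w0 :: R).map (fun w => q - w)) := by
      unfold UChain
      rw [List.isChain_map]
      refine List.IsChain.imp ?_ h1
      intro x y h
      have : q - x - (q - y) = -(x - y) := by ring
      rw [this]
      exact h.neg
    exact h2
  have hmemQ : ∀ z ∈ (q - w0) :: R.map (fun w => q - w), ∃ w ∈ w0 :: R, z = q - w := by
    intro z hz
    have hz' : z ∈ (w0 :: R).map (fun w => q - w) := hz
    obtain ⟨w, hw, h⟩ := List.mem_map.1 hz'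
    exact ⟨w, hw, h.symm⟩
  have hYb : ∀ w ∈ V Y, F0 (q - w) ≤ 3 * a - 2 := by
    intro w hw
    have := (hY.1.2 w hw).1
    rw [F0_sub', hFq]
    omega
  have ho' : F0 o' = -2 := by simp [F0, o']
  refine hit_path (A2 := (V X).tail) (R := R.map (fun w => q - w)) (e1 := (0, 0)) (e2 := o') (z0 := q - w0)
    (m := 0) (!τ) hch (by ext <;> simp [o']) (by rw [ho']; rfl) ?_ hQ ?_ ?_ ?_ ?_ ?_ ?_ ?_ ?_
  · intro z hz
    have := (hX.1.2 z (hmemX z (List.mem_cons_of_mem _ hz))).1
    omega
  · intro z hz hzb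
    obtain ⟨w, hw, rfl⟩ := hmemQ z hz
    exact hnd.2.2 _ (hmemX _ hzb) _ (List.mem_cons_of_mem _ (List.mem_map.2 ⟨w, hmemY w hw, rfl⟩)) rfl
  · intro z hz
    obtain ⟨w, hw, rfl⟩ := hmemQ z hz
    have h1 := HitB_mod (hmemY w hw)
    have h2 := hY.1.2 w (hmemY w hw)
    rw [F0_sub', hFq]
    -- `3 a - 2 - F0 w` is not `2` modulo `3`: `F0 w` is `0` or `1` modulo `3`
    omega
  · have h1 : ((q - w0) :: R.map (fun w => q - w)).getLast (by simp) = q - E Y := by
      have h2 : (w0 :: R).getLast? = some (E Y) := by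
        have h3 : (V Y).getLast? = some (E Y) := by rw [HitB_last Y]; simp
        rw [hV, List.getLast?_append_cons] at h3
        exact h3
      have h4 : ((w0 :: R).map (fun w => q - w)).getLast? = some (q - E Y) := by
        rw [List.getLast?_map, h2]; rfl
      have h5 : ((w0 :: R).map (fun w => q - w)) ≠ [] := by simp
      rw [List.getLast?_eq_some_getLast h5] at h4
      exact Option.some_injective _ h4
    rw [h1, F0_sub', hFq, hEY]
    omega
  · intro z hz
    obtain ⟨w, hw, rfl⟩ := hmemQ z hz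
    rw [hlast, hEX]
    have := hYb w (hmemY w hw)
    omega
  · intro z hz hrow
    obtain ⟨w, hw, rfl⟩ := hmemQ z hz
    have h1 := hs w (hmemY w hw) (by rw [F0_sub', hFq] at hrow; omega)
    have h2 : (q - w).2 = (fe X).2 - w.2 := by rw [Prod.snd_sub, hq2]
    rw [h2]
    cases τ
    · simp only [Bool.false_eq_true, if_false, Bool.not_false, if_true] at h1 ⊢
      simp only [o']
      omega
    · simp only [if_true, Bool.not_true, Bool.false_eq_true, if_false] at h1 ⊢
      simp only [o']
      omega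
  · rw [F0_sub', hFq]
    omega
  · rw [hlast, hEX]
    have := hYb w0 h0
    omega
  · intro b hb hF
    have h1 := hr b (hmemX b hb) hF
    cases τ
    · simpa using h1
    · simpa using h1

end Pool.Agent.HEP
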