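import Pool.Agent.PLY.G.RunC

/-!
Project PLY (MP_8c6f77_pr), Lemma G, part RUNS: THE THEOREM. The fresh chain has a slab at one of the scales of every set `J` which
contains half of the scales `2 ^ (β m + i)`, `1 ≤ m ≤ n`, except with probability `C ρ ^ n`.
INPUT: `FlatP` (a slab has positive probability at every scale), `TailP` (tail of the height and width of a block),
`RegU` (regularity of the renewal function). `β` may be any large number and does not depend on the constant `K` of the slabs.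
-/

namespace Pool.Agent.HEP.Alph

open scoped ENNReal

variable {A : Alph} {wd : A.B → ℕ}

private lemma runs_aux (hdx : ∀ c, |A.dx c| ≤ wd c) {K0 ρ σ : ℝ≥0∞} (hR : RegU A K0 ρ σ) (hσ : σ ≤ 1) {C0 : ℕ}
    (hT : A.TailP wd C0) {ρ1 η C6 : ℝ≥0∞} (hη : η ≤ 1) (hη1 : (1 + η) * ρ ≤ ρ1)
    (hC6 : C6 = 2 ^ 8 * 8 + 2 ^ 8 * ((K0 * (C0 + 2 * (2 * K0 + K0 * C0 * (1 - σ)⁻¹))) * (1 - ρ1)⁻¹))
    (hηC : η * C6 ≤ 1) {b K n0 : ℕ} (hb : 1 ≤ b) {c : ℝ≥0∞} (hqc : (1 + η) ^ b ≤ 1 + c / 2)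
    (hF : ∀ t : ℕ, n0 ≤ t → ∃ X : Set (List A.B), A.PF X ∧
    (∀ l ∈ X, ∃ (l1 l2 : List A.B) (E : ℝ), l = l1 ++ l2 ∧ 16 * A.h l1 ≤ 17 * t ∧ 31 * t ≤ 16 * A.h l ∧ A.h l ≤ 2 * t ∧
      A.tub wd 0 E l2 ∧ ((K + 1 : ℕ) : ℝ) * t + E ≤ A.x l1) ∧
    c ≤ ∑' l, ind (l ∈ X) * A.w l) (u n M : ℕ) (J : Finset ℕ) (hJ : J ⊆ Finset.Icc 1 n) (hM : 3 * 2 ^ (b * n + u) ≤ M) :
    (∑' f, ind (A.fpw M f ∧ ∀ m ∈ J, ¬ A.slab wd K (2 ^ (b * m + u)) f) * A.w f) * ((1 + η) ^ b) ^ J.card ≤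
      (1 + η) ^ (b * n0 + 4) * (1 + η * C6) ^ n := by
  set q : ℝ≥0∞ := 1 + η with hq
  have hq1 : 1 ≤ q := le_self_add
  set J' : Finset ℕ := J.filter (fun m => n0 ≤ m) with hJ'
  have h1 := GG_rec (u := u) (n := n) (M := M) (K := K) (q := q) (κ := 1 + η * C6) (c := c) (J := J') hdx hb hq1 hM
    (fun m hm => (Finset.mem_Icc.1 (hJ (Finset.mem_filter.1 hm).1)).2)
    (fun m N hN => by
      rw [hC6]
      refine le_trans (le_of_eq ?_) (kappa hR hσ hT hη hη1 hN)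
      rw [← ENNReal.tsum_mul_left]
      refine tsum_congr fun s => ?_
      rw [pow_add, pow_one]
      ring)
    (by
      calc 1 + η * C6 ≤ 1 + 1 := by gcongr
        _ = 2 := by norm_num) hqc
    (fun m hm => by
      refine hF (2 ^ (b * m + u)) ?_
      have h2 := (Finset.mem_filter.1 hm).2
      have h3 : m < 2 ^ m := Nat.lt_two_pow_self
      have h4 : 2 ^ m ≤ 2 ^ (b * m + u) := Nat.pow_le_pow_right (by norm_num) (by nlinarith)
      omega) n 1 (by omega) 0 0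
  have h2 : J'.filter (fun k => 1 ≤ k) = J' := by
    refine Finset.filter_true_of_mem fun k hk => ?_
    exact (Finset.mem_Icc.1 (hJ (Finset.mem_filter.1 hk).1)).1
  rw [h2] at h1
  have h3 : J.card ≤ J'.card + n0 := by
    have h4 : J.card = J'.card + (J.filter (fun m => ¬ n0 ≤ m)).card :=
      (Finset.card_filter_add_card_filter_not (fun m => n0 ≤ m)).symm
    have h5 : (J.filter (fun m => ¬ n0 ≤ m)).card ≤ n0 := by
      have h6 : J.filter (fun m => ¬ n0 ≤ m) ⊆ Finset.range n0 := by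
        intro k hk
        rw [Finset.mem_range]
        have := (Finset.mem_filter.1 hk).2
        omega
      exact (Finset.card_le_card h6).trans (le_of_eq (Finset.card_range n0))
    omega
  have h4 : pot u b 1 ((0 : ℤ).natAbs + 0) ≤ 4 := by
    unfold pot
    simp only [Int.natAbs_zero, add_zero, Nat.size_zero, mul_one]
    omega
  have h5 : ∑' f, ind (A.fpw M f ∧ ∀ m ∈ J, ¬ A.slab wd K (2 ^ (b * m + u)) f) * A.w f ≤
      A.GG wd (fun k => 2 ^ (b * k + u)) J' K M 1 0 0 := by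
    unfold GG
    refine ENNReal.tsum_le_tsum fun f => mul_le_mul' (ind_mono fun h => ⟨h.1, fun k hk _ hs => ?_⟩) le_rfl
    exact h.2 k (Finset.mem_filter.1 hk).1 (slabO_zero.1 hs)
  calc (∑' f, ind (A.fpw M f ∧ ∀ m ∈ J, ¬ A.slab wd K (2 ^ (b * m + u)) f) * A.w f) * (q ^ b) ^ J.card
      ≤ A.GG wd (fun k => 2 ^ (b * k + u)) J' K M 1 0 0 * q ^ (b * J'.card + b * n0) := by
        refine mul_le_mul' h5 ?_
        rw [← pow_mul]
        exact pow_le_pow_right' hq1 (by nlinarith)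
    _ = (A.GG wd (fun k => 2 ^ (b * k + u)) J' K M 1 0 0 * q ^ (b * J'.card)) * q ^ (b * n0) := by rw [pow_add]; ring
    _ ≤ ((1 + η * C6) ^ n * q ^ pot u b 1 ((0 : ℤ).natAbs + 0)) * q ^ (b * n0) := mul_le_mul' h1 le_rfl
    _ ≤ ((1 + η * C6) ^ n * q ^ 4) * q ^ (b * n0) :=
        mul_le_mul' (mul_le_mul' le_rfl (pow_le_pow_right' hq1 h4)) le_rfl
    _ = _ := by rw [pow_add]; ring

/-- RUNS. -/
theorem runs (hdx : ∀ c, |A.dx c| ≤ wd c) {K0 ρ σ : ℝ≥0∞} (hR : RegU A K0 ρ σ) (hK0 : K0 ≠ ⊤) (hρ : ρ < 1) (hσ : σ < 1)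
    {C0 : ℕ} (hT : A.TailP wd C0) (hF : ∀ K, A.FlatP wd K) :
    ∃ b0 : ℕ, ∀ b, b0 ≤ b → ∀ K : ℕ, ∃ C ρ' : ℝ≥0∞, C ≠ ⊤ ∧ ρ' < 1 ∧ ∀ (i n M : ℕ) (J : Finset ℕ), J ⊆ Finset.Icc 1 n →
      n ≤ 2 * J.card → 3 * 2 ^ (b * n + i) ≤ M →
      ∑' f, ind (A.fpw M f ∧ ∀ m ∈ J, ¬ A.slab wd K (2 ^ (b * m + i)) f) * A.w f ≤ C * ρ' ^ n := by
  obtain ⟨ρ1, hρ1, hρ2⟩ := exists_between hρ
  set C6 : ℝ≥0∞ := 2 ^ 8 * 8 + 2 ^ 8 * ((K0 * (C0 + 2 * (2 * K0 + K0 * C0 * (1 - σ)⁻¹))) * (1 - ρ1)⁻¹) with hC6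
  have hs1 : (1 - σ)⁻¹ ≠ ⊤ := ENNReal.inv_ne_top.2 (tsub_pos_of_lt hσ).ne'
  have hs2 : (1 - ρ1)⁻¹ ≠ ⊤ := ENNReal.inv_ne_top.2 (tsub_pos_of_lt hρ2).ne'
  have hC6t : C6 ≠ ⊤ := by
    rw [hC6]
    have : (C0 : ℝ≥0∞) ≠ ⊤ := ENNReal.natCast_ne_top C0
    finiteness
  have hC61 : 1 ≤ C6 := by
    rw [hC6]
    refine le_trans ?_ le_self_add
    norm_num
  obtain ⟨b1, hb1⟩ := ENNReal.exists_nat_gt (show 4 * C6 ≠ ⊤ by finiteness)
  refine ⟨b1 + 1, fun b hb K => ?_⟩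
  have hb0 : 1 ≤ b := by omega
  obtain ⟨c, _, n0, hc, hF1⟩ := hF (K + 1)
  have hbC : 4 * C6 ≤ b := hb1.le.trans (Nat.cast_le.2 (by omega))
  -- choice of `η`
  set D : ℝ≥0∞ := (b : ℝ≥0∞) * 2 ^ b with hD
  have hDt : D ≠ ⊤ := by
    rw [hD]
    have : (b : ℝ≥0∞) ≠ ⊤ := ENNReal.natCast_ne_top b
    finiteness
  set η : ℝ≥0∞ := min (min 1 (ρ1 - ρ)) (min (c / 2 / D) (C6)⁻¹) with hηdef
  have hηa : η ≤ 1 := (min_le_left _ _).trans (min_le_left _ _)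
  have hηb : η ≤ ρ1 - ρ := (min_le_left _ _).trans (min_le_right _ _)
  have hηc : η ≤ c / 2 / D := (min_le_right _ _).trans (min_le_left _ _)
  have hηd : η ≤ (C6)⁻¹ := (min_le_right _ _).trans (min_le_right _ _)
  have hη0 : 0 < η := by
    refine lt_min (lt_min one_pos (tsub_pos_of_lt hρ1)) (lt_min ?_ (ENNReal.inv_pos.2 hC6t))
    exact ENNReal.div_pos (ENNReal.div_pos hc.ne' (by norm_num)).ne' hDt
  have hηt : η ≠ ⊤ := ne_top_of_le_ne_top ENNReal.one_ne_top hηa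
  have hηC : η * C6 ≤ 1 := by
    calc η * C6 ≤ (C6)⁻¹ * C6 := mul_le_mul' hηd le_rfl
      _ ≤ 1 := ENNReal.inv_mul_le_one _
  have hη1 : (1 + η) * ρ ≤ ρ1 := by
    calc (1 + η) * ρ = ρ + η * ρ := by ring
      _ ≤ ρ + (ρ1 - ρ) * 1 := add_le_add le_rfl (mul_le_mul' hηb hρ.le)
      _ = ρ1 := by rw [mul_one, add_tsub_cancel_of_le hρ1.le]
  have hq2 : 1 + η ≤ 2 := by
    calc 1 + η ≤ 1 + 1 := by gcongr
      _ = 2 := by norm_num
  have hsumle : ∑' t, ind (t < b) * (1 + η) ^ t ≤ D := by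
    rw [tsum_eq_sum (s := Finset.range b)]
    · calc ∑ t ∈ Finset.range b, ind (t < b) * (1 + η) ^ t ≤ ∑ _t ∈ Finset.range b, 2 ^ b := by
            refine Finset.sum_le_sum fun t ht => ?_
            rw [ind_true (Finset.mem_range.1 ht), one_mul]
            exact (pow_le_pow_left' hq2 t).trans (pow_le_pow_right₀ (by norm_num) (Finset.mem_range.1 ht).le)
        _ = D := by rw [Finset.sum_const, Finset.card_range, nsmul_eq_mul]
    · intro t ht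
      rw [Finset.mem_range] at ht
      rw [ind_false ht, zero_mul]
  have hqc : (1 + η) ^ b ≤ 1 + c / 2 := by
    rw [geo_eq]
    refine add_le_add le_rfl ?_
    calc η * ∑' t, ind (t < b) * (1 + η) ^ t ≤ (c / 2 / D) * D := mul_le_mul' hηc hsumle
      _ = c / 2 := ENNReal.div_mul_cancel (by
          rw [hD]
          exact mul_ne_zero (Nat.cast_ne_zero.2 (by omega)) (by positivity)) hDt
  have hlow : 1 + η * b ≤ (1 + η) ^ b := by
    rw [geo_eq]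
    refine add_le_add le_rfl (mul_le_mul' le_rfl ?_)
    rw [tsum_eq_sum (s := Finset.range b)]
    · calc (b : ℝ≥0∞) = ∑ _t ∈ Finset.range b, 1 := by simp
        _ ≤ _ := by
          refine Finset.sum_le_sum fun t ht => ?_
          rw [ind_true (Finset.mem_range.1 ht), one_mul]
          exact one_le_pow_of_one_le' le_self_add _
    · intro t ht
      rw [Finset.mem_range] at ht
      rw [ind_false ht, zero_mul]
  set κ : ℝ≥0∞ := 1 + η * C6 with hκ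
  set Q : ℝ≥0∞ := (1 + η) ^ b with hQ
  have hQ1 : 1 ≤ Q := one_le_pow_of_one_le' le_self_add _
  have hQt : Q ≠ ⊤ := by rw [hQ]; finiteness
  have hκQ : κ ^ 2 < Q := by
    have h1 : κ ^ 2 ≤ 1 + 3 * (η * C6) := by
      calc κ ^ 2 = 1 + 2 * (η * C6) + (η * C6) * (η * C6) := by rw [hκ]; ring
        _ ≤ 1 + 2 * (η * C6) + 1 * (η * C6) := by gcongr
        _ = _ := by ring
    refine lt_of_le_of_lt h1 (lt_of_lt_of_le ?_ hlow)
    refine ENNReal.add_lt_add_left ENNReal.one_ne_top ?_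
    have h2 : η * C6 ≠ 0 := mul_ne_zero hη0.ne' (zero_lt_one.trans_le hC61).ne'
    have h3 : η * C6 ≠ ⊤ := ENNReal.mul_ne_top hηt hC6t
    calc 3 * (η * C6) < 4 * (η * C6) := by
          refine (ENNReal.mul_lt_mul_iff_left h2 h3).2 ?_
          norm_num
      _ = η * (4 * C6) := by ring
      _ ≤ η * b := mul_le_mul' le_rfl hbC
  set r : ℝ≥0∞ := κ ^ 2 / Q with hr
  have hQ0 : Q ≠ 0 := (zero_lt_one.trans_le hQ1).ne'
  have hr1 : r < 1 := by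
    rw [hr, ENNReal.div_lt_iff (Or.inl hQ0) (Or.inl hQt), one_mul]
    exact hκQ
  have hκ1 : 1 ≤ κ := le_self_add
  refine ⟨(1 + η) ^ (b * n0 + 4), r ^ (1 / 2 : ℝ), by finiteness, ENNReal.rpow_lt_one hr1 (by norm_num), ?_⟩
  intro i n M J hJ hn hM
  have h1 := runs_aux hdx hR hσ.le hT hηa hη1 hC6 hηC (b := b) (K := K) (n0 := n0) hb0 hqc
    (fun t ht => by
      obtain ⟨X, hX1, hX2, hX3⟩ := hF1 t ht
      refine ⟨X, hX1, fun l hl => ?_, hX3⟩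
      obtain ⟨l1, l2, E, e1, e2, e3, e4, -, e5, e6⟩ := hX2 l hl
      exact ⟨l1, l2, E, e1, e2, e3, e4, e5, e6⟩) i n M J hJ hM
  have hr2 : r ^ J.card ≤ (r ^ (1 / 2 : ℝ)) ^ n := by
    have h2 : r ^ (1 / 2 : ℝ) ≤ 1 := (ENNReal.rpow_lt_one hr1 (by norm_num)).le
    calc r ^ J.card = ((r ^ (1 / 2 : ℝ)) ^ 2) ^ J.card := by
          congr 1
          rw [← ENNReal.rpow_natCast, ← ENNReal.rpow_mul]
          norm_num
      _ = (r ^ (1 / 2 : ℝ)) ^ (2 * J.card) := by rw [pow_mul]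
      _ ≤ _ := pow_le_pow_right_of_le_one' h2 hn
  have hQJ0 : Q ^ J.card ≠ 0 := pow_ne_zero _ hQ0
  have hQJt : Q ^ J.card ≠ ⊤ := ENNReal.pow_ne_top hQt
  calc ∑' f, ind (A.fpw M f ∧ ∀ m ∈ J, ¬ A.slab wd K (2 ^ (b * m + i)) f) * A.w f
      ≤ ((1 + η) ^ (b * n0 + 4) * κ ^ n) / Q ^ J.card :=
        (ENNReal.le_div_iff_mul_le (Or.inl hQJ0) (Or.inl hQJt)).2 h1
    _ ≤ ((1 + η) ^ (b * n0 + 4) * κ ^ (2 * J.card)) / Q ^ J.card := by
        refine ENNReal.div_le_div_right (mul_le_mul' le_rfl (pow_le_pow_right' hκ1 hn)) _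
    _ = (1 + η) ^ (b * n0 + 4) * r ^ J.card := by
        rw [hr, div_eq_mul_inv, div_eq_mul_inv, mul_pow, ENNReal.inv_pow, pow_mul, mul_assoc]
    _ ≤ _ := mul_le_mul' le_rfl hr2

end Pool.Agent.HEP.Alph
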