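import Pool.Agent.PLY.G.Hit
import Pool.Agent.PLY.G.Runs
import Pool.Agent.PLF.Defs
import Pool.Agent.PLY.V.Defs

/-!
Project PLY (MP_8c6f77_pr), LEMMA G, assembly, file 1: ONE GIANT BLOCK.

`MA_tsum`: the fresh chain `t` up to its last renewal `≤ N`, then a block over `N`, is the chain up to its first renewal `≥ N + 1`.
`MA_pt`: long leg `l ++ [c]`, other leg `s ++ t`. The giant block `c` meets windows on the side on which the long leg passes; at the scales
of these windows the fresh part `t` has no slab on the other side (planarity, `hsI_hit`).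
-/

namespace Pool.Agent.HEP

open Pool.Agent.Hhelper14.SAW Pool.Agent.HHP
open scoped ENNReal

/-- The last block. -/
lemma MA_last {A : Alph} {N : ℕ} {t u v : List A.B} {e : A.B} (h1 : t ++ [e] = u ++ v) (h2 : N < A.h t + A.ht e)
    (h3 : A.h u ≤ N) : ∃ v', t = u ++ v' := by
  rcases List.append_eq_append_iff.1 h1 with ⟨a, e1, e2⟩ | ⟨a, e1, e2⟩
  · cases a with
    | nil => exact ⟨[], by rw [e1]; simp⟩
    | cons x a =>
      rw [List.cons_append, List.cons.injEq] at e2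
      obtain ⟨rfl, e2⟩ := e2
      have e3 : a = [] := (List.append_eq_nil_iff.1 e2.symm).1
      subst e3
      rw [e1, A.h_append, A.h_cons, A.h_nil] at h3
      omega
  · exact ⟨a, e1⟩

/-- The chain up to the last renewal `≤ N`. -/
theorem MA_tsum (A : Alph) (N : ℕ) (P Q : List A.B → Prop)
    (h : ∀ t e, P t → A.h t ≤ N → N < A.h t + A.ht e → Q (t ++ [e])) :
    ∑' t, ind (P t ∧ A.h t ≤ N) * (A.w t * A.Lam (N - A.h t)) ≤ ∑' f, ind (A.fpw (N + 1) f ∧ Q f) * A.w f := by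
  calc ∑' t, ind (P t ∧ A.h t ≤ N) * (A.w t * A.Lam (N - A.h t))
      = ∑' p : List A.B × A.B, ind (P p.1 ∧ A.h p.1 ≤ N) * (A.w p.1 * (ind (N - A.h p.1 < A.ht p.2) * A.wt p.2)) := by
        rw [ENNReal.tsum_prod']
        refine tsum_congr fun t => ?_
        unfold Alph.Lam
        rw [← ENNReal.tsum_mul_left, ← ENNReal.tsum_mul_left]
    _ ≤ ∑' p : List A.B × A.B, (fun f => ind (A.fpw (N + 1) f ∧ Q f) * A.w f) (p.1 ++ [p.2]) := by
        refine ENNReal.tsum_le_tsum fun p => ?_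
        obtain ⟨t, e⟩ := p
        by_cases h1 : (P t ∧ A.h t ≤ N) ∧ N - A.h t < A.ht e
        · obtain ⟨⟨h1, h2⟩, h3⟩ := h1
          have h4 : N < A.h t + A.ht e := by omega
          have h5 : A.fpw (N + 1) (t ++ [e]) := by
            refine ⟨by rw [A.h_append, A.h_cons, A.h_nil]; omega, ?_⟩
            intro l1 c l2 e1
            rcases List.append_eq_append_iff.1 e1 with ⟨a, e2, e3⟩ | ⟨a, e2, e3⟩
            · cases a with
              | nil => rw [e2, List.append_nil]; omega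
              | cons x a => simp at e3
            · rw [e2, A.h_append] at h2
              omega
          simp only
          rw [ind_true ⟨h1, h2⟩, ind_true h3, ind_true ⟨h5, h t e h1 h2 h4⟩, A.w_append, A.w_cons, A.w_nil]
          simp
        · simp only
          rw [not_and_or] at h1
          rcases h1 with h1 | h1
          · rw [ind_false h1, zero_mul]; exact bot_le
          · rw [ind_false h1, zero_mul, mul_zero, mul_zero]; exact bot_le
    _ ≤ _ := by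
        refine ENNReal.tsum_comp_le_tsum_of_injective (f := fun p : List A.B × A.B => p.1 ++ [p.2]) ?_ _
        rintro ⟨t, e⟩ ⟨t', e'⟩ h1
        have h2 := List.append_inj' h1 rfl
        simp only [List.cons.injEq, and_true] at h2
        exact Prod.ext h2.1 h2.2

lemma MA_ps (S : Sys) (σ : Bool) (s s1 : List S.B) : |S.ps σ (s ++ s1) - (S.ps σ s + S.x s1)| ≤ 1 := by
  by_cases hs : s = []
  · subst hs
    have h1 : S.ps σ [] = 0 := by cases σ <;> rfl
    rw [List.nil_append, h1, zero_add]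
    exact S.ps_sub σ s1
  · rw [S.ps_append hs, sub_self, abs_zero]
    exact zero_le_one

/-- One slab on the other side at the scale of a window which is met: impossible. -/
lemma MA_hit {σ τ : Bool} {l s s1 s2 s3 : List Blk} {i T K : ℕ} (hT : 32 * 2 ^ i ≤ T) (hls : hsI.h l ≤ hsI.h s)
    (hds : hsI.ds σ l s ≤ 2 ^ i) {c : Blk} (hav : hsI.av σ (l ++ [c]) (s ++ (s1 ++ s2 ++ s3)))
    (hh : hsI.h (s ++ (s1 ++ s2 ++ s3)) ≤ hsI.h (l ++ [c]) - Sys.d σ)
    (hos : if τ then hsI.hi σ (l ++ [c]) (hsI.h (s ++ (s1 ++ s2 ++ s3))) + 1 ≤ hsI.ps σ (s ++ (s1 ++ s2 ++ s3))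
      else hsI.ps σ (s ++ (s1 ++ s2 ++ s3)) + 1 ≤ hsI.lo σ (l ++ [c]) (hsI.h (s ++ (s1 ++ s2 ++ s3))))
    (h1 : 8 * hsI.h s1 ≤ 9 * T) (h2 : 15 * T ≤ 8 * hsI.h (s1 ++ s2)) {E : ℝ} (hE : hsI.tub wdb 0 E s2)
    (h3 : ((K + 2 : ℕ) : ℝ) * T + E ≤ if τ then -(hsI.x s1 : ℝ) else hsI.x s1) (hm : meets σ τ K T c) : False := by
  obtain ⟨u, v, hv, h4, h5, h6⟩ := hm
  have hi : 1 ≤ 2 ^ i := Nat.one_le_two_pow
  have e1 : s ++ (s1 ++ s2 ++ s3) = (s ++ s1) ++ s2 ++ s3 := by simp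
  rw [e1] at hav hh hos
  have hd1 : hsI.h s ≤ hsI.h l + 2 ^ i := by
    have := (le_max_left _ _).trans hds
    omega
  have hd2 : (hsI.pl σ l - hsI.ps σ s).natAbs ≤ 2 ^ i := (le_max_right _ _).trans hds
  have hd3 : |hsI.pl σ l - hsI.ps σ s| ≤ ((2 ^ i : ℕ) : ℤ) := by
    rw [← Int.natCast_natAbs]
    exact_mod_cast hd2
  have ha : hsI.h (s ++ s1) = hsI.h s + hsI.h s1 := hsI.h_append s s1
  have hb : hsI.h (s ++ s1 ++ s2) = hsI.h s + hsI.h (s1 ++ s2) := by
    rw [List.append_assoc]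
    exact hsI.h_append s (s1 ++ s2)
  have g1 : 3 * (hsI.h (s ++ s1) : ℤ) + 6 ≤ 3 * hsI.h l + v := by
    generalize 2 ^ i = I at hT hd1 hi
    omega
  have g2 : 3 * (hsI.h l : ℤ) + v + 6 ≤ 3 * hsI.h (s ++ s1 ++ s2) := by
    generalize 2 ^ i = I at hT hd1 hi
    omega
  have key := hsI_hit σ τ l (s ++ s1) s2 s3 c hav hh hos hv g1 g2 hE
  have hps := MA_ps hsI σ s s1
  rw [abs_le] at hps hd3
  have hp1 : ((hsI.ps σ (s ++ s1) : ℤ) : ℝ) - (hsI.ps σ s + hsI.x s1) ≤ 1 := by exact_mod_cast hps.2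
  have hp2 : -1 ≤ ((hsI.ps σ (s ++ s1) : ℤ) : ℝ) - (hsI.ps σ s + hsI.x s1) := by exact_mod_cast hps.1
  have hq1 : (hsI.pl σ l : ℝ) - hsI.ps σ s ≤ ((2 ^ i : ℕ) : ℝ) := by exact_mod_cast hd3.2
  have hq2 : -((2 ^ i : ℕ) : ℝ) ≤ (hsI.pl σ l : ℝ) - hsI.ps σ s := by exact_mod_cast hd3.1
  have hT' : 32 * ((2 ^ i : ℕ) : ℝ) ≤ T := by exact_mod_cast hT
  have hi' : (1 : ℝ) ≤ ((2 ^ i : ℕ) : ℝ) := by exact_mod_cast hi
  cases τ with
  | true =>
    simp only [if_true] at key h3 h6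
    have h7 : -(K : ℝ) * T ≤ u := by exact_mod_cast h6
    push_cast at key h3
    have e2 : ((2 : ℝ) ^ i) = ((2 ^ i : ℕ) : ℝ) := by push_cast; rfl
    nlinarith
  | false =>
    simp only [Bool.false_eq_true, if_false] at key h3 h6
    have h7 : (u : ℝ) ≤ (K : ℝ) * T := by exact_mod_cast h6
    push_cast at key h3
    nlinarith

end Pool.Agent.HEP
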