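import Pool.Agent.PLY.G.StFst

/-!
Project PLY (MP_8c6f77_pr, honeycomb lattice, polynomial bound), LEMMA G, STEERING: `Slope κ` and `|κ₁| ≤ κ` give `Tube κ₁`.

PROOF. Small scale `n = N / k`. `P` = the words of the slope condition at the scale `n`, `Q` = their reflections; the minimal words have
mass `≥ c / C` (`fst_mass`). Greedy words (`Str`): add a word of `P` if the position relative to the line of slope `κ₁` is negative, a
word of `Q` otherwise. The position stays in `[- Δ, Δ]`, `Δ = (1 + |κ₁|) C n`, and everything stays within `2 Δ ≤ ε N` of the line.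
At most `2 k` steps are needed, so the mass is at least `(c / C) ^ (2 k)`.
-/

namespace Pool.Agent.HEP

open scoped ENNReal

namespace Alph

variable {A : Alph} {wd : A.B → ℕ}

lemma h_map_rf (l : List A.B) : A.h (l.map A.rf) = A.h l := by
  induction l with
  | nil => rfl
  | cons c l ih => rw [List.map_cons, A.h_cons, A.h_cons, ih, A.ht_rf]

lemma x_map_rf (l : List A.B) : A.x (l.map A.rf) = - A.x l := by
  induction l with
  | nil => simp [A.x_nil]
  | cons c l ih => rw [List.map_cons, A.x_cons, A.x_cons, ih, A.dx_rf]; ring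

lemma w_map_rf (l : List A.B) : A.w (l.map A.rf) = A.w l := by
  induction l with
  | nil => rfl
  | cons c l ih => rw [List.map_cons, A.w_cons, A.w_cons, ih, A.wt_rf]

lemma map_rf_rf (l : List A.B) : (l.map A.rf).map A.rf = l := by
  rw [List.map_map]
  have : (A.rf ∘ A.rf) = id := funext fun c => A.rf_rf c
  rw [this, List.map_id]

/-- Reflection of a word: change of variables. -/
lemma tsum_map_rf (F : List A.B → ℝ≥0∞) : ∑' l : List A.B, F (l.map A.rf) = ∑' l, F l :=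
  (Equiv.mk (fun l : List A.B => l.map A.rf) (fun l => l.map A.rf) map_rf_rf map_rf_rf).tsum_eq F

lemma tub_map_rf (hrf : ∀ c, wd (A.rf c) = wd c) {E : ℝ} {l : List A.B} (h : A.tub wd 0 E l) :
    A.tub wd 0 E (l.map A.rf) := by
  intro l1 c l2 e
  have e1 : l = l1.map A.rf ++ A.rf c :: l2.map A.rf := by
    have := congrArg (List.map A.rf) e
    rw [map_rf_rf, List.map_append, List.map_cons] at this
    exact this
  have h1 := h _ _ _ e1
  rw [x_map_rf, hrf] at h1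
  simp only [zero_mul, sub_zero, abs_zero, add_zero, Int.cast_neg, abs_neg] at h1 ⊢
  exact h1

/-- A word which stays in the box `E`, height at most `E`, stays near the line of slope `κ`. -/
lemma tub_slope {E κ : ℝ} {l : List A.B} (h : A.tub wd 0 E l) (hh : (A.h l : ℝ) ≤ E) :
    A.tub wd κ ((1 + |κ|) * E) l := by
  intro l1 c l2 e
  have h1 := h l1 c l2 e
  simp only [zero_mul, sub_zero, abs_zero, add_zero] at h1
  have h2 : (A.h l1 : ℝ) + A.ht c ≤ E := by
    refine le_trans ?_ hh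
    rw [e, A.h_append, A.h_cons]
    push_cast
    have : (0 : ℝ) ≤ A.h l2 := Nat.cast_nonneg _
    linarith
  have h3 : |(A.x l1 : ℝ) - κ * A.h l1| ≤ |(A.x l1 : ℝ)| + |κ| * A.h l1 := by
    have := abs_sub (A.x l1 : ℝ) (κ * A.h l1)
    rw [abs_mul, Nat.abs_cast] at this
    exact this
  have h4 : |κ| * ((A.h l1 : ℝ) + A.ht c) ≤ |κ| * E := mul_le_mul_of_nonneg_left h2 (abs_nonneg κ)
  nlinarith

/-- The words of one step. -/
def StP (A : Alph) (wd : A.B → ℕ) (κ : ℝ) (C n : ℕ) : Set (List A.B) :=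
  {l | n ≤ A.h l ∧ A.h l ≤ C * n ∧ κ * A.h l ≤ A.x l ∧ A.tub wd 0 (C * n) l}

/-- The reflected words. -/
def StQ (A : Alph) (wd : A.B → ℕ) (κ : ℝ) (C n : ℕ) : Set (List A.B) :=
  {l | n ≤ A.h l ∧ A.h l ≤ C * n ∧ κ * A.h l ≤ - A.x l ∧ A.tub wd 0 (C * n) l}

lemma stQ_mass (hrf : ∀ c, wd (A.rf c) = wd c) (κ : ℝ) (C n : ℕ) :
    ∑' l, ind (l ∈ StQ A wd κ C n) * A.w l = ∑' l, ind (l ∈ StP A wd κ C n) * A.w l := by
  rw [← tsum_map_rf (fun l => ind (l ∈ StQ A wd κ C n) * A.w l)]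
  refine tsum_congr fun l => ?_
  rw [w_map_rf]
  congr 1
  refine ind_congr ?_
  unfold StQ StP
  rw [Set.mem_ofPred_eq, Set.mem_ofPred_eq, h_map_rf, x_map_rf]
  constructor
  · rintro ⟨h1, h2, h3, h4⟩
    refine ⟨h1, h2, ?_, ?_⟩
    · simpa using h3
    · have := tub_map_rf hrf h4
      rwa [map_rf_rf] at this
  · rintro ⟨h1, h2, h3, h4⟩
    refine ⟨h1, h2, ?_, tub_map_rf hrf h4⟩
    simpa using h3

/-- Control of the greedy words. -/
theorem str_ctrl (hdx : ∀ c, |A.dx c| ≤ wd c) {κ κ₁ : ℝ} (hκ : |κ₁| ≤ κ) {C n N : ℕ} {p l : List A.B}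
    (hs : A.Str (A.Fst (StP A wd κ C n)) (A.Fst (StQ A wd κ C n)) (fun p => (A.x p : ℝ) - κ₁ * A.h p < 0) N p l)
    (hy : |(A.x p : ℝ) - κ₁ * A.h p| ≤ (1 + |κ₁|) * (C * n)) (hh : A.h p < N + C * n)
    (ht : A.tub wd κ₁ (2 * ((1 + |κ₁|) * (C * n))) p) :
    N ≤ A.h (p ++ l) ∧ A.h (p ++ l) < N + C * n ∧ A.tub wd κ₁ (2 * ((1 + |κ₁|) * (C * n))) (p ++ l) := by
  have hk1 : κ₁ ≤ κ := (le_abs_self κ₁).trans hκ
  have hk2 : -κ₁ ≤ κ := (neg_le_abs κ₁).trans hκ
  have hC0 : (0 : ℝ) ≤ (C : ℝ) * n := by positivity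
  induction hs with
  | stop p hp =>
    rw [List.append_nil]
    exact ⟨hp, hh, ht⟩
  | one p s l hp hc hs h ih =>
    obtain ⟨⟨s1, s2, s3, s4⟩, -⟩ := hs
    have hE : (A.h s : ℝ) ≤ (C : ℝ) * n := by exact_mod_cast s2
    have t1 := tub_slope (κ := κ₁) s4 hE
    have t2 := tub_end (mul_nonneg (by positivity) hC0) hdx t1
    rw [← List.append_assoc]
    apply ih
    · rw [A.x_append, A.h_append]
      push_cast
      have e : (A.x p : ℝ) + A.x s - κ₁ * (A.h p + A.h s) =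
          ((A.x p : ℝ) - κ₁ * A.h p) + ((A.x s : ℝ) - κ₁ * A.h s) := by ring
      rw [e]
      have h5 : 0 ≤ (A.x s : ℝ) - κ₁ * A.h s := by
        have : κ₁ * (A.h s : ℝ) ≤ κ * A.h s := mul_le_mul_of_nonneg_right hk1 (Nat.cast_nonneg _)
        linarith
      rw [abs_le] at hy t2 ⊢
      have hc' : (A.x p : ℝ) - κ₁ * A.h p < 0 := hc
      constructor
      · linarith [hy.1]
      · linarith [t2.2]
    · rw [A.h_append]; omega
    · exact tub_append ht t1 (by linarith)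
  | two p s l hp hc hs h ih =>
    obtain ⟨⟨s1, s2, s3, s4⟩, -⟩ := hs
    have hE : (A.h s : ℝ) ≤ (C : ℝ) * n := by exact_mod_cast s2
    have t1 := tub_slope (κ := κ₁) s4 hE
    have t2 := tub_end (mul_nonneg (by positivity) hC0) hdx t1
    rw [← List.append_assoc]
    apply ih
    · rw [A.x_append, A.h_append]
      push_cast
      have e : (A.x p : ℝ) + A.x s - κ₁ * (A.h p + A.h s) =
          ((A.x p : ℝ) - κ₁ * A.h p) + ((A.x s : ℝ) - κ₁ * A.h s) := by ring
      rw [e]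
      have h5 : (A.x s : ℝ) - κ₁ * A.h s ≤ 0 := by
        have : -κ₁ * (A.h s : ℝ) ≤ κ * A.h s := mul_le_mul_of_nonneg_right hk2 (Nat.cast_nonneg _)
        linarith
      rw [abs_le] at hy t2 ⊢
      have hc' : ¬ (A.x p : ℝ) - κ₁ * A.h p < 0 := hc
      push Not at hc'
      constructor
      · linarith [t2.1]
      · linarith [hy.2]
    · rw [A.h_append]; omega
    · exact tub_append ht t1 (by linarith)

/-- Steering. -/
theorem Slope.tube (hA : Antitone A.b) (hdx : ∀ c, |A.dx c| ≤ wd c) (hrf : ∀ c, wd (A.rf c) = wd c)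
    {κ κ₁ : ℝ} (h : A.Slope wd κ) (hκ : |κ₁| ≤ κ) : A.Tube wd κ₁ := by
  intro ε hε
  obtain ⟨c, C, n0, hc, h⟩ := h
  -- the constant `C` is at least 1
  have hC1 : 1 ≤ C := by
    by_contra hC
    have hC0 : C = 0 := by omega
    subst hC0
    have h1 := h (n0 + 1) (by omega)
    rw [ENNReal.tsum_eq_zero.2] at h1
    · rw [nonpos_iff_eq_zero, mul_eq_zero] at h1
      rcases h1 with h1 | h1
      · exact hc.ne' h1
      · exact A.U_ne_zero _ h1
    · intro l
      rw [ind_false, zero_mul]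
      rintro ⟨h1, h2, -⟩
      omega
  set Δ : ℝ := (1 + |κ₁|) * C with hΔ
  have hΔ0 : 0 < Δ := by
    have : (1 : ℝ) ≤ C := by exact_mod_cast hC1
    positivity
  obtain ⟨k, hk⟩ := exists_nat_gt (2 * Δ / ε)
  have hk0 : 0 < k := by
    rcases Nat.eq_zero_or_pos k with h0 | h0
    · rw [h0] at hk
      have : 0 < 2 * Δ / ε := by positivity
      push_cast at hk
      linarith
    · exact h0
  have hkε : 2 * Δ ≤ ε * k := by
    rw [div_lt_iff₀ hε] at hk
    linarith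
  set c₁ : ℝ≥0∞ := min 1 (c / C) with hc₁
  have hc₁0 : 0 < c₁ := lt_min one_pos (ENNReal.div_pos hc.ne' (ENNReal.natCast_ne_top C))
  refine ⟨c₁ ^ (2 * k), k * (n0 + 1), ENNReal.pow_pos hc₁0 _, fun N hN => ?_⟩
  set n : ℕ := N / k with hn
  have hn0 : n0 + 1 ≤ n := by
    rw [hn, Nat.le_div_iff_mul_le hk0, mul_comm]
    exact hN
  have hnN : n * k ≤ N := Nat.div_mul_le_self N k
  have hNn : N < (n + 1) * k := by
    rw [hn, mul_comm]
    exact Nat.lt_mul_div_succ N hk0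
  have hCn : (0 : ℝ) ≤ (C : ℝ) * n := by positivity
  -- width of the tube
  have hw : 2 * ((1 + |κ₁|) * (C * n)) ≤ ε * N := by
    have h1 : (n : ℝ) * k ≤ N := by exact_mod_cast hnN
    have h2 : 2 * Δ * n ≤ ε * k * n := mul_le_mul_of_nonneg_right hkε (Nat.cast_nonneg n)
    have h3 : ε * ((n : ℝ) * k) ≤ ε * N := mul_le_mul_of_nonneg_left h1 hε.le
    calc 2 * ((1 + |κ₁|) * (C * n)) = 2 * Δ * n := by rw [hΔ]; ring
      _ ≤ ε * k * n := h2
      _ = ε * ((n : ℝ) * k) := by ring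
      _ ≤ _ := h3
  have hmass : ∀ P : Set (List A.B), (∀ l ∈ P, n ≤ A.h l ∧ A.h l ≤ C * n) →
      c * A.U n ≤ ∑' l, ind (l ∈ P) * A.w l → c₁ ≤ ∑' l, ind (l ∈ A.Fst P) * A.w l := by
    intro P hP hPm
    have h1 := fst_mass P (m := n) (N := C * n) fun l hl => ⟨(hP l hl).1, (hP l hl).2.trans (by omega)⟩
    have h2 := A.U_mul_nat hA C n hC1
    have h3 : c * A.U n ≤ (∑' l, ind (l ∈ A.Fst P) * A.w l) * C * A.U n := by
      rw [mul_assoc]
      exact (hPm.trans h1).trans (mul_le_mul' le_rfl h2)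
    have h4 : c ≤ (∑' l, ind (l ∈ A.Fst P) * A.w l) * C :=
      (ENNReal.mul_le_mul_iff_left (A.U_ne_zero n) (A.U_ne_top n)).1 h3
    refine (min_le_right _ _).trans (ENNReal.div_le_of_le_mul h4)
  have hP1 : c₁ ≤ ∑' l, ind (l ∈ A.Fst (StP A wd κ C n)) * A.w l := by
    refine hmass _ (fun l hl => ⟨hl.1, hl.2.1⟩) ?_
    exact h n (by omega)
  have hQ1 : c₁ ≤ ∑' l, ind (l ∈ A.Fst (StQ A wd κ C n)) * A.w l := by
    refine hmass _ (fun l hl => ⟨hl.1, hl.2.1⟩) ?_
    rw [stQ_mass hrf]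
    exact h n (by omega)
  refine ⟨{l | A.Str (A.Fst (StP A wd κ C n)) (A.Fst (StQ A wd κ C n))
    (fun p => (A.x p : ℝ) - κ₁ * A.h p < 0) N [] l}, Str.pf (Fst.pf _) (Fst.pf _) [], ?_, ?_⟩
  · intro l hl
    have hN0 : 0 < N := by
      rcases Nat.eq_zero_or_pos N with h0 | h0
      · rw [h0] at hnN
        have : 0 < n * k := Nat.mul_pos (by omega) hk0
        omega
      · exact h0
    obtain ⟨h1, h2, h3⟩ := str_ctrl hdx hκ hl (by
      rw [A.x_nil, A.h_nil]
      simp only [Int.cast_zero, Nat.cast_zero, mul_zero, sub_zero, abs_zero]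
      positivity) (by rw [A.h_nil]; omega) (tub_nil _ _)
    rw [List.nil_append] at h1 h2 h3
    refine ⟨h1, ?_, tub_mono h3 hw⟩
    have h4 : (A.h l : ℝ) ≤ N + C * n := by exact_mod_cast h2.le
    have h5 : (C : ℝ) * n ≤ 2 * ((1 + |κ₁|) * (C * n)) := by
      have : 0 ≤ |κ₁| := abs_nonneg _
      nlinarith
    linarith
  · refine Str.mass (Fst.pf _) (Fst.pf _) (m := n) (fun s hs => hs.1.1) (fun s hs => hs.1.1)
      (min_le_left _ _) hP1 hQ1 (2 * k) [] ?_
    rw [A.h_nil]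
    nlinarith

end Alph

end Pool.Agent.HEP
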