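import Pool.Agent.PLY.G.MainA
import Pool.Agent.PLY.G.StTube
import Pool.Agent.PLY.G.StWdb
import Pool.Agent.PLY.G.BFin

/-!
Project PLY (MP_8c6f77_pr), LEMMA G, assembly, file 2: for a given giant block `c` which meets more than half of the windows in both
orientations, the mass of the fresh chains is at most `2 C ρ ^ n`, `n` = number of the scales.
-/

namespace Pool.Agent.HEP

open Pool.Agent.Hhelper14.SAW Pool.Agent.HHP Pool.Agent.PLY.G
open scoped ENNReal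

lemma MB_sc (b i m : ℕ) : sc (2 ^ b) (2 ^ i) m = 2 ^ (b * m + i) := by
  unfold sc
  rw [← pow_mul, ← pow_add]

lemma MB_T {b i m : ℕ} (hb : 5 ≤ b) (hm : 1 ≤ m) : 32 * 2 ^ i ≤ 2 ^ (b * m + i) := by
  have h1 : 5 ≤ b * m := by nlinarith
  calc 32 * 2 ^ i = 2 ^ (5 + i) := by rw [pow_add]; norm_num
    _ ≤ _ := Nat.pow_le_pow_right (by norm_num) (by omega)

/-- At the scales of the windows which are met on the side of the long leg, the fresh chain has no slab on the other side. -/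
lemma MB_pt {σ : Bool} {l s t : List Blk} {c e : Blk} {i j b K N : ℕ} (hb : 5 ≤ b) (hls : hsI.h l ≤ hsI.h s)
    (hds : hsI.ds σ l s ≤ 2 ^ i) (hgp : hsI.gp σ (l ++ [c]) (s ++ t)) (hN : 2 ^ j ≤ N + 2 ^ i)
    (he : N < hsI.h t + hsI.ht e) :
    (∀ m ∈ Js (2 ^ b) (2 ^ i) (2 ^ j), meets σ true K (2 ^ (b * m + i)) c →
      ¬ hsI.slab wdb (K + 2) (2 ^ (b * m + i)) ((t ++ [e]).map hsI.rf)) ∨
    (∀ m ∈ Js (2 ^ b) (2 ^ i) (2 ^ j), meets σ false K (2 ^ (b * m + i)) c →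
      ¬ hsI.slab wdb (K + 2) (2 ^ (b * m + i)) (t ++ [e])) := by
  obtain ⟨hav, hh, hos⟩ := hgp
  have hos := hos (s ++ t) [] (List.append_nil _).symm
  -- the slabs are in `t`
  have key : ∀ T : ℕ, 32 * 2 ^ i ≤ T → 4 * T ≤ 2 ^ j → ∀ s1 s2 s3 : List Blk, t ++ [e] = s1 ++ s2 ++ s3 →
      8 * hsI.h (s1 ++ s2) ≤ 17 * T → ∃ s3', t = s1 ++ s2 ++ s3' := by
    intro T h1 h2 s1 s2 s3 h3 h4
    refine MA_last (A := hsI.toAlph) h3 he ?_
    omega
  have key2 : ∀ T : ℕ, 32 * 2 ^ i ≤ T → 4 * T ≤ 2 ^ j → hsI.slab wdb (K + 2) T (t ++ [e]) → s ++ t = [] → False := by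
    rintro T h1 h2 ⟨s1, s2, s3, E, e1, e2, e3, e4, e5, e6⟩ h0
    obtain ⟨s3', e7⟩ := key T h1 h2 s1 s2 s3 e1 e4
    have h3 : t = [] := (List.append_eq_nil_iff.1 h0).2
    rw [h3] at e7
    have h4 : s1 ++ s2 = [] := (List.append_eq_nil_iff.1 e7.symm).1
    have h5 : hsI.h (s1 ++ s2) = 0 := by rw [h4]; rfl
    have : 1 ≤ 2 ^ i := Nat.one_le_two_pow
    omega
  by_cases h0 : s ++ t = []
  · right
    intro m hm _ hs
    obtain ⟨h1, h2⟩ := Js_mem hm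
    rw [MB_sc] at h2
    exact key2 _ (MB_T hb h1) h2 hs h0
  rcases (hos.resolve_left h0) with hos | hos
  · -- the long leg is on the left
    left
    rintro m hm hmt ⟨s1, s2, s3, E, e1, e2, e3, e4, e5, e6⟩
    obtain ⟨h1, h2⟩ := Js_mem hm
    rw [MB_sc] at h2
    have f1 : t ++ [e] = s1.map hsI.rf ++ s2.map hsI.rf ++ s3.map hsI.rf := by
      have := congrArg (List.map hsI.rf) e1
      rw [Alph.map_rf_rf, List.map_append, List.map_append] at this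
      exact this
    have f2 : hsI.h (s1.map hsI.rf) = hsI.h s1 := Alph.h_map_rf s1
    have f3 : hsI.h (s1.map hsI.rf ++ s2.map hsI.rf) = hsI.h (s1 ++ s2) := by
      rw [← List.map_append]
      exact Alph.h_map_rf (s1 ++ s2)
    have f6 : 8 * hsI.h (s1.map hsI.rf ++ s2.map hsI.rf) ≤ 17 * 2 ^ (b * m + i) := by rw [f3]; exact e4
    have f7 : 15 * 2 ^ (b * m + i) ≤ 8 * hsI.h (s1.map hsI.rf ++ s2.map hsI.rf) := by rw [f3]; exact e3
    have f8 : 8 * hsI.h (s1.map hsI.rf) ≤ 9 * 2 ^ (b * m + i) := by rw [f2]; exact e2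
    obtain ⟨s3', f4⟩ := key _ (MB_T hb h1) h2 _ _ _ f1 f6
    have f5 : hsI.x (s1.map hsI.rf) = - hsI.x s1 := Alph.x_map_rf s1
    rw [f4] at hav hh hos
    refine MA_hit (τ := true) (T := 2 ^ (b * m + i)) (K := K) (MB_T hb h1) hls hds hav hh (by simpa using hos)
      f8 f7 (Alph.tub_map_rf wdb_rf e5) ?_ hmt
    rw [f5]
    simp only [if_true, Int.cast_neg, neg_neg]
    exact e6
  · -- the long leg is on the right
    right
    rintro m hm hmt ⟨s1, s2, s3, E, e1, e2, e3, e4, e5, e6⟩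
    obtain ⟨h1, h2⟩ := Js_mem hm
    rw [MB_sc] at h2
    obtain ⟨s3', f4⟩ := key _ (MB_T hb h1) h2 _ _ _ e1 e4
    rw [f4] at hav hh hos
    refine MA_hit (τ := false) (T := 2 ^ (b * m + i)) (K := K) (MB_T hb h1) hls hds hav hh (by simpa using hos)
      e2 e3 e5 ?_ hmt
    simp only [Bool.false_eq_true, if_false]
    exact e6

/-- The scales are an initial segment. -/
lemma MB_Js (b i j : ℕ) : Js (2 ^ b) (2 ^ i) (2 ^ j) ⊆ Finset.Icc 1 (Js (2 ^ b) (2 ^ i) (2 ^ j)).card ∧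
    (1 ≤ (Js (2 ^ b) (2 ^ i) (2 ^ j)).card → 4 * 2 ^ (b * (Js (2 ^ b) (2 ^ i) (2 ^ j)).card + i) ≤ 2 ^ j) := by
  set J := Js (2 ^ b) (2 ^ i) (2 ^ j) with hJ
  have h1 : ∀ m ∈ J, Finset.Icc 1 m ⊆ J := by
    intro m hm m' hm'
    rw [Finset.mem_Icc] at hm'
    rw [hJ, Js, Finset.mem_filter, Finset.mem_Icc] at hm ⊢
    refine ⟨⟨hm'.1, hm'.2.trans hm.1.2⟩, le_trans ?_ hm.2⟩
    exact Nat.mul_le_mul_left 4 (Nat.mul_le_mul_right _ (Nat.pow_le_pow_right Nat.one_le_two_pow hm'.2))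
  have h2 : J ⊆ Finset.Icc 1 J.card := by
    intro m hm
    have h3 := Finset.card_le_card (h1 m hm)
    rw [Nat.card_Icc] at h3
    have h4 := (Js_mem hm).1
    rw [Finset.mem_Icc]
    omega
  refine ⟨h2, fun h3 => ?_⟩
  have h4 : J = Finset.Icc 1 J.card := Finset.eq_of_subset_of_card_le h2 (by rw [Nat.card_Icc]; omega)
  have h5 : J.card ∈ J := by
    have h6 : J.card ∈ Finset.Icc 1 J.card := by
      rw [Finset.mem_Icc]
      exact ⟨h3, le_rfl⟩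
    exact h4.ge h6
  have h6 := (Js_mem h5).2
  rwa [MB_sc] at h6

lemma MB_fpw {A : Alph} {N : ℕ} {f : List A.B} (h : A.fpw N f) : A.fpw N (f.map A.rf) := by
  refine ⟨by rw [Alph.h_map_rf]; exact h.1, fun l1 c l2 e => ?_⟩
  have e1 : f = l1.map A.rf ++ A.rf c :: l2.map A.rf := by
    have := congrArg (List.map A.rf) e
    rw [Alph.map_rf_rf, List.map_append, List.map_cons] at this
    exact this
  have h1 := h.2 _ _ _ e1
  rwa [Alph.h_map_rf] at h1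

lemma MB_mir {A : Alph} (M : ℕ) (P : List A.B → Prop) :
    ∑' f, ind (A.fpw M f ∧ P (f.map A.rf)) * A.w f ≤ ∑' f, ind (A.fpw M f ∧ P f) * A.w f := by
  rw [← Alph.tsum_map_rf (A := A) (fun f => ind (A.fpw M f ∧ P f) * A.w f)]
  refine ENNReal.tsum_le_tsum fun f => ?_
  rw [Alph.w_map_rf]
  exact mul_le_mul' (ind_mono fun h => ⟨MB_fpw h.1, h.2⟩) le_rfl

lemma MB_half {J : Finset ℕ} {p q : ℕ → Prop} [DecidablePred p] [DecidablePred q] (hpq : ∀ m, q m ↔ ¬ p m)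
    (h : 2 * (J.filter q).card < J.card) : J.card < 2 * (J.filter p).card := by
  have h1 : J.filter q = J.filter (fun m => ¬ p m) := Finset.filter_congr fun m _ => hpq m
  have h2 := Finset.card_filter_add_card_filter_not (s := J) p
  rw [h1] at h
  omega

/-- The mass of the fresh chains, one giant block. -/
noncomputable def MBm (σ : Bool) (l s : List Blk) (j : ℕ) (c : Blk) : ℝ≥0∞ :=
  ∑' t : List Blk, ind (hsI.gp σ (l ++ [c]) (s ++ t) ∧ hsI.h (s ++ t) ≤ hsI.h l + 2 ^ j) *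
    (hsI.w t * hsI.Lam (hsI.h l + 2 ^ j - hsI.h (s ++ t)))

lemma MBm_le {σ : Bool} {l s : List Blk} {i j : ℕ} (hij : i ≤ j) (hds : hsI.ds σ l s ≤ 2 ^ i) (c : Blk)
    (Q : List Blk → Prop) (hQ : ∀ (t : List Blk) (e : Blk), hsI.gp σ (l ++ [c]) (s ++ t) →
      hsI.h l + 2 ^ j - hsI.h s < hsI.h t + hsI.ht e → Q (t ++ [e])) :
    MBm σ l s j c ≤ ∑' f, ind (hsI.fpw (hsI.h l + 2 ^ j - hsI.h s + 1) f ∧ Q f) * hsI.w f := by
  have h1 : hsI.h s ≤ hsI.h l + 2 ^ j := by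
    have h2 := (le_max_left _ _).trans hds
    have h3 : 2 ^ i ≤ 2 ^ j := Nat.pow_le_pow_right (by norm_num) hij
    omega
  refine le_trans (le_of_eq ?_) (MA_tsum hsI.toAlph (hsI.h l + 2 ^ j - hsI.h s) (fun t : List Blk => hsI.gp σ (l ++ [c]) (s ++ t)) Q
    (fun t e h4 _ h6 => hQ t e h4 h6))
  unfold MBm
  refine tsum_congr fun (t : List Blk) => ?_
  have h2 : hsI.h (s ++ t) = hsI.h s + hsI.h t := hsI.h_append s t
  rw [h2]
  have h3 : hsI.h l + 2 ^ j - (hsI.h s + hsI.h t) = hsI.h l + 2 ^ j - hsI.h s - hsI.h t := by omega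
  rw [h3]
  refine congrArg₂ _ (ind_congr ⟨fun h => ⟨h.1, by omega⟩, fun h => ⟨h.1, by have := h.2; omega⟩⟩) rfl

/-- No avoidance. -/
lemma MBm_le_one {σ : Bool} {l s : List Blk} {i j : ℕ} (hij : i ≤ j) (hds : hsI.ds σ l s ≤ 2 ^ i) (c : Blk) :
    MBm σ l s j c ≤ 1 := by
  refine (MBm_le hij hds c (fun _ => True) (fun _ _ _ _ => trivial)).trans ?_
  rw [← Alph.tsum_fpw (A := hsI.toAlph) (hsI.h l + 2 ^ j - hsI.h s + 1)]
  exact ENNReal.tsum_le_tsum fun f => mul_le_mul' (ind_mono fun h => h.1) le_rfl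

/-- A giant block which meets more than half of the windows in both orientations. -/
lemma MBm_half {b K : ℕ} {C ρ : ℝ≥0∞} (hb : 5 ≤ b)
    (hrun : ∀ (i n M : ℕ) (J : Finset ℕ), J ⊆ Finset.Icc 1 n → n ≤ 2 * J.card → 3 * 2 ^ (b * n + i) ≤ M →
      ∑' f, ind (hsI.fpw M f ∧ ∀ m ∈ J, ¬ hsI.slab wdb (K + 2) (2 ^ (b * m + i)) f) * hsI.w f ≤ C * ρ ^ n)
    {σ : Bool} {l s : List Blk} {i j : ℕ} (hij : i ≤ j) (hls : hsI.h l ≤ hsI.h s) (hds : hsI.ds σ l s ≤ 2 ^ i) {c : Blk}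
    (h1 : ¬ Avh σ true K (2 ^ b) (2 ^ i) (2 ^ j) c) (h2 : ¬ Avh σ false K (2 ^ b) (2 ^ i) (2 ^ j) c) :
    MBm σ l s j c ≤ 2 * (C * ρ ^ (Js (2 ^ b) (2 ^ i) (2 ^ j)).card) := by
  classical
  set J := Js (2 ^ b) (2 ^ i) (2 ^ j) with hJ
  obtain ⟨hJ1, hJ2⟩ := MB_Js b i j
  rw [← hJ] at hJ1 hJ2
  have hsc : ∀ m, (2 ^ b) ^ m * 2 ^ i = 2 ^ (b * m + i) := MB_sc b i
  -- the windows which are met
  have hhalf : ∀ τ, ¬ Avh σ τ K (2 ^ b) (2 ^ i) (2 ^ j) c →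
      J.card < 2 * (J.filter fun m => meets σ τ K (2 ^ (b * m + i)) c).card := by
    intro τ h
    unfold Avh at h
    rw [not_le] at h
    exact MB_half (fun m => by rw [hsc]) h
  have g1 := hhalf true h1
  have g2 := hhalf false h2
  have hcard : 1 ≤ J.card := by
    have := Finset.card_filter_le J (fun m => meets σ true K (2 ^ (b * m + i)) c)
    omega
  have hT := MB_T (i := i) hb hcard
  have hJ3 := hJ2 hcard
  have hN1 : hsI.h s ≤ hsI.h l + 2 ^ i := by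
    have h3 := (le_max_left _ _).trans hds
    omega
  have hM : 3 * 2 ^ (b * J.card + i) ≤ hsI.h l + 2 ^ j - hsI.h s + 1 := by omega
  set Jt := J.filter fun m => meets σ true K (2 ^ (b * m + i)) c with hJt
  set Jf := J.filter fun m => meets σ false K (2 ^ (b * m + i)) c with hJf
  set M := hsI.h l + 2 ^ j - hsI.h s + 1 with hMdef
  have key := MBm_le hij hds c (fun f => (∀ m ∈ Jt, ¬ hsI.slab wdb (K + 2) (2 ^ (b * m + i)) (f.map hsI.rf)) ∨
      (∀ m ∈ Jf, ¬ hsI.slab wdb (K + 2) (2 ^ (b * m + i)) f)) (fun t e h3 h4 => by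
    rcases MB_pt (j := j) (K := K) (N := hsI.h l + 2 ^ j - hsI.h s) hb hls hds h3 (by omega) h4 with h5 | h5
    · left
      intro m hm
      rw [hJt, Finset.mem_filter] at hm
      exact h5 m hm.1 hm.2
    · right
      intro m hm
      rw [hJf, Finset.mem_filter] at hm
      exact h5 m hm.1 hm.2)
  have k1 := hrun i J.card M Jt ((Finset.filter_subset _ _).trans hJ1) (by omega) hM
  have k2 := hrun i J.card M Jf ((Finset.filter_subset _ _).trans hJ1) (by omega) hM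
  have k3 := MB_mir (A := hsI.toAlph) M (fun f => ∀ m ∈ Jt, ¬ hsI.slab wdb (K + 2) (2 ^ (b * m + i)) f)
  calc MBm σ l s j c ≤ _ := key
    _ ≤ ∑' f, (ind (hsI.fpw M f ∧ ∀ m ∈ Jt, ¬ hsI.slab wdb (K + 2) (2 ^ (b * m + i)) (f.map hsI.rf)) * hsI.w f +
          ind (hsI.fpw M f ∧ ∀ m ∈ Jf, ¬ hsI.slab wdb (K + 2) (2 ^ (b * m + i)) f) * hsI.w f) := by
        refine ENNReal.tsum_le_tsum fun f => ?_
        rw [← add_mul]
        refine mul_le_mul' ?_ le_rfl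
        refine le_trans (ind_mono fun h => ?_) (ind_or_le _ _)
        rcases h.2 with h5 | h5
        · exact Or.inl ⟨h.1, h5⟩
        · exact Or.inr ⟨h.1, h5⟩
    _ = ∑' f, ind (hsI.fpw M f ∧ ∀ m ∈ Jt, ¬ hsI.slab wdb (K + 2) (2 ^ (b * m + i)) (f.map hsI.rf)) * hsI.w f +
          ∑' f, ind (hsI.fpw M f ∧ ∀ m ∈ Jf, ¬ hsI.slab wdb (K + 2) (2 ^ (b * m + i)) f) * hsI.w f := ENNReal.tsum_add
    _ ≤ C * ρ ^ J.card + C * ρ ^ J.card := add_le_add (k3.trans k1) k2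
    _ = _ := by ring

end Pool.Agent.HEP
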