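import Pool.Agent.PLY.G.Main
import Pool.Agent.PLY.G.Flat

/-!
Project PLY (MP_8c6f77_pr), LEMMA G (note 3063) for the system `hsI` and the width `wdb`: the unconditional statement.
-/

namespace Pool.Agent.HEP

open scoped ENNReal

/-- **LEMMA G.** A giant block is hit by the fresh chain at every scale. -/
theorem hsI_lemmaG {ρ₂ : ℝ≥0∞} (h2 : r34 < ρ₂) (h2' : ρ₂ < 1) :
    ∃ K ρ₁ : ℝ≥0∞, 1 ≤ K ∧ K ≠ ⊤ ∧ ρ₂ < ρ₁ ∧ ρ₁ < 1 ∧ hsI.Hit wdb K ρ₁ ρ₂ ∧ hsI.Rho K ρ₂ :=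
  hsI_lemmaG_of (flat hsI_quarter) h2 h2'

/-- Numerical form: `ρ₂ = 3/5`. -/
theorem hsI_lemmaG_num : ∃ K ρ₁ : ℝ≥0∞, 1 ≤ K ∧ K ≠ ⊤ ∧ 2⁻¹ ≤ (ENNReal.ofReal (3 / 5)) ∧ ENNReal.ofReal (3 / 5) < ρ₁ ∧ ρ₁ < 1 ∧
    hsI.Hit wdb K ρ₁ (ENNReal.ofReal (3 / 5)) ∧ hsI.Rho K (ENNReal.ofReal (3 / 5)) := by
  have h1 : r34 < ENNReal.ofReal (3 / 5) := by
    unfold r34
    refine (ENNReal.ofReal_lt_ofReal_iff_of_nonneg (by positivity)).2 ?_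
    have h2 : ((2 : ℝ) ^ (-(3 / 4) : ℝ)) ^ (4 : ℕ) < (3 / 5 : ℝ) ^ (4 : ℕ) := by
      rw [← Real.rpow_natCast, ← Real.rpow_mul (by norm_num)]
      norm_num
    exact lt_of_pow_lt_pow_left₀ 4 (by norm_num) h2
  have h2 : ENNReal.ofReal (3 / 5) < 1 := by
    rw [ENNReal.ofReal_lt_one]
    norm_num
  obtain ⟨K, ρ₁, h3, h4, h5, h6, h7, h8⟩ := hsI_lemmaG h1 h2
  refine ⟨K, ρ₁, h3, h4, ?_, h5, h6, h7, h8⟩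
  rw [show (2⁻¹ : ℝ≥0∞) = ENNReal.ofReal (1 / 2) by
    rw [one_div, ENNReal.ofReal_inv_of_pos (by norm_num)]; norm_num]
  exact ENNReal.ofReal_le_ofReal (by norm_num)

end Pool.Agent.HEP
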