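import Pool.Agent.PLY.G.RunA
import Pool.Agent.HEP.RnSeq

/-!
Project PLY, Lemma G, part RUNS, file 2: tail of the size of a first passage word, and its exponential moment with a base close to `1`.
`siz wd s` = sum over the blocks of `s` of `wd + ht`.
-/

namespace Pool.Agent.HEP.Alph

open scoped ENNReal

/-- Regularity of the renewal function (dyadic form). -/
structure RegU (A : Alph) (K ρ σ : ℝ≥0∞) : Prop where
  up : ∀ i j, i ≤ j → A.U (2 ^ i) ≤ K * ρ ^ (j - i) * A.U (2 ^ j)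
  dn : ∀ i j, i ≤ j → 2 ^ i * A.U (2 ^ j) ≤ K * σ ^ (j - i) * (2 ^ j * A.U (2 ^ i))

variable {A : Alph} {wd : A.B → ℕ}

/-- The size of a word. -/
def siz (A : Alph) (wd : A.B → ℕ) (s : List A.B) : ℕ := (s.map fun c => wd c + A.ht c).sum

lemma siz_nil : A.siz wd [] = 0 := rfl

lemma siz_cons (c : A.B) (s : List A.B) : A.siz wd (c :: s) = wd c + A.ht c + A.siz wd s := by
  unfold siz
  rw [List.map_cons, List.sum_cons]

lemma siz_append (s t : List A.B) : A.siz wd (s ++ t) = A.siz wd s + A.siz wd t := by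
  unfold siz
  rw [List.map_append, List.sum_append]

lemma h_le_siz (s : List A.B) : A.h s ≤ A.siz wd s := by
  induction s with
  | nil => rw [A.h_nil, siz_nil]
  | cons c s ih => rw [A.h_cons, siz_cons]; omega

lemma x_h_le_siz (hdx : ∀ c, |A.dx c| ≤ wd c) (s : List A.B) : |A.x s| + A.h s ≤ A.siz wd s := by
  induction s with
  | nil => rw [A.h_nil, siz_nil, A.x_nil]; simp
  | cons c s ih =>
    rw [A.h_cons, siz_cons, A.x_cons]
    have h1 := abs_add_le (A.dx c) (A.x s)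
    have h2 := hdx c
    push_cast
    linarith

/-- The block is big at the scale `2 ^ j`. -/
def bigb (A : Alph) (wd : A.B → ℕ) (j : ℕ) (c : A.B) : Prop := 2 ^ j < A.ht c ∨ 2 ^ j < wd c

private lemma RunB_nat (j m : ℕ) (hm : m ≤ 2 ^ j) : m ≤ 1 + ∑ i ∈ Finset.range j, if 2 ^ i < m then 2 ^ i else 0 := by
  induction j with
  | zero => simpa using hm
  | succ j ih =>
    rw [Finset.sum_range_succ]
    rcases Nat.lt_or_ge (2 ^ j) m with h1 | h1
    · have h2 : ∀ i ∈ Finset.range j, (if 2 ^ i < m then 2 ^ i else 0) = 2 ^ i := by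
        intro i hi
        rw [Finset.mem_range] at hi
        have : 2 ^ i ≤ 2 ^ j := Nat.pow_le_pow_right (by norm_num) hi.le
        rw [if_pos (by omega)]
      rw [Finset.sum_congr rfl h2, if_pos h1, Nat.geomSum_eq (by norm_num)]
      have h3 : 1 ≤ 2 ^ j := Nat.one_le_two_pow
      rw [pow_succ] at hm
      omega
    · have := ih h1
      omega

/-- The blocks which are not big have a small mean size. -/
private lemma RunB_mean (j : ℕ) :
    ∑' c, A.wt c * (ind (¬ A.bigb wd j c) * ((wd c + A.ht c : ℕ) : ℝ≥0∞)) ≤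
      2 * (1 + ∑ i ∈ Finset.range j, 2 ^ i * ∑' c, ind (A.bigb wd i c) * A.wt c) := by
  classical
  have h1 : ∀ c, A.wt c * (ind (¬ A.bigb wd j c) * ((wd c + A.ht c : ℕ) : ℝ≥0∞)) ≤
      2 * (A.wt c + ∑ i ∈ Finset.range j, 2 ^ i * (ind (A.bigb wd i c) * A.wt c)) := by
    intro c
    by_cases hb : A.bigb wd j c
    · rw [ind_false (not_not.2 hb), zero_mul, mul_zero]
      exact bot_le
    · rw [ind_true hb, one_mul]
      unfold bigb at hb
      push Not at hb
      have h2 : wd c + A.ht c ≤ 2 * (1 + ∑ i ∈ Finset.range j, if A.bigb wd i c then 2 ^ i else 0) := by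
        have h3 := RunB_nat j (max (A.ht c) (wd c)) (max_le hb.1 hb.2)
        have h4 : (∑ i ∈ Finset.range j, if 2 ^ i < max (A.ht c) (wd c) then 2 ^ i else 0) =
            ∑ i ∈ Finset.range j, if A.bigb wd i c then 2 ^ i else 0 := by
          refine Finset.sum_congr rfl fun i _ => ?_
          have : (2 ^ i < max (A.ht c) (wd c)) ↔ A.bigb wd i c := lt_max_iff
          simp only [this]
        rw [h4] at h3
        omega
      have h5 : ((wd c + A.ht c : ℕ) : ℝ≥0∞) ≤ 2 * (1 + ∑ i ∈ Finset.range j, 2 ^ i * ind (A.bigb wd i c)) := by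
        refine (Nat.cast_le.2 h2).trans (le_of_eq ?_)
        push_cast
        congr 2
        refine Finset.sum_congr rfl fun i _ => ?_
        split_ifs with h6
        · rw [ind_true h6]; norm_num
        · rw [ind_false h6]; simp
      calc A.wt c * ((wd c + A.ht c : ℕ) : ℝ≥0∞)
          ≤ A.wt c * (2 * (1 + ∑ i ∈ Finset.range j, 2 ^ i * ind (A.bigb wd i c))) := mul_le_mul' le_rfl h5
        _ = 2 * (A.wt c + ∑ i ∈ Finset.range j, 2 ^ i * (ind (A.bigb wd i c) * A.wt c)) := by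
            rw [mul_left_comm, mul_add, mul_one, Finset.mul_sum]
            congr 2
            refine Finset.sum_congr rfl fun i _ => ?_
            ring
  refine (ENNReal.tsum_le_tsum h1).trans (le_of_eq ?_)
  rw [ENNReal.tsum_mul_left, ENNReal.tsum_add, A.tot]
  congr 2
  rw [Summable.tsum_finsetSum fun i _ => ENNReal.summable]
  exact Finset.sum_congr rfl fun i _ => ENNReal.tsum_mul_left

lemma geo_le {σ : ℝ≥0∞} (j : ℕ) : ∑ i ∈ Finset.range j, σ ^ (j - i) ≤ (1 - σ)⁻¹ := by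
  calc ∑ i ∈ Finset.range j, σ ^ (j - i) = ∑ i ∈ Finset.range j, σ ^ (i + 1) := by
        rw [← Finset.sum_range_reflect (fun i => σ ^ (i + 1)) j]
        refine Finset.sum_congr rfl fun i hi => ?_
        rw [Finset.mem_range] at hi
        congr 1
        omega
    _ ≤ ∑' i, σ ^ (i + 1) := ENNReal.sum_le_tsum _
    _ ≤ ∑' i, σ ^ i := by
        rw [← ENNReal.summable.sum_add_tsum_nat_add' (k := 1) (f := fun i => σ ^ i)]
        exact le_add_self
    _ = _ := ENNReal.tsum_geometric σ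

private lemma U_one_le : A.U (2 ^ 0) ≤ 2 := by
  refine (A.U_le _).trans (le_of_eq ?_)
  norm_num

/-- The mean size of the blocks which are not big. -/
private lemma RunB_mean2 {K ρ σ : ℝ≥0∞} {C : ℕ} (hR : RegU A K ρ σ) (hσ : σ ≤ 1) (hT : A.TailP wd C) (j : ℕ) :
    A.U (2 ^ j) * ∑' c, A.wt c * (ind (¬ A.bigb wd j c) * ((wd c + A.ht c : ℕ) : ℝ≥0∞)) ≤
      2 ^ j * (2 * (2 * K + K * C * (1 - σ)⁻¹)) := by
  have h0 : A.U (2 ^ j) ≤ 2 ^ j * (2 * K) := by
    have h := hR.dn 0 j (Nat.zero_le _)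
    calc A.U (2 ^ j) = 2 ^ 0 * A.U (2 ^ j) := by simp
      _ ≤ K * σ ^ (j - 0) * (2 ^ j * A.U (2 ^ 0)) := h
      _ ≤ K * 1 * (2 ^ j * 2) := by
          gcongr
          · exact pow_le_one' hσ _
          · exact U_one_le
      _ = _ := by ring
  have h1 : ∀ i ∈ Finset.range j, A.U (2 ^ j) * (2 ^ i * ∑' c, ind (A.bigb wd i c) * A.wt c) ≤
      2 ^ j * (K * C * σ ^ (j - i)) := by
    intro i hi
    rw [Finset.mem_range] at hi
    calc A.U (2 ^ j) * (2 ^ i * ∑' c, ind (A.bigb wd i c) * A.wt c)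
        = (2 ^ i * A.U (2 ^ j)) * ∑' c, ind (A.bigb wd i c) * A.wt c := by ring
      _ ≤ (K * σ ^ (j - i) * (2 ^ j * A.U (2 ^ i))) * ∑' c, ind (A.bigb wd i c) * A.wt c :=
          mul_le_mul' (hR.dn i j hi.le) le_rfl
      _ = 2 ^ j * (K * σ ^ (j - i)) * (A.U (2 ^ i) * ∑' c, ind (A.bigb wd i c) * A.wt c) := by ring
      _ ≤ 2 ^ j * (K * σ ^ (j - i)) * C := by
          gcongr
          exact hT (2 ^ i)
      _ = _ := by ring
  calc A.U (2 ^ j) * ∑' c, A.wt c * (ind (¬ A.bigb wd j c) * ((wd c + A.ht c : ℕ) : ℝ≥0∞))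
      ≤ A.U (2 ^ j) * (2 * (1 + ∑ i ∈ Finset.range j, 2 ^ i * ∑' c, ind (A.bigb wd i c) * A.wt c)) := by
        gcongr
        exact RunB_mean j
    _ = 2 * (A.U (2 ^ j) + ∑ i ∈ Finset.range j, A.U (2 ^ j) * (2 ^ i * ∑' c, ind (A.bigb wd i c) * A.wt c)) := by
        rw [← Finset.mul_sum]; ring
    _ ≤ 2 * (2 ^ j * (2 * K) + ∑ i ∈ Finset.range j, 2 ^ j * (K * C * σ ^ (j - i))) :=
        mul_le_mul' le_rfl (add_le_add h0 (Finset.sum_le_sum h1))
    _ = 2 ^ j * (2 * (2 * K + K * C * ∑ i ∈ Finset.range j, σ ^ (j - i))) := by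
        rw [← Finset.mul_sum, ← Finset.mul_sum]; ring
    _ ≤ _ := by
        gcongr
        exact geo_le j

/-- The function whose sum over a word of size `≥ 2 ^ j` is at least `1`. -/
private noncomputable def ff (A : Alph) (wd : A.B → ℕ) (j : ℕ) (c : A.B) : ℝ≥0∞ :=
  ind (A.bigb wd j c) + (2 ^ j)⁻¹ * (ind (¬ A.bigb wd j c) * ((wd c + A.ht c : ℕ) : ℝ≥0∞))

private lemma ff_sum (j : ℕ) (s : List A.B) : 1 ≤ (s.map (ff A wd j)).sum ∨
    (2 ^ j)⁻¹ * ((A.siz wd s : ℕ) : ℝ≥0∞) ≤ (s.map (ff A wd j)).sum := by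
  induction s with
  | nil => right; rw [siz_nil]; simp
  | cons c s ih =>
    rw [List.map_cons, List.sum_cons]
    by_cases hb : A.bigb wd j c
    · left
      unfold ff
      rw [ind_true hb]
      exact le_trans le_self_add le_self_add
    · rcases ih with h | h
      · exact Or.inl (h.trans le_add_self)
      · right
        rw [siz_cons]
        unfold ff at h ⊢
        rw [ind_false hb, ind_true (p := ¬ A.bigb wd j c) hb, zero_add, one_mul, Nat.cast_add, mul_add]
        gcongr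

private lemma ff_sum_ge {j : ℕ} {s : List A.B} (h : 2 ^ j ≤ A.siz wd s) : 1 ≤ (s.map (ff A wd j)).sum := by
  rcases ff_sum (wd := wd) j s with h1 | h1
  · exact h1
  · refine le_trans ?_ h1
    have h2 : ((2 ^ j : ℕ) : ℝ≥0∞) ≤ ((A.siz wd s : ℕ) : ℝ≥0∞) := Nat.cast_le.2 h
    push_cast at h2
    calc (1 : ℝ≥0∞) = (2 ^ j)⁻¹ * 2 ^ j := by
          rw [ENNReal.inv_mul_cancel (by positivity) (by simp)]
      _ ≤ _ := by gcongr

/-- Tail of the size of a first passage word. -/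
theorem siz_tail {K ρ σ : ℝ≥0∞} {C : ℕ} (hR : RegU A K ρ σ) (hσ : σ ≤ 1) (hT : A.TailP wd C) {N e j : ℕ}
    (hN : N ≤ 2 ^ e) (hej : e ≤ j) :
    ∑' s, ind (A.fpw N s ∧ 2 ^ j ≤ A.siz wd s) * A.w s ≤
      K * (C + 2 * (2 * K + K * C * (1 - σ)⁻¹)) * ρ ^ (j - e) := by
  have h2j : (2 ^ j : ℝ≥0∞) ≠ 0 := by positivity
  have h2t : (2 ^ j : ℝ≥0∞) ≠ ⊤ := by simp
  calc ∑' s, ind (A.fpw N s ∧ 2 ^ j ≤ A.siz wd s) * A.w s
      ≤ ∑' s, ind (A.fpw N s) * (A.w s * (s.map (ff A wd j)).sum) := by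
        refine ENNReal.tsum_le_tsum fun s => ?_
        by_cases h : A.fpw N s ∧ 2 ^ j ≤ A.siz wd s
        · rw [ind_true h, ind_true h.1, one_mul, one_mul]
          calc A.w s = A.w s * 1 := (mul_one _).symm
            _ ≤ _ := by gcongr; exact ff_sum_ge h.2
        · rw [ind_false h, zero_mul]
          exact bot_le
    _ = A.Rn N * ∑' c, A.wt c * ff A wd j c := RunA_wald _ N
    _ ≤ A.U (2 ^ e) * ∑' c, A.wt c * ff A wd j c := by
        gcongr
        exact (Rn_le N).trans (A.U_mono hN)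
    _ ≤ (K * ρ ^ (j - e) * A.U (2 ^ j)) * ∑' c, A.wt c * ff A wd j c := by
        gcongr
        exact hR.up e j hej
    _ = K * ρ ^ (j - e) * (A.U (2 ^ j) * ∑' c, ind (A.bigb wd j c) * A.wt c +
          (2 ^ j)⁻¹ * (A.U (2 ^ j) * ∑' c, A.wt c * (ind (¬ A.bigb wd j c) * ((wd c + A.ht c : ℕ) : ℝ≥0∞)))) := by
        have h1 : ∑' c, A.wt c * ff A wd j c = ∑' c, ind (A.bigb wd j c) * A.wt c +
            (2 ^ j)⁻¹ * ∑' c, A.wt c * (ind (¬ A.bigb wd j c) * ((wd c + A.ht c : ℕ) : ℝ≥0∞)) := by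
          rw [← ENNReal.tsum_mul_left, ← ENNReal.tsum_add]
          refine tsum_congr fun c => ?_
          unfold ff
          ring
        rw [h1]
        ring
    _ ≤ K * ρ ^ (j - e) * (C + (2 ^ j)⁻¹ * (2 ^ j * (2 * (2 * K + K * C * (1 - σ)⁻¹)))) := by
        refine mul_le_mul' le_rfl (add_le_add (hT (2 ^ j)) (mul_le_mul' le_rfl ?_))
        exact RunB_mean2 hR hσ hT j
    _ = _ := by
        rw [← mul_assoc ((2 ^ j : ℝ≥0∞)⁻¹), ENNReal.inv_mul_cancel h2j h2t, one_mul]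
        ring

lemma geo_eq (η : ℝ≥0∞) (e : ℕ) : (1 + η) ^ e = 1 + η * ∑' t, ind (t < e) * (1 + η) ^ t := by
  have h1 : ∑' t, ind (t < e) * (1 + η) ^ t = ∑ t ∈ Finset.range e, (1 + η) ^ t := by
    rw [tsum_eq_sum (s := Finset.range e)]
    · refine Finset.sum_congr rfl fun t ht => ?_
      rw [ind_true (Finset.mem_range.1 ht), one_mul]
    · intro t ht
      rw [Finset.mem_range] at ht
      rw [ind_false ht, zero_mul]
  rw [h1]
  induction e with
  | zero => simp
  | succ e ih =>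
    have ih' := ih (by
      rw [tsum_eq_sum (s := Finset.range e)]
      · refine Finset.sum_congr rfl fun t ht => ?_
        rw [ind_true (Finset.mem_range.1 ht), one_mul]
      · intro t ht
        rw [Finset.mem_range] at ht
        rw [ind_false ht, zero_mul])
    rw [Finset.sum_range_succ, mul_add, ← add_assoc, ← ih', pow_succ]
    ring

/-- Exponential moment of the logarithm of the size of a first passage word, base close to `1`. -/
theorem kappa {K ρ σ ρ1 η : ℝ≥0∞} {C : ℕ} (hR : RegU A K ρ σ) (hσ : σ ≤ 1) (hT : A.TailP wd C) (hη : η ≤ 1)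
    (hq : (1 + η) * ρ ≤ ρ1) {N v : ℕ} (hN : N ≤ 2 ^ (v + 2)) :
    ∑' s, ind (A.fpw N s) * (A.w s * (1 + η) ^ (1 + (Nat.size (A.siz wd s) + 5 - v))) ≤
      1 + η * (2 ^ 8 * 8 + 2 ^ 8 * ((K * (C + 2 * (2 * K + K * C * (1 - σ)⁻¹))) * (1 - ρ1)⁻¹)) := by
  set C4 : ℝ≥0∞ := K * (C + 2 * (2 * K + K * C * (1 - σ)⁻¹)) with hC4
  set e : List A.B → ℕ := fun s => 1 + (Nat.size (A.siz wd s) + 5 - v) with he
  set P : ℕ → ℝ≥0∞ := fun t => ∑' s, ind (A.fpw N s ∧ t < e s) * A.w s with hP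
  have hq2 : 1 + η ≤ 2 := by
    calc 1 + η ≤ 1 + 1 := by gcongr
      _ = 2 := by norm_num
  have hP1 : ∀ t, P t ≤ 1 := by
    intro t
    rw [hP, ← tsum_fpw (A := A) N]
    exact ENNReal.tsum_le_tsum fun s => mul_le_mul' (ind_mono fun h => h.1) le_rfl
  have hP2 : ∀ t, P (t + 8) ≤ C4 * ρ ^ t := by
    intro t
    have h1 : P (t + 8) ≤ ∑' s, ind (A.fpw N s ∧ 2 ^ (v + 2 + t) ≤ A.siz wd s) * A.w s := by
      refine ENNReal.tsum_le_tsum fun s => mul_le_mul' (ind_mono fun h => ⟨h.1, ?_⟩) le_rfl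
      rw [← Nat.lt_size]
      have h2 := h.2
      simp only [he] at h2
      omega
    refine h1.trans ((siz_tail hR hσ hT hN (by omega)).trans (le_of_eq ?_))
    rw [show v + 2 + t - (v + 2) = t by omega]
  have h1 : ∑' s, ind (A.fpw N s) * (A.w s * (1 + η) ^ e s) = 1 + η * ∑' t, (1 + η) ^ t * P t := by
    calc ∑' s, ind (A.fpw N s) * (A.w s * (1 + η) ^ e s)
        = ∑' s, (ind (A.fpw N s) * A.w s +
            η * ∑' t, (1 + η) ^ t * (ind (A.fpw N s ∧ t < e s) * A.w s)) := by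
          refine tsum_congr fun s => ?_
          rw [geo_eq, mul_add, mul_add, mul_one]
          congr 1
          calc ind (A.fpw N s) * (A.w s * (η * ∑' t, ind (t < e s) * (1 + η) ^ t))
              = η * ((ind (A.fpw N s) * A.w s) * ∑' t, ind (t < e s) * (1 + η) ^ t) := by ring
            _ = _ := by
                rw [← ENNReal.tsum_mul_left]
                congr 1
                refine tsum_congr fun t => ?_
                rw [ind_and]
                ring
      _ = _ := by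
          rw [ENNReal.tsum_add, tsum_fpw, ENNReal.tsum_mul_left, ENNReal.tsum_comm]
          congr 2
          refine tsum_congr fun t => ?_
          rw [ENNReal.tsum_mul_left]
  rw [h1]
  gcongr
  calc ∑' t, (1 + η) ^ t * P t
      = ∑ t ∈ Finset.range 8, (1 + η) ^ t * P t + ∑' t, (1 + η) ^ (t + 8) * P (t + 8) :=
        (ENNReal.summable.sum_add_tsum_nat_add' (k := 8) (f := fun t => (1 + η) ^ t * P t)).symm
    _ ≤ ∑ _t ∈ Finset.range 8, 2 ^ 8 * 1 + ∑' t, (2 ^ 8 * C4) * ρ1 ^ t := by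
        refine add_le_add (Finset.sum_le_sum fun t ht => mul_le_mul' ?_ (hP1 t)) (ENNReal.tsum_le_tsum fun t => ?_)
        · rw [Finset.mem_range] at ht
          calc (1 + η) ^ t ≤ 2 ^ t := pow_le_pow_left' hq2 t
            _ ≤ 2 ^ 8 := pow_le_pow_right₀ (by norm_num) ht.le
        · calc (1 + η) ^ (t + 8) * P (t + 8) ≤ ((1 + η) ^ t * 2 ^ 8) * (C4 * ρ ^ t) := by
                rw [pow_add]
                exact mul_le_mul' (mul_le_mul' le_rfl (pow_le_pow_left' hq2 8)) (hP2 t)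
            _ = (2 ^ 8 * C4) * ((1 + η) * ρ) ^ t := by rw [mul_pow]; ring
            _ ≤ _ := mul_le_mul' le_rfl (pow_le_pow_left' hq t)
    _ = _ := by
        rw [ENNReal.tsum_mul_left, ENNReal.tsum_geometric, Finset.sum_const, Finset.card_range, nsmul_eq_mul]
        push_cast
        ring

end Pool.Agent.HEP.Alph
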