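import Pool.Agent.PLY.G.RunB

/-!
Project PLY, Lemma G, part RUNS, file 3: words with an offset, and one step of the chain.
* `slabO K t x y s`: the word `s`, started at the point `(x, y)`, has a slab of scale `t`.
* `NS T J K m x y s`: no slab of a scale `T k`, `k ∈ J`, `m ≤ k`.
* `GG T J K M m x y`: mass of the first passage words (level `M`) started at `(x, y)` with `NS`.
* `GG_step`: one step, `GG_rec`: the induction with the potential.
-/

namespace Pool.Agent.HEP.Alph

open scoped ENNReal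

variable {A : Alph} {wd : A.B → ℕ}

/-- Slab with an offset. -/
def slabO (A : Alph) (wd : A.B → ℕ) (K t : ℕ) (x : ℤ) (y : ℕ) (s : List A.B) : Prop :=
  ∃ (s1 s2 s3 : List A.B) (E : ℝ), s = s1 ++ s2 ++ s3 ∧ 8 * (y + A.h s1) ≤ 9 * t ∧ 15 * t ≤ 8 * (y + A.h (s1 ++ s2)) ∧
    8 * (y + A.h (s1 ++ s2)) ≤ 17 * t ∧ A.tub wd 0 E s2 ∧ (K : ℝ) * t + E ≤ x + A.x s1

lemma slabO_zero {K t : ℕ} {s : List A.B} : A.slabO wd K t 0 0 s ↔ A.slab wd K t s := by
  unfold slabO slab
  simp only [zero_add, Int.cast_zero]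

lemma slabO_append {K t : ℕ} {x : ℤ} {y : ℕ} {s' s : List A.B} (h : A.slabO wd K t (x + A.x s') (y + A.h s') s) :
    A.slabO wd K t x y (s' ++ s) := by
  obtain ⟨s1, s2, s3, E, h1, h2, h3, h4, h5, h6⟩ := h
  refine ⟨s' ++ s1, s2, s3, E, by rw [h1]; simp, ?_, ?_, ?_, h5, ?_⟩
  · rw [A.h_append]; omega
  · rw [List.append_assoc, A.h_append s']; omega
  · rw [List.append_assoc, A.h_append s']; omega
  · rw [A.x_append]
    push_cast at h6 ⊢
    linarith

/-- A flat word started near the origin has a slab. -/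
lemma slabO_flat {K t : ℕ} {x : ℤ} {y : ℕ} (hz : 16 * (x.natAbs + y) ≤ t) {l : List A.B}
    (hl : ∃ (l1 l2 : List A.B) (E : ℝ), l = l1 ++ l2 ∧ 16 * A.h l1 ≤ 17 * t ∧ 31 * t ≤ 16 * A.h l ∧ A.h l ≤ 2 * t ∧
      A.tub wd 0 E l2 ∧ ((K + 1 : ℕ) : ℝ) * t + E ≤ A.x l1) (m : List A.B) :
    A.slabO wd K t x y (l ++ m) := by
  obtain ⟨l1, l2, E, h1, h2, h3, h4, h5, h6⟩ := hl
  refine ⟨l1, l2, m, E, by rw [h1], ?_, ?_, ?_, h5, ?_⟩
  · omega
  · rw [← h1]; omega
  · rw [← h1]; omega
  · have h7 : -(x.natAbs : ℤ) ≤ x := by omega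
    have h8 : (x.natAbs : ℤ) ≤ t := by omega
    have h9 : -(t : ℝ) ≤ x := by
      have h10 : -(t : ℤ) ≤ x := by linarith
      exact_mod_cast h10
    push_cast at h6
    nlinarith

/-- No slab of the scales `T k`, `k ∈ J`, `m ≤ k`. -/
def NS (A : Alph) (wd : A.B → ℕ) (T : ℕ → ℕ) (J : Finset ℕ) (K m : ℕ) (x : ℤ) (y : ℕ) (s : List A.B) : Prop :=
  ∀ k ∈ J, m ≤ k → ¬ A.slabO wd K (T k) x y s

lemma NS_append {T : ℕ → ℕ} {J : Finset ℕ} {K m : ℕ} {x : ℤ} {y : ℕ} {s' s : List A.B}
    (h : A.NS wd T J K m x y (s' ++ s)) : A.NS wd T J K (m + 1) (x + A.x s') (y + A.h s') s :=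
  fun k hk hm h' => h k hk (by omega) (slabO_append h')

/-- Mass of the first passage words started at `(x, y)` without slab. -/
noncomputable def GG (A : Alph) (wd : A.B → ℕ) (T : ℕ → ℕ) (J : Finset ℕ) (K M m : ℕ) (x : ℤ) (y : ℕ) : ℝ≥0∞ :=
  ∑' s, ind (A.fpw (M - y) s ∧ A.NS wd T J K m x y s) * A.w s

lemma GG_le_one {T : ℕ → ℕ} {J : Finset ℕ} {K M m : ℕ} {x : ℤ} {y : ℕ} : A.GG wd T J K M m x y ≤ 1 := by
  unfold GG
  rw [← tsum_fpw (A := A) (M - y)]
  exact ENNReal.tsum_le_tsum fun s => mul_le_mul' (ind_mono fun h => h.1) le_rfl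

/-- One step of the chain. -/
theorem GG_step {T : ℕ → ℕ} {J : Finset ℕ} {K M m L : ℕ} (hL : L ≤ M) (x : ℤ) (y : ℕ) {X : Set (List A.B)}
    (hX : ∀ l ∈ X, m ∈ J ∧ ∀ r, A.slabO wd K (T m) x y (l ++ r)) :
    A.GG wd T J K M m x y ≤
      ∑' s, ind (A.fpw (L - y) s ∧ ¬ hasPre X s) * (A.w s * A.GG wd T J K M (m + 1) (x + A.x s) (y + A.h s)) := by
  unfold GG
  calc ∑' s, ind (A.fpw (M - y) s ∧ A.NS wd T J K m x y s) * A.w s
      = ∑' s, ind (A.fpw (M - y) s) * (ind (A.NS wd T J K m x y s) * A.w s) := by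
        refine tsum_congr fun s => ?_
        rw [ind_and, mul_assoc]
    _ = ∑' s, ind (A.fpw (L - y) s) * ∑' t, ind (A.fpw (M - y - A.h s) t) *
          (ind (A.NS wd T J K m x y (s ++ t)) * A.w (s ++ t)) := RunA_split (by omega) _
    _ ≤ _ := by
        refine ENNReal.tsum_le_tsum fun s => ?_
        rw [ind_and, mul_assoc]
        refine mul_le_mul' le_rfl ?_
        rw [← ENNReal.tsum_mul_left, ← ENNReal.tsum_mul_left]
        refine ENNReal.tsum_le_tsum fun t => ?_
        by_cases h : A.NS wd T J K m x y (s ++ t)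
        · have h1 : ¬ hasPre X s := by
            rintro ⟨l, hl, r, hr⟩
            obtain ⟨h2, h3⟩ := hX l hl
            refine h m h2 le_rfl ?_
            rw [hr, List.append_assoc]
            exact h3 (r ++ t)
          rw [ind_true h, ind_true h1, one_mul, one_mul, A.w_append, Nat.sub_sub]
          by_cases h4 : A.fpw (M - (y + A.h s)) t
          · rw [ind_true h4, ind_true ⟨h4, NS_append h⟩, one_mul, one_mul]
          · rw [ind_false h4, zero_mul]
            exact bot_le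
        · rw [ind_false h, zero_mul, mul_zero]
          exact bot_le

/-- The potential. -/
def pot (u b m : ℕ) (z : ℕ) : ℕ := Nat.size z + b + 4 - (b * m + u)

lemma size_add_le (a c : ℕ) : Nat.size (a + c) ≤ max (Nat.size a) (Nat.size c) + 1 := by
  rw [Nat.size_le, pow_succ]
  have h1 := Nat.lt_size_self a
  have h2 := Nat.lt_size_self c
  have h3 : 2 ^ Nat.size a ≤ 2 ^ max (Nat.size a) (Nat.size c) := Nat.pow_le_pow_right (by norm_num) (le_max_left _ _)
  have h4 : 2 ^ Nat.size c ≤ 2 ^ max (Nat.size a) (Nat.size c) := Nat.pow_le_pow_right (by norm_num) (le_max_right _ _)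
  omega

lemma pot_succ {u b m z z' d : ℕ} (hb : 1 ≤ b) (hz : z' ≤ z + d) :
    pot u b (m + 1) z' ≤ (pot u b m z + 1 - b) + (Nat.size d + 5 - (b * m + u)) := by
  have h1 := (Nat.size_le_size hz).trans (size_add_le z d)
  unfold pot
  rw [Nat.mul_succ]
  rcases le_total (Nat.size z) (Nat.size d) with h | h
  · rw [max_eq_right h] at h1; omega
  · rw [max_eq_left h] at h1; omega

lemma pot_small {u b m z : ℕ} (h : pot u b m z < b) : 16 * z ≤ 2 ^ (b * m + u) := by
  unfold pot at h
  have h1 := Nat.lt_size_self z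
  have h2 : 2 ^ (Nat.size z + 4) ≤ 2 ^ (b * m + u) := Nat.pow_le_pow_right (by norm_num) (by omega)
  rw [pow_add] at h2
  omega

/-- The induction. -/
theorem GG_rec (hdx : ∀ c, |A.dx c| ≤ wd c) {u b n M K : ℕ} (hb : 1 ≤ b) {q κ c : ℝ≥0∞} (hq : 1 ≤ q)
    (hM : 3 * 2 ^ (b * n + u) ≤ M) {J : Finset ℕ} (hJ : ∀ m ∈ J, m ≤ n)
    (hκ : ∀ m N, N ≤ 2 ^ (b * m + u + 2) →
      q * ∑' s, ind (A.fpw N s) * (A.w s * q ^ (Nat.size (A.siz wd s) + 5 - (b * m + u))) ≤ κ)
    (hκ2 : κ ≤ 2) (hqc : q ^ b ≤ 1 + c / 2)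
    (hF : ∀ m ∈ J, ∃ X : Set (List A.B), A.PF X ∧ (∀ l ∈ X, ∃ (l1 l2 : List A.B) (E : ℝ), l = l1 ++ l2 ∧
      16 * A.h l1 ≤ 17 * 2 ^ (b * m + u) ∧ 31 * 2 ^ (b * m + u) ≤ 16 * A.h l ∧ A.h l ≤ 2 * 2 ^ (b * m + u) ∧
      A.tub wd 0 E l2 ∧ ((K + 1 : ℕ) : ℝ) * (2 ^ (b * m + u) : ℕ) + E ≤ A.x l1) ∧ c ≤ ∑' l, ind (l ∈ X) * A.w l)
    (d m : ℕ) (hm : m + d = n + 1) (x : ℤ) (y : ℕ) :
    A.GG wd (fun k => 2 ^ (b * k + u)) J K M m x y * q ^ (b * (J.filter (fun k => m ≤ k)).card) ≤
      κ ^ d * q ^ pot u b m (x.natAbs + y) := by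
  induction d generalizing m x y with
  | zero =>
    have h1 : J.filter (fun k => m ≤ k) = ∅ := by
      rw [Finset.filter_eq_empty_iff]
      intro k hk
      have := hJ k hk
      omega
    rw [h1, Finset.card_empty, mul_zero, pow_zero, pow_zero, mul_one, one_mul]
    exact GG_le_one.trans (one_le_pow_of_one_le' hq _)
  | succ d ih =>
    have hmn : m ≤ n := by omega
    set T : ℕ → ℕ := fun k => 2 ^ (b * k + u) with hT
    have hTn : T m ≤ T n := Nat.pow_le_pow_right (by norm_num) (by nlinarith)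
    have hL : 3 * T m ≤ M := le_trans (Nat.mul_le_mul_left 3 hTn) hM
    set z : ℕ := x.natAbs + y with hz
    set a : ℕ := pot u b m z + 1 - b with ha
    set Y : List A.B → ℕ := fun s => Nat.size (A.siz wd s) + 5 - (b * m + u) with hY
    set n1 : ℕ := (J.filter (fun k => m + 1 ≤ k)).card with hn1
    have hκm : q * ∑' s, ind (A.fpw (3 * T m - y) s) * (A.w s * q ^ Y s) ≤ κ := by
      refine hκ m (3 * T m - y) ?_
      rw [pow_add]
      have : T m = 2 ^ (b * m + u) := rfl
      omega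
    -- the bound of the next term
    have hnext : ∀ s, A.GG wd T J K M (m + 1) (x + A.x s) (y + A.h s) * q ^ (b * n1) ≤ κ ^ d * (q ^ a * q ^ Y s) := by
      intro s
      refine (ih (m + 1) (by omega) (x + A.x s) (y + A.h s)).trans ?_
      rw [← pow_add]
      refine mul_le_mul' le_rfl (pow_le_pow_right' hq (pot_succ hb ?_))
      have h1 := x_h_le_siz hdx s
      have h2 := Int.natAbs_add_le x (A.x s)
      have h3 : ((A.x s).natAbs : ℤ) = |A.x s| := Int.natCast_natAbs _
      have h4 : (A.x s).natAbs + A.h s ≤ A.siz wd s := by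
        have : (((A.x s).natAbs + A.h s : ℕ) : ℤ) ≤ A.siz wd s := by rw [Nat.cast_add, h3]; exact h1
        exact_mod_cast this
      omega
    have hsum : ∀ p : List A.B → Prop,
        (∑' s, ind (A.fpw (3 * T m - y) s ∧ p s) *
          (A.w s * A.GG wd T J K M (m + 1) (x + A.x s) (y + A.h s))) * q ^ (b * n1) ≤
        κ ^ d * (q ^ a * ∑' s, ind (A.fpw (3 * T m - y) s ∧ p s) * (A.w s * q ^ Y s)) := by
      intro p
      rw [← ENNReal.tsum_mul_right, ← ENNReal.tsum_mul_left, ← ENNReal.tsum_mul_left]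
      refine ENNReal.tsum_le_tsum fun s => ?_
      calc ind (A.fpw (3 * T m - y) s ∧ p s) *
            (A.w s * A.GG wd T J K M (m + 1) (x + A.x s) (y + A.h s)) * q ^ (b * n1)
          = ind (A.fpw (3 * T m - y) s ∧ p s) * (A.w s *
              (A.GG wd T J K M (m + 1) (x + A.x s) (y + A.h s) * q ^ (b * n1))) := by ring
        _ ≤ ind (A.fpw (3 * T m - y) s ∧ p s) * (A.w s * (κ ^ d * (q ^ a * q ^ Y s))) :=
            mul_le_mul' le_rfl (mul_le_mul' le_rfl (hnext s))
        _ = _ := by ring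
    have hall : ∑' s, ind (A.fpw (3 * T m - y) s ∧ ¬ hasPre ∅ s) * (A.w s * q ^ Y s) ≤
        ∑' s, ind (A.fpw (3 * T m - y) s) * (A.w s * q ^ Y s) :=
      ENNReal.tsum_le_tsum fun s => mul_le_mul' (ind_mono fun h => h.1) le_rfl
    by_cases hmJ : m ∈ J
    · have hcard : (J.filter (fun k => m ≤ k)).card = n1 + 1 := by
        rw [hn1, show J.filter (fun k => m ≤ k) = insert m (J.filter (fun k => m + 1 ≤ k)) by
          ext k
          simp only [Finset.mem_filter, Finset.mem_insert]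
          constructor
          · rintro ⟨h1, h2⟩
            rcases Nat.eq_or_lt_of_le h2 with h3 | h3
            · exact Or.inl h3.symm
            · exact Or.inr ⟨h1, h3⟩
          · rintro (rfl | ⟨h1, h2⟩)
            · exact ⟨hmJ, le_rfl⟩
            · exact ⟨h1, by omega⟩, Finset.card_insert_of_notMem (by simp)]
      rw [hcard, Nat.mul_succ, pow_add]
      rcases Nat.lt_or_ge (pot u b m z) b with hsm | hbig
      · -- a slab is possible
        have ha0 : a = 0 := by omega
        obtain ⟨X, hX1, hX2, hX3⟩ := hF m hmJ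
        have h16 : 16 * z ≤ T m := pot_small hsm
        have hstep := GG_step (wd := wd) (T := T) (J := J) (K := K) (m := m) hL x y (X := X)
          (fun l hl => ⟨hmJ, fun r => slabO_flat h16 (hX2 l hl) r⟩)
        set P' : ℝ≥0∞ := ∑' s, ind (A.fpw (3 * T m - y) s ∧ ¬ hasPre X s) * (A.w s * q ^ Y s) with hP'
        have hmass : c ≤ ∑' s, ind (A.fpw (3 * T m - y) s ∧ hasPre X s) * A.w s := by
          refine hX3.trans (pref_mass hX1 fun l hl => ?_)
          obtain ⟨l1, l2, E, -, -, -, h4, -⟩ := hX2 l hl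
          have : T m = 2 ^ (b * m + u) := rfl
          omega
        have hP : P' + c ≤ κ := by
          refine le_trans ?_ hκm
          calc P' + c ≤ P' + ∑' s, ind (A.fpw (3 * T m - y) s ∧ hasPre X s) * A.w s := add_le_add le_rfl hmass
            _ ≤ P' + ∑' s, ind (A.fpw (3 * T m - y) s ∧ hasPre X s) * (A.w s * q ^ Y s) := by
                refine add_le_add le_rfl (ENNReal.tsum_le_tsum fun s => mul_le_mul' le_rfl ?_)
                calc A.w s = A.w s * 1 := (mul_one _).symm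
                  _ ≤ _ := mul_le_mul' le_rfl (one_le_pow_of_one_le' hq _)
            _ = ∑' s, ind (A.fpw (3 * T m - y) s) * (A.w s * q ^ Y s) := by
                rw [hP', ← ENNReal.tsum_add]
                refine tsum_congr fun s => ?_
                rw [ind_and, ind_and]
                by_cases h : hasPre X s
                · rw [ind_true h, ind_false (not_not.2 h)]; ring
                · rw [ind_false h, ind_true (p := ¬ hasPre X s) h]; ring
            _ = 1 * ∑' s, ind (A.fpw (3 * T m - y) s) * (A.w s * q ^ Y s) := (one_mul _).symm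
            _ ≤ _ := mul_le_mul' hq le_rfl
        have hP2 : q ^ b * P' ≤ κ := by
          calc q ^ b * P' ≤ (1 + c / 2) * P' := mul_le_mul' hqc le_rfl
            _ = P' + c / 2 * P' := by ring
            _ ≤ P' + c / 2 * 2 := add_le_add le_rfl (mul_le_mul' le_rfl ((le_self_add.trans hP).trans hκ2))
            _ = P' + c := by rw [ENNReal.div_mul_cancel (by norm_num) (by norm_num)]
            _ ≤ κ := hP
        calc A.GG wd T J K M m x y * (q ^ (b * n1) * q ^ b)
            ≤ (∑' s, ind (A.fpw (3 * T m - y) s ∧ ¬ hasPre X s) *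
                (A.w s * A.GG wd T J K M (m + 1) (x + A.x s) (y + A.h s))) * (q ^ (b * n1) * q ^ b) :=
              mul_le_mul' hstep le_rfl
          _ = ((∑' s, ind (A.fpw (3 * T m - y) s ∧ ¬ hasPre X s) *
                (A.w s * A.GG wd T J K M (m + 1) (x + A.x s) (y + A.h s))) * q ^ (b * n1)) * q ^ b := by ring
          _ ≤ (κ ^ d * (q ^ a * P')) * q ^ b := mul_le_mul' (hsum _) le_rfl
          _ = κ ^ d * (q ^ b * P') := by rw [ha0, pow_zero]; ring
          _ ≤ κ ^ d * κ := mul_le_mul' le_rfl hP2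
          _ = κ ^ (d + 1) * 1 := by rw [pow_succ, mul_one]
          _ ≤ _ := mul_le_mul' le_rfl (one_le_pow_of_one_le' hq _)
      · -- far from the origin
        have hstep := GG_step (wd := wd) (T := T) (J := J) (K := K) (m := m) hL x y (X := ∅)
          (fun l hl => absurd hl (Set.notMem_empty l))
        have hab : a + b = pot u b m z + 1 := by omega
        calc A.GG wd T J K M m x y * (q ^ (b * n1) * q ^ b)
            ≤ (∑' s, ind (A.fpw (3 * T m - y) s ∧ ¬ hasPre ∅ s) *
                (A.w s * A.GG wd T J K M (m + 1) (x + A.x s) (y + A.h s))) * (q ^ (b * n1) * q ^ b) :=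
              mul_le_mul' hstep le_rfl
          _ = ((∑' s, ind (A.fpw (3 * T m - y) s ∧ ¬ hasPre ∅ s) *
                (A.w s * A.GG wd T J K M (m + 1) (x + A.x s) (y + A.h s))) * q ^ (b * n1)) * q ^ b := by ring
          _ ≤ (κ ^ d * (q ^ a * ∑' s, ind (A.fpw (3 * T m - y) s) * (A.w s * q ^ Y s))) * q ^ b :=
              mul_le_mul' ((hsum _).trans (mul_le_mul' le_rfl (mul_le_mul' le_rfl hall))) le_rfl
          _ = κ ^ d * (q ^ (a + b) * ∑' s, ind (A.fpw (3 * T m - y) s) * (A.w s * q ^ Y s)) := by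
              rw [pow_add]; ring
          _ = κ ^ d * q ^ pot u b m z * (q * ∑' s, ind (A.fpw (3 * T m - y) s) * (A.w s * q ^ Y s)) := by
              rw [hab, pow_succ]; ring
          _ ≤ κ ^ d * q ^ pot u b m z * κ := mul_le_mul' le_rfl hκm
          _ = _ := by rw [pow_succ]; ring
    · have hcard : (J.filter (fun k => m ≤ k)).card = n1 := by
        rw [hn1]
        congr 1
        refine Finset.filter_congr fun k hk => ?_
        constructor
        · intro h
          rcases Nat.eq_or_lt_of_le h with h3 | h3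
          · exact absurd (h3 ▸ hk) hmJ
          · exact h3
        · intro h; omega
      rw [hcard]
      have hstep := GG_step (wd := wd) (T := T) (J := J) (K := K) (m := m) hL x y (X := ∅)
        (fun l hl => absurd hl (Set.notMem_empty l))
      calc A.GG wd T J K M m x y * q ^ (b * n1)
          ≤ (∑' s, ind (A.fpw (3 * T m - y) s ∧ ¬ hasPre ∅ s) *
              (A.w s * A.GG wd T J K M (m + 1) (x + A.x s) (y + A.h s))) * q ^ (b * n1) :=
            mul_le_mul' hstep le_rfl
        _ ≤ κ ^ d * (q ^ a * ∑' s, ind (A.fpw (3 * T m - y) s) * (A.w s * q ^ Y s)) :=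
            (hsum _).trans (mul_le_mul' le_rfl (mul_le_mul' le_rfl hall))
        _ = κ ^ d * q ^ a * (1 * ∑' s, ind (A.fpw (3 * T m - y) s) * (A.w s * q ^ Y s)) := by ring
        _ ≤ κ ^ d * q ^ a * κ := mul_le_mul' le_rfl ((mul_le_mul' hq le_rfl).trans hκm)
        _ = κ ^ (d + 1) * q ^ a := by rw [pow_succ]; ring
        _ ≤ _ := mul_le_mul' le_rfl (pow_le_pow_right' hq (by omega))

end Pool.Agent.HEP.Alph
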