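import Pool.Agent.BEX.CUp

/-!
Project PLY (polynomial bound), Lemma G, part (a): masses of wedge words. All statements are consequences of `tz_re`, `flux`,
`Gm_symm`, `low`, `Eg_le` (BEX/C*).
-/

namespace Pool.Agent.PLY.G

open Pool.Agent.Hhelper14.SAW Pool.Agent.HHP Pool.Agent.HEP Pool.Agent.BEX Pool.Agent.BEX.C
open scoped ENNReal

private lemma bd (l : List (ℤ × ℤ)) : ∃ n : ℕ, ∀ z ∈ l, F0 z ≤ 3 * (n : ℤ) + 1 ∧ F1 z ≤ 3 * n ∧ F5 z ≤ 3 * n := by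
  induction l with
  | nil => exact ⟨0, by simp⟩
  | cons x l ih =>
    obtain ⟨n, hn⟩ := ih
    refine ⟨n + (F0 x).toNat + (F1 x).toNat + (F5 x).toNat, ?_⟩
    have h0 := Int.self_le_toNat (F0 x)
    have h1 := Int.self_le_toNat (F1 x)
    have h5 := Int.self_le_toNat (F5 x)
    intro z hz
    push_cast
    rcases List.mem_cons.1 hz with rfl | hz
    · refine ⟨?_, ?_, ?_⟩ <;> omega
    · obtain ⟨a, b, c⟩ := hn z hz
      refine ⟨?_, ?_, ?_⟩ <;> omega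

private lemma tz_mono {T a b T' a' b' : ℕ} (h1 : T ≤ T') (h2 : a ≤ a') (h3 : b ≤ b') {W : List Bool}
    (h : Tz T a b W) : Tz T' a' b' W := by
  refine ⟨h.1, fun z hz => ?_⟩
  obtain ⟨h4, h5, h6, h7⟩ := h.2 z hz
  refine ⟨h4, ?_, ?_, ?_⟩ <;> omega

private lemma wg_ex {a : ℕ} (k : ℕ) {W : List Bool} : Wg a W ↔ ∃ n, Tz (n + k) a (n + k) W := by
  constructor
  · rintro ⟨⟨h1, h2⟩, h3⟩
    obtain ⟨n, hn⟩ := bd (V W)
    refine ⟨n, h1, fun z hz => ⟨h2 z hz, ?_, h3 z hz, ?_⟩⟩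
    · have := (hn z hz).1
      push_cast
      omega
    · have := (hn z hz).2.2
      push_cast
      omega
  · rintro ⟨n, h1, h2⟩
    exact ⟨⟨h1, fun z hz => (h2 z hz).1⟩, fun z hz => (h2 z hz).2.2.1⟩

private lemma f015 (z : ℤ × ℤ) : F0 z = F1 z + F5 z := by
  simp only [F0, F1, F5]
  ring

private lemma sn_le (T a b : ℕ) : sn * ms xE (fun W => Tz T a b W ∧ EB W) ≤ 1 := by
  rw [← tz_re T a b]
  exact le_add_self

private lemma cs_le1 (T a b : ℕ) : cs * ms xE (fun W => Tz T a b W ∧ F1 (E W) = 3 * a) ≤ 1 := by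
  rw [← tz_re T a b]
  refine le_trans ?_ le_self_add
  refine le_trans ?_ le_add_self
  exact mul_le_mul_right le_self_add _

private lemma cs_le5 (T a b : ℕ) : cs * ms xE (fun W => Tz T a b W ∧ F5 (E W) = 3 * b) ≤ 1 := by
  rw [← tz_re T a b]
  refine le_trans ?_ le_self_add
  refine le_trans ?_ le_add_self
  exact mul_le_mul_right le_add_self _

private lemma t0_le (T a b : ℕ) : ms xE (fun W => Tz T a b W ∧ F0 (E W) = 3 * T + 1) ≤ 1 := by
  rw [← tz_re T a b]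
  exact le_trans le_self_add le_self_add

/-- Exit through the other slanted side. -/
lemma refl_le (T a b : ℕ) : ms xE (fun W => Tz T a b W ∧ F5 (E W) = 3 * b) ≤ Eg b := by
  rw [← ms_not]
  refine ms_mono fun W h => ?_
  obtain ⟨⟨h1, h2⟩, h3⟩ := h
  have hE : F5 (E (W.map (! ·))) = F1 (E W) := by
    rw [E_not]
    simp only [sg, F1, F5]
    ring
  have hV : ∀ z ∈ V W, 0 ≤ F0 z ∧ F1 z ≤ 3 * b := by
    intro z hz
    have h4 := h2 (sg z) (by rw [V_not]; exact List.mem_map_of_mem hz)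
    refine ⟨?_, ?_⟩
    · rw [← F0_sg]
      exact h4.1
    · have h5 := h4.2.2.2
      have h6 : F5 (sg z) = F1 z := by
        simp only [sg, F1, F5]
        ring
      omega
  refine ⟨⟨⟨?_, fun z hz => (hV z hz).1⟩, fun z hz => (hV z hz).2⟩, ?_⟩
  · rw [V_not] at h1
    exact List.Nodup.of_map _ h1
  · rw [← hE]
    exact h3

/-- The wedge words which leave the triangle `F5 ≤ 3 b` before they reach the side. -/
theorem far_wedge (a b : ℕ) :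
    ms xE (fun W => Wg a W ∧ F1 (E W) = 3 * a ∧ ∃ z ∈ V W, 3 * (b : ℤ) < F5 z) ≤ Eg b := by
  have h : ms xE (fun W => Wg a W ∧ F1 (E W) = 3 * a ∧ ∃ z ∈ V W, 3 * (b : ℤ) < F5 z) =
      ms xE (fun W => ∃ n, Tz (n + (a + b)) a (n + (a + b)) W ∧ F1 (E W) = 3 * a ∧ ∃ z ∈ V W, 3 * (b : ℤ) < F5 z) :=
    ms_congr fun W => by
      rw [wg_ex (a + b)]
      simp
  rw [h, ms_sup xE (fun n W => Tz (n + (a + b)) a (n + (a + b)) W ∧ F1 (E W) = 3 * a ∧ ∃ z ∈ V W, 3 * (b : ℤ) < F5 z)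
    (fun n W h => ⟨tz_mono (by omega) le_rfl (by omega) h.1, h.2⟩)]
  refine iSup_le fun n => ?_
  have h1 := tz_re (a + b) a b
  have h2 := tz_re (n + (a + b)) a (n + (a + b))
  have h0 : ms xE (fun W => Tz (a + b) a b W ∧ F0 (E W) = 3 * ((a + b : ℕ) : ℤ) + 1) = 0 := by
    have h1 : ∀ W, (Tz (a + b) a b W ∧ F0 (E W) = 3 * ((a + b : ℕ) : ℤ) + 1) ↔ False := by
      intro W
      refine ⟨fun h1 => ?_, fun h => h.elim⟩
      have h2 := h1.1.2 _ (E_mem W)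
      have h3 := f015 (E W)
      have h4 := h1.2
      push_cast at h4
      omega
    rw [ms_congr h1]
    unfold ms
    have : IsEmpty {W : List Bool // False} := ⟨fun h => h.2⟩
    exact tsum_empty
  have h4 : ms xE (fun W => Tz (a + b) a b W ∧ EB W) ≤ ms xE (fun W => Tz (n + (a + b)) a (n + (a + b)) W ∧ EB W) :=
    ms_mono fun W h => ⟨tz_mono (by omega) le_rfl (by omega) h.1, h.2⟩
  have h5 : ms xE (fun W => Tz (a + b) a b W ∧ F1 (E W) = 3 * a) +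
      ms xE (fun W => Tz (n + (a + b)) a (n + (a + b)) W ∧ F1 (E W) = 3 * a ∧ ∃ z ∈ V W, 3 * (b : ℤ) < F5 z) ≤
      ms xE (fun W => Tz (n + (a + b)) a (n + (a + b)) W ∧ F1 (E W) = 3 * a) := by
    rw [ms_split xE (fun W => Tz (n + (a + b)) a (n + (a + b)) W ∧ F1 (E W) = 3 * a)
      (fun W => ∃ z ∈ V W, 3 * (b : ℤ) < F5 z), add_comm]
    refine add_le_add (ms_mono fun W h => ⟨⟨h.1, h.2.1⟩, h.2.2⟩) (ms_mono fun W h => ?_)
    refine ⟨⟨tz_mono (by omega) le_rfl (by omega) h.1, h.2⟩, ?_⟩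
    rintro ⟨z, hz, hz'⟩
    have := (h.1.2 z hz).2.2.2
    omega
  have h6 := refl_le (a + b) a b
  have f1 := cs_le1 (a + b) a b
  have fb := sn_le (a + b) a b
  rw [h0, zero_add] at h1
  generalize ms xE (fun W => Tz (a + b) a b W ∧ F1 (E W) = 3 * a) = A1 at *
  generalize ms xE (fun W => Tz (a + b) a b W ∧ F5 (E W) = 3 * b) = A5 at *
  generalize ms xE (fun W => Tz (a + b) a b W ∧ EB W) = Ab at *
  generalize ms xE (fun W => Tz (n + (a + b)) a (n + (a + b)) W ∧ F1 (E W) = 3 * a) = B1 at *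
  generalize ms xE (fun W => Tz (n + (a + b)) a (n + (a + b)) W ∧ EB W) = Bb at *
  generalize ms xE (fun W => Tz (n + (a + b)) a (n + (a + b)) W ∧ F5 (E W) = 3 * ((n + (a + b) : ℕ) : ℤ)) = B5 at *
  generalize ms xE (fun W => Tz (n + (a + b)) a (n + (a + b)) W ∧ F0 (E W) = 3 * ((n + (a + b) : ℕ) : ℤ) + 1) = B0 at *
  generalize ms xE (fun W => Tz (n + (a + b)) a (n + (a + b)) W ∧ F1 (E W) = 3 * a ∧ ∃ z ∈ V W, 3 * (b : ℤ) < F5 z) = X at *
  refine le_trans ?_ h6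
  have h8 : cs * A1 + sn * Ab ≠ ∞ := by
    refine ENNReal.add_ne_top.2 ⟨?_, ?_⟩
    · exact ne_top_of_le_ne_top ENNReal.one_ne_top f1
    · exact ne_top_of_le_ne_top ENNReal.one_ne_top fb
  have h7 : (cs * A1 + sn * Ab) + cs * X ≤ (cs * A1 + sn * Ab) + cs * A5 := by
    calc (cs * A1 + sn * Ab) + cs * X = cs * (A1 + X) + sn * Ab := by ring
      _ ≤ cs * B1 + sn * Bb := by gcongr
      _ ≤ B0 + cs * (B1 + B5) + sn * Bb := by
        gcongr
        exact le_trans (mul_le_mul_right le_self_add _) le_add_self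
      _ = 1 := h2
      _ = (cs * A1 + sn * Ab) + cs * A5 := by rw [← h1]; ring
  exact (ENNReal.mul_le_mul_iff_right cs_pos.ne' cs_top).1 ((ENNReal.add_le_add_iff_left h8).1 h7)

/-- Bridges which are wide on the side of `F1`. -/
theorem wide1 (k R : ℕ) : ms xE (fun W => Br k W ∧ ∃ z ∈ V W, 3 * (R : ℤ) < F1 z) ≤ cs * Eg R := by
  have key : ∀ W, (Br k W ∧ ∃ z ∈ V W, 3 * (R : ℤ) < F1 z) ↔
      ∃ n, Tz k (n + R) (n + R) W ∧ F0 (E W) = 3 * k + 1 ∧ ∃ z ∈ V W, 3 * (R : ℤ) < F1 z := by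
    intro W
    constructor
    · rintro ⟨⟨⟨h1, h2⟩, h3⟩, h4⟩
      obtain ⟨n, hn⟩ := bd (V W)
      refine ⟨n, ⟨h1, fun z hz => ⟨(h2 z hz).1, (h2 z hz).2, ?_, ?_⟩⟩, h3, h4⟩
      · have := (hn z hz).2.1
        push_cast
        omega
      · have := (hn z hz).2.2
        push_cast
        omega
    · rintro ⟨n, ⟨h1, h2⟩, h3, h4⟩
      exact ⟨⟨⟨h1, fun z hz => ⟨(h2 z hz).1, (h2 z hz).2.1⟩⟩, h3⟩, h4⟩
  rw [ms_congr key, ms_sup xE (fun n W => Tz k (n + R) (n + R) W ∧ F0 (E W) = 3 * k + 1 ∧ ∃ z ∈ V W, 3 * (R : ℤ) < F1 z)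
    (fun n W h => ⟨tz_mono le_rfl (by omega) (by omega) h.1, h.2⟩)]
  refine iSup_le fun n => ?_
  have h1 := tz_re k R (n + R)
  have h2 := tz_re k (n + R) (n + R)
  have h4 : ms xE (fun W => Tz k R (n + R) W ∧ EB W) ≤ ms xE (fun W => Tz k (n + R) (n + R) W ∧ EB W) :=
    ms_mono fun W h => ⟨tz_mono le_rfl (by omega) le_rfl h.1, h.2⟩
  have h5 : ms xE (fun W => Tz k R (n + R) W ∧ F5 (E W) = 3 * ((n + R : ℕ) : ℤ)) ≤
      ms xE (fun W => Tz k (n + R) (n + R) W ∧ F5 (E W) = 3 * ((n + R : ℕ) : ℤ)) :=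
    ms_mono fun W h => ⟨tz_mono le_rfl (by omega) le_rfl h.1, h.2⟩
  have h6 : ms xE (fun W => Tz k R (n + R) W ∧ F0 (E W) = 3 * k + 1) +
      ms xE (fun W => Tz k (n + R) (n + R) W ∧ F0 (E W) = 3 * k + 1 ∧ ∃ z ∈ V W, 3 * (R : ℤ) < F1 z) ≤
      ms xE (fun W => Tz k (n + R) (n + R) W ∧ F0 (E W) = 3 * k + 1) := by
    rw [ms_split xE (fun W => Tz k (n + R) (n + R) W ∧ F0 (E W) = 3 * k + 1)
      (fun W => ∃ z ∈ V W, 3 * (R : ℤ) < F1 z), add_comm]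
    refine add_le_add (ms_mono fun W h => ⟨⟨h.1, h.2.1⟩, h.2.2⟩) (ms_mono fun W h => ?_)
    refine ⟨⟨tz_mono le_rfl (by omega) le_rfl h.1, h.2⟩, ?_⟩
    rintro ⟨z, hz, hz'⟩
    have := (h.1.2 z hz).2.2.1
    omega
  have h7 : ms xE (fun W => Tz k R (n + R) W ∧ F1 (E W) = 3 * R) ≤ Eg R :=
    ms_mono fun W h => ⟨⟨⟨h.1.1, fun z hz => (h.1.2 z hz).1⟩, fun z hz => (h.1.2 z hz).2.2.1⟩, h.2⟩
  have f0 := t0_le k R (n + R)
  have f5 := cs_le5 k R (n + R)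
  have fb := sn_le k R (n + R)
  generalize ms xE (fun W => Tz k R (n + R) W ∧ F0 (E W) = 3 * k + 1) = A0 at *
  generalize ms xE (fun W => Tz k R (n + R) W ∧ F1 (E W) = 3 * R) = A1 at *
  generalize ms xE (fun W => Tz k R (n + R) W ∧ F5 (E W) = 3 * ((n + R : ℕ) : ℤ)) = A5 at *
  generalize ms xE (fun W => Tz k R (n + R) W ∧ EB W) = Ab at *
  generalize ms xE (fun W => Tz k (n + R) (n + R) W ∧ F0 (E W) = 3 * k + 1) = B0 at *
  generalize ms xE (fun W => Tz k (n + R) (n + R) W ∧ F1 (E W) = 3 * ((n + R : ℕ) : ℤ)) = B1 at *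
  generalize ms xE (fun W => Tz k (n + R) (n + R) W ∧ F5 (E W) = 3 * ((n + R : ℕ) : ℤ)) = B5 at *
  generalize ms xE (fun W => Tz k (n + R) (n + R) W ∧ EB W) = Bb at *
  generalize ms xE (fun W => Tz k (n + R) (n + R) W ∧ F0 (E W) = 3 * k + 1 ∧ ∃ z ∈ V W, 3 * (R : ℤ) < F1 z) = X at *
  refine le_trans ?_ (mul_le_mul_right h7 _)
  have h8 : A0 + cs * A5 + sn * Ab ≠ ∞ := by
    refine ENNReal.add_ne_top.2 ⟨ENNReal.add_ne_top.2 ⟨?_, ?_⟩, ?_⟩
    · exact ne_top_of_le_ne_top ENNReal.one_ne_top f0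
    · exact ne_top_of_le_ne_top ENNReal.one_ne_top f5
    · exact ne_top_of_le_ne_top ENNReal.one_ne_top fb
  refine (ENNReal.add_le_add_iff_left h8).1 ?_
  calc (A0 + cs * A5 + sn * Ab) + X = (A0 + X) + cs * A5 + sn * Ab := by ring
    _ ≤ B0 + cs * B5 + sn * Bb := by gcongr
    _ ≤ B0 + cs * (B1 + B5) + sn * Bb := by
      gcongr
      exact le_add_self
    _ = 1 := h2
    _ = (A0 + cs * A5 + sn * Ab) + cs * A1 := by rw [← h1]; ring

/-- Bridges which are wide on the side of `F5`. -/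
theorem wide5 (k R : ℕ) : ms xE (fun W => Br k W ∧ ∃ z ∈ V W, 3 * (R : ℤ) < F5 z) ≤ cs * Eg R := by
  rw [← ms_not]
  refine le_trans (ms_mono fun W h => ?_) (wide1 k R)
  obtain ⟨h1, z, hz, hz'⟩ := h
  have h2 := Br_not h1
  rw [List.map_map] at h2
  have h3 : W.map ((! ·) ∘ (! ·)) = W := by
    conv_rhs => rw [← List.map_id W]
    exact List.map_congr_left fun b _ => by simp
  rw [h3] at h2
  refine ⟨h2, ?_⟩
  rw [V_not] at hz
  obtain ⟨u, hu, rfl⟩ := List.mem_map.1 hz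
  refine ⟨u, hu, ?_⟩
  have h6 : F5 (sg u) = F1 u := by
    simp only [sg, F1, F5]
    ring
  omega

end Pool.Agent.PLY.G
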