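import Pool.Agent.PLY.G.Rv0

/-!
Project PLY (polynomial bound), Lemma G, part (a): the class of wedge words `PW r t B` (start at a distance `a`, `r ≤ a < 2 r` of the
apex, end on the side in a column `≥ t`, inside the triangle `F5 ≤ 3 B`) and its mass.
-/

namespace Pool.Agent.PLY.G

open Pool.Agent.Hhelper14.SAW Pool.Agent.HHP Pool.Agent.HEP Pool.Agent.BEX Pool.Agent.BEX.C
open scoped ENNReal

/-- Wedge words. -/
def PW (r t B : ℕ) (W : List Bool) : Prop :=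
  ∃ a : ℕ, r ≤ a ∧ a < 2 * r ∧ Wg a W ∧ F1 (E W) = 3 * a ∧ 3 * (t : ℤ) ≤ F0 (E W) ∧ ∀ z ∈ V W, F5 z ≤ 3 * (B : ℤ)

private def col (W : List Bool) : ℕ := (F0 (E W)).toNat / 3

private theorem col_iff {a : ℕ} {W : List Bool} (h : Wg a W ∧ F1 (E W) = 3 * a) (i : ℕ) :
    col W = i ↔ F0 (E W) = 3 * i := by
  have h0 : 0 ≤ F0 (E W) := h.1.1.2 _ (E_mem W)
  have h1 := res_std (E_mem W)
  have h2 : F0 (E W) % 3 = 0 := by
    rcases h1 with h1 | h1
    · exact h1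
    · exfalso
      have h3 := h.2
      simp only [F0, F1] at h1 h3
      omega
  unfold col
  omega

private theorem Gm_eq (a i : ℕ) :
    Gm a i = ms xE (fun W => (Wg a W ∧ F1 (E W) = 3 * a) ∧ col W = i) := by
  unfold Gm
  refine ms_congr fun W => ?_
  constructor
  · rintro ⟨h1, h2, h3⟩
    exact ⟨⟨h1, h2⟩, (col_iff ⟨h1, h2⟩ i).2 h3⟩
  · rintro ⟨h1, h2⟩
    exact ⟨h1.1, h1.2, (col_iff h1 i).1 h2⟩

private theorem near_le (d t : ℕ) :
    ms xE (fun W => Wg d W ∧ F1 (E W) = 3 * d ∧ F0 (E W) < 3 * (t : ℤ)) ≤ ∑ s ∈ Finset.range t, Gm d s := by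
  rw [ms_fiber xE _ col]
  have h1 : ∀ i : ℕ, i ∉ Finset.range t →
      ms xE (fun W => (Wg d W ∧ F1 (E W) = 3 * d ∧ F0 (E W) < 3 * (t : ℤ)) ∧ col W = i) = 0 := by
    intro i hi
    rw [Finset.mem_range] at hi
    have h2 : ∀ W, ((Wg d W ∧ F1 (E W) = 3 * d ∧ F0 (E W) < 3 * (t : ℤ)) ∧ col W = i) ↔ False := by
      intro W
      refine ⟨fun h => ?_, fun h => h.elim⟩
      have h3 := (col_iff ⟨h.1.1, h.1.2.1⟩ i).1 h.2
      have h4 := h.1.2.2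
      omega
    rw [ms_congr h2]
    unfold ms
    have : IsEmpty {W : List Bool // False} := ⟨fun h => h.2⟩
    exact tsum_empty
  rw [tsum_eq_sum h1]
  refine Finset.sum_le_sum fun i _ => ?_
  rw [Gm_eq]
  exact ms_mono fun W h => ⟨⟨h.1.1, h.1.2.1⟩, h.2⟩

private theorem far_le' (s r : ℕ) :
    ∑ d ∈ Finset.Ico r (2 * r), Gm s d ≤
      ms xE (fun W => Wg s W ∧ F1 (E W) = 3 * s ∧ 3 * (r : ℤ) ≤ F0 (E W)) := by
  rw [ms_fiber xE _ col]
  refine le_trans (Finset.sum_le_sum fun d hd => ?_)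
    (ENNReal.sum_le_tsum (f := fun i => ms xE (fun W => (Wg s W ∧ F1 (E W) = 3 * s ∧ 3 * (r : ℤ) ≤ F0 (E W)) ∧
      col W = i)) (Finset.Ico r (2 * r)))
  rw [Gm_eq]
  refine ms_mono fun W h => ⟨⟨h.1.1, h.1.2, ?_⟩, h.2⟩
  have h4 := (col_iff h.1 d).1 h.2
  have h5 := (Finset.mem_Ico.1 hd).1
  omega

/-- The wedge words which end near the apex. -/
theorem near_wedge (r t : ℕ) (hr : 1 ≤ r) :
    cs * ∑ a ∈ Finset.Ico r (2 * r), ms xE (fun W => Wg a W ∧ F1 (E W) = 3 * a ∧ F0 (E W) < 3 * (t : ℤ)) ≤ t * bn r := by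
  calc cs * ∑ a ∈ Finset.Ico r (2 * r), ms xE (fun W => Wg a W ∧ F1 (E W) = 3 * a ∧ F0 (E W) < 3 * (t : ℤ))
      ≤ cs * ∑ a ∈ Finset.Ico r (2 * r), ∑ s ∈ Finset.range t, Gm a s :=
        mul_le_mul_right (Finset.sum_le_sum fun a _ => near_le a t) _
    _ = ∑ s ∈ Finset.range t, cs * ∑ a ∈ Finset.Ico r (2 * r), Gm s a := by
        rw [Finset.sum_comm, Finset.mul_sum]
        refine Finset.sum_congr rfl fun s _ => ?_
        congr 1
        exact Finset.sum_congr rfl fun a _ => Gm_symm a s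
    _ ≤ ∑ s ∈ Finset.range t, bn r :=
        Finset.sum_le_sum fun s _ => (mul_le_mul_right (far_le' s r) _).trans (flux s r hr)
    _ = t * bn r := by rw [Finset.sum_const, Finset.card_range, nsmul_eq_mul]

/-- The mass of the class `PW`. -/
theorem PW_ge (r t B : ℕ) (hr : 1 ≤ r) (hB : 2 ≤ B) :
    (r : ℝ≥0∞) * bn (4 * r + 1) ≤ 2 * (cs * ms xE (PW r t B)) + 2 * (r * (3 * bn (B / 2)) + t * bn r) := by
  have hcard : (Finset.Ico r (2 * r)).card = r := by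
    rw [Nat.card_Ico]
    omega
  have h1 : (r : ℝ≥0∞) * bn (4 * r + 1) ≤ 2 * (cs * ∑ a ∈ Finset.Ico r (2 * r), Eg a) := by
    calc (r : ℝ≥0∞) * bn (4 * r + 1) ≤ ∑ a ∈ Finset.Ico r (2 * r), 2 * (cs * Eg a) := by
          rw [← nsmul_eq_mul]
          have := Finset.card_nsmul_le_sum (Finset.Ico r (2 * r)) (fun a => 2 * (cs * Eg a)) (bn (4 * r + 1))
            (fun a ha => ?_)
          · rwa [hcard] at this
          · have h3 := (Finset.mem_Ico.1 ha).2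
            exact (bn_anti (by omega : 2 * a + 1 ≤ 4 * r + 1)).trans (low a)
      _ = _ := by rw [← Finset.mul_sum, ← Finset.mul_sum]
  have h2 : ∀ a ∈ Finset.Ico r (2 * r), Eg a ≤ ms xE (fun W => PW r t B W ∧ F1 (E W) = 3 * a) +
      (Eg B + ms xE (fun W => Wg a W ∧ F1 (E W) = 3 * a ∧ F0 (E W) < 3 * (t : ℤ))) := by
    intro a ha
    obtain ⟨h3, h4⟩ := Finset.mem_Ico.1 ha
    have e1 : Eg a = ms xE (fun W => (Wg a W ∧ F1 (E W) = 3 * a) ∧ ∃ z ∈ V W, 3 * (B : ℤ) < F5 z) +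
        ms xE (fun W => (Wg a W ∧ F1 (E W) = 3 * a) ∧ ¬ ∃ z ∈ V W, 3 * (B : ℤ) < F5 z) := ms_split xE _ _
    have e2 : ms xE (fun W => (Wg a W ∧ F1 (E W) = 3 * a) ∧ ¬ ∃ z ∈ V W, 3 * (B : ℤ) < F5 z) ≤
        ms xE (fun W => PW r t B W ∧ F1 (E W) = 3 * a) +
        ms xE (fun W => Wg a W ∧ F1 (E W) = 3 * a ∧ F0 (E W) < 3 * (t : ℤ)) := by
      refine ms_or fun W h => ?_
      by_cases h5 : F0 (E W) < 3 * (t : ℤ)
      · exact Or.inr ⟨h.1.1, h.1.2, h5⟩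
      · left
        refine ⟨⟨a, h3, h4, h.1.1, h.1.2, by omega, fun z hz => ?_⟩, h.1.2⟩
        by_contra h6
        exact h.2 ⟨z, hz, by omega⟩
    have e3 : ms xE (fun W => (Wg a W ∧ F1 (E W) = 3 * a) ∧ ∃ z ∈ V W, 3 * (B : ℤ) < F5 z) ≤ Eg B := by
      refine le_trans (ms_mono fun W h => ?_) (far_wedge a B)
      exact ⟨h.1.1, h.1.2, h.2⟩
    rw [e1]
    calc _ ≤ Eg B + (ms xE (fun W => PW r t B W ∧ F1 (E W) = 3 * a) +
        ms xE (fun W => Wg a W ∧ F1 (E W) = 3 * a ∧ F0 (E W) < 3 * (t : ℤ))) := add_le_add e3 e2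
      _ = _ := by ring
  have h3 : ∑ a ∈ Finset.Ico r (2 * r), ms xE (fun W => PW r t B W ∧ F1 (E W) = 3 * a) ≤ ms xE (PW r t B) := by
    refine ms_disj _ (fun a _ W h => h.1) (fun a _ a' _ W h h' => ?_)
    have e1 := h.2
    have e2 := h'.2
    omega
  refine h1.trans ?_
  calc 2 * (cs * ∑ a ∈ Finset.Ico r (2 * r), Eg a)
      ≤ 2 * (cs * ∑ a ∈ Finset.Ico r (2 * r), (ms xE (fun W => PW r t B W ∧ F1 (E W) = 3 * a) +
        (Eg B + ms xE (fun W => Wg a W ∧ F1 (E W) = 3 * a ∧ F0 (E W) < 3 * (t : ℤ))))) := by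
        gcongr with a ha
        exact h2 a ha
    _ = 2 * (cs * ∑ a ∈ Finset.Ico r (2 * r), ms xE (fun W => PW r t B W ∧ F1 (E W) = 3 * a)) +
        2 * (r * (cs * Eg B) + cs * ∑ a ∈ Finset.Ico r (2 * r),
          ms xE (fun W => Wg a W ∧ F1 (E W) = 3 * a ∧ F0 (E W) < 3 * (t : ℤ))) := by
        rw [Finset.sum_add_distrib, Finset.sum_add_distrib, Finset.sum_const, hcard, nsmul_eq_mul]
        ring
    _ ≤ _ := add_le_add (mul_le_mul_right (mul_le_mul_right h3 _) _)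
        (mul_le_mul_right (add_le_add (mul_le_mul_right (Eg_le' B hB) _) (near_wedge r t hr)) _)

end Pool.Agent.PLY.G
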