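import Pool.Agent.PLY.G.Rv1
import Pool.Agent.HHP.Geo

/-!
Project PLY (polynomial bound), Lemma G, part (a): minimal wedge words.

A wedge word `P` ends on the side `F1 = 3 a` and is left by a step `(0, 1)` (turn `up P`). After it the walk is in the frame rotated by
60 degrees: the rest `Q` of `P ++ up P :: Q` has the vertices `E P + (0, 1) + L z`, `z ∈ V Q`, and `F0 (L z) = F5 z`, `F1 (L z) = F0 z`.
`PWm` = words of `PW` which are not (word of `PW`) + (bridge in the rotated frame).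
-/

namespace Pool.Agent.PLY.G

open Pool.Agent.Hhelper14.SAW Pool.Agent.HHP Pool.Agent.HEP Pool.Agent.BEX Pool.Agent.BEX.C
open scoped ENNReal

/-- The turn after which the direction is `(0, 1)`. -/
def up (W : List Bool) : Bool := decide (Dr W = (1, 0))

lemma tn_L (b : Bool) (d : ℤ × ℤ) : tn b (L d) = L (tn b d) := by
  obtain ⟨x, y⟩ := d
  cases b <;> simp [tn, L, R]

lemma L_add (p q : ℤ × ℤ) : L (p + q) = L p + L q := by
  obtain ⟨x, y⟩ := p
  obtain ⟨u, v⟩ := q
  simp only [L, Prod.mk_add_mk, Prod.mk.injEq]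
  constructor <;> ring

lemma vs_L (p d : ℤ × ℤ) (W : List Bool) : vs (L p) (L d) W = (vs p d W).map L := by
  induction W generalizing p d with
  | nil => simp [vs]
  | cons c W ih =>
    simp only [vs, List.map_cons]
    rw [← ih, L_add, tn_L]

lemma ep_L (p d : ℤ × ℤ) (W : List Bool) : ep (L p) (L d) W = L (ep p d W) := by
  induction W generalizing p d with
  | nil => simp [ep]
  | cons c W ih =>
    simp only [ep]
    rw [← ih, L_add, tn_L]

lemma ed_L (d : ℤ × ℤ) (W : List Bool) : ed (L d) W = L (ed d W) := by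
  induction W generalizing d with
  | nil => simp [ed]
  | cons c W ih =>
    simp only [ed]
    rw [← ih, tn_L]

lemma vs_up (a : ℤ × ℤ) (W : List Bool) : vs a (0, 1) W = (V W).map (fun z => a + L z) := by
  have h1 := vs_shift a (L (0, 0)) (L (1, 0)) W
  rw [vs_L] at h1
  have e : a + L (0, 0) = a := by simp [L]
  have e2 : L ((1, 0) : ℤ × ℤ) = (0, 1) := by simp [L]
  rw [e, e2, List.map_map] at h1
  exact h1

lemma ep_up (a : ℤ × ℤ) (W : List Bool) : ep a (0, 1) W = a + L (E W) := by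
  have h1 := ep_shift a (L (0, 0)) (L (1, 0)) W
  rw [ep_L] at h1
  have e : a + L (0, 0) = a := by simp [L]
  have e2 : L ((1, 0) : ℤ × ℤ) = (0, 1) := by simp [L]
  rw [e, e2] at h1
  exact h1

lemma ed_up (W : List Bool) : ed (0, 1) W = L (Dr W) := by
  have h1 := ed_L (1, 0) W
  have e2 : L ((1, 0) : ℤ × ℤ) = (0, 1) := by simp [L]
  rw [e2] at h1
  exact h1

/-- Turning into the rotated frame: the rest. -/
lemma app_up {P Q : List Bool} {b : Bool} (h : tn b (Dr P) = (0, 1)) :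
    V (P ++ b :: Q) = V P ++ (V Q).map (fun z => (E P + (0, 1)) + L z) ∧
      E (P ++ b :: Q) = (E P + (0, 1)) + L (E Q) ∧ Dr (P ++ b :: Q) = L (Dr Q) := by
  refine ⟨?_, ?_, ?_⟩
  · rw [V_append, h, vs_up]
  · rw [E_append, h, ep_up]
  · rw [Dr_append, h, ed_up]

lemma F1_add (a b : ℤ × ℤ) : F1 (a + b) = F1 a + F1 b := by
  simp only [F1, Prod.fst_add, Prod.snd_add]; ring

lemma F5_add (a b : ℤ × ℤ) : F5 (a + b) = F5 a + F5 b := by
  simp only [F5, Prod.fst_add, Prod.snd_add]; ring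

lemma F0_L (z : ℤ × ℤ) : F0 (L z) = F5 z := by
  simp only [F0, F5, L]; ring

lemma F1_L (z : ℤ × ℤ) : F1 (L z) = F0 z := by
  simp only [F0, F1, L]; ring

lemma L_inj {z w : ℤ × ℤ} (h : L z = L w) : z = w := by
  obtain ⟨x, y⟩ := z
  obtain ⟨u, v⟩ := w
  simp only [L, Prod.mk.injEq] at h
  ext <;> simp only <;> omega

lemma tn_up_of {a : ℕ} {W : List Bool} (h : Wg a W) (hE : F1 (E W) = 3 * a) : tn (up W) (Dr W) = (0, 1) := by
  have hg := gd_std W
  have h3 : F0 (E W) % 3 = 0 := by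
    rcases res_std (E_mem W) with h1 | h1
    · exact h1
    · exfalso
      simp only [F0, F1] at h1 hE
      omega
  have hd : Dr W = (1, 0) ∨ Dr W = (0, -1) ∨ Dr W = (-1, 1) := by
    rcases hg with ⟨-, h4⟩ | ⟨h4, -⟩
    · exact h4
    · omega
  rcases hd with hd | hd | hd
  · unfold up
    rw [hd]
    decide
  · exfalso
    rcases List.eq_nil_or_concat W with rfl | ⟨W', b, rfl⟩
    · simp [Dr_nil] at hd
    · rw [List.concat_eq_append] at *
      have e1 : V (W' ++ [b]) = V W' ++ [E W' + tn b (Dr W')] := by rw [V_append]; rfl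
      have e2 : E (W' ++ [b]) = E W' + tn b (Dr W') := by rw [E_append]; rfl
      have e3 : Dr (W' ++ [b]) = tn b (Dr W') := by rw [Dr_append]; rfl
      rw [e3] at hd
      rw [e2, hd, F1_add] at hE
      have h5 := h.2 (E W') (by rw [e1]; exact List.mem_append_left _ (E_mem W'))
      simp only [F1] at h5 hE
      omega
  · unfold up
    rw [hd]
    decide

lemma PW.tn_up {r t B : ℕ} {W : List Bool} (h : PW r t B W) : tn (up W) (Dr W) = (0, 1) := by
  obtain ⟨a, -, -, h1, h2, -⟩ := h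
  exact tn_up_of h1 h2

lemma up_append {P Q : List Bool} (h : tn (up P) (Dr P) = (0, 1)) : up (P ++ up P :: Q) = rt Q := by
  have h1 : up (P ++ up P :: Q) = decide (Dr (P ++ up P :: Q) = (1, 0)) := rfl
  have h2 : rt Q = decide (Dr Q = (1, -1)) := rfl
  rw [h1, h2, (app_up (Q := Q) h).2.2]
  generalize Dr Q = d
  obtain ⟨x, y⟩ := d
  simp only [L, Prod.mk.injEq, decide_eq_decide]
  omega

/-- Minimal wedge words. -/
def PWm (r t B : ℕ) (W : List Bool) : Prop :=
  PW r t B W ∧ ¬ ∃ P Q k, PW r t B P ∧ Br k Q ∧ W = P ++ up P :: Q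

theorem PW_cases {r t B : ℕ} : ∀ (n : ℕ) (W : List Bool), W.length = n → PW r t B W →
    PWm r t B W ∨ ∃ P Q k, PWm r t B P ∧ Br k Q ∧ W = P ++ up P :: Q := by
  intro n
  induction n using Nat.strong_induction_on with
  | _ n ih =>
    intro W hn hW
    by_cases h : PWm r t B W
    · exact Or.inl h
    · right
      have h1 : ∃ P Q k, PW r t B P ∧ Br k Q ∧ W = P ++ up P :: Q := by
        by_contra h2
        exact h ⟨hW, h2⟩
      obtain ⟨P, Q, k, hP, hQ, rfl⟩ := h1
      rcases ih P.length (by rw [← hn, List.length_append, List.length_cons]; omega) P rfl hP with h2 | h2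
      · exact ⟨P, Q, k, h2, hQ, rfl⟩
      · obtain ⟨P', Q', k', hP', hQ', rfl⟩ := h2
        rw [up_append hP'.1.tn_up]
        exact ⟨P', Q' ++ rt Q' :: Q, k' + 1 + k, hP', join_Br hQ' hQ, by simp⟩

/-- The mass of the minimal wedge words. -/
theorem PW_le_PWm (r t B : ℕ) :
    ms xE (PW r t B) ≤ ms xE (PWm r t B) * (1 + ∑ k ∈ Finset.range r, ms xE (Br k)) := by
  have h1 : ms xE (PW r t B) ≤ ms xE (PWm r t B) + ms xE (fun W => PW r t B W ∧ ∃ P Q k, PWm r t B P ∧ Br k Q ∧
      W = P ++ up P :: Q) := by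
    refine ms_or fun W hW => ?_
    rcases PW_cases _ W rfl hW with h | h
    · exact Or.inl h
    · exact Or.inr ⟨hW, h⟩
  have h2 : ms xE (fun W => PW r t B W ∧ ∃ P Q k, PWm r t B P ∧ Br k Q ∧ W = P ++ up P :: Q) ≤
      ms xE (PWm r t B) * ms xE (fun Q => ∃ k ∈ Finset.range r, Br k Q) := by
    refine ms_cat (fun P Q => P ++ up P :: Q) ?_ ?_
    · intro P Q
      rw [List.length_append, List.length_cons]
      omega
    · rintro W ⟨hW, P, Q, k, hP, hQ, rfl⟩
      refine ⟨P, Q, rfl, hP, ⟨k, ?_, hQ⟩⟩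
      obtain ⟨a, h3, h4, h5, h6, -⟩ := hW
      obtain ⟨a', h3', h4', h5', h6', -⟩ := hP.1
      rw [(app_up (Q := Q) hP.1.tn_up).2.1, F1_add, F1_add, F1_L, h6', hQ.2] at h6
      simp only [F1] at h6
      rw [Finset.mem_range]
      omega
  have h3 : ms xE (fun Q => ∃ k ∈ Finset.range r, Br k Q) ≤ ∑ k ∈ Finset.range r, ms xE (Br k) :=
    ms_union _ fun W hW => hW
  calc ms xE (PW r t B) ≤ ms xE (PWm r t B) + ms xE (PWm r t B) * ∑ k ∈ Finset.range r, ms xE (Br k) :=
        h1.trans (add_le_add le_rfl (h2.trans (mul_le_mul_right h3 _)))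
    _ = _ := by ring

/-- Uniqueness of the minimal wedge word. -/
theorem PWm_uniq {r t B : ℕ} {P P' Q Q' : List Bool} (hP : PWm r t B P) (hP' : PWm r t B P')
    (hQ : ∀ z ∈ V Q, 0 ≤ F0 z) (hQ' : ∀ z ∈ V Q', 0 ≤ F0 z) (h : P ++ up P :: Q = P' ++ up P' :: Q') : P = P' ∧ Q = Q' := by
  have key : ∀ {P P' Q Q' X : List Bool}, PWm r t B P → PWm r t B P' → (∀ z ∈ V Q', 0 ≤ F0 z) →
      P = P' ++ up P' :: X → Q' = X ++ up P :: Q → False := by
    intro P P' Q Q' X hP hP' hQ' h1 h2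
    obtain ⟨a, h3, h4, h5, h6, -⟩ := hP.1
    obtain ⟨a', h3', h4', h5', h6', -⟩ := hP'.1
    obtain ⟨e1, e2, e3⟩ := app_up (Q := X) hP'.1.tn_up
    have g1 : ∀ z ∈ V X, 0 ≤ F0 z := by
      intro z hz
      refine hQ' z ?_
      rw [h2, V_append]
      exact List.mem_append_left _ hz
    have g2 : ∀ z ∈ V X, F0 z ≤ 3 * (a : ℤ) - 3 * a' - 2 := by
      intro z hz
      have := h5.2 ((E P' + (0, 1)) + L z) (by
        rw [h1, e1]
        exact List.mem_append_right _ (List.mem_map_of_mem (f := fun z => (E P' + (0, 1)) + L z) hz))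
      rw [F1_add, F1_add, F1_L, h6'] at this
      simp only [F1] at this
      omega
    have g3 : F0 (E X) = 3 * (a : ℤ) - 3 * a' - 2 := by
      have := h6
      rw [h1, e2, F1_add, F1_add, F1_L, h6'] at this
      simp only [F1] at this
      omega
    have g4 : (V X).Nodup := by
      have := h5.1.1
      rw [h1, e1] at this
      exact List.Nodup.of_map _ (List.nodup_append.1 this).2.1
    have g5 := g1 _ (E_mem X)
    refine hP.2 ⟨P', X, a - a' - 1, hP'.1, ⟨⟨g4, fun z hz => ⟨g1 z hz, ?_⟩⟩, ?_⟩, h1⟩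
    · have := g2 z hz
      have e : ((a - a' - 1 : ℕ) : ℤ) = (a : ℤ) - a' - 1 := by omega
      rw [e]; omega
    · have e : ((a - a' - 1 : ℕ) : ℤ) = (a : ℤ) - a' - 1 := by omega
      rw [e]; omega
  rcases prefix_cases h with ⟨X, hX1, hX2⟩ | ⟨hX1, -, hX3⟩ | ⟨X, hX1, hX2⟩
  · exact (key hP hP' hQ' hX1 hX2).elim
  · exact ⟨hX1, hX3⟩
  · exact (key hP' hP hQ hX1 hX2).elim

end Pool.Agent.PLY.G
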