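import Pool.Agent.PLY.G.Rv2
import Pool.Agent.HEP.GJn

/-!
Project PLY (polynomial bound), Lemma G, part (a): the word `aw P T Q` = (wedge word `P`) + (bridge `jn T` in the frame rotated by 60 degrees) +
(mirror wedge word `Q` in the same frame; it leaves through the side which is horizontal in the real frame). If `jn T` rises enough and
never falls much (real level = `F5` in the rotated frame), `aw P T Q` is a bridge of the real frame (`aw_Br`), and the factorisation is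
unique (`aw_inj`).
-/

namespace Pool.Agent.PLY.G

open Pool.Agent.Hhelper14.SAW Pool.Agent.HHP Pool.Agent.HEP Pool.Agent.BEX Pool.Agent.BEX.C
open scoped ENNReal

/-- The next vertex after the bridge `jn T`. -/
def pt (T : List Blk) : ℤ × ℤ := E (jn T) + (1, 0)

/-- The composed word. -/
def aw (P : List Bool) (T : List Blk) (Q : List Bool) : List Bool := P ++ up P :: (jn T ++ rt (jn T) :: Q)

lemma F0_pt {T : List Blk} (hT : T ≠ []) : F0 (pt T) = 3 * hj T := by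
  have h1 := (jn_Br hT).2
  have h2 := hj_pos hT
  unfold pt
  rw [F0_add, h1]
  simp only [F0]
  omega

lemma snd_pt {T : List Blk} (hT : T ≠ []) : (pt T).2 = xj T := by
  unfold pt
  rw [Prod.snd_add, jn_E hT]
  simp

lemma F5_mod (z : ℤ × ℤ) : 2 * F5 z = F0 z - 3 * z.2 := by
  simp only [F0, F5]; ring

lemma F1_mod (z : ℤ × ℤ) : 2 * F1 z = F0 z + 3 * z.2 := by
  simp only [F0, F1]; ring

lemma F015 (z : ℤ × ℤ) : F0 z = F1 z + F5 z := by
  simp only [F0, F1, F5]; ring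

lemma F5_pt3 {T : List Blk} (hT : T ≠ []) : ∃ j : ℤ, F5 (pt T) = 3 * j := by
  have h1 := F0_pt hT
  refine ⟨F5 (pt T) / 3, ?_⟩
  have h2 : F5 (pt T) % 3 = 0 := by
    simp only [F0, F5] at *
    omega
  omega

lemma F1_sg (z : ℤ × ℤ) : F1 (sg z) = F5 z := by
  simp only [sg, F1, F5]; ring

lemma F5_sg (z : ℤ × ℤ) : F5 (sg z) = F1 z := by
  simp only [sg, F1, F5]; ring

/-- Vertices of the composed word. -/
lemma aw_V {P : List Bool} {T : List Blk} {Q : List Bool} (hP : tn (up P) (Dr P) = (0, 1)) (hT : T ≠ []) :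
    V (aw P T Q) = V P ++ ((V (jn T)).map (fun z => (E P + (0, 1)) + L z) ++
      (V Q).map (fun z => (E P + (0, 1)) + L (pt T + z))) ∧
      E (aw P T Q) = (E P + (0, 1)) + L (pt T + E Q) := by
  obtain ⟨e1, e2, e3⟩ := app_up (Q := jn T ++ rt (jn T) :: Q) hP
  obtain ⟨g1, g2, g3⟩ := app_right (Q := Q) (jn_Br hT).tn_rt
  unfold aw
  rw [e1, e2, g1, g2, List.map_append, List.map_map]
  exact ⟨rfl, rfl⟩

/-- The data of the mirror wedge word `Q`. -/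
lemma mir {r t B : ℕ} {Q : List Bool} (hQ : PW r t B (Q.map (! ·))) : ∃ b : ℕ, r ≤ b ∧ b < 2 * r ∧ (V Q).Nodup ∧
    (∀ z ∈ V Q, 0 ≤ F0 z ∧ F5 z ≤ 3 * b ∧ F1 z ≤ 3 * (B : ℤ)) ∧ F5 (E Q) = 3 * b ∧ 3 * (t : ℤ) ≤ F0 (E Q) := by
  obtain ⟨b, h1, h2, h3, h4, h5, h6⟩ := hQ
  refine ⟨b, h1, h2, ?_, ?_, ?_, ?_⟩
  · have := h3.1.1
    rw [V_not] at this
    exact List.Nodup.of_map _ this
  · intro z hz
    have g : sg z ∈ V (Q.map (! ·)) := by rw [V_not]; exact List.mem_map_of_mem hz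
    have g1 := h3.1.2 _ g
    have g2 := h3.2 _ g
    have g3 := h6 _ g
    rw [F0_sg] at g1
    rw [F1_sg] at g2
    rw [F5_sg] at g3
    exact ⟨g1, g2, g3⟩
  · rw [E_not, F1_sg] at h4
    exact h4
  · rw [E_not, F0_sg] at h5
    exact h5

/-- Assembly. -/
theorem aw_Br {r t B : ℕ} {w H : ℤ} {P : List Bool} {T : List Blk} {Q : List Bool} (hP : PW r t B P)
    (hQ : PW r t B (Q.map (! ·))) (hT : T ≠ []) (hw : w ≤ 3 * t) (hw' : w ≤ 3 * r)
    (hH : 6 * (r : ℤ) + 3 * B ≤ H) (h1 : ∀ z ∈ V (jn T), -w ≤ F5 z ∧ F5 z ≤ F5 (pt T) + w) (h2 : H ≤ F5 (pt T)) :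
    ∃ (N : ℕ) (a s b : ℕ) (σ : ℤ), Br N (aw P T Q) ∧ r ≤ a ∧ a < 2 * r ∧ r ≤ b ∧ b < 2 * r ∧ t ≤ s ∧ s ≤ 2 * r + B ∧
      3 * (N : ℤ) = 3 * s + F5 (pt T) + 3 * b ∧ 0 ≤ σ ∧ σ ≤ 6 * r + 3 * B ∧
      F1 (E (aw P T Q)) = 3 * a + 2 + 3 * hj T + σ := by
  obtain ⟨a, ha1, ha2, ha3, ha4, ha5, ha6⟩ := hP
  have htu := tn_up_of ha3 ha4
  obtain ⟨b, hb1, hb2, hb3, hb4, hb5, hb6⟩ := mir hQ
  obtain ⟨e1, e2⟩ := aw_V (Q := Q) htu hT
  have hs0 : 0 ≤ F0 (E P) := ha3.1.2 _ (E_mem P)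
  have hs3 : F0 (E P) % 3 = 0 := by
    rcases res_std (E_mem P) with h | h
    · exact h
    · exfalso
      simp only [F0, F1] at h ha4
      omega
  obtain ⟨j, hj'⟩ := F5_pt3 hT
  have hs5 := ha6 _ (E_mem P)
  have hs6 := F015 (E P)
  have hF0 := F0_pt hT
  have hhj := hj_pos hT
  have hbr := jn_Br hT
  have f00 : F0 (0, 1) = 1 := by simp [F0]
  have f11 : F1 (0, 1) = 2 := by simp [F1]
  -- the three parts
  have p1 : ∀ z ∈ V P, 0 ≤ F0 z ∧ F0 z ≤ 6 * (r : ℤ) + 3 * B ∧ F1 z ≤ 3 * a := by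
    intro z hz
    have g1 := ha3.1.2 z hz
    have g2 := ha3.2 z hz
    have g3 := ha6 z hz
    have g4 := F015 z
    refine ⟨g1, ?_, g2⟩
    omega
  have p2 : ∀ z ∈ V (jn T), 0 ≤ F0 ((E P + (0, 1)) + L z) ∧ F0 ((E P + (0, 1)) + L z) ≤ F0 (E P) + 1 + F5 (pt T) + 3 * b ∧
      F1 ((E P + (0, 1)) + L z) = 3 * a + 2 + F0 z ∧ 0 ≤ F0 z ∧ F0 z < 3 * hj T := by
    intro z hz
    have g1 := h1 z hz
    have g2 := hbr.1.2 z hz
    have g3 : ((hj T - 1 : ℕ) : ℤ) = hj T - 1 := by omega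
    rw [F0_add, F0_add, F0_L, F1_add, F1_add, F1_L, f00, f11, ha4]
    refine ⟨?_, ?_, rfl, g2.1, ?_⟩ <;> omega
  have p3 : ∀ z ∈ V Q, 0 ≤ F0 ((E P + (0, 1)) + L (pt T + z)) ∧
      F0 ((E P + (0, 1)) + L (pt T + z)) ≤ F0 (E P) + 1 + F5 (pt T) + 3 * b ∧
      F1 ((E P + (0, 1)) + L (pt T + z)) = 3 * a + 2 + 3 * hj T + F0 z ∧ 0 ≤ F0 z := by
    intro z hz
    have g1 := hb4 z hz
    have g2 := F015 z
    rw [F0_add, F0_add, F0_L, F1_add, F1_add, F1_L, f00, f11, ha4, F5_add, F0_add, hF0]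
    refine ⟨?_, ?_, by ring, g1.1⟩ <;> omega
  have hN0 : 0 ≤ F0 (E P) + F5 (pt T) + 3 * b := by omega
  obtain ⟨N, hN⟩ : ∃ N : ℕ, 3 * (N : ℤ) = F0 (E P) + F5 (pt T) + 3 * b :=
    ⟨((F0 (E P) + F5 (pt T) + 3 * b) / 3).toNat, by omega⟩
  obtain ⟨s, hs⟩ : ∃ s : ℕ, 3 * (s : ℤ) = F0 (E P) := ⟨(F0 (E P) / 3).toNat, by omega⟩
  have q := hb4 _ (E_mem Q)
  have q' := F015 (E Q)
  refine ⟨N, a, s, b, F0 (E Q), ⟨⟨?_, ?_⟩, ?_⟩, ha1, ha2, hb1, hb2, by omega, by omega, by omega, q.1, by omega, ?_⟩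
  · rw [e1, List.nodup_append]
    refine ⟨ha3.1.1, ?_, ?_⟩
    · rw [List.nodup_append]
      refine ⟨hbr.1.1.map (fun x y h => L_inj (by simpa using h)), hb3.map (fun x y h => ?_), ?_⟩
      · have := L_inj (add_left_cancel h)
        exact add_left_cancel this
      · intro x hx y hy hxy
        obtain ⟨z, hz, rfl⟩ := List.mem_map.1 hx
        obtain ⟨u, hu, rfl⟩ := List.mem_map.1 hy
        have g1 := p2 z hz
        have g2 := p3 u hu
        have g3 := congrArg F1 hxy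
        omega
    · intro x hx y hy hxy
      have g1 := p1 x hx
      rw [hxy] at g1
      rcases List.mem_append.1 hy with hy | hy
      · obtain ⟨z, hz, rfl⟩ := List.mem_map.1 hy
        have g2 := p2 z hz
        omega
      · obtain ⟨z, hz, rfl⟩ := List.mem_map.1 hy
        have g2 := p3 z hz
        omega
  · intro x hx
    rw [e1, List.mem_append, List.mem_append] at hx
    rcases hx with hx | hx | hx
    · have g1 := p1 x hx
      omega
    · obtain ⟨z, hz, rfl⟩ := List.mem_map.1 hx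
      have g2 := p2 z hz
      omega
    · obtain ⟨z, hz, rfl⟩ := List.mem_map.1 hx
      have g2 := p3 z hz
      omega
  · rw [e2, F0_add, F0_add, F0_L, F5_add, f00, hb5]
    omega
  · rw [e2, F1_add, F1_add, F1_L, F0_add, f11, ha4, hF0]
    ring

/-- Uniqueness of the factorisation. -/
theorem aw_inj {r t B : ℕ} {P P' : List Bool} {T T' : List Blk} {Q Q' : List Bool} (hP : PWm r t B P) (hP' : PWm r t B P')
    (hQ : ∀ z ∈ V Q, 0 ≤ F0 z) (hQ' : ∀ z ∈ V Q', 0 ≤ F0 z) (hn : (V Q).Nodup) (hn' : (V Q').Nodup) {X : Set (List Blk)}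
    (hX : ∀ l ∈ X, ∀ m, l ++ m ∈ X → m = []) (hT : T ≠ []) (hT' : T' ≠ []) (hTX : T ∈ X) (hTX' : T' ∈ X)
    (h : aw P T Q = aw P' T' Q') : P = P' ∧ T = T' ∧ Q = Q' := by
  have pos : ∀ {T : List Blk} {Q : List Bool}, T ≠ [] → (∀ z ∈ V Q, 0 ≤ F0 z) →
      ∀ z ∈ V (jn T ++ rt (jn T) :: Q), 0 ≤ F0 z := by
    intro T Q hT hQ z hz
    rw [(app_right (Q := Q) (jn_Br hT).tn_rt).1, List.mem_append] at hz
    rcases hz with hz | hz
    · exact ((jn_Br hT).1.2 z hz).1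
    · obtain ⟨u, hu, rfl⟩ := List.mem_map.1 hz
      have g1 := F0_pt hT
      unfold pt at g1
      rw [F0_add, g1]
      have := hQ u hu
      positivity
  obtain ⟨hPP, h2⟩ := PWm_uniq hP hP' (pos hT hQ) (pos hT' hQ') h
  refine ⟨hPP, ?_⟩
  have key : ∀ {T T' : List Blk} {Q' Y : List Bool} {c : List Bool}, T ≠ [] → T' ≠ [] → T ∈ X → T' ∈ X →
      (∀ z ∈ V Q', 0 ≤ F0 z) → (V Q').Nodup → jn T = jn T' ++ rt (jn T') :: Y → Q' = Y ++ rt (jn T) :: c → False := by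
    intro T T' Q' Y c hT hT' hTX hTX' hQ' hn' h3 h4
    obtain ⟨g1, g2, g3⟩ := app_right (Q := Y) (jn_Br hT').tn_rt
    have hb := jn_Br hT
    have hb' := jn_Br hT'
    have p1 := hj_pos hT
    have p2 := hj_pos hT'
    have f0 : F0 (1, 0) = 2 := by simp [F0]
    have e1 : ((hj T - 1 : ℕ) : ℤ) = hj T - 1 := by omega
    have e2 : ((hj T' - 1 : ℕ) : ℤ) = hj T' - 1 := by omega
    have hY0 : ∀ z ∈ V Y, 0 ≤ F0 z := by
      intro z hz
      refine hQ' z ?_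
      rw [h4, V_append]
      exact List.mem_append_left _ hz
    have hY1 : ∀ z ∈ V Y, F0 z ≤ 3 * (hj T : ℤ) - 3 * hj T' - 2 := by
      intro z hz
      have := hb.1.2 ((E (jn T') + (1, 0)) + z) (by
        rw [h3, g1]
        exact List.mem_append_right _ (List.mem_map_of_mem (f := fun z => (E (jn T') + (1, 0)) + z) hz))
      rw [F0_add, F0_add, hb'.2, f0] at this
      omega
    have hYE : F0 (E Y) = 3 * (hj T : ℤ) - 3 * hj T' - 2 := by
      have := hb.2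
      rw [h3, g2, F0_add, F0_add, hb'.2, f0] at this
      omega
    have hYn : (V Y).Nodup := by
      have := hb.1.1
      rw [h3, g1] at this
      exact List.Nodup.of_map _ (List.nodup_append.1 this).2.1
    have hYp := hY0 _ (E_mem Y)
    have hYB : Br (hj T - hj T' - 1) Y := by
      have e : ((hj T - hj T' - 1 : ℕ) : ℤ) = (hj T : ℤ) - hj T' - 1 := by omega
      refine ⟨⟨hYn, fun z hz => ⟨hY0 z hz, ?_⟩⟩, ?_⟩
      · have := hY1 z hz
        rw [e]; omega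
      · rw [e]; omega
    obtain ⟨l, hl, hlY, -⟩ := jn_surj hYB
    have h5 : jn T = jn (T' ++ l) := by rw [jn_append hT' hl, hlY, h3]
    have h6 : T = T' ++ l := jn_inj hT (by simp [hT']) h5
    exact hl (hX T' hTX' l (h6 ▸ hTX))
  rcases prefix_cases h2 with ⟨Y, hY1, hY2⟩ | ⟨hY1, -, hY3⟩ | ⟨Y, hY1, hY2⟩
  · exact (key hT hT' hTX hTX' hQ' hn' hY1 hY2).elim
  · exact ⟨jn_inj hT hT' hY1, hY3⟩
  · exact (key hT' hT hTX' hTX hQ hn hY1 hY2).elim

end Pool.Agent.PLY.G
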