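import Pool.Agent.PLY.G.Rv3

/-!
Project PLY (polynomial bound), Lemma G, part (a): mass of the composed words, and translation into words of blocks.
-/

namespace Pool.Agent.PLY.G

open Pool.Agent.Hhelper14.SAW Pool.Agent.HHP Pool.Agent.HEP Pool.Agent.BEX Pool.Agent.BEX.C
open scoped ENNReal

/-- A set of bridges, as a set of lists of blocks. -/
theorem ms_lists (R : List Bool → Prop) (hR : ∀ W, R W → ∃ N, Br N W) :
    ms xE R = ∑' l : List Blk, ind (l ≠ [] ∧ R (jn l)) * wj l := by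
  classical
  unfold ms
  let φ : {l : List Blk // l ≠ [] ∧ R (jn l)} → {W : List Bool // R W} := fun l => ⟨jn l.1, l.2.2⟩
  have hφ : Function.Bijective φ := by
    constructor
    · intro l l' h
      exact Subtype.ext (jn_inj l.2.1 l'.2.1 (congrArg Subtype.val h))
    · rintro ⟨W, hW⟩
      obtain ⟨N, hN⟩ := hR W hW
      obtain ⟨l, h1, h2, h3⟩ := jn_surj hN
      exact ⟨⟨l, h1, by rw [h2]; exact hW⟩, Subtype.ext h2⟩
  rw [← (Equiv.ofBijective φ hφ).tsum_eq]
  have h1 : ∀ l : {l : List Blk // l ≠ [] ∧ R (jn l)},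
      xE ^ (((Equiv.ofBijective φ hφ) l).1.length + 1) = wj l.1 := fun l => (jn_length l.2.1).symm
  rw [tsum_congr h1]
  refine (tsum_subtype {l : List Blk | l ≠ [] ∧ R (jn l)} wj).trans
    (tsum_congr fun l => ?_)
  by_cases h : l ≠ [] ∧ R (jn l)
  · rw [Set.indicator_of_mem (by exact h), ind_true h, one_mul]
  · rw [Set.indicator_of_notMem (by exact h), ind_false h, zero_mul]

/-- The mass of the composed words. -/
theorem aw_mass {r t B : ℕ} {X : Set (List Blk)} (hX : ∀ l ∈ X, ∀ m, l ++ m ∈ X → m = []) (hX0 : ∀ l ∈ X, l ≠ []) :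
    ms xE (PWm r t B) * (∑' l, ind (l ∈ X) * wj l) * ms xE (PW r t B) ≤
      ms xE (fun W => ∃ P T Q, PWm r t B P ∧ T ∈ X ∧ PW r t B (Q.map (! ·)) ∧ W = aw P T Q) := by
  classical
  have e1 : ms xE (PW r t B) = ms xE (fun Q => PW r t B (Q.map (! ·))) := (ms_not _ _).symm
  have e2 : (∑' l, ind (l ∈ X) * wj l) = ∑' l : X, wj l.1 := by
    refine ((tsum_subtype X wj).trans (tsum_congr fun l => ?_)).symm
    by_cases h : l ∈ X
    · rw [Set.indicator_of_mem h, ind_true h, one_mul]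
    · rw [Set.indicator_of_notMem h, ind_false h, zero_mul]
  rw [e1, e2]
  unfold ms
  rw [mul_assoc, ← ENNReal.tsum_mul_right]
  simp_rw [← ENNReal.tsum_mul_left, ← ENNReal.tsum_mul_right]
  have e3 : ∀ (P : {W : List Bool // PWm r t B W}) (Q : {W : List Bool // PW r t B (W.map (! ·))}) (T : X),
      xE ^ (P.1.length + 1) * (wj T.1 * xE ^ (Q.1.length + 1)) = xE ^ ((aw P.1 T.1 Q.1).length + 1) := by
    intro P Q T
    rw [jn_length (hX0 T.1 T.2), ← pow_add, ← pow_add]
    congr 1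
    unfold aw
    simp only [List.length_append, List.length_cons]
    omega
  simp_rw [ENNReal.tsum_mul_left, ← ENNReal.tsum_mul_left]
  have e4 : (∑' (P : {W : List Bool // PWm r t B W}) (Q : {W : List Bool // PW r t B (W.map (! ·))}) (T : X),
      xE ^ (P.1.length + 1) * (wj T.1 * xE ^ (Q.1.length + 1))) =
      ∑' p : {W : List Bool // PWm r t B W} × ({W : List Bool // PW r t B (W.map (! ·))} × X),
        xE ^ ((aw p.1.1 p.2.2.1 p.2.1.1).length + 1) := by
    rw [ENNReal.tsum_prod']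
    refine tsum_congr fun P => ?_
    rw [ENNReal.tsum_prod']
    exact tsum_congr fun Q => tsum_congr fun T => e3 P Q T
  refine le_trans (le_of_eq ?_) ((le_of_eq e4).trans ?_)
  · refine tsum_congr fun P => ?_
    rw [ENNReal.tsum_comm]
  · let f : {W : List Bool // PWm r t B W} × ({W : List Bool // PW r t B (W.map (! ·))} × X) →
        {W : List Bool // ∃ P T Q, PWm r t B P ∧ T ∈ X ∧ PW r t B (Q.map (! ·)) ∧ W = aw P T Q} := fun p =>
      ⟨aw p.1.1 p.2.2.1 p.2.1.1, p.1.1, p.2.2.1, p.2.1.1, p.1.2, p.2.2.2, p.2.1.2, rfl⟩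
    have hf : Function.Injective f := by
      rintro ⟨P, Q, T⟩ ⟨P', Q', T'⟩ h
      have h1 : aw P.1 T.1 Q.1 = aw P'.1 T'.1 Q'.1 := congrArg Subtype.val h
      obtain ⟨b, -, -, g1, g2, -⟩ := mir Q.2
      obtain ⟨b', -, -, g1', g2', -⟩ := mir Q'.2
      obtain ⟨h2, h3, h4⟩ := aw_inj P.2 P'.2 (fun z hz => (g2 z hz).1) (fun z hz => (g2' z hz).1) g1 g1' hX
        (hX0 _ T.2) (hX0 _ T'.2) T.2 T'.2 h1
      have a1 : P = P' := Subtype.ext h2
      have a2 : T = T' := Subtype.ext h3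
      have a3 : Q = Q' := Subtype.ext h4
      rw [a1, a2, a3]
    exact ENNReal.tsum_comp_le_tsum_of_injective hf _

end Pool.Agent.PLY.G
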