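import Pool.Agent.PLY.G.StTube

/-!
Project PLY (MP_8c6f77_pr, honeycomb lattice, polynomial bound), LEMMA G, STEERING: tubes of every slope give `FlatP K` for every `K`.

PROOF. Follow the line of slope `K + 2` up to the height `t` (tube of width `t / 16`, height at most `17 t / 16`), then the line of slope
`0` up to the height `31 t / 16` (height at most `2 t`).
-/

namespace Pool.Agent.HEP

open scoped ENNReal

namespace Alph

variable {A : Alph} {wd : A.B → ℕ}

/-- From a tube of slope `κ` to a box. -/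
lemma tub_zero {κ E M : ℝ} {l : List A.B} (h : A.tub wd κ E l) (hM : (A.h l : ℝ) ≤ M) :
    A.tub wd 0 (E + |κ| * M) l := by
  intro l1 c l2 e
  have h1 := h l1 c l2 e
  simp only [zero_mul, sub_zero, abs_zero, add_zero]
  have h2 : (A.h l1 : ℝ) ≤ M := by
    refine le_trans ?_ hM
    rw [e, A.h_append]
    push_cast
    have : (0 : ℝ) ≤ A.h (c :: l2) := Nat.cast_nonneg _
    linarith
  have h3 : |(A.x l1 : ℝ)| ≤ |(A.x l1 : ℝ) - κ * A.h l1| + |κ| * A.h l1 := by
    have := abs_add_le ((A.x l1 : ℝ) - κ * A.h l1) (κ * A.h l1)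
    rw [sub_add_cancel, abs_mul κ, Nat.abs_cast] at this
    exact this
  have h4 : |κ| * (A.h l1 : ℝ) ≤ |κ| * M := mul_le_mul_of_nonneg_left h2 (abs_nonneg κ)
  have h5 : 0 ≤ |κ| * (A.ht c : ℝ) := by positivity
  linarith

/-- Tubes of every slope give flat slabs. -/
theorem Tube.flatP (hdx : ∀ c, |A.dx c| ≤ wd c) (K : ℕ) (h1 : A.Tube wd ((K : ℝ) + 2)) (h0 : A.Tube wd 0) :
    A.FlatP wd K := by
  classical
  obtain ⟨c1, n1, hc1, h1⟩ := h1 (1 / 16) (by norm_num)
  obtain ⟨c2, n2, hc2, h2⟩ := h0 (1 / 32) (by norm_num)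
  choose! Y hY1 hY2 hY3 using h2
  refine ⟨c1 * c2, 2 * K + 6, n1 + 2 * n2 + 32, ENNReal.mul_pos hc1.ne' hc2.ne', fun t ht => ?_⟩
  obtain ⟨X, hX1, hX2, hX3⟩ := h1 t (by omega)
  have ht32 : (32 : ℝ) ≤ t := by exact_mod_cast (by omega : 32 ≤ t)
  have hK : (0 : ℝ) ≤ K := Nat.cast_nonneg K
  -- heights of the first part
  have hh : ∀ s ∈ X, t ≤ A.h s ∧ 16 * A.h s ≤ 17 * t := by
    intro s hs
    obtain ⟨a, b, -⟩ := hX2 s hs
    refine ⟨a, ?_⟩
    have : (16 : ℝ) * A.h s ≤ 17 * t := by linarith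
    exact_mod_cast this
  have hn2 : ∀ s ∈ X, n2 ≤ (31 * t + 15) / 16 - A.h s := by
    intro s hs
    obtain ⟨a, b⟩ := hh s hs
    omega
  refine ⟨{k | ∃ s l, k = s ++ l ∧ s ∈ X ∧ l ∈ Y ((31 * t + 15) / 16 - A.h s)},
    hX1.bind fun s hs => hY1 _ (hn2 s hs), ?_, ?_⟩
  · rintro k ⟨s, l, rfl, hs, hl⟩
    obtain ⟨a, b⟩ := hh s hs
    obtain ⟨-, -, ht1⟩ := hX2 s hs
    obtain ⟨q1, q2, q3⟩ := hY2 _ (hn2 s hs) l hl
    have hN : (31 * t + 15) / 16 - A.h s ≤ t := by omega
    have hNr : (((31 * t + 15) / 16 - A.h s : ℕ) : ℝ) ≤ t := by exact_mod_cast hN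
    have e1 := tub_end (by positivity) hdx ht1
    have e2 : (A.h s : ℝ) ≤ 17 / 16 * t := by
      have : (16 : ℝ) * A.h s ≤ 17 * t := by exact_mod_cast b
      linarith
    have e3 : (t : ℝ) ≤ A.h s := by exact_mod_cast a
    have hkap : |(K : ℝ) + 2| = K + 2 := abs_of_nonneg (by linarith)
    rw [abs_le] at e1
    refine ⟨s, l, t, rfl, b, ?_, ?_, ?_, ?_, ?_⟩
    · rw [A.h_append]; omega
    · -- height at most `2 t`
      rw [A.h_append]
      have q4 : (A.h l : ℝ) ≤ (((31 * t + 15) / 16 - A.h s : ℕ) : ℝ) + 1 / 32 * t := by linarith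
      have q5 : ((((31 * t + 15) / 16 - A.h s : ℕ) : ℝ)) + A.h s ≤ (31 * t + 15) / 16 := by
        have : (31 * t + 15) / 16 - A.h s + A.h s = (31 * t + 15) / 16 := by omega
        have h5 : (((31 * t + 15) / 16 - A.h s : ℕ) : ℝ) + A.h s = (((31 * t + 15) / 16 : ℕ) : ℝ) := by
          exact_mod_cast this
        rw [h5]
        have h6 : (((31 * t + 15) / 16 : ℕ) : ℝ) ≤ ((31 * t + 15 : ℕ) : ℝ) / ((16 : ℕ) : ℝ) := Nat.cast_div_le
        push_cast at h6
        exact h6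
      have q6 : ((A.h s + A.h l : ℕ) : ℝ) ≤ ((2 * t : ℕ) : ℝ) := by
        push_cast
        linarith
      exact_mod_cast q6
    · -- the box
      have t1 := tub_zero ht1 e2
      have t2 : A.tub wd 0 t l := tub_mono q3 (by linarith)
      refine tub_append (tub_mono t1 ?_) t2 ?_
      · rw [hkap]
        push_cast
        nlinarith
      · simp only [zero_mul, sub_zero]
        push_cast
        have e4 : |(A.x s : ℝ)| ≤ 1 / 16 * t + (K + 2) * (17 / 16 * t) := by
          rw [abs_le]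
          have e5 : ((K : ℝ) + 2) * A.h s ≤ (K + 2) * (17 / 16 * t) :=
            mul_le_mul_of_nonneg_left e2 (by linarith)
          have e6 : 0 ≤ ((K : ℝ) + 2) * A.h s := by positivity
          constructor
          · nlinarith [e1.1]
          · linarith [e1.2]
        nlinarith
    · exact tub_mono q3 (by linarith)
    · have e5 : ((K : ℝ) + 2) * t ≤ (K + 2) * A.h s := mul_le_mul_of_nonneg_left e3 (by linarith)
      nlinarith [e1.1]
  · exact hX1.bind_mass (fun s => Y ((31 * t + 15) / 16 - A.h s)) hX3 fun s hs => hY3 _ (hn2 s hs)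

/-- The loop: a reversal theorem and one vertical tube give tubes of every slope. -/
theorem Tube.all (hA : Antitone A.b) (hdx : ∀ c, |A.dx c| ≤ wd c) (hrf : ∀ c, wd (A.rf c) = wd c)
    (h0 : A.Tube wd 0)
    (hrev : ∀ κ κ₁ : ℝ, 0 ≤ κ → κ < 1 → κ₁ < (3 + κ) / (1 - κ) → A.Tube wd κ → A.Slope wd κ₁) (κ : ℝ) :
    A.Tube wd κ := by
  -- slopes smaller than 1
  have h1 : ∀ κ : ℝ, |κ| < 1 → A.Tube wd κ := fun κ hκ =>
    (hrev 0 1 le_rfl (by norm_num) (by norm_num) h0).tube hA hdx hrf hκ.le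
  -- all slopes
  obtain ⟨m, hm⟩ := exists_nat_gt (max 1 |κ|)
  have hm1 : (1 : ℝ) < m := (le_max_left _ _).trans_lt hm
  have hmκ : |κ| ≤ m := ((le_max_right _ _).trans_lt hm).le
  have hm0 : (0 : ℝ) < m := by linarith
  have h2 : A.Slope wd m := by
    refine hrev (1 - 1 / m) m ?_ ?_ ?_ (h1 _ ?_)
    · have : 1 / (m : ℝ) ≤ 1 := by rw [div_le_one hm0]; exact hm1.le
      linarith
    · have : 0 < 1 / (m : ℝ) := by positivity
      linarith
    · rw [lt_div_iff₀ (by have : 0 < 1 / (m : ℝ) := by positivity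
                          linarith)]
      have h3 : (m : ℝ) * (1 - (1 - 1 / m)) = 1 := by field_simp; ring
      rw [h3]
      have : 1 / (m : ℝ) < 1 := by rw [div_lt_one hm0]; exact hm1
      linarith
    · have h3 : 1 / (m : ℝ) < 1 := by rw [div_lt_one hm0]; exact hm1
      have h4 : 0 < 1 / (m : ℝ) := by positivity
      rw [abs_of_pos (by linarith)]
      linarith
  exact h2.tube hA hdx hrf hmκ

end Alph

end Pool.Agent.HEP
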